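import Pool.Agent.Lib_helper73.Var.Char

/-! The large sieve for primitive characters to general moduli -/

set_option autoImplicit false

namespace Pool.Agent.Var73

open Finset Complex Pool.Agent.Var35 DirichletCharacter
open scoped ArithmeticFunction ArithmeticFunction.Moebius

open scoped Classical in
/-- primitive characters modulo `d` -/
noncomputable def Pr (d : ℕ) : Finset (DirichletCharacter ℂ d) := univ.filter (fun ψ => ψ.IsPrimitive)

lemma mem_Pr {d : ℕ} (ψ : DirichletCharacter ℂ d) : ψ ∈ Pr d ↔ ψ.IsPrimitive := by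
  simp [Pr]

lemma inv_primitive {d : ℕ} {ψ : DirichletCharacter ℂ d} (h : ψ.IsPrimitive) : ψ⁻¹.IsPrimitive := by
  rw [isPrimitive_def, conductor_inv]; exact h

/-- reduced residues -/
def Cd (d : ℕ) : Finset ℕ := (range d).filter (fun a => Nat.Coprime a d)

lemma card_Cd (d : ℕ) : (Cd d).card = Nat.totient d := by
  rw [Nat.totient_eq_card_coprime]
  congr 1
  unfold Cd
  refine filter_congr fun a _ => ?_
  rw [Nat.coprime_comm]

open scoped Classical in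
lemma sum_unit_Cd {d : ℕ} [NeZero d] (f : ZMod d → ℝ) :
    ∑ c ∈ univ.filter (fun a : ZMod d => IsUnit a), f c = ∑ c ∈ Cd d, f (c : ZMod d) := by
  symm
  refine Finset.sum_nbij' (fun c => (c : ZMod d)) (fun x => x.val) ?_ ?_ ?_ ?_ ?_
  · intro c hc
    simp only [Cd, mem_filter, mem_range] at hc
    simp only [mem_filter, mem_univ, true_and]
    exact (ZMod.isUnit_iff_coprime c d).mpr hc.2
  · intro x hx
    simp only [mem_filter, mem_univ, true_and] at hx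
    simp only [Cd, mem_filter, mem_range]
    refine ⟨ZMod.val_lt x, ?_⟩
    rw [← ZMod.isUnit_iff_coprime, ZMod.natCast_zmod_val]
    exact hx
  · intro c hc
    simp only [Cd, mem_filter, mem_range] at hc
    exact ZMod.val_cast_of_lt hc.1
  · intro x _; exact ZMod.natCast_zmod_val x
  · intro c _; rfl

lemma prim_single {d : ℕ} [NeZero d] (I : Finset ℕ) (a : ℕ → ℂ) :
    (d:ℝ) * ∑ ψ ∈ Pr d, ‖∑ m ∈ I, a m * ψ (m : ZMod d)‖ ^ 2
      ≤ (Nat.totient d : ℝ) * ∑ c ∈ Cd d, ‖∑ m ∈ I, a m * e (m * ((c:ℝ) / d))‖ ^ 2 := by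
  classical
  set T : ZMod d → ℂ := fun c => ∑ m ∈ I, a m * ZMod.stdAddChar (N := d) ((m : ZMod d) * c) with hT
  have h1 : ∀ ψ ∈ Pr d, (d:ℝ) * ‖∑ m ∈ I, a m * ψ (m : ZMod d)‖ ^ 2 = ‖∑ c : ZMod d, ψ⁻¹ c * T c‖ ^ 2 := by
    intro ψ hψ
    rw [mem_Pr] at hψ
    have hψi := inv_primitive hψ
    have h2 : ∑ c : ZMod d, ψ⁻¹ c * T c
        = (∑ m ∈ I, a m * ψ (m : ZMod d)) * gaussSum ψ⁻¹ (ZMod.stdAddChar (N := d)) := by
      simp only [hT, mul_sum]
      rw [sum_comm, sum_mul]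
      refine sum_congr rfl fun m _ => ?_
      have h3 := gauss_shift_eq ψ⁻¹ hψi (m : ZMod d)
      rw [inv_inv] at h3
      rw [mul_assoc, ← h3, mul_sum]
      refine sum_congr rfl fun c _ => by ring
    rw [h2, norm_mul, mul_pow, gauss_norm_prim ψ⁻¹ hψi, mul_comm]
  rw [mul_sum, sum_congr rfl h1]
  have h4 : ∑ ψ ∈ Pr d, ‖∑ c : ZMod d, ψ⁻¹ c * T c‖ ^ 2
      ≤ ∑ χ : DirichletCharacter ℂ d, ‖∑ c : ZMod d, χ⁻¹ c * T c‖ ^ 2 :=
    sum_le_sum_of_subset_of_nonneg (subset_univ _) fun _ _ _ => by positivity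
  refine h4.trans ?_
  have h5 : ∑ χ : DirichletCharacter ℂ d, ‖∑ c : ZMod d, χ⁻¹ c * T c‖ ^ 2
      = ∑ χ : DirichletCharacter ℂ d, ‖∑ c : ZMod d, χ c * T c‖ ^ 2 :=
    Fintype.sum_bijective (fun χ : DirichletCharacter ℂ d => χ⁻¹) (inv_involutive.bijective) _ _ (fun χ => rfl)
  rw [h5, orthr, sum_unit_Cd]
  refine le_of_eq ?_
  congr 1
  refine sum_congr rfl fun c _ => ?_
  congr 2
  simp only [hT]
  refine sum_congr rfl fun m _ => ?_
  congr 1
  have := std_eq_nat d (m * c)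
  push_cast at this
  rw [this]
  congr 1; ring

lemma farey_sep_gen (DD : Finset ℕ) (D : ℕ) (hD : ∀ d ∈ DD, 1 ≤ d ∧ d ≤ D) (hD1 : 1 ≤ D) :
    Sep (DD.sigma (fun d => Cd d)) (fun x : (Σ _ : ℕ, ℕ) => (x.2:ℝ) / x.1) (1 / (D:ℝ) ^ 2) := by
  rintro ⟨p, a⟩ h1 ⟨p', a'⟩ h2 hne n
  rw [mem_sigma] at h1 h2
  simp only [Cd, mem_filter, mem_range] at h1 h2
  obtain ⟨hp, ha1, ha2⟩ := h1
  obtain ⟨hp', ha1', ha2'⟩ := h2
  have hpp := (hD p hp).1
  have hpp' := (hD p' hp').1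
  have hp0 : (0:ℝ) < p := by exact_mod_cast hpp
  have hp0' : (0:ℝ) < p' := by exact_mod_cast hpp'
  have hPr : (0:ℝ) < D := by exact_mod_cast hD1
  have hz : (a:ℤ) * p' - a' * p - n * p * p' ≠ 0 := by
    intro h0
    have e1 : (p:ℤ) ∣ (a:ℤ) * p' := ⟨a' + n * p', by linarith⟩
    have e1' : p ∣ a * p' := by exact_mod_cast e1
    have e2 : p ∣ p' := Nat.Coprime.dvd_of_dvd_mul_left (Nat.Coprime.symm ha2) e1'
    have e3 : (p':ℤ) ∣ (a':ℤ) * p := ⟨a - n * p, by linarith⟩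
    have e3' : p' ∣ a' * p := by exact_mod_cast e3
    have e4 : p' ∣ p := Nat.Coprime.dvd_of_dvd_mul_left (Nat.Coprime.symm ha2') e3'
    have hpe : p = p' := Nat.dvd_antisymm e2 e4
    subst hpe
    have h1 : ((a:ℤ) - a' - n * p) * p = 0 := by linarith
    have hpz : (p:ℤ) ≠ 0 := by omega
    have h2 : (a:ℤ) - a' - n * p = 0 := by
      rcases mul_eq_zero.mp h1 with h | h
      · exact h
      · exact absurd h hpz
    have h3 : (p:ℤ) ∣ (a:ℤ) - a' := ⟨n, by linarith⟩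
    have h4 : (a:ℤ) - a' = 0 := Int.eq_zero_of_abs_lt_dvd h3 (by rw [abs_lt]; omega)
    apply hne
    have : a = a' := by omega
    rw [this]
  have h1 : (a:ℝ) / p - a' / p' - n = (((a:ℤ) * p' - a' * p - n * p * p' : ℤ) : ℝ) / (p * p') := by
    push_cast
    field_simp
  simp only
  rw [h1, abs_div, abs_of_pos (mul_pos hp0 hp0')]
  have h2 : (1:ℝ) ≤ |(((a:ℤ) * p' - a' * p - n * p * p' : ℤ) : ℝ)| := by
    rw [← Int.cast_abs]
    exact_mod_cast Int.one_le_abs hz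
  have h3 : (p:ℝ) * p' ≤ (D:ℝ) ^ 2 := by
    rw [sq]
    have e1 : (p:ℝ) ≤ D := by exact_mod_cast (hD p hp).2
    have e2 : (p':ℝ) ≤ D := by exact_mod_cast (hD p' hp').2
    exact mul_le_mul e1 e2 hp0'.le hPr.le
  exact div_le_div₀ (by linarith) h2 (mul_pos hp0 hp0') h3

/-- Large sieve for primitive characters, arbitrary moduli. -/
theorem mlsP (DD : Finset ℕ) (D : ℕ) (hD : ∀ d ∈ DD, 1 ≤ d ∧ d ≤ D) (hD1 : 1 ≤ D)
    (a : ℕ → ℂ) (M H : ℕ) :
    ∑ d ∈ DD, ∑ ψ ∈ Pr d, ((d:ℝ) / Nat.totient d) * ‖∑ m ∈ Finset.Ioc M (M + H), a m * ψ (m : ZMod d)‖ ^ 2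
      ≤ 22 * (H + (D:ℝ) ^ 2) * ∑ m ∈ Finset.Ioc M (M + H), ‖a m‖ ^ 2 := by
  have hPr : (1:ℝ) ≤ D := by exact_mod_cast hD1
  have h1 : ∑ d ∈ DD, ∑ ψ ∈ Pr d, ((d:ℝ) / Nat.totient d) * ‖∑ m ∈ Finset.Ioc M (M + H), a m * ψ (m : ZMod d)‖ ^ 2
      ≤ ∑ d ∈ DD, ∑ c ∈ Cd d, ‖∑ m ∈ Finset.Ioc M (M + H), a m * e (m * ((c:ℝ) / d))‖ ^ 2 := by
    refine sum_le_sum fun d hd => ?_
    have : NeZero d := ⟨by have := (hD d hd).1; omega⟩
    have hφ : (0:ℝ) < Nat.totient d := by exact_mod_cast Nat.totient_pos.mpr (hD d hd).1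
    have h := prim_single (d := d) (Finset.Ioc M (M + H)) a
    rw [← mul_sum, div_mul_eq_mul_div, div_le_iff₀ hφ]
    linarith
  refine h1.trans ?_
  have h2 : ∑ d ∈ DD, ∑ c ∈ Cd d, ‖∑ m ∈ Finset.Ioc M (M + H), a m * e (m * ((c:ℝ) / d))‖ ^ 2
      = ∑ x ∈ DD.sigma (fun d => Cd d),
          ‖∑ m ∈ range H, a (M + 1 + m) * e (m * ((x.2:ℝ) / x.1))‖ ^ 2 := by
    rw [sum_sigma]
    refine sum_congr rfl fun p _ => sum_congr rfl fun c _ => ?_
    have h3 : ∑ m ∈ Finset.Ioc M (M + H), a m * e (m * ((c:ℝ) / p))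
        = e ((M + 1 : ℕ) * ((c:ℝ) / p)) * ∑ m ∈ range H, a (M + 1 + m) * e (m * ((c:ℝ) / p)) := by
      rw [mul_sum]
      have : Finset.Ioc M (M + H) = (range H).image (fun m => M + 1 + m) := by
        ext m
        simp only [Finset.mem_Ioc, mem_image, mem_range]
        constructor
        · intro h; exact ⟨m - (M + 1), by omega, by omega⟩
        · rintro ⟨j, hj, rfl⟩; omega
      rw [this, sum_image (fun a _ b _ h => by simpa using h)]
      refine sum_congr rfl fun m _ => ?_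
      have : ((M + 1 + m : ℕ) : ℝ) * ((c:ℝ) / p) = ((M + 1 : ℕ):ℝ) * ((c:ℝ) / p) + m * ((c:ℝ) / p) := by
        push_cast; ring
      rw [this, e_add]; ring
    rw [h3, norm_mul, norm_e, one_mul]
  rw [h2]
  have h4 := large_sieve (DD.sigma (fun d => Cd d)) (fun x : (Σ _ : ℕ, ℕ) => (x.2:ℝ) / x.1)
    (1 / (D:ℝ) ^ 2) (by positivity) (by rw [div_le_one (by positivity)]; nlinarith)
    (farey_sep_gen DD D hD hD1) (fun m => a (M + 1 + m)) H
  refine h4.trans (le_of_eq ?_)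
  have h5 : ∑ m ∈ Finset.Ioc M (M + H), ‖a m‖ ^ 2 = ∑ m ∈ range H, ‖a (M + 1 + m)‖ ^ 2 := by
    have : Finset.Ioc M (M + H) = (range H).image (fun m => M + 1 + m) := by
      ext m
      simp only [Finset.mem_Ioc, mem_image, mem_range]
      constructor
      · intro h; exact ⟨m - (M + 1), by omega, by omega⟩
      · rintro ⟨j, hj, rfl⟩; omega
    rw [this, sum_image (fun a _ b _ h => by simpa using h)]
  rw [h5, one_div_one_div]

end Pool.Agent.Var73
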