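import Pool.Agent.Lib_helper73.Var.LS

/-! Reorganization of sums over characters by conductors, and the bilinear estimate in a dyadic block -/

set_option autoImplicit false

namespace Pool.Agent.Var73

open Finset Complex Pool.Agent.Var35 DirichletCharacter
open scoped ArithmeticFunction ArithmeticFunction.Moebius

/-- the type of all Dirichlet characters -/
abbrev Chr := Σ d : ℕ, DirichletCharacter ℂ d

/-- the primitive character inducing `χ` -/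
noncomputable def prm {r : ℕ} (χ : DirichletCharacter ℂ r) : Chr := ⟨χ.conductor, χ.primitiveCharacter⟩

lemma level_congr {r : ℕ} (x y : Chr) (h : x = y) (hx : x.1 ∣ r) (hy : y.1 ∣ r) :
    changeLevel hx x.2 = changeLevel hy y.2 := by
  subst h; rfl

lemma chr_ext {r : ℕ} [NeZero r] (x y : Chr) (h : x.1 = y.1) (hx : x.1 ∣ r) (hy : y.1 ∣ r)
    (h2 : changeLevel hx x.2 = changeLevel hy y.2) : x = y := by
  obtain ⟨d, ψ⟩ := x
  obtain ⟨d', ψ'⟩ := y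
  simp only at h
  subst h
  have := changeLevel_injective hx h2
  simp only at this
  rw [this]

lemma prm_injective {r : ℕ} : Function.Injective (prm (r := r)) := by
  intro χ χ' h
  have h1 := level_congr (r := r) (prm χ) (prm χ') h χ.conductor_dvd_level χ'.conductor_dvd_level
  have h2 : changeLevel χ.conductor_dvd_level (prm χ).2 = χ := changeLevel_primitiveCharacter χ
  have h3 : changeLevel χ'.conductor_dvd_level (prm χ').2 = χ' := changeLevel_primitiveCharacter χ'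
  exact h2.symm.trans (h1.trans h3)

lemma prm_changeLevel {r d : ℕ} [NeZero r] (hd : d ∣ r) (ψ : DirichletCharacter ℂ d) (hψ : ψ.IsPrimitive) :
    prm (changeLevel hd ψ) = ⟨d, ψ⟩ := by
  refine chr_ext (r := r) _ _ ?_ (changeLevel hd ψ).conductor_dvd_level hd ?_
  · simp only [prm]
    rw [conductor_changeLevel]
    exact hψ
  · exact changeLevel_primitiveCharacter (changeLevel hd ψ)

/-- characters modulo `r` in terms of primitive ones -/
lemma sum_chars {E : Type*} [AddCommMonoid E] (r : ℕ) [NeZero r] (G : Chr → E) :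
    ∑ χ : DirichletCharacter ℂ r, G (prm χ) = ∑ x ∈ r.divisors.sigma Pr, G x := by
  classical
  refine Finset.sum_bij (fun χ _ => prm χ) ?_ ?_ ?_ ?_
  · intro χ _
    rw [mem_sigma, Nat.mem_divisors, mem_Pr]
    exact ⟨⟨χ.conductor_dvd_level, NeZero.ne r⟩, primitiveCharacter_isPrimitive χ⟩
  · intro χ _ χ' _ h
    exact prm_injective h
  · rintro ⟨d, ψ⟩ hx
    rw [mem_sigma, Nat.mem_divisors, mem_Pr] at hx
    exact ⟨changeLevel hx.1.1 ψ, mem_univ _, prm_changeLevel hx.1.1 ψ hx.2⟩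
  · intro χ _; rfl

/-- sums over a block, reorganized -/
lemma block_reorg {E : Type*} [AddCommMonoid E] (B : Finset ℕ) (R : ℕ) (hB : ∀ r ∈ B, 1 ≤ r ∧ r ≤ R) (G : ℕ → Chr → E) :
    ∑ r ∈ B, ∑ χ : DirichletCharacter ℂ r, G (r / (prm χ).1) (prm χ)
      = ∑ m ∈ Finset.Icc 1 R, ∑ d ∈ (Finset.Icc 1 R).filter (fun d => d * m ∈ B), ∑ ψ ∈ Pr d, G m ⟨d, ψ⟩ := by
  classical
  have h1 : ∀ r ∈ B, ∑ χ : DirichletCharacter ℂ r, G (r / (prm χ).1) (prm χ)
      = ∑ d ∈ r.divisors, ∑ ψ ∈ Pr d, G (r / d) ⟨d, ψ⟩ := by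
    intro r hr
    have : NeZero r := ⟨by have := (hB r hr).1; omega⟩
    rw [sum_chars r (fun x => G (r / x.1) x), sum_sigma]
  rw [sum_congr rfl h1]
  rw [Finset.sum_sigma' B (fun r => r.divisors) (fun r d => ∑ ψ ∈ Pr d, G (r / d) ⟨d, ψ⟩)]
  rw [Finset.sum_sigma' (Finset.Icc 1 R) (fun m => (Finset.Icc 1 R).filter (fun d => d * m ∈ B)) (fun m d => ∑ ψ ∈ Pr d, G m ⟨d, ψ⟩)]
  refine Finset.sum_nbij' (fun x => ⟨x.1 / x.2, x.2⟩) (fun x => ⟨x.2 * x.1, x.2⟩) ?_ ?_ ?_ ?_ ?_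
  · rintro ⟨r, d⟩ hx
    rw [mem_sigma, Nat.mem_divisors] at hx
    obtain ⟨hr, ⟨k, hk⟩, hr0⟩ := hx
    simp only at hr hk hr0
    have hd0 : 0 < d := Nat.pos_of_ne_zero (fun h => hr0 (by rw [hk, h, zero_mul]))
    have hk0 : 0 < k := Nat.pos_of_ne_zero (fun h => hr0 (by rw [hk, h, mul_zero]))
    have hrd : r / d = k := by rw [hk]; exact Nat.mul_div_cancel_left k hd0
    have hrR := (hB r hr).2
    have h2 : k ≤ R := (Nat.le_mul_of_pos_left k hd0).trans (by rw [← hk]; exact hrR)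
    have h3 : d ≤ R := (Nat.le_mul_of_pos_right d hk0).trans (by rw [← hk]; exact hrR)
    simp only [mem_sigma, Finset.mem_Icc, mem_filter]
    rw [hrd, ← hk]
    exact ⟨⟨hk0, h2⟩, ⟨hd0, h3⟩, hr⟩
  · rintro ⟨m, d⟩ hx
    simp only [mem_sigma, Finset.mem_Icc, mem_filter] at hx
    simp only [mem_sigma, Nat.mem_divisors]
    refine ⟨hx.2.2, Dvd.intro m rfl, ?_⟩
    exact Nat.mul_ne_zero (by omega) (by omega)
  · rintro ⟨r, d⟩ hx
    rw [mem_sigma, Nat.mem_divisors] at hx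
    simp only
    rw [Nat.mul_div_cancel' hx.2.1]
  · rintro ⟨m, d⟩ hx
    simp only [mem_sigma, Finset.mem_Icc, mem_filter] at hx
    simp only
    rw [Nat.mul_div_cancel_left m (by omega)]
  · rintro ⟨r, d⟩ _; rfl

/-- twisted sums with a coprimality condition -/
noncomputable def SS (I : Finset ℕ) (a : ℕ → ℂ) (m : ℕ) (x : Chr) : ℂ :=
  ∑ n ∈ I, (if Nat.Coprime n m then a n else 0) * ev x n

lemma char_prm {r : ℕ} [NeZero r] (χ : DirichletCharacter ℂ r) (n : ℕ) :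
    χ (n : ZMod r) = if Nat.Coprime n (r / (prm χ).1) then ev (prm χ) n else 0 := by
  have h0 := changeLevel_primitiveCharacter χ
  have hd := χ.conductor_dvd_level
  have key : ∀ (d : ℕ) (hd : d ∣ r) (ψ : DirichletCharacter ℂ d),
      changeLevel hd ψ (n : ZMod r) = if Nat.Coprime n (r / d) then ψ (n : ZMod d) else 0 := by
    intro d hd ψ
    obtain ⟨m, hm⟩ := hd
    have hr0 := NeZero.ne r
    subst hm
    have hd0 : NeZero d := ⟨fun h => hr0 (by rw [h, zero_mul])⟩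
    have hm0 : NeZero m := ⟨fun h => hr0 (by rw [h, mul_zero])⟩
    rw [char_level d m ψ n, Nat.mul_div_cancel_left m (Nat.pos_of_ne_zero hd0.out)]
  have h1 := key χ.conductor hd χ.primitiveCharacter
  rw [h0] at h1
  exact h1

lemma sum_char_prm {r : ℕ} [NeZero r] (χ : DirichletCharacter ℂ r) (I : Finset ℕ) (a : ℕ → ℂ) :
    ∑ n ∈ I, a n * χ (n : ZMod r) = SS I a (r / (prm χ).1) (prm χ) := by
  unfold SS
  refine sum_congr rfl fun n _ => ?_
  rw [char_prm χ n]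
  split_ifs <;> simp

lemma sum_inv_le (M : ℕ) : ∑ m ∈ Finset.Icc 1 M, 1 / (m:ℝ) ≤ 1 + Real.log M := by
  have h := harmonic_le_one_add_log M
  rw [harmonic_eq_sum_Icc] at h
  push_cast at h
  refine le_trans (le_of_eq ?_) h
  exact sum_congr rfl fun n _ => by rw [one_div]

lemma inv_totient_le (d : ℕ) (hd : 1 ≤ d) (Lg : ℝ) (h : 2 * Real.log d + 1 ≤ Lg) : 1 / (Nat.totient d : ℝ) ≤ Lg / d := by
  have h1 := totient_ge d hd
  have h2 : (0:ℝ) < Nat.totient d := by exact_mod_cast Nat.totient_pos.mpr hd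
  have h3 : (0:ℝ) < d := by exact_mod_cast hd
  rw [div_le_div_iff₀ h2 h3, one_mul]
  exact h1.trans (mul_le_mul_of_nonneg_right h h2.le)

/-- Cauchy-Schwarz with the large sieve, for a fixed cofactor `m`. -/
lemma fixed_m (DD : Finset ℕ) (D : ℕ) (hD : ∀ d ∈ DD, 1 ≤ d ∧ d ≤ D) (hD1 : 1 ≤ D) (w : ℝ) (hw0 : 0 ≤ w)
    (hw : ∀ d ∈ DD, 1 / (Real.sqrt d * Nat.totient d) ≤ w) (a b : ℕ → ℂ) (M1 H1 M2 H2 m : ℕ) :
    ∑ d ∈ DD, ∑ ψ ∈ Pr d, (Real.sqrt d / (Nat.totient d : ℝ) ^ 2)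
        * (‖SS (Finset.Ioc M1 (M1 + H1)) a m ⟨d, ψ⟩‖ * ‖SS (Finset.Ioc M2 (M2 + H2)) b m ⟨d, ψ⟩‖)
      ≤ w * (22 * (Real.sqrt (H1 + (D:ℝ) ^ 2) * Real.sqrt (H2 + (D:ℝ) ^ 2))
          * (Real.sqrt (∑ n ∈ Finset.Ioc M1 (M1 + H1), ‖a n‖ ^ 2) * Real.sqrt (∑ n ∈ Finset.Ioc M2 (M2 + H2), ‖b n‖ ^ 2))) := by
  set SA := ∑ n ∈ Finset.Ioc M1 (M1 + H1), ‖a n‖ ^ 2 with hSA
  set SB := ∑ n ∈ Finset.Ioc M2 (M2 + H2), ‖b n‖ ^ 2 with hSB
  have hSA0 : 0 ≤ SA := sum_nonneg fun _ _ => by positivity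
  have hSB0 : 0 ≤ SB := sum_nonneg fun _ _ => by positivity
  have key : ∀ (a : ℕ → ℂ) (M H : ℕ), ∑ x ∈ DD.sigma Pr, (Real.sqrt ((x.1:ℝ) / Nat.totient x.1) * ‖SS (Finset.Ioc M (M + H)) a m x‖) ^ 2
      ≤ 22 * (H + (D:ℝ) ^ 2) * ∑ n ∈ Finset.Ioc M (M + H), ‖a n‖ ^ 2 := by
    intro a M H
    have h := mlsP DD D hD hD1 (fun n => if Nat.Coprime n m then a n else 0) M H
    rw [sum_sigma]
    have h2 : ∑ n ∈ Finset.Ioc M (M + H), ‖(if Nat.Coprime n m then a n else 0 : ℂ)‖ ^ 2 ≤ ∑ n ∈ Finset.Ioc M (M + H), ‖a n‖ ^ 2 := by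
      refine sum_le_sum fun n _ => ?_
      split_ifs
      · exact le_rfl
      · simp
    refine le_trans (le_of_eq ?_) (h.trans (mul_le_mul_of_nonneg_left h2 (by positivity)))
    refine sum_congr rfl fun d _ => sum_congr rfl fun ψ _ => ?_
    rw [mul_pow, Real.sq_sqrt (by positivity)]
    rfl
  have h1 : ∑ d ∈ DD, ∑ ψ ∈ Pr d, (Real.sqrt d / (Nat.totient d : ℝ) ^ 2)
        * (‖SS (Finset.Ioc M1 (M1 + H1)) a m ⟨d, ψ⟩‖ * ‖SS (Finset.Ioc M2 (M2 + H2)) b m ⟨d, ψ⟩‖)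
      ≤ w * ∑ x ∈ DD.sigma Pr, (Real.sqrt ((x.1:ℝ) / Nat.totient x.1) * ‖SS (Finset.Ioc M1 (M1 + H1)) a m x‖)
          * (Real.sqrt ((x.1:ℝ) / Nat.totient x.1) * ‖SS (Finset.Ioc M2 (M2 + H2)) b m x‖) := by
    rw [mul_sum, sum_sigma]
    refine sum_le_sum fun d hd => sum_le_sum fun ψ _ => ?_
    simp only
    have hd1 := (hD d hd).1
    have hd0 : (0:ℝ) < d := by exact_mod_cast hd1
    have hφ : (0:ℝ) < Nat.totient d := by exact_mod_cast Nat.totient_pos.mpr hd1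
    set A := ‖SS (Finset.Ioc M1 (M1 + H1)) a m ⟨d, ψ⟩‖
    set B := ‖SS (Finset.Ioc M2 (M2 + H2)) b m ⟨d, ψ⟩‖
    have hA : 0 ≤ A := norm_nonneg _
    have hB : 0 ≤ B := norm_nonneg _
    have e1 : Real.sqrt ((d:ℝ) / Nat.totient d) * A * (Real.sqrt ((d:ℝ) / Nat.totient d) * B) = ((d:ℝ) / Nat.totient d) * (A * B) := by
      have := Real.mul_self_sqrt (by positivity : 0 ≤ (d:ℝ) / Nat.totient d)
      calc _ = (Real.sqrt ((d:ℝ) / Nat.totient d) * Real.sqrt ((d:ℝ) / Nat.totient d)) * (A * B) := by ring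
        _ = _ := by rw [this]
    rw [e1]
    have e2 : Real.sqrt d / (Nat.totient d : ℝ) ^ 2 = (1 / (Real.sqrt d * Nat.totient d)) * ((d:ℝ) / Nat.totient d) := by
      have hsq : Real.sqrt d * Real.sqrt d = d := Real.mul_self_sqrt hd0.le
      have hs0 : 0 < Real.sqrt d := Real.sqrt_pos.mpr hd0
      field_simp
      nlinarith [hsq]
    have e3 : Real.sqrt d / (Nat.totient d : ℝ) ^ 2 ≤ w * ((d:ℝ) / Nat.totient d) := by
      rw [e2]
      exact mul_le_mul_of_nonneg_right (hw d hd) (by positivity)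
    calc Real.sqrt d / (Nat.totient d : ℝ) ^ 2 * (A * B) ≤ (w * ((d:ℝ) / Nat.totient d)) * (A * B) :=
          mul_le_mul_of_nonneg_right e3 (by positivity)
      _ = _ := by ring
  refine h1.trans (mul_le_mul_of_nonneg_left ?_ hw0)
  refine (Real.sum_mul_le_sqrt_mul_sqrt _ _ _).trans ?_
  have e1 := Real.sqrt_le_sqrt (key a M1 H1)
  have e2 := Real.sqrt_le_sqrt (key b M2 H2)
  refine (mul_le_mul e1 e2 (Real.sqrt_nonneg _) (Real.sqrt_nonneg _)).trans (le_of_eq ?_)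
  rw [← hSA, ← hSB, Real.sqrt_mul (by positivity), Real.sqrt_mul (by norm_num), Real.sqrt_mul (by positivity) SB,
    Real.sqrt_mul (by norm_num) (((H2:ℝ) + (D:ℝ) ^ 2))]
  have h22 : Real.sqrt 22 * Real.sqrt 22 = 22 := Real.mul_self_sqrt (by norm_num)
  calc Real.sqrt 22 * Real.sqrt (H1 + (D:ℝ) ^ 2) * Real.sqrt SA * (Real.sqrt 22 * Real.sqrt (H2 + (D:ℝ) ^ 2) * Real.sqrt SB)
      = (Real.sqrt 22 * Real.sqrt 22) * (Real.sqrt (H1 + (D:ℝ) ^ 2) * Real.sqrt (H2 + (D:ℝ) ^ 2)) * (Real.sqrt SA * Real.sqrt SB) := by ring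
    _ = _ := by rw [h22]

lemma sqrt_add_sq_le (H D X : ℝ) (hH : 0 ≤ H) (hD : 0 ≤ D) (hX : D ≤ X) : Real.sqrt (H + D ^ 2) ≤ Real.sqrt H + X := by
  have hs := Real.sq_sqrt hH
  have hs0 := Real.sqrt_nonneg H
  have hX0 : 0 ≤ X := hD.trans hX
  rw [Real.sqrt_le_left (by positivity)]
  nlinarith [mul_nonneg hs0 (hD.trans hX)]

lemma num_TB (m R z0 Lg h1 h2 : ℝ) (hm : 1 ≤ m) (hR : 1 ≤ R) (hz : 1 ≤ z0) (hmz : m * z0 ≤ 2 * R) (hLg : 0 ≤ Lg)
    (hh1 : 0 ≤ h1) (hh2 : 0 ≤ h2) :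
    (Lg / m) ^ 2 * ((Lg * (m / R) * Real.sqrt (m / R)) * (22 * ((h1 + 2 * R / m) * (h2 + 2 * R / m))))
      ≤ 88 * Lg ^ 3 * (h1 * h2 / (R * Real.sqrt z0) + (h1 + h2) / Real.sqrt R + Real.sqrt R) * (1 / m) := by
  have hm0 : 0 < m := by linarith
  have hR0 : 0 < R := by linarith
  have hz0 : 0 < z0 := by linarith
  obtain ⟨a, ha⟩ : ∃ a, a = Real.sqrt m := ⟨_, rfl⟩
  obtain ⟨b, hb⟩ : ∃ b, b = Real.sqrt R := ⟨_, rfl⟩
  obtain ⟨c, hc⟩ : ∃ c, c = Real.sqrt z0 := ⟨_, rfl⟩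
  have ha0 : 0 < a := by rw [ha]; exact Real.sqrt_pos.mpr hm0
  have hb0 : 0 < b := by rw [hb]; exact Real.sqrt_pos.mpr hR0
  have hc0 : 0 < c := by rw [hc]; exact Real.sqrt_pos.mpr hz0
  have ha2 : a ^ 2 = m := by rw [ha]; exact Real.sq_sqrt hm0.le
  have hb2 : b ^ 2 = R := by rw [hb]; exact Real.sq_sqrt hR0.le
  have hc2 : c ^ 2 = z0 := by rw [hc]; exact Real.sq_sqrt hz0.le
  have ha1 : 1 ≤ a := by
    rw [ha, ← Real.sqrt_one]; exact Real.sqrt_le_sqrt hm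
  have hq : Real.sqrt (m / R) = a / b := by rw [Real.sqrt_div hm0.le, ← ha, ← hb]
  rw [hq, ← hb, ← hc]
  have hac : a * c ≤ 2 * b := by
    have h1 : (a * c) ^ 2 ≤ (2 * b) ^ 2 := by
      rw [mul_pow, mul_pow, ha2, hb2, hc2]; nlinarith
    exact le_of_sq_le_sq h1 (by positivity) |> fun h => h
  have e1 : (Lg / m) ^ 2 * ((Lg * (m / R) * (a / b)) * (22 * ((h1 + 2 * R / m) * (h2 + 2 * R / m))))
      = 22 * Lg ^ 3 * (1 / m) * ((a / (b * R)) * (h1 * h2) + 2 * (a / (b * m)) * (h1 + h2) + 4 * (a * R / (b * m ^ 2))) := by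
    field_simp
    ring
  rw [e1]
  have f1 : a / (b * R) ≤ 4 * (1 / (R * c)) := by
    rw [mul_one_div, div_le_div_iff₀ (by positivity) (by positivity)]
    nlinarith [mul_le_mul_of_nonneg_left hac hR0.le, mul_pos hb0 hR0]
  have f2 : 2 * (a / (b * m)) ≤ 4 * (1 / b) := by
    rw [mul_one_div, mul_div_assoc', div_le_div_iff₀ (by positivity) hb0]
    have : a ≤ m := by nlinarith
    nlinarith [mul_pos hb0 hm0]
  have f3 : 4 * (a * R / (b * m ^ 2)) ≤ 4 * b := by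
    rw [mul_div_assoc', div_le_iff₀ (by positivity)]
    have : a ≤ m ^ 2 := by nlinarith
    have h5 : 4 * b * (b * m ^ 2) = 4 * R * m ^ 2 := by rw [← hb2]; ring
    rw [h5]
    nlinarith
  have hh12 : 0 ≤ h1 * h2 := by positivity
  have g1 := mul_le_mul_of_nonneg_right f1 hh12
  have g2 := mul_le_mul_of_nonneg_right f2 (by positivity : 0 ≤ h1 + h2)
  have h6 : (a / (b * R)) * (h1 * h2) + 2 * (a / (b * m)) * (h1 + h2) + 4 * (a * R / (b * m ^ 2))
      ≤ 4 * (h1 * h2 / (R * c) + (h1 + h2) / b + b) := by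
    have : 4 * (h1 * h2 / (R * c) + (h1 + h2) / b + b) = 4 * (1 / (R * c)) * (h1 * h2) + 4 * (1 / b) * (h1 + h2) + 4 * b := by
      field_simp
    rw [this]; linarith
  calc 22 * Lg ^ 3 * (1 / m) * ((a / (b * R)) * (h1 * h2) + 2 * (a / (b * m)) * (h1 + h2) + 4 * (a * R / (b * m ^ 2)))
      ≤ 22 * Lg ^ 3 * (1 / m) * (4 * (h1 * h2 / (R * c) + (h1 + h2) / b + b)) :=
        mul_le_mul_of_nonneg_left h6 (by positivity)
    _ = _ := by ring

open scoped Classical in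
/-- The basic bilinear estimate over a dyadic block of moduli. -/
theorem TB (B : Finset ℕ) (R z0 : ℕ) (hR : 1 ≤ R) (hz : 1 ≤ z0) (hB : ∀ r ∈ B, R < r ∧ r ≤ 2 * R ∧ Squarefree r)
    (Lg : ℝ) (hLg : 2 * Real.log (2 * R) + 1 ≤ Lg) (a b : ℕ → ℂ) (M1 H1 M2 H2 : ℕ) :
    ∑ r ∈ B, ∑ χ ∈ univ.filter (fun χ : DirichletCharacter ℂ r => z0 < χ.conductor),
      (Real.sqrt χ.conductor / (Nat.totient r : ℝ) ^ 2) *
        (‖∑ n ∈ Finset.Ioc M1 (M1 + H1), a n * χ (n : ZMod r)‖ * ‖∑ n ∈ Finset.Ioc M2 (M2 + H2), b n * χ (n : ZMod r)‖)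
      ≤ 88 * Lg ^ 4 * (Real.sqrt H1 * Real.sqrt H2 / (R * Real.sqrt z0) + (Real.sqrt H1 + Real.sqrt H2) / Real.sqrt R + Real.sqrt R)
        * (Real.sqrt (∑ n ∈ Finset.Ioc M1 (M1 + H1), ‖a n‖ ^ 2) * Real.sqrt (∑ n ∈ Finset.Ioc M2 (M2 + H2), ‖b n‖ ^ 2)) := by
  set I1 := Finset.Ioc M1 (M1 + H1) with hI1
  set I2 := Finset.Ioc M2 (M2 + H2) with hI2
  set W := Real.sqrt (∑ n ∈ I1, ‖a n‖ ^ 2) * Real.sqrt (∑ n ∈ I2, ‖b n‖ ^ 2) with hW
  have hW0 : 0 ≤ W := by positivity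
  have hRr : (1:ℝ) ≤ R := by exact_mod_cast hR
  have hzr : (1:ℝ) ≤ z0 := by exact_mod_cast hz
  have hlog0 : 0 ≤ Real.log (2 * R) := Real.log_nonneg (by linarith)
  have hLg1 : 1 ≤ Lg := by linarith
  set G : ℕ → Chr → ℝ := fun m x => if z0 < x.1 then (Real.sqrt x.1 / (Nat.totient x.1 : ℝ) ^ 2) * (1 / (Nat.totient m : ℝ) ^ 2)
      * (‖SS I1 a m x‖ * ‖SS I2 b m x‖) else 0 with hG
  have h1 : ∀ r ∈ B, ∑ χ ∈ univ.filter (fun χ : DirichletCharacter ℂ r => z0 < χ.conductor),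
      (Real.sqrt χ.conductor / (Nat.totient r : ℝ) ^ 2) *
        (‖∑ n ∈ I1, a n * χ (n : ZMod r)‖ * ‖∑ n ∈ I2, b n * χ (n : ZMod r)‖)
      = ∑ χ : DirichletCharacter ℂ r, G (r / (prm χ).1) (prm χ) := by
    intro r hr
    have hr0 : r ≠ 0 := by have := (hB r hr).1; omega
    have : NeZero r := ⟨hr0⟩
    rw [sum_filter]
    refine sum_congr rfl fun χ _ => ?_
    simp only [hG]
    have e1 : (prm χ).1 = χ.conductor := rfl
    rw [e1]
    split_ifs with hc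
    · rw [sum_char_prm χ I1 a, sum_char_prm χ I2 b, e1]
      congr 1
      have hsq := (hB r hr).2.2
      have hdm : χ.conductor * (r / χ.conductor) = r := Nat.mul_div_cancel' χ.conductor_dvd_level
      have hcop : Nat.Coprime χ.conductor (r / χ.conductor) := by
        apply Nat.coprime_of_squarefree_mul
        rw [hdm]; exact hsq
      have hφ : (Nat.totient r : ℝ) = (Nat.totient χ.conductor : ℝ) * (Nat.totient (r / χ.conductor) : ℝ) := by
        conv_lhs => rw [← hdm]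
        rw [Nat.totient_mul hcop]; push_cast; rfl
      rw [hφ, mul_pow]
      have hφ1 : (Nat.totient χ.conductor : ℝ) ≠ 0 := by
        have := Nat.totient_pos.mpr (Nat.pos_of_ne_zero (conductor_ne_zero χ))
        exact_mod_cast this.ne'
      have hφ2 : (Nat.totient (r / χ.conductor) : ℝ) ≠ 0 := by
        have : 0 < r / χ.conductor := Nat.pos_of_ne_zero (fun h => hr0 (by rw [← hdm, h, mul_zero]))
        have := Nat.totient_pos.mpr this
        exact_mod_cast this.ne'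
      field_simp
    · rfl
  rw [sum_congr rfl h1]
  rw [block_reorg B (2 * R) (fun r hr => ⟨by have := (hB r hr).1; omega, (hB r hr).2.1⟩) G]
  have hsumm : ∀ m ∈ Finset.Icc 1 (2 * R), ∑ d ∈ (Finset.Icc 1 (2 * R)).filter (fun d => d * m ∈ B), ∑ ψ ∈ Pr d, G m ⟨d, ψ⟩
      ≤ 88 * Lg ^ 3 * (Real.sqrt H1 * Real.sqrt H2 / (R * Real.sqrt z0) + (Real.sqrt H1 + Real.sqrt H2) / Real.sqrt R + Real.sqrt R) * W * (1 / m) := by
    intro m hm
    rw [Finset.mem_Icc] at hm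
    have hm1 : (1:ℝ) ≤ m := by exact_mod_cast hm.1
    have hm0 : (0:ℝ) < m := by linarith
    set DD := ((Finset.Icc 1 (2 * R)).filter (fun d => d * m ∈ B)).filter (fun d => z0 < d) with hDD
    have e1 : ∑ d ∈ (Finset.Icc 1 (2 * R)).filter (fun d => d * m ∈ B), ∑ ψ ∈ Pr d, G m ⟨d, ψ⟩
        = (1 / (Nat.totient m : ℝ) ^ 2) * ∑ d ∈ DD, ∑ ψ ∈ Pr d, (Real.sqrt d / (Nat.totient d : ℝ) ^ 2) * (‖SS I1 a m ⟨d, ψ⟩‖ * ‖SS I2 b m ⟨d, ψ⟩‖) := by
      rw [hDD, sum_filter (fun d => z0 < d), mul_sum]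
      refine sum_congr rfl fun d _ => ?_
      simp only [hG]
      split_ifs with hc
      · rw [mul_sum]
        refine sum_congr rfl fun ψ _ => by ring
      · simp
    rw [e1]
    rcases DD.eq_empty_or_nonempty with hemp | ⟨d0, hd0⟩
    · rw [hemp]; simp; positivity
    have hmem : ∀ d ∈ DD, 1 ≤ d ∧ R < d * m ∧ d * m ≤ 2 * R ∧ z0 < d := by
      intro d hd
      rw [hDD, mem_filter, mem_filter, Finset.mem_Icc] at hd
      exact ⟨hd.1.1.1, (hB _ hd.1.2).1, (hB _ hd.1.2).2.1, hd.2⟩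
    have hd0' := hmem d0 hd0
    have hmz : (m:ℝ) * z0 ≤ 2 * R := by
      have : m * z0 ≤ 2 * R := by
        calc m * z0 ≤ m * d0 := Nat.mul_le_mul_left m hd0'.2.2.2.le
          _ = d0 * m := Nat.mul_comm _ _
          _ ≤ 2 * R := hd0'.2.2.1
      exact_mod_cast this
    set D : ℕ := 2 * R / m with hD
    have hD1 : 1 ≤ D := by
      rw [hD, Nat.one_le_div_iff (by omega)]
      exact hm.2
    have hDle : (D:ℝ) ≤ 2 * R / m := by
      have := @Nat.cast_div_le ℝ _ _ _ (2 * R) m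
      push_cast at this
      exact this
    have hw : ∀ d ∈ DD, 1 / (Real.sqrt d * Nat.totient d) ≤ Lg * (m / R) * Real.sqrt (m / R) := by
      intro d hd
      obtain ⟨h1, h2, h3, h4⟩ := hmem d hd
      have hd0 : (0:ℝ) < d := by exact_mod_cast h1
      have h2' : (R:ℝ) < d * m := by exact_mod_cast h2
      have h3' : (d:ℝ) ≤ 2 * R := by
        have : d ≤ 2 * R := (Nat.le_mul_of_pos_right d (by omega)).trans h3
        exact_mod_cast this
      have g1 : 1 / (Nat.totient d : ℝ) ≤ Lg / d := by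
        refine inv_totient_le d h1 Lg ?_
        have := Real.log_le_log hd0 h3'
        linarith
      have g2 : 1 / (d:ℝ) ≤ m / R := by
        rw [div_le_div_iff₀ hd0 (by linarith)]; linarith
      have g3 : 1 / Real.sqrt d ≤ Real.sqrt (m / R) := by
        rw [← Real.sqrt_one, ← Real.sqrt_div zero_le_one]
        exact Real.sqrt_le_sqrt g2
      calc 1 / (Real.sqrt d * Nat.totient d) = (1 / Real.sqrt d) * (1 / Nat.totient d) := by rw [one_div_mul_one_div]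
        _ ≤ Real.sqrt (m / R) * (Lg / d) := mul_le_mul g3 g1 (by positivity) (Real.sqrt_nonneg _)
        _ = Lg * (1 / d) * Real.sqrt (m / R) := by ring
        _ ≤ Lg * (m / R) * Real.sqrt (m / R) := by
            refine mul_le_mul_of_nonneg_right ?_ (Real.sqrt_nonneg _)
            exact mul_le_mul_of_nonneg_left g2 (by linarith)
    have hDD' : ∀ d ∈ DD, 1 ≤ d ∧ d ≤ D := by
      intro d hd
      obtain ⟨h1, h2, h3, h4⟩ := hmem d hd
      exact ⟨h1, (Nat.le_div_iff_mul_le (by omega)).mpr h3⟩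
    have hfm := fixed_m DD D hDD' hD1 (Lg * (m / R) * Real.sqrt (m / R)) (by positivity) hw a b M1 H1 M2 H2 m
    rw [← hI1, ← hI2, ← hW] at hfm
    have hφm : 1 / (Nat.totient m : ℝ) ≤ Lg / m := by
      refine inv_totient_le m hm.1 Lg ?_
      have h3' : (m:ℝ) ≤ 2 * R := by exact_mod_cast hm.2
      have := Real.log_le_log hm0 h3'
      linarith
    have hφ2 : 1 / (Nat.totient m : ℝ) ^ 2 ≤ (Lg / m) ^ 2 := by
      rw [← one_div_pow]
      exact pow_le_pow_left₀ (by positivity) hφm 2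
    have hD0 : (0:ℝ) ≤ D := Nat.cast_nonneg D
    have s1 := sqrt_add_sq_le H1 D (2 * R / m) (Nat.cast_nonneg _) hD0 hDle
    have s2 := sqrt_add_sq_le H2 D (2 * R / m) (Nat.cast_nonneg _) hD0 hDle
    have hnum := num_TB m R z0 Lg (Real.sqrt H1) (Real.sqrt H2) hm1 hRr hzr hmz (by linarith) (Real.sqrt_nonneg _) (Real.sqrt_nonneg _)
    calc (1 / (Nat.totient m : ℝ) ^ 2) * ∑ d ∈ DD, ∑ ψ ∈ Pr d, (Real.sqrt d / (Nat.totient d : ℝ) ^ 2) * (‖SS I1 a m ⟨d, ψ⟩‖ * ‖SS I2 b m ⟨d, ψ⟩‖)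
        ≤ (Lg / m) ^ 2 * (Lg * (m / R) * Real.sqrt (m / R) * (22 * (Real.sqrt (H1 + (D:ℝ) ^ 2) * Real.sqrt (H2 + (D:ℝ) ^ 2)) * W)) := by
          refine mul_le_mul hφ2 hfm (sum_nonneg fun _ _ => sum_nonneg fun _ _ => by positivity) (by positivity)
      _ ≤ (Lg / m) ^ 2 * (Lg * (m / R) * Real.sqrt (m / R) * (22 * ((Real.sqrt H1 + 2 * R / m) * (Real.sqrt H2 + 2 * R / m)) * W)) := by
          refine mul_le_mul_of_nonneg_left ?_ (by positivity)
          refine mul_le_mul_of_nonneg_left ?_ (by positivity)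
          refine mul_le_mul_of_nonneg_right ?_ hW0
          refine mul_le_mul_of_nonneg_left ?_ (by norm_num)
          exact mul_le_mul s1 s2 (Real.sqrt_nonneg _) (by positivity)
      _ = ((Lg / m) ^ 2 * ((Lg * (m / R) * Real.sqrt (m / R)) * (22 * ((Real.sqrt H1 + 2 * R / m) * (Real.sqrt H2 + 2 * R / m))))) * W := by ring
      _ ≤ _ := mul_le_mul_of_nonneg_right hnum hW0
      _ = _ := by ring
  refine (sum_le_sum hsumm).trans ?_
  rw [← mul_sum]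
  have hs := sum_inv_le (2 * R)
  push_cast at hs
  have hs2 : ∑ m ∈ Finset.Icc 1 (2 * R), 1 / (m:ℝ) ≤ Lg := by linarith
  calc _ ≤ 88 * Lg ^ 3 * (Real.sqrt H1 * Real.sqrt H2 / (R * Real.sqrt z0) + (Real.sqrt H1 + Real.sqrt H2) / Real.sqrt R + Real.sqrt R) * W * Lg :=
        mul_le_mul_of_nonneg_left hs2 (by positivity)
    _ = _ := by ring

end Pool.Agent.Var73
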