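import Pool.Agent.Lib_helper73.Var.Block

/-! Convolutions and divisor sums -/

set_option autoImplicit false

namespace Pool.Agent.Var73

open Finset Complex Pool.Agent.Var35 DirichletCharacter
open scoped ArithmeticFunction ArithmeticFunction.Moebius

lemma card_div_mul (m n : ℕ) : ((m * n).divisors.card) ≤ m.divisors.card * n.divisors.card := by
  rw [Nat.divisors_mul]
  exact Finset.card_mul_le

/-- reorganize a sum over divisors -/
lemma sum_divisors_swap (X : ℕ) (f : ℕ → ℕ → ℝ) :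
    ∑ w ∈ Finset.Icc 1 X, ∑ d ∈ w.divisors, f d (w / d) = ∑ d ∈ Finset.Icc 1 X, ∑ k ∈ Finset.Icc 1 (X / d), f d k := by
  rw [Finset.sum_sigma', Finset.sum_sigma']
  refine Finset.sum_nbij' (fun x => ⟨x.2, x.1 / x.2⟩) (fun x => ⟨x.1 * x.2, x.1⟩) ?_ ?_ ?_ ?_ ?_
  · rintro ⟨w, d⟩ hx
    simp only [mem_sigma, Finset.mem_Icc, Nat.mem_divisors] at hx ⊢
    obtain ⟨⟨h1, h2⟩, ⟨k, hk⟩, h3⟩ := hx
    have hd0 : 0 < d := Nat.pos_of_ne_zero (fun h => h3 (by rw [hk, h, zero_mul]))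
    have hk0 : 0 < k := Nat.pos_of_ne_zero (fun h => h3 (by rw [hk, h, mul_zero]))
    have hwd : w / d = k := by rw [hk]; exact Nat.mul_div_cancel_left k hd0
    rw [hwd]
    have : d ≤ w := by rw [hk]; exact Nat.le_mul_of_pos_right d hk0
    refine ⟨⟨hd0, this.trans h2⟩, hk0, ?_⟩
    rw [Nat.le_div_iff_mul_le hd0, Nat.mul_comm, ← hk]
    exact h2
  · rintro ⟨d, k⟩ hx
    simp only [mem_sigma, Finset.mem_Icc, Nat.mem_divisors] at hx ⊢
    obtain ⟨⟨h1, h2⟩, h3, h4⟩ := hx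
    rw [Nat.le_div_iff_mul_le (by omega)] at h4
    have hpos : 0 < d * k := Nat.mul_pos (by omega) (by omega)
    refine ⟨⟨hpos, by rw [Nat.mul_comm]; exact h4⟩, Dvd.intro k rfl, by omega⟩
  · rintro ⟨w, d⟩ hx
    simp only [mem_sigma, Finset.mem_Icc, Nat.mem_divisors] at hx
    simp only
    rw [Nat.mul_div_cancel' hx.2.1]
  · rintro ⟨d, k⟩ hx
    simp only [mem_sigma, Finset.mem_Icc] at hx
    simp only
    rw [Nat.mul_div_cancel_left k (by omega)]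
  · rintro ⟨w, d⟩ _; rfl

lemma sum_card_div (X : ℕ) : ∑ w ∈ Finset.Icc 1 X, ((w.divisors.card : ℕ) : ℝ) ≤ X * (1 + Real.log X) := by
  have h1 : ∀ w ∈ Finset.Icc 1 X, ((w.divisors.card : ℕ) : ℝ) = ∑ d ∈ w.divisors, (1:ℝ) := by
    intro w _; rw [sum_const, nsmul_eq_mul, mul_one]
  rw [sum_congr rfl h1, sum_divisors_swap X (fun _ _ => 1)]
  have h2 : ∀ d ∈ Finset.Icc 1 X, ∑ k ∈ Finset.Icc 1 (X / d), (1:ℝ) ≤ X * (1 / (d:ℝ)) := by
    intro d _
    rw [sum_const, Nat.card_Icc, Nat.add_sub_cancel, nsmul_eq_mul, mul_one, mul_one_div]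
    exact Nat.cast_div_le
  refine (sum_le_sum h2).trans ?_
  rw [← mul_sum]
  exact mul_le_mul_of_nonneg_left (sum_inv_le X) (Nat.cast_nonneg X)

lemma sum_card_div_inv (X : ℕ) : ∑ w ∈ Finset.Icc 1 X, ((w.divisors.card : ℕ) : ℝ) / w ≤ (1 + Real.log X) ^ 2 := by
  have h1 : ∀ w ∈ Finset.Icc 1 X, ((w.divisors.card : ℕ) : ℝ) / w = ∑ d ∈ w.divisors, (1 / (d:ℝ)) * (1 / ((w / d : ℕ) : ℝ)) := by
    intro w hw
    rw [Finset.mem_Icc] at hw
    have : ∀ d ∈ w.divisors, (1 / (d:ℝ)) * (1 / ((w / d : ℕ) : ℝ)) = 1 / (w:ℝ) := by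
      intro d hd
      rw [Nat.mem_divisors] at hd
      rw [one_div_mul_one_div]
      congr 1
      exact_mod_cast Nat.mul_div_cancel' hd.1
    rw [sum_congr rfl this, sum_const, nsmul_eq_mul, mul_one_div]
  rw [sum_congr rfl h1, sum_divisors_swap X (fun d k => (1 / (d:ℝ)) * (1 / (k:ℝ)))]
  have hl : 0 ≤ 1 + Real.log X := by have := Real.log_natCast_nonneg X; linarith
  have h2 : ∀ d ∈ Finset.Icc 1 X, ∑ k ∈ Finset.Icc 1 (X / d), (1 / (d:ℝ)) * (1 / (k:ℝ)) ≤ (1 / (d:ℝ)) * (1 + Real.log X) := by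
    intro d _
    rw [← mul_sum]
    refine mul_le_mul_of_nonneg_left ?_ (by positivity)
    refine le_trans ?_ (sum_inv_le X)
    refine sum_le_sum_of_subset_of_nonneg (Finset.Icc_subset_Icc_right (Nat.div_le_self X d)) fun _ _ _ => by positivity
  refine (sum_le_sum h2).trans ?_
  rw [← sum_mul, sq]
  exact mul_le_mul_of_nonneg_right (sum_inv_le X) hl

lemma sum_card_div_sq (X : ℕ) : ∑ w ∈ Finset.Icc 1 X, ((w.divisors.card : ℕ) : ℝ) ^ 2 ≤ X * (1 + Real.log X) ^ 3 := by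
  have hl : 0 ≤ 1 + Real.log X := by have := Real.log_natCast_nonneg X; linarith
  have h1 : ∀ w ∈ Finset.Icc 1 X, ((w.divisors.card : ℕ) : ℝ) ^ 2 ≤ ∑ d ∈ w.divisors, ((d.divisors.card : ℕ) : ℝ) * (((w / d).divisors.card : ℕ) : ℝ) := by
    intro w _
    have : ((w.divisors.card : ℕ) : ℝ) ^ 2 = ∑ d ∈ w.divisors, ((w.divisors.card : ℕ) : ℝ) := by
      rw [sum_const, nsmul_eq_mul, sq]
    rw [this]
    refine sum_le_sum fun d hd => ?_
    rw [Nat.mem_divisors] at hd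
    have h2 := card_div_mul d (w / d)
    rw [Nat.mul_div_cancel' hd.1] at h2
    exact_mod_cast h2
  refine (sum_le_sum h1).trans ?_
  rw [sum_divisors_swap X (fun d k => ((d.divisors.card : ℕ) : ℝ) * ((k.divisors.card : ℕ) : ℝ))]
  have h2 : ∀ d ∈ Finset.Icc 1 X, ∑ k ∈ Finset.Icc 1 (X / d), ((d.divisors.card : ℕ) : ℝ) * ((k.divisors.card : ℕ) : ℝ)
      ≤ X * (1 + Real.log X) * (((d.divisors.card : ℕ) : ℝ) / d) := by
    intro d hd
    rw [Finset.mem_Icc] at hd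
    rw [← mul_sum]
    have h3 := sum_card_div (X / d)
    have hd0 : (0:ℝ) < d := by exact_mod_cast hd.1
    have h4 : ((X / d : ℕ) : ℝ) ≤ X / d := Nat.cast_div_le
    have h5 : Real.log ((X / d : ℕ) : ℝ) ≤ Real.log X := by
      rcases Nat.eq_zero_or_pos (X / d) with h | h
      · rw [h]; simp; exact Real.log_natCast_nonneg X
      · exact Real.log_le_log (by exact_mod_cast h) (by exact_mod_cast Nat.div_le_self X d)
    have h6 : 0 ≤ 1 + Real.log ((X / d : ℕ) : ℝ) := by have := Real.log_natCast_nonneg (X / d); linarith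
    calc ((d.divisors.card : ℕ) : ℝ) * ∑ k ∈ Finset.Icc 1 (X / d), ((k.divisors.card : ℕ) : ℝ)
        ≤ ((d.divisors.card : ℕ) : ℝ) * ((X / d) * (1 + Real.log X)) := by
          refine mul_le_mul_of_nonneg_left (h3.trans ?_) (Nat.cast_nonneg _)
          exact mul_le_mul h4 (by linarith) h6 (by positivity)
      _ = _ := by ring
  refine (sum_le_sum h2).trans ?_
  rw [← mul_sum]
  calc X * (1 + Real.log X) * ∑ d ∈ Finset.Icc 1 X, ((d.divisors.card : ℕ) : ℝ) / d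
      ≤ X * (1 + Real.log X) * (1 + Real.log X) ^ 2 := mul_le_mul_of_nonneg_left (sum_card_div_inv X) (by positivity)
    _ = _ := by ring

/-- convolution of two finite sequences -/
noncomputable def cv (Y : ℕ) (c : ℕ → ℂ) (J : Finset ℕ) (a : ℕ → ℂ) (w : ℕ) : ℂ :=
  ∑ x ∈ ((Finset.Ioc 0 Y) ×ˢ J).filter (fun x => x.1 * x.2 = w), c x.1 * a x.2

lemma cv_sum (Y Z : ℕ) (c a : ℕ → ℂ) (J : Finset ℕ) (hJ : J ⊆ Finset.Ioc 0 Z) (g : ℕ → ℂ) (hg : ∀ m n, g (m * n) = g m * g n) :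
    (∑ y ∈ Finset.Ioc 0 Y, c y * g y) * (∑ m ∈ J, a m * g m) = ∑ w ∈ Finset.Ioc 0 (Y * Z), cv Y c J a w * g w := by
  unfold cv
  rw [sum_mul_sum, ← sum_product']
  have h1 : ∀ w ∈ Finset.Ioc 0 (Y * Z), (∑ x ∈ ((Finset.Ioc 0 Y) ×ˢ J).filter (fun x => x.1 * x.2 = w), c x.1 * a x.2) * g w
      = ∑ x ∈ ((Finset.Ioc 0 Y) ×ˢ J).filter (fun x => x.1 * x.2 = w), c x.1 * g x.1 * (a x.2 * g x.2) := by
    intro w _
    rw [sum_mul]
    refine sum_congr rfl fun x hx => ?_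
    rw [mem_filter] at hx
    rw [← hx.2, hg]; ring
  rw [sum_congr rfl h1]
  rw [sum_fiberwise_of_maps_to]
  intro x hx
  rw [mem_product, Finset.mem_Ioc] at hx
  have h2 := hJ hx.2
  rw [Finset.mem_Ioc] at h2 ⊢
  exact ⟨Nat.mul_pos hx.1.1 h2.1, Nat.mul_le_mul hx.1.2 h2.2⟩

lemma cv_norm (Y Z : ℕ) (c a : ℕ → ℂ) (J : Finset ℕ) (A : ℝ) (hA : 0 ≤ A)
    (hc : ∀ y ∈ Finset.Ioc 0 Y, ‖c y‖ ≤ 1) (ha : ∀ m ∈ J, ‖a m‖ ≤ A) :
    ∑ w ∈ Finset.Ioc 0 (Y * Z), ‖cv Y c J a w‖ ^ 2 ≤ A ^ 2 * (((Y * Z : ℕ) : ℝ) * (1 + Real.log ((Y * Z : ℕ) : ℝ)) ^ 3) := by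
  have h1 : ∀ w ∈ Finset.Ioc 0 (Y * Z), ‖cv Y c J a w‖ ^ 2 ≤ A ^ 2 * ((w.divisors.card : ℕ) : ℝ) ^ 2 := by
    intro w hw
    rw [Finset.mem_Ioc] at hw
    rw [← mul_pow]
    refine pow_le_pow_left₀ (norm_nonneg _) ?_ 2
    unfold cv
    refine (norm_sum_le _ _).trans ?_
    have h2 : ∀ x ∈ ((Finset.Ioc 0 Y) ×ˢ J).filter (fun x => x.1 * x.2 = w), ‖c x.1 * a x.2‖ ≤ A := by
      intro x hx
      rw [mem_filter, mem_product] at hx
      rw [norm_mul]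
      calc ‖c x.1‖ * ‖a x.2‖ ≤ 1 * A := mul_le_mul (hc _ hx.1.1) (ha _ hx.1.2) (norm_nonneg _) zero_le_one
        _ = A := one_mul A
    refine (sum_le_sum h2).trans ?_
    rw [sum_const, nsmul_eq_mul, mul_comm]
    refine mul_le_mul_of_nonneg_left ?_ hA
    have h3 : (((Finset.Ioc 0 Y) ×ˢ J).filter (fun x => x.1 * x.2 = w)).card ≤ w.divisors.card := by
      refine card_le_card_of_injOn (fun x => x.1) ?_ ?_
      · intro x hx
        rw [mem_coe, mem_filter] at hx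
        rw [mem_coe, Nat.mem_divisors]
        exact ⟨⟨x.2, hx.2.symm⟩, by omega⟩
      · intro x hx x' hx' hxx
        rw [mem_coe, mem_filter, mem_product, Finset.mem_Ioc] at hx hx'
        simp only at hxx
        have h4 : x.1 * x.2 = x.1 * x'.2 := by rw [hx.2, hxx, hx'.2]
        have h5 := Nat.eq_of_mul_eq_mul_left hx.1.1.1 h4
        exact Prod.ext hxx h5
    exact_mod_cast h3
  refine (sum_le_sum h1).trans ?_
  rw [← mul_sum]
  refine mul_le_mul_of_nonneg_left ?_ (by positivity)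
  have h4 := sum_card_div_sq (Y * Z)
  have h5 : Finset.Ioc 0 (Y * Z) = Finset.Icc 1 (Y * Z) := by ext k; simp only [Finset.mem_Ioc, Finset.mem_Icc]; omega
  rw [h5]
  exact h4

end Pool.Agent.Var73
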