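import Pool.Agent.Lib_helper73.Var.Assemble
import Pool.Agent.Lib_helper35.Var.Asym
import Pool.Agent.Lib_helper90.PNT.WienerIkehara

/-! PNT input and asymptotic preliminaries -/

set_option autoImplicit false

namespace Pool.Agent.Var73

open Finset Pool.Agent.Var35 Filter
open scoped ArithmeticFunction

lemma pnt_unif (δ : ℝ) (hδ : 0 < δ) : ∀ᶠ N : ℕ in atTop, ∀ j ≤ N, |∑ n ∈ Finset.Icc 1 j, Λ n - j| ≤ δ * N := by
  have h := Pool.Agent.Lib_helper90.PNT.tendsto_psi_div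
  rw [Metric.tendsto_atTop] at h
  obtain ⟨x0, hx0⟩ := h δ hδ
  have hpsi : ∀ j : ℕ, ∑ n ∈ Finset.Icc 1 j, Λ n = Chebyshev.psi (j:ℝ) := by
    intro j
    unfold Chebyshev.psi
    rw [Nat.floor_natCast, Icc_eq_Ioc]
  set C : ℝ := ∑ j ∈ range (⌈x0⌉₊ + 1), |∑ n ∈ Finset.Icc 1 j, Λ n - j| with hC
  have h1 : ∀ᶠ N : ℕ in atTop, C ≤ δ * N := by
    have h2 : Tendsto (fun N : ℕ => δ * (N:ℝ)) atTop atTop := tendsto_natCast_atTop_atTop.const_mul_atTop hδ
    exact h2.eventually_ge_atTop C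
  filter_upwards [h1, eventually_ge_atTop 1] with N hN hN1 j hj
  by_cases hc : (j:ℝ) < x0 ∨ j = 0
  · refine le_trans ?_ hN
    rw [hC]
    refine single_le_sum (f := fun j : ℕ => |∑ n ∈ Finset.Icc 1 j, Λ n - j|) (fun _ _ => abs_nonneg _) ?_
    rw [mem_range]
    rcases hc with hc | hc
    · have : j ≤ ⌈x0⌉₊ := by
        have h3 : (j:ℝ) < ⌈x0⌉₊ := lt_of_lt_of_le hc (Nat.le_ceil x0)
        exact_mod_cast h3.le
      omega
    · omega
  · push Not at hc
    have hj0 : (0:ℝ) < j := by exact_mod_cast Nat.pos_of_ne_zero hc.2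
    have h2 := hx0 j hc.1
    rw [Real.dist_eq] at h2
    rw [hpsi]
    have h3 : Chebyshev.psi (j:ℝ) - j = (Chebyshev.psi (j:ℝ) / j - 1) * j := by field_simp
    rw [h3, abs_mul, abs_of_pos hj0]
    have hjN : (j:ℝ) ≤ N := by exact_mod_cast hj
    exact mul_le_mul h2.le hjN hj0.le hδ.le

/-- eventual inequality for logarithms against powers along natural numbers -/
lemma ev_nat (k : ℕ) (s C : ℝ) (hs : 0 < s) (hC : 0 < C) :
    ∀ᶠ N : ℕ in atTop, C * (Real.log N) ^ k ≤ (N:ℝ) ^ s :=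
  tendsto_natCast_atTop_atTop.eventually (ev_log k s C hs hC)

lemma ev_log_ge (C : ℝ) : ∀ᶠ N : ℕ in atTop, C ≤ Real.log N :=
  (Real.tendsto_log_atTop.comp tendsto_natCast_atTop_atTop).eventually_ge_atTop C

/-- `log (L + 1)` is small compared to `L = log N` -/
lemma ev_loglog (C c : ℝ) (hc : 0 < c) (hC : 0 < C) :
    ∀ᶠ N : ℕ in atTop, C * (Real.log (Real.log N + 1)) ≤ c * Real.log N := by
  have h1 : ∀ᶠ x : ℝ in atTop, (C / c * 2) * (Real.log x) ^ 1 ≤ x ^ (1:ℝ) := ev_log 1 1 (C / c * 2) one_pos (by positivity)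
  have h2 : Tendsto (fun N : ℕ => Real.log (N:ℝ) + 1) atTop atTop :=
    (Real.tendsto_log_atTop.comp tendsto_natCast_atTop_atTop).atTop_add (tendsto_const_nhds (x := (1:ℝ)))
  have h3 := h2.eventually h1
  filter_upwards [h3, ev_log_ge 1] with N h4 h5
  simp only [Function.comp, pow_one, Real.rpow_one] at h4
  have h6 : C / c * 2 * Real.log (Real.log N + 1) ≤ 2 * Real.log N := by linarith
  have h7 : C * Real.log (Real.log N + 1) = c / 2 * (C / c * 2 * Real.log (Real.log N + 1)) := by field_simp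
  rw [h7]
  calc c / 2 * (C / c * 2 * Real.log (Real.log N + 1)) ≤ c / 2 * (2 * Real.log N) := mul_le_mul_of_nonneg_left h6 (by positivity)
    _ = _ := by ring

end Pool.Agent.Var73
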