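import Pool.Agent.Lib_helper73.Var.ErrA2

/-! Sums over squarefree moduli -/

set_option autoImplicit false

namespace Pool.Agent.Var73

open Finset Complex Pool.Agent.Var35 DirichletCharacter Filter
open scoped ArithmeticFunction ArithmeticFunction.Moebius ArithmeticFunction.zeta

lemma theta_sum (w : ℕ) : ∑ p ∈ (Finset.Icc 1 w).filter Nat.Prime, Real.log p ≤ Real.log 4 * w := by
  have h := Chebyshev.theta_le_log4_mul_x (x := (w:ℝ)) (Nat.cast_nonneg w)
  unfold Chebyshev.theta at h
  rw [Nat.floor_natCast] at h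
  rw [Icc_eq_Ioc]
  exact h

lemma log4_nonneg : 0 ≤ Real.log 4 := Real.log_nonneg (by norm_num)

lemma mertens (w : ℕ) : ∑ p ∈ (Finset.Icc 1 w).filter Nat.Prime, Real.log p / p ≤ Real.log 4 * (1 + Real.log w) := by
  set f : ℕ → ℝ := fun n => if n.Prime then Real.log n else 0 with hf
  have hf0 : ∀ n, 0 ≤ f n := by
    intro n; simp only [hf]
    split_ifs
    · exact Real.log_natCast_nonneg n
    · exact le_rfl
  have hF : ∀ w : ℕ, ∑ k ∈ Finset.Icc 1 w, f k ≤ Real.log 4 * w := by
    intro w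
    have := theta_sum w
    rw [sum_filter] at this
    exact this
  have hS : ∀ w : ℕ, 1 ≤ w → ∑ k ∈ Finset.Icc 1 w, f k / k ≤ Real.log 4 * (∑ k ∈ Finset.Icc 1 w, 1 / (k:ℝ)) + (∑ k ∈ Finset.Icc 1 w, f k) / w - Real.log 4 := by
    intro w hw
    induction w, hw using Nat.le_induction with
    | base => simp
    | succ w hw ih =>
        rw [Finset.sum_Icc_succ_top (by omega), Finset.sum_Icc_succ_top (by omega), Finset.sum_Icc_succ_top (by omega)]
        have hwr : (0:ℝ) < w := by exact_mod_cast hw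
        have h1 := hF w
        set F := ∑ k ∈ Finset.Icc 1 w, f k
        have h2 : F / w ≤ Real.log 4 * (1 / ((w + 1 : ℕ) : ℝ)) + F / ((w + 1 : ℕ) : ℝ) := by
          push_cast
          rw [div_le_iff₀ hwr, ← sub_nonneg]
          have h3 : (Real.log 4 * (1 / ((w:ℝ) + 1)) + F / ((w:ℝ) + 1)) * w - F = (Real.log 4 * w - F) / (w + 1) := by
            field_simp
            ring
          rw [h3]
          exact div_nonneg (by linarith) (by positivity)
        rw [add_div, mul_add]
        linarith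
  rcases Nat.eq_zero_or_pos w with h0 | h0
  · subst h0; simp; exact log4_nonneg
  have h1 := hS w h0
  have hwr : (0:ℝ) < w := by exact_mod_cast h0
  have h2 : (∑ k ∈ Finset.Icc 1 w, f k) / w ≤ Real.log 4 := by
    rw [div_le_iff₀ hwr]; exact hF w
  have h3 := mul_le_mul_of_nonneg_left (sum_inv_le w) log4_nonneg
  have h4 : ∑ p ∈ (Finset.Icc 1 w).filter Nat.Prime, Real.log p / p = ∑ k ∈ Finset.Icc 1 w, f k / k := by
    rw [sum_filter]
    refine sum_congr rfl fun k _ => ?_
    simp only [hf]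
    split_ifs <;> simp
  rw [h4]
  linarith

/-- prime divisors of `Q` -/
lemma mertens_dvd (Q w : ℕ) (hQ : 1 ≤ Q) (hw : 1 ≤ w) :
    ∑ p ∈ Q.primeFactors, Real.log p / p ≤ Real.log 4 * (1 + Real.log w) + Real.log Q / w := by
  have hwr : (0:ℝ) < w := by exact_mod_cast hw
  rw [← sum_filter_add_sum_filter_not Q.primeFactors (fun p => p ≤ w)]
  refine add_le_add ?_ ?_
  · refine le_trans ?_ (mertens w)
    refine sum_le_sum_of_subset_of_nonneg ?_ fun p _ _ => div_nonneg (Real.log_natCast_nonneg p) (Nat.cast_nonneg p)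
    intro p hp
    rw [mem_filter] at hp
    rw [mem_filter, Finset.mem_Icc]
    have := Nat.prime_of_mem_primeFactors hp.1
    exact ⟨⟨this.one_le, hp.2⟩, this⟩
  · have h1 : ∀ p ∈ Q.primeFactors.filter (fun p => ¬ p ≤ w), Real.log p / p ≤ Real.log p / w := by
      intro p hp
      rw [mem_filter] at hp
      refine div_le_div_of_nonneg_left (Real.log_natCast_nonneg p) hwr ?_
      exact_mod_cast (by omega : w ≤ p)
    refine (sum_le_sum h1).trans ?_
    rw [← sum_div]
    refine div_le_div_of_nonneg_right ?_ hwr.le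
    have h2 : ∑ p ∈ Q.primeFactors.filter (fun p => ¬ p ≤ w), Real.log p ≤ ∑ p ∈ Q.primeFactors, Real.log p :=
      sum_le_sum_of_subset_of_nonneg (filter_subset _ _) fun p _ _ => Real.log_natCast_nonneg p
    refine h2.trans ?_
    rw [← Real.log_prod (fun p hp => by
      have := (Nat.prime_of_mem_primeFactors hp).pos
      positivity)]
    have h3 : ∏ p ∈ Q.primeFactors, p ≤ Q := Nat.le_of_dvd hQ (Nat.prod_primeFactors_dvd Q)
    have h4 : (∏ p ∈ Q.primeFactors, (p:ℝ)) = ((∏ p ∈ Q.primeFactors, p : ℕ) : ℝ) := by push_cast; rfl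
    rw [h4]
    refine Real.log_le_log ?_ (by exact_mod_cast h3)
    have : 0 < ∏ p ∈ Q.primeFactors, p := prod_pos fun p hp => (Nat.prime_of_mem_primeFactors hp).pos
    exact_mod_cast this

/-- the radical -/
def rd (k : ℕ) : ℕ := ∏ p ∈ k.primeFactors, p

lemma rd_dvd (k : ℕ) : rd k ∣ k := Nat.prod_primeFactors_dvd k

lemma rd_pos (k : ℕ) : 0 < rd k := prod_pos fun _ hp => (Nat.prime_of_mem_primeFactors hp).pos

lemma primeFactors_rd (k : ℕ) : (rd k).primeFactors = k.primeFactors := by
  unfold rd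
  exact Nat.primeFactors_prod fun p hp => Nat.prime_of_mem_primeFactors hp

lemma rd_squarefree (k : ℕ) : Squarefree (rd k) := by
  unfold rd
  refine Finset.squarefree_prod_of_pairwise_isCoprime ?_ ?_
  · intro p hp q hq hpq
    rw [mem_coe] at hp hq
    simp only [Function.onFun]
    rw [← Nat.coprime_iff_isRelPrime]
    exact (Nat.coprime_primes (Nat.prime_of_mem_primeFactors hp) (Nat.prime_of_mem_primeFactors hq)).mpr hpq
  · intro p hp
    exact (Nat.prime_of_mem_primeFactors hp).squarefree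

/-- the function `1/n` as a monoid homomorphism -/
noncomputable def finv : ℕ →* ℝ where
  toFun := fun n => (n:ℝ)⁻¹
  map_one' := by simp
  map_mul' := by intro a b; push_cast; rw [mul_inv]

lemma rd_sum (m B : ℕ) (hm : 1 ≤ m) : ∑ k ∈ (Finset.Icc 1 B).filter (fun k => rd k = m), 1 / (k:ℝ) ≤ 1 / (Nat.totient m : ℝ) := by
  classical
  have hmr : (0:ℝ) < m := by exact_mod_cast hm
  set s := m.primeFactors with hs
  have h1 := (EulerProduct.summable_and_hasSum_factoredNumbers_prod_filter_prime_geometric (f := finv) (by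
    intro p hp
    have : (1:ℝ) < p := by exact_mod_cast hp.one_lt
    show ‖((p:ℝ)⁻¹)‖ < 1
    rw [norm_inv, Real.norm_of_nonneg (by positivity)]
    exact inv_lt_one_of_one_lt₀ this) s).2
  have h2 : ∏ p ∈ s with p.Prime, (1 - finv p)⁻¹ = (m:ℝ) / (Nat.totient m : ℝ) := by
    have h3 := Nat.totient_eq_mul_prod_factors m
    have h4 : (Nat.totient m : ℝ) = m * ∏ p ∈ m.primeFactors, (1 - (p:ℝ)⁻¹) := by
      have : (((Nat.totient m : ℕ) : ℚ) : ℝ) = (((m:ℚ) * ∏ p ∈ m.primeFactors, (1 - (p:ℚ)⁻¹) : ℚ) : ℝ) := by rw [h3]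
      push_cast at this
      exact this
    have h5 : s.filter (fun p => p.Prime) = s := by
      rw [filter_eq_self]
      intro p hp; exact Nat.prime_of_mem_primeFactors hp
    rw [h5, prod_inv_distrib, h4, ← hs]
    have h6 : ∏ p ∈ s, (1 - finv p) = ∏ p ∈ s, (1 - (p:ℝ)⁻¹) := rfl
    rw [h6]
    have h7 : (∏ p ∈ s, (1 - (p:ℝ)⁻¹)) ≠ 0 := by
      rw [prod_ne_zero_iff]
      intro p hp
      have : (1:ℝ) < p := by exact_mod_cast (Nat.prime_of_mem_primeFactors hp).one_lt
      have := inv_lt_one_of_one_lt₀ this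
      linarith
    field_simp
  rw [h2] at h1
  replace h1 : HasSum ((Nat.factoredNumbers s).indicator (fun n => finv n)) ((m:ℝ) / (Nat.totient m : ℝ)) :=
    hasSum_subtype_iff_indicator.mp h1
  set S := (Finset.Icc 1 B).filter (fun k => rd k = m) with hS
  have hdv : ∀ k ∈ S, m ∣ k := by
    intro k hk
    rw [hS, mem_filter] at hk
    rw [← hk.2]; exact rd_dvd k
  have h3 : ∑ k ∈ S, 1 / (k:ℝ) = (1 / m) * ∑ k ∈ S.image (fun k => k / m), (Nat.factoredNumbers s).indicator (fun n => finv n) k := by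
    rw [sum_image, mul_sum]
    · refine sum_congr rfl fun k hk => ?_
      obtain ⟨c, hc⟩ := hdv k hk
      have h4 : k / m = c := by rw [hc]; exact Nat.mul_div_cancel_left c hm
      rw [h4]
      have hk' := hk
      rw [hS, mem_filter, Finset.mem_Icc] at hk'
      have hc0 : c ≠ 0 := by
        intro h; rw [h, mul_zero] at hc; omega
      have h5 : c ∈ Nat.factoredNumbers s := by
        rw [Nat.mem_factoredNumbers_iff_primeFactors_subset]
        refine ⟨hc0, ?_⟩
        have h6 : k.primeFactors = s := by rw [← primeFactors_rd, hk'.2]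
        rw [← h6]
        exact Nat.primeFactors_mono (Dvd.intro_left m hc.symm) (by omega)
      rw [Set.indicator_of_mem h5]
      show 1 / (k:ℝ) = 1 / m * ((c:ℝ)⁻¹)
      rw [hc]; push_cast
      rw [one_div, mul_inv, one_div]
    · intro k hk k' hk' h
      simp only at h
      obtain ⟨c, hc⟩ := hdv k hk
      obtain ⟨c', hc'⟩ := hdv k' hk'
      rw [hc, hc', Nat.mul_div_cancel_left c hm, Nat.mul_div_cancel_left c' hm] at h
      rw [hc, hc', h]
  rw [h3]
  have h4 : ∑ k ∈ S.image (fun k => k / m), (Nat.factoredNumbers s).indicator (fun n => finv n) k ≤ (m:ℝ) / (Nat.totient m : ℝ) := by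
    refine sum_le_hasSum _ (fun k _ => ?_) h1
    refine Set.indicator_nonneg (fun n _ => ?_) k
    show (0:ℝ) ≤ (n:ℝ)⁻¹
    positivity
  calc (1 / (m:ℝ)) * ∑ k ∈ S.image (fun k => k / m), (Nat.factoredNumbers s).indicator (fun n => finv n) k
      ≤ (1 / m) * (m / (Nat.totient m : ℝ)) := mul_le_mul_of_nonneg_left h4 (by positivity)
    _ = 1 / (Nat.totient m : ℝ) := by field_simp

end Pool.Agent.Var73
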