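import Pool.Agent.Lib_helper35.Var.Func
import Pool.Agent.Lib_helper35.Var.Dual
import Pool.Agent.Lib_helper35.Var.Elem

/-! Dirichlet characters to general moduli: orthogonality, Gauss sums, conductors -/

set_option autoImplicit false

namespace Pool.Agent.Var73

open Finset Complex Pool.Agent.Var35 DirichletCharacter
open scoped ArithmeticFunction ArithmeticFunction.Moebius

section

variable (r : ℕ) [NeZero r]

lemma std_eq (j : ℤ) : (ZMod.stdAddChar (N := r) (j : ZMod r)) = e ((j:ℝ) / r) := by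
  rw [ZMod.stdAddChar_coe]
  unfold e
  congr 1
  push_cast
  ring

lemma std_eq_nat (j : ℕ) : (ZMod.stdAddChar (N := r) (j : ZMod r)) = e ((j:ℝ) / r) := by
  have := std_eq r (j : ℤ)
  push_cast at this
  exact this

variable {r}

lemma conj_char (χ : DirichletCharacter ℂ r) {s : ZMod r} (hs : IsUnit s) :
    (starRingEnd ℂ) (χ s) = χ s⁻¹ := by
  have h1 : χ s⁻¹ * χ s = 1 := by
    rw [← map_mul, ZMod.inv_mul_of_unit s hs, map_one]
  have h2 : ‖χ s‖ = 1 := by
    obtain ⟨u, rfl⟩ := hs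
    exact χ.unit_norm_eq_one u
  have h3 : (starRingEnd ℂ) (χ s) * χ s = 1 := by
    rw [mul_comm, Complex.mul_conj, Complex.normSq_eq_norm_sq, h2]; norm_num
  have h4 : χ s ≠ 0 := by
    intro h; rw [h, norm_zero] at h2; exact zero_ne_one h2
  exact mul_right_cancel₀ h4 (h3.trans h1.symm)

open scoped Classical in
lemma orthr (C : ZMod r → ℂ) :
    ∑ χ : DirichletCharacter ℂ r, ‖∑ a : ZMod r, χ a * C a‖ ^ 2
      = (Nat.totient r : ℝ) * ∑ a ∈ univ.filter (fun a : ZMod r => IsUnit a), ‖C a‖ ^ 2 := by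
  have hc : ((∑ χ : DirichletCharacter ℂ r, ‖∑ a : ZMod r, χ a * C a‖ ^ 2 : ℝ) : ℂ)
      = ((Nat.totient r : ℝ) * ∑ a ∈ univ.filter (fun a : ZMod r => IsUnit a), ‖C a‖ ^ 2 : ℝ) := by
    push_cast
    have h1 : ∀ χ : DirichletCharacter ℂ r, ((‖∑ a : ZMod r, χ a * C a‖ : ℂ)) ^ 2
        = ∑ a : ZMod r, ∑ s : ZMod r, (if IsUnit s then C a * (starRingEnd ℂ) (C s) * (χ s⁻¹ * χ a) else 0) := by
      intro χ
      have : ((‖∑ a : ZMod r, χ a * C a‖ : ℂ)) ^ 2
        = (∑ a : ZMod r, χ a * C a) * (starRingEnd ℂ) (∑ a : ZMod r, χ a * C a) := by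
        rw [Complex.mul_conj, Complex.normSq_eq_norm_sq]; push_cast; rfl
      rw [this, map_sum, sum_mul_sum]
      refine sum_congr rfl fun a _ => sum_congr rfl fun s _ => ?_
      rw [map_mul]
      by_cases hs : IsUnit s
      · rw [if_pos hs, conj_char χ hs]; ring
      · rw [if_neg hs, MulChar.map_nonunit χ hs]; simp
    rw [sum_congr rfl fun χ _ => h1 χ, sum_comm]
    rw [sum_congr rfl fun a _ => sum_comm]
    have h3 : ∀ a s : ZMod r, ∑ χ : DirichletCharacter ℂ r,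
          (if IsUnit s then C a * (starRingEnd ℂ) (C s) * (χ s⁻¹ * χ a) else 0)
        = if s = a ∧ IsUnit s then C a * (starRingEnd ℂ) (C s) * (Nat.totient r : ℂ) else 0 := by
      intro a s
      by_cases hs : IsUnit s
      · simp only [if_pos hs]
        rw [← mul_sum, DirichletCharacter.sum_char_inv_mul_char_eq ℂ hs a]
        by_cases hsr : s = a
        · rw [if_pos hsr, if_pos ⟨hsr, hs⟩]
        · rw [if_neg hsr, if_neg (fun h => hsr h.1)]; simp
      · simp only [if_neg hs, sum_const_zero]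
        rw [if_neg (fun h => hs h.2)]
    rw [sum_congr rfl fun a _ => sum_congr rfl fun s _ => h3 a s]
    have h4 : ∀ a : ZMod r, ∑ s : ZMod r, (if s = a ∧ IsUnit s then C a * (starRingEnd ℂ) (C s) * (Nat.totient r : ℂ) else 0)
        = if IsUnit a then (Nat.totient r : ℂ) * ((‖C a‖ : ℂ)) ^ 2 else 0 := by
      intro a
      rw [sum_eq_single a]
      · by_cases ha : IsUnit a
        · rw [if_pos ⟨rfl, ha⟩, if_pos ha, Complex.mul_conj, Complex.normSq_eq_norm_sq]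
          push_cast; ring
        · rw [if_neg (fun h => ha h.2), if_neg ha]
      · intro s _ hsr
        rw [if_neg (fun h => hsr h.1)]
      · intro h; exact absurd (mem_univ _) h
    rw [sum_congr rfl fun a _ => h4 a, ← sum_filter, mul_sum]
  exact_mod_cast hc

lemma addchar_expand (m : ZMod r) (hm : IsUnit m) :
    ∑ χ : DirichletCharacter ℂ r, gaussSum χ⁻¹ (ZMod.stdAddChar (N := r)) * χ m
      = (Nat.totient r : ℂ) * ZMod.stdAddChar (N := r) m := by
  set ψ := ZMod.stdAddChar (N := r) with hψ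
  have h2 : ∀ χ : DirichletCharacter ℂ r, gaussSum χ⁻¹ ψ * χ m = ∑ a : ZMod r, ψ a * (χ m * χ⁻¹ a) := by
    intro χ
    unfold gaussSum
    rw [sum_mul]
    refine sum_congr rfl fun a _ => by ring
  rw [sum_congr rfl fun χ _ => h2 χ, sum_comm]
  have h3 : ∀ a : ZMod r, ∑ χ : DirichletCharacter ℂ r, ψ a * (χ m * χ⁻¹ a)
      = if a = m then ψ m * (Nat.totient r : ℂ) else 0 := by
    intro a
    rw [← mul_sum]
    have h4 : ∑ χ : DirichletCharacter ℂ r, χ m * χ⁻¹ a = ∑ χ : DirichletCharacter ℂ r, χ m⁻¹ * χ a := by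
      refine Fintype.sum_bijective (fun χ : DirichletCharacter ℂ r => χ⁻¹) (inv_involutive.bijective) _ _ ?_
      intro χ
      rw [← conj_char χ⁻¹ hm]
      congr 1
      have h5 : star (χ⁻¹ m) = (χ⁻¹)⁻¹ m := MulChar.star_apply' χ⁻¹ m
      rw [inv_inv] at h5
      exact h5.symm
    rw [h4, DirichletCharacter.sum_char_inv_mul_char_eq ℂ hm a]
    by_cases h : m = a
    · rw [if_pos h, if_pos h.symm, h]
    · rw [if_neg h, if_neg (Ne.symm h), mul_zero]
  rw [sum_congr rfl fun a _ => h3 a, Finset.sum_ite_eq' univ m, if_pos (mem_univ _)]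
  ring

end

/-! ### the Chinese remainder theorem for Gauss sums -/

lemma char_level (s t : ℕ) [NeZero s] [NeZero t] (ψ : DirichletCharacter ℂ s) (j : ℕ) :
    changeLevel (Nat.dvd_mul_right s t) ψ (j : ZMod (s * t)) = if Nat.Coprime j t then ψ (j : ZMod s) else 0 := by
  by_cases hc : Nat.Coprime j (s * t)
  · have h1 : Nat.Coprime j t := Nat.Coprime.coprime_mul_left_right hc
    rw [if_pos h1]
    have h2 : IsCoprime (j:ℤ) ((s * t : ℕ) : ℤ) := Nat.isCoprime_iff_coprime.mpr hc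
    have := changeLevel_eq_cast_of_dvd' ψ (Nat.dvd_mul_right s t) h2
    simpa using this
  · have h1 : ¬ IsUnit ((j : ℕ) : ZMod (s * t)) := by
      rw [ZMod.isUnit_iff_coprime]; exact hc
    rw [MulChar.map_nonunit _ h1]
    by_cases ht : Nat.Coprime j t
    · rw [if_pos ht]
      have hs : ¬ Nat.Coprime j s := fun h => hc (Nat.Coprime.mul_right h ht)
      have h2 : ¬ IsUnit ((j : ℕ) : ZMod s) := by
        rw [ZMod.isUnit_iff_coprime]; exact hs
      rw [MulChar.map_nonunit _ h2]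
    · rw [if_neg ht]

open scoped Classical in
lemma gauss_crt (s t : ℕ) [NeZero s] [NeZero t] [NeZero (s * t)] (h : Nat.Coprime s t) (u v : ℤ)
    (huv : s * u + t * v = 1) (ψ : DirichletCharacter ℂ s) :
    gaussSum (changeLevel (Nat.dvd_mul_right s t) ψ) (ZMod.stdAddChar (N := s * t))
      = (∑ a : ZMod s, ψ a * ZMod.stdAddChar (N := s) ((v : ZMod s) * a))
        * (∑ b : ZMod t, if IsUnit b then ZMod.stdAddChar (N := t) ((u : ZMod t) * b) else 0) := by
  have hs0 : (s:ℝ) ≠ 0 := by exact_mod_cast NeZero.ne s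
  have ht0 : (t:ℝ) ≠ 0 := by exact_mod_cast NeZero.ne t
  set E := ZMod.chineseRemainder h with hE
  set f : ZMod s → ℂ := fun a => ψ a * ZMod.stdAddChar (N := s) ((v : ZMod s) * a) with hf
  set g : ZMod t → ℂ := fun b => if IsUnit b then ZMod.stdAddChar (N := t) ((u : ZMod t) * b) else 0 with hg
  have h1 : ∀ z : ZMod (s * t), changeLevel (Nat.dvd_mul_right s t) ψ z * ZMod.stdAddChar (N := s * t) z
      = f (E z).1 * g (E z).2 := by
    intro z
    obtain ⟨j, hj⟩ : ∃ j : ℕ, z = (j : ZMod (s * t)) := ⟨z.val, (ZMod.natCast_zmod_val z).symm⟩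
    subst hj
    have e1 : (E ((j : ℕ) : ZMod (s * t))) = ((j : ℕ) : ZMod s × ZMod t) := map_natCast E j
    rw [e1]
    have e2 : ((j : ℕ) : ZMod s × ZMod t).1 = (j : ZMod s) := rfl
    have e3 : ((j : ℕ) : ZMod s × ZMod t).2 = (j : ZMod t) := rfl
    rw [e2, e3, char_level, std_eq_nat]
    simp only [hf, hg]
    have e4 : IsUnit ((j : ℕ) : ZMod t) ↔ Nat.Coprime j t := ZMod.isUnit_iff_coprime j t
    have e5 : ZMod.stdAddChar (N := s) ((v : ZMod s) * (j : ZMod s)) = e (((v * j : ℤ) : ℝ) / s) := by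
      rw [← std_eq s (v * j)]; push_cast; rfl
    have e6 : ZMod.stdAddChar (N := t) ((u : ZMod t) * (j : ZMod t)) = e (((u * j : ℤ) : ℝ) / t) := by
      rw [← std_eq t (u * j)]; push_cast; rfl
    by_cases hc : Nat.Coprime j t
    · rw [if_pos hc, if_pos (e4.mpr hc), e5, e6]
      have e7 : ((j:ℝ) / ((s * t : ℕ) : ℝ)) = ((v * j : ℤ) : ℝ) / s + ((u * j : ℤ) : ℝ) / t := by
        have huv' : (s:ℝ) * u + t * v = 1 := by exact_mod_cast huv
        push_cast
        field_simp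
        linear_combination (-(j:ℝ)) * huv'
      rw [e7, e_add]; ring
    · rw [if_neg hc, if_neg (fun h => hc (e4.mp h))]; simp
  unfold gaussSum
  rw [sum_congr rfl fun z _ => h1 z]
  have h2 : ∑ z : ZMod (s * t), f (E z).1 * g (E z).2 = ∑ x : ZMod s × ZMod t, f x.1 * g x.2 :=
    Equiv.sum_comp E.toEquiv (fun x : ZMod s × ZMod t => f x.1 * g x.2)
  rw [h2, Fintype.sum_prod_type, sum_mul_sum]

open scoped Classical in
lemma sum_unit_std (t : ℕ) [NeZero t] (u : ℤ) (hu : IsCoprime u (t:ℤ)) :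
    (∑ b : ZMod t, if IsUnit b then ZMod.stdAddChar (N := t) ((u : ZMod t) * b) else 0) = ((μ t : ℤ) : ℂ) := by
  rw [← ram_coprime t (Nat.pos_of_ne_zero (NeZero.ne t)) u hu]
  unfold ram
  rw [sum_filter]
  symm
  refine Finset.sum_nbij' (fun c => (c : ZMod t)) (fun x => x.val) ?_ ?_ ?_ ?_ ?_
  · intro c _; exact mem_univ _
  · intro x _; rw [mem_range]; exact ZMod.val_lt x
  · intro c hc; rw [mem_range] at hc; exact ZMod.val_cast_of_lt hc
  · intro x _; exact ZMod.natCast_zmod_val x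
  · intro c _
    have e4 : IsUnit ((c : ℕ) : ZMod t) ↔ Nat.Coprime c t := ZMod.isUnit_iff_coprime c t
    by_cases hc : Nat.Coprime c t
    · rw [if_pos hc, if_pos (e4.mpr hc)]
      have := std_eq t (u * c)
      push_cast at this
      rw [this]; congr 1; ring
    · rw [if_neg hc, if_neg (fun h => hc (e4.mp h))]

lemma sum_norm_sq_shift {d : ℕ} [NeZero d] (C : ZMod d → ℂ) :
    ∑ m : ZMod d, ‖∑ a : ZMod d, C a * ZMod.stdAddChar (N := d) (m * a)‖ ^ 2 = (d:ℝ) * ∑ a : ZMod d, ‖C a‖ ^ 2 := by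
  have hc : ((∑ m : ZMod d, ‖∑ a : ZMod d, C a * ZMod.stdAddChar (N := d) (m * a)‖ ^ 2 : ℝ) : ℂ)
      = ((d:ℝ) * ∑ a : ZMod d, ‖C a‖ ^ 2 : ℝ) := by
    push_cast
    have h1 : ∀ m : ZMod d, ((‖∑ a : ZMod d, C a * ZMod.stdAddChar (N := d) (m * a)‖ : ℂ)) ^ 2
        = ∑ a : ZMod d, ∑ b : ZMod d, C a * (starRingEnd ℂ) (C b) * ZMod.stdAddChar (N := d) (m * (a - b)) := by
      intro m
      have : ((‖∑ a : ZMod d, C a * ZMod.stdAddChar (N := d) (m * a)‖ : ℂ)) ^ 2
        = (∑ a : ZMod d, C a * ZMod.stdAddChar (N := d) (m * a)) * (starRingEnd ℂ) (∑ a : ZMod d, C a * ZMod.stdAddChar (N := d) (m * a)) := by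
        rw [Complex.mul_conj, Complex.normSq_eq_norm_sq]; push_cast; rfl
      rw [this, map_sum, sum_mul_sum]
      refine sum_congr rfl fun a _ => sum_congr rfl fun b _ => ?_
      rw [map_mul (starRingEnd ℂ), ← AddChar.map_neg_eq_conj]
      calc C a * ZMod.stdAddChar (N := d) (m * a) * ((starRingEnd ℂ) (C b) * ZMod.stdAddChar (N := d) (-(m * b)))
          = C a * (starRingEnd ℂ) (C b) * (ZMod.stdAddChar (N := d) (m * a) * ZMod.stdAddChar (N := d) (-(m * b))) := by ring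
        _ = _ := by rw [← AddChar.map_add_eq_mul]; congr 2; ring
    rw [sum_congr rfl fun m _ => h1 m, sum_comm, mul_sum]
    refine sum_congr rfl fun a _ => ?_
    rw [sum_comm, sum_eq_single a]
    · rw [sub_self]
      simp only [mul_zero, AddChar.map_zero_eq_one, mul_one, sum_const, card_univ, ZMod.card, nsmul_eq_mul]
      rw [Complex.mul_conj, Complex.normSq_eq_norm_sq]; push_cast; ring
    · intro b _ hb
      rw [← mul_sum]
      have h2 : ∑ m : ZMod d, ZMod.stdAddChar (N := d) (m * (a - b)) = 0 := by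
        have h3 := AddChar.sum_mulShift (a - b) (ZMod.isPrimitive_stdAddChar d)
        rw [if_neg (sub_ne_zero.mpr (Ne.symm hb))] at h3
        simpa using h3
      rw [h2, mul_zero]
    · intro h; exact absurd (mem_univ _) h
  exact_mod_cast hc

open scoped Classical in
lemma card_units_filter (d : ℕ) [NeZero d] : (univ.filter (fun a : ZMod d => IsUnit a)).card = Nat.totient d := by
  rw [← ZMod.card_units_eq_totient d, ← Finset.card_univ]
  symm
  refine Finset.card_bij (fun (u : (ZMod d)ˣ) _ => (u : ZMod d)) ?_ ?_ ?_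
  · intro u _; simp
  · intro u _ u' _ h; exact Units.ext h
  · intro a ha
    simp only [mem_filter, mem_univ, true_and] at ha
    exact ⟨ha.unit, mem_univ _, rfl⟩

lemma sum_norm_char {d : ℕ} [NeZero d] (χ : DirichletCharacter ℂ d) : ∑ a : ZMod d, ‖χ a‖ ^ 2 = (Nat.totient d : ℝ) := by
  classical
  have h1 : ∀ a : ZMod d, ‖χ a‖ ^ 2 = if IsUnit a then 1 else 0 := by
    intro a
    split_ifs with h
    · obtain ⟨u, rfl⟩ := h
      rw [χ.unit_norm_eq_one u]; norm_num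
    · rw [MulChar.map_nonunit _ h]; simp
  rw [sum_congr rfl fun a _ => h1 a, ← sum_filter, sum_const, nsmul_eq_mul, mul_one, card_units_filter]

lemma gauss_shift_eq {d : ℕ} [NeZero d] (ψ : DirichletCharacter ℂ d) (hψ : ψ.IsPrimitive) (m : ZMod d) :
    ∑ a : ZMod d, ψ a * ZMod.stdAddChar (N := d) (m * a) = ψ⁻¹ m * gaussSum ψ (ZMod.stdAddChar (N := d)) := by
  rw [← gaussSum_mulShift_of_isPrimitive _ hψ m]
  rfl

lemma gauss_norm_prim {d : ℕ} [NeZero d] (ψ : DirichletCharacter ℂ d) (hψ : ψ.IsPrimitive) :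
    ‖gaussSum ψ (ZMod.stdAddChar (N := d))‖ ^ 2 = d := by
  have h1 := sum_norm_sq_shift (d := d) (fun a => ψ a)
  rw [sum_congr rfl fun m _ => by rw [gauss_shift_eq ψ hψ m]] at h1
  have h2 : ∑ m : ZMod d, ‖ψ⁻¹ m * gaussSum ψ (ZMod.stdAddChar (N := d))‖ ^ 2
      = (Nat.totient d : ℝ) * ‖gaussSum ψ (ZMod.stdAddChar (N := d))‖ ^ 2 := by
    rw [← sum_norm_char ψ⁻¹, sum_mul]
    refine sum_congr rfl fun m _ => ?_
    rw [norm_mul, mul_pow]
  rw [h2, sum_norm_char] at h1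
  have h3 : (Nat.totient d : ℝ) ≠ 0 := by
    have := Nat.totient_pos.mpr (Nat.pos_of_ne_zero (NeZero.ne d))
    exact_mod_cast this.ne'
  have h4 : (Nat.totient d : ℝ) * ‖gaussSum ψ (ZMod.stdAddChar (N := d))‖ ^ 2 = (Nat.totient d : ℝ) * d := by
    rw [h1]; ring
  exact mul_left_cancel₀ h3 h4

lemma gauss_norm_level {r d : ℕ} [NeZero r] (hd : d ∣ r) (hr : Squarefree r) (ψ : DirichletCharacter ℂ d) (hψ : ψ.IsPrimitive) :
    ‖gaussSum (changeLevel hd ψ) (ZMod.stdAddChar (N := r))‖ ^ 2 ≤ d := by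
  obtain ⟨m, rfl⟩ := hd
  have hd0 : NeZero d := ⟨fun h => NeZero.ne (d * m) (by rw [h, zero_mul])⟩
  have hm0 : NeZero m := ⟨fun h => NeZero.ne (d * m) (by rw [h, mul_zero])⟩
  have hc : Nat.Coprime d m := Nat.coprime_of_squarefree_mul hr
  obtain ⟨u, v, huv⟩ : ∃ u v : ℤ, (d:ℤ) * u + m * v = 1 := by
    have h1 : IsCoprime (d:ℤ) (m:ℤ) := Nat.isCoprime_iff_coprime.mpr hc
    obtain ⟨u, v, h2⟩ := h1
    exact ⟨u, v, by linarith⟩
  rw [gauss_crt d m hc u v huv ψ, sum_unit_std m u ⟨d, v, by linarith⟩, gauss_shift_eq ψ hψ, norm_mul, norm_mul, mul_pow, mul_pow,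
    gauss_norm_prim ψ hψ]
  have h2 : ‖((μ m : ℤ) : ℂ)‖ ≤ 1 := by
    rw [Complex.norm_intCast]
    exact_mod_cast ArithmeticFunction.abs_moebius_le_one (n := m)
  have h3 : ‖ψ⁻¹ (v : ZMod d)‖ ≤ 1 := DirichletCharacter.norm_le_one _ _
  have h4 : ‖((μ m : ℤ) : ℂ)‖ ^ 2 ≤ 1 := pow_le_one₀ (norm_nonneg _) h2
  have h5 : ‖ψ⁻¹ (v : ZMod d)‖ ^ 2 ≤ 1 := pow_le_one₀ (norm_nonneg _) h3
  have hd1 : (0:ℝ) ≤ d := Nat.cast_nonneg d
  calc ‖ψ⁻¹ (v : ZMod d)‖ ^ 2 * d * ‖((μ m : ℤ) : ℂ)‖ ^ 2 ≤ 1 * d * 1 := by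
        refine mul_le_mul (mul_le_mul_of_nonneg_right h5 hd1) h4 (by positivity) (by positivity)
    _ = d := by ring

lemma gauss_norm_le {r : ℕ} [NeZero r] (hr : Squarefree r) (χ : DirichletCharacter ℂ r) :
    ‖gaussSum χ (ZMod.stdAddChar (N := r))‖ ≤ Real.sqrt χ.conductor := by
  refine Real.le_sqrt_of_sq_le ?_
  conv_lhs => rw [← changeLevel_primitiveCharacter χ]
  exact gauss_norm_level χ.conductor_dvd_level hr χ.primitiveCharacter (primitiveCharacter_isPrimitive χ)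

open scoped Classical in
lemma filter_cond_eq (s t : ℕ) [NeZero s] [NeZero (s * t)] :
    (univ : Finset (DirichletCharacter ℂ (s * t))).filter (fun χ => χ.conductor ∣ s)
      = (univ : Finset (DirichletCharacter ℂ s)).image (fun ψ => changeLevel (Nat.dvd_mul_right s t) ψ) := by
  ext χ
  simp only [mem_filter, mem_univ, true_and, mem_image]
  rw [← mem_conductorSet_iff_conductor_dvd χ (Nat.dvd_mul_right s t), mem_conductorSet_iff]
  constructor
  · rintro ⟨_, χ₀, h⟩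
    exact ⟨χ₀, h.symm⟩
  · rintro ⟨ψ, h⟩
    exact ⟨Nat.dvd_mul_right s t, ψ, h.symm⟩

open scoped Classical in
lemma Ppart (s t : ℕ) [NeZero s] [NeZero t] [NeZero (s * t)] (h : Nat.Coprime s t) (u v : ℤ)
    (huv : s * u + t * v = 1) (j : ℤ) (hj : IsCoprime j ((s * t : ℕ) : ℤ)) :
    ∑ χ ∈ univ.filter (fun χ : DirichletCharacter ℂ (s * t) => χ.conductor ∣ s),
        gaussSum χ⁻¹ (ZMod.stdAddChar (N := s * t)) * χ (j : ZMod (s * t))
      = (Nat.totient s : ℂ) * ((μ t : ℤ) : ℂ) * e (((v * j : ℤ) : ℝ) / s) := by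
  rw [filter_cond_eq, sum_image (fun a _ b _ hab => changeLevel_injective (Nat.dvd_mul_right s t) hab)]
  have hjs : IsCoprime j (s:ℤ) := by
    refine IsCoprime.of_isCoprime_of_dvd_right hj ?_
    push_cast
    exact Dvd.intro _ rfl
  have hu : IsUnit ((j : ℤ) : ZMod s) := ⟨ZMod.unitOfIsCoprime j hjs, ZMod.coe_unitOfIsCoprime j hjs⟩
  have h1 : ∀ ψ : DirichletCharacter ℂ s,
      gaussSum (changeLevel (Nat.dvd_mul_right s t) ψ)⁻¹ (ZMod.stdAddChar (N := s * t))
        * (changeLevel (Nat.dvd_mul_right s t) ψ) (j : ZMod (s * t))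
      = ((μ t : ℤ) : ℂ) * ∑ a : ZMod s, ZMod.stdAddChar (N := s) ((v : ZMod s) * a) * (ψ j * ψ⁻¹ a) := by
    intro ψ
    rw [← map_inv, gauss_crt s t h u v huv ψ⁻¹, sum_unit_std t u ⟨s, v, by linarith⟩,
      changeLevel_eq_cast_of_dvd' ψ _ hj, mul_comm, mul_comm (∑ a : ZMod s, _) _, mul_sum, mul_sum, mul_sum]
    refine sum_congr rfl fun a _ => by ring
  rw [sum_congr rfl fun ψ _ => h1 ψ, ← mul_sum, sum_comm]
  have h3 : ∀ a : ZMod s, ∑ ψ : DirichletCharacter ℂ s, ZMod.stdAddChar (N := s) ((v : ZMod s) * a) * (ψ j * ψ⁻¹ a)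
      = if a = (j : ZMod s) then ZMod.stdAddChar (N := s) ((v : ZMod s) * j) * (Nat.totient s : ℂ) else 0 := by
    intro a
    rw [← mul_sum]
    have h4 : ∑ ψ : DirichletCharacter ℂ s, ψ j * ψ⁻¹ a = ∑ ψ : DirichletCharacter ℂ s, ψ (j : ZMod s)⁻¹ * ψ a := by
      refine Fintype.sum_bijective (fun χ : DirichletCharacter ℂ s => χ⁻¹) (inv_involutive.bijective) _ _ ?_
      intro χ
      rw [← conj_char χ⁻¹ hu]
      congr 1
      have h5 : star (χ⁻¹ (j : ZMod s)) = (χ⁻¹)⁻¹ (j : ZMod s) := MulChar.star_apply' χ⁻¹ _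
      rw [inv_inv] at h5
      exact h5.symm
    rw [h4, DirichletCharacter.sum_char_inv_mul_char_eq ℂ hu a]
    by_cases h : (j : ZMod s) = a
    · rw [if_pos h, if_pos h.symm, h]
    · rw [if_neg h, if_neg (Ne.symm h), mul_zero]
  rw [sum_congr rfl fun a _ => h3 a, Finset.sum_ite_eq' univ (j : ZMod s), if_pos (mem_univ _)]
  have h6 := std_eq s (v * j)
  push_cast at h6 ⊢
  rw [h6]; ring

open scoped Classical in
/-- expansion of the additive character -/
lemma e_expand (s t : ℕ) [NeZero s] [NeZero t] [NeZero (s * t)] (h : Nat.Coprime s t) (u v : ℤ)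
    (huv : s * u + t * v = 1) (j : ℤ) (hj : IsCoprime j ((s * t : ℕ) : ℤ)) :
    e ((j:ℝ) / ((s * t : ℕ) : ℝ)) = (((μ t : ℤ) : ℂ) / (Nat.totient t : ℂ)) * e (((v * j : ℤ) : ℝ) / s)
      + (1 / (Nat.totient (s * t) : ℂ)) * ∑ χ ∈ univ.filter (fun χ : DirichletCharacter ℂ (s * t) => ¬ χ.conductor ∣ s),
        gaussSum χ⁻¹ (ZMod.stdAddChar (N := s * t)) * χ (j : ZMod (s * t)) := by
  have hu : IsUnit ((j : ℤ) : ZMod (s * t)) := ⟨ZMod.unitOfIsCoprime j hj, ZMod.coe_unitOfIsCoprime j hj⟩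
  have h1 := addchar_expand (r := s * t) (j : ZMod (s * t)) hu
  rw [← sum_filter_add_sum_filter_not univ (fun χ : DirichletCharacter ℂ (s * t) => χ.conductor ∣ s),
    Ppart s t h u v huv j hj, std_eq] at h1
  have hs : (Nat.totient s : ℂ) ≠ 0 := by
    have := Nat.totient_pos.mpr (Nat.pos_of_ne_zero (NeZero.ne s))
    exact_mod_cast this.ne'
  have ht : (Nat.totient t : ℂ) ≠ 0 := by
    have := Nat.totient_pos.mpr (Nat.pos_of_ne_zero (NeZero.ne t))
    exact_mod_cast this.ne'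
  have hst : (Nat.totient (s * t) : ℂ) = (Nat.totient s : ℂ) * (Nat.totient t : ℂ) := by
    rw [Nat.totient_mul h]; push_cast; rfl
  rw [hst] at h1 ⊢
  field_simp
  linear_combination (-1 : ℂ) * h1

end Pool.Agent.Var73
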