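import Pool.Agent.Lib_helper73.Var.Mod3

/-! Assembly of the lower bound -/

set_option autoImplicit false

namespace Pool.Agent.Var73

open Finset Complex Pool.Agent.Var35 DirichletCharacter Filter
open scoped ArithmeticFunction ArithmeticFunction.Moebius ArithmeticFunction.zeta

lemma exists_am (r Q : ℕ) (hr : 1 ≤ r) (hQ : 1 ≤ Q) (h : Nat.Coprime r Q) : ∃ a m : ℕ, r * a = 1 + Q * m := by
  rcases Nat.eq_or_lt_of_le hQ with h1 | h1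
  · refine ⟨1, r - 1, ?_⟩
    rw [← h1]; omega
  · obtain ⟨a, ha⟩ := Nat.exists_mul_mod_eq_one_of_coprime h h1
    refine ⟨a, r * a / Q, ?_⟩
    have := Nat.mod_add_div (r * a) Q
    have h2 : r * a % Q = 1 := ha.2
    omega

theorem assemble (N Q Rl I B z z0 S1 D0 t : ℕ) (x K q Δ Lg κ θ E : ℝ) (hB : B = 2 ^ I * Rl)
    (hN : 1 ≤ N) (hQ : 1 ≤ Q) (hx : 0 ≤ x) (hxN : x ≤ 2 * N) (hK : 1 ≤ K) (hRl : 1 ≤ Rl) (hz : 2 ≤ z) (hS1 : 2 ≤ S1) (ht : 1 ≤ t)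
    (hq0 : 0 ≤ q) (hqQ : q ≤ Q) (hQq : (Q:ℝ) ≤ 2 * q) (hKq : 2 * (N:ℝ) ≤ K * (Rl * q))
    (hD0 : ∀ r ∈ RRs Q Rl B z0 S1, (rgp z0 r).divisors.card ≤ D0)
    (hsm : 2 * K * (z:ℝ) ^ 2 * (B:ℝ) ^ 2 < N)
    (hΔ : ∀ j ≤ N, |∑ n ∈ Finset.Icc 1 j, Λ n - j| ≤ Δ) (hΔN : Δ ≤ N)
    (hLg1 : 1 ≤ Lg) (hLN : Real.log N ≤ Lg) (hLQ : 2 * Real.log Q + 1 ≤ Lg) (hLr : 2 * Real.log (B:ℝ) + 1 ≤ Lg)
    (hLY : 1 + Real.log (K * (B:ℝ) * Q) ≤ Lg) (hLg2 : Lg ^ 2 ≤ N)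
    (hκ : N / (Rl * Q) + 4 / K + 4 * K * (Lg ^ 2 + (1 + 2 * Real.pi * K) * Δ) / N ≤ κ) (hκ1 : κ ≤ 1)
    (hθ : 1 / t + (∑ p ∈ Q.primeFactors, Real.log p / p) / Real.log z
        + (∑ p ∈ (Finset.Icc 1 z0).filter Nat.Prime, Real.log p / p) / Real.log S1 ≤ θ)
    (hE : ∀ m : ℕ → ℕ, (∀ r ∈ RRs Q Rl B z0 S1, ∃ a, r * a = 1 + Q * m r) →
      ‖∑ r ∈ RRs Q Rl B z0 S1, E2t N Q (Yi K q N Rl (ib Rl r)) r (smp z0 r) (m r)‖ ≤ E) :
    N * (1 - κ) * (Real.log (B:ℝ) - Real.log ((z * Rl : ℕ) * (t:ℝ) ^ 2) - 1 - (1 + Real.log (B:ℝ)) * θ)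
      - (2 * z * N / Q) *
        (4 * (K + K ^ 2) * Lg ^ 3 * (Q / N) * (B:ℝ) ^ 2 + (11 * (1 + 2 * Real.pi * K) + 2) * N * S1 ^ 2 * D0 * Lg ^ 2 / Rl
          + 2 * E)
      ≤ GV N x Q := by
  have hpi := Real.pi_pos
  have hNr : (0:ℝ) < N := by exact_mod_cast hN
  have hQr : (1:ℝ) ≤ Q := by exact_mod_cast hQ
  have hRlr : (1:ℝ) ≤ Rl := by exact_mod_cast hRl
  have hB1 : 1 ≤ B := by rw [hB]; exact Nat.one_le_iff_ne_zero.mpr (Nat.mul_ne_zero (by positivity) (by omega))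
  set RR := RRs Q Rl B z0 S1 with hRR
  have hmem : ∀ r ∈ RR, (Rl < r ∧ r ≤ B) ∧ Squarefree r ∧ Nat.Coprime r Q ∧ smp z0 r ≤ S1 := by
    intro r hr
    rw [hRR] at hr
    unfold RRs at hr
    rw [mem_filter, Finset.mem_Ioc] at hr
    exact hr
  have hex : ∀ r : ℕ, ∃ am : ℕ × ℕ, r ∈ RR → r * am.1 = 1 + Q * am.2 := by
    intro r
    by_cases hr : r ∈ RR
    · obtain ⟨a, m, h⟩ := exists_am r Q (by have := (hmem r hr).1.1; omega) hQ (hmem r hr).2.2.1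
      exact ⟨(a, m), fun _ => h⟩
    · exact ⟨(0, 0), fun h => absurd h hr⟩
  choose am ham using hex
  set Yf : ℕ → ℕ := fun r => Yi K q N Rl (ib Rl r) with hYf
  have hblock : ∀ r ∈ RR, 1 ≤ Yf r ∧ (Yf r : ℝ) * N ≤ K * ((r:ℝ) * Q) ∧ ((r : ℝ) * Q) ≤ (8 / K) * (Yf r * N) ∧ 1 + Real.log (Yf r) ≤ Lg := by
    intro r hr
    obtain ⟨⟨h1, h2⟩, _⟩ := hmem r hr
    obtain ⟨h3, h4⟩ := ib_spec Rl r hRl h1
    have h5 := Yi_le K q N Rl (ib Rl r) (by linarith) hq0 hN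
    obtain ⟨h6, h7⟩ := Yi_ge K q N Rl (ib Rl r) (by linarith) hq0 hN hKq
    have h6r : (1:ℝ) ≤ Yf r := by exact_mod_cast h6
    have h3r : (((2 ^ (ib Rl r) * Rl : ℕ)) : ℝ) ≤ r := by exact_mod_cast h3.le
    have h4r : (r:ℝ) ≤ 2 * (((2 ^ (ib Rl r) * Rl : ℕ)) : ℝ) := by exact_mod_cast h4
    have h30 : (0:ℝ) ≤ (((2 ^ (ib Rl r) * Rl : ℕ)) : ℝ) := Nat.cast_nonneg _
    have h8 : (Yf r : ℝ) * N ≤ K * ((r:ℝ) * Q) := by
      refine h5.trans ?_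
      refine mul_le_mul_of_nonneg_left ?_ (by linarith)
      exact mul_le_mul h3r hqQ hq0 (Nat.cast_nonneg _)
    refine ⟨h6, h8, ?_, ?_⟩
    · have h9 : K * ((r:ℝ) * Q) ≤ 8 * (Yf r * N) := by
        calc K * ((r:ℝ) * Q) ≤ K * ((2 * (((2 ^ (ib Rl r) * Rl : ℕ)) : ℝ)) * (2 * q)) := by
              refine mul_le_mul_of_nonneg_left ?_ (by linarith)
              exact mul_le_mul h4r hQq (by linarith) (by positivity)
          _ = 4 * (K * ((((2 ^ (ib Rl r) * Rl : ℕ)) : ℝ) * q)) := by ring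
          _ ≤ 4 * (2 * (Yf r * N)) := mul_le_mul_of_nonneg_left h7 (by norm_num)
          _ = _ := by ring
      have hK0 : 0 < K := by linarith
      rw [div_mul_eq_mul_div, le_div_iff₀ hK0]
      linarith
    · refine le_trans ?_ hLY
      have h9 : (Yf r : ℝ) ≤ K * (B:ℝ) * Q := by
        have h10 : (Yf r : ℝ) ≤ Yf r * N := le_mul_of_one_le_right (by linarith) (by exact_mod_cast hN)
        refine h10.trans (h8.trans ?_)
        have h2r : (r:ℝ) ≤ B := by exact_mod_cast h2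
        calc K * ((r:ℝ) * Q) = (K * r) * Q := by ring
          _ ≤ (K * B) * Q := by
              refine mul_le_mul_of_nonneg_right ?_ (by linarith)
              exact mul_le_mul_of_nonneg_left h2r (by linarith)
      have := Real.log_le_log (by linarith) h9
      linarith
  have hfix := fixed N Q B Rl z z0 S1 D0 x K Δ Lg (8 / K) (GGs Q z) RR (fun r => (am r).1) (fun r => (am r).2) Yf
    hN hQ hx hxN (by linarith) hRl
    (fun g hg => by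
      unfold GGs at hg
      rw [mem_filter, Nat.mem_divisors] at hg
      exact ⟨hg.1.1, hg.2.1, hg.2.2⟩)
    (fun r hr => ⟨(hmem r hr).1.1, (hmem r hr).1.2, (hmem r hr).2.1, (hmem r hr).2.2.2, hD0 r hr⟩)
    (fun r hr => ham r hr)
    (fun r hr => (hblock r hr).1) (fun r hr => (hblock r hr).2.1) (fun r hr => (hblock r hr).2.2.1) hsm hΔ hΔN hLg1 hLN hLQ hLr
    (fun r hr => (hblock r hr).2.2.2) hLg2
  refine le_trans ?_ hfix
  have hEb := hE (fun r => (am r).2) (fun r hr => ⟨(am r).1, ham r hr⟩)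
  obtain ⟨Gs, hGs⟩ : ∃ Gs, Gs = ∑ g ∈ GGs Q z, 1 / (Nat.totient g : ℝ) := ⟨_, rfl⟩
  obtain ⟨SR, hSR⟩ : ∃ SR, SR = ∑ r ∈ RR, 1 / (Nat.totient r : ℝ) := ⟨_, rfl⟩
  have hGs0 : 0 ≤ Gs := by rw [hGs]; exact sum_nonneg fun _ _ => by positivity
  have hSR0 : 0 ≤ SR := by rw [hSR]; exact sum_nonneg fun _ _ => by positivity
  have hGsz : Gs ≤ z := by rw [hGs]; exact Gs_le Q z hQ
  have hprod := prod_lower Q Rl B z S1 z0 hQ
  have hml := mod_lower Q (z * Rl) B z S1 z0 t hQ ht hB1 hz hS1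
  rw [← hGs, ← hRR, ← hSR] at hprod
  rw [← hGs, ← hSR]
  have hBr : (1:ℝ) ≤ B := by exact_mod_cast hB1
  have hlB : 0 ≤ Real.log B := Real.log_nonneg hBr
  have hmain : Real.log B - Real.log ((z * Rl : ℕ) * (t:ℝ) ^ 2) - 1 - (1 + Real.log B) * θ ≤ Gs * SR := by
    have h1 := mul_le_mul_of_nonneg_left hθ (by linarith : 0 ≤ 1 + Real.log B)
    linarith
  refine sub_le_sub ?_ ?_
  · have h1 : 1 - κ ≤ 1 - N / (Rl * Q) - 8 / K / 2 - 4 * K * (Lg ^ 2 + (1 + 2 * Real.pi * K) * Δ) / N := by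
      have : 8 / K / 2 = 4 / K := by ring
      rw [this]
      linarith
    calc N * (1 - κ) * (Real.log B - Real.log ((z * Rl : ℕ) * (t:ℝ) ^ 2) - 1 - (1 + Real.log B) * θ)
        ≤ N * (1 - κ) * (Gs * SR) := mul_le_mul_of_nonneg_left hmain (mul_nonneg hNr.le (by linarith))
      _ = N * Gs * (SR * (1 - κ)) := by ring
      _ ≤ _ := by
          refine mul_le_mul_of_nonneg_left ?_ (by positivity)
          exact mul_le_mul_of_nonneg_left h1 hSR0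
  · have hΔ0 : 0 ≤ Δ := (abs_nonneg _).trans (hΔ N le_rfl)
    refine mul_le_mul ?_ ?_ ?_ (by positivity)
    · refine div_le_div_of_nonneg_right ?_ (by linarith)
      refine mul_le_mul_of_nonneg_right ?_ hNr.le
      linarith
    · linarith
    · have : 0 ≤ ‖∑ r ∈ RR, E2t N Q (Yf r) r (smp z0 r) ((fun r => (am r).2) r)‖ := norm_nonneg _
      positivity

end Pool.Agent.Var73
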