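import Pool.Agent.Lib_helper73.Var.Sep

/-! Counting in residue classes and averages over the smooth variable -/

set_option autoImplicit false

namespace Pool.Agent.Var73

open Finset Complex Pool.Agent.Var35 DirichletCharacter Filter
open scoped ArithmeticFunction ArithmeticFunction.Moebius ArithmeticFunction.zeta

lemma cnt_mod (m c u : ℕ) (hm : 0 < m) :
    |(((Finset.Ioc 0 u).filter (fun y => y ≡ c [MOD m])).card : ℝ) - u / m| ≤ 1 := by
  have h := Nat.Ioc_filter_modEq_card 0 u hm c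
  have hmq : (0:ℚ) < m := by exact_mod_cast hm
  set k : ℕ := ((Finset.Ioc 0 u).filter (fun y => y ≡ c [MOD m])).card with hk
  have h1 : |(k:ℚ) - u / m| ≤ 1 := by
    set a : ℚ := ((u:ℚ) - c) / m with ha
    set b : ℚ := (((0:ℕ):ℚ) - c) / m with hb
    have hab : a - b = u / m := by rw [ha, hb]; push_cast; ring
    have hab0 : b ≤ a := by
      have : (0:ℚ) ≤ (u:ℚ) / m := by positivity
      linarith
    have hfl : ⌊b⌋ ≤ ⌊a⌋ := Int.floor_le_floor hab0
    have h2 : (k : ℤ) = ⌊a⌋ - ⌊b⌋ := by rw [h]; exact max_eq_left (by omega)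
    have h3 : (k:ℚ) = (⌊a⌋:ℚ) - (⌊b⌋:ℚ) := by
      have : ((k:ℤ):ℚ) = ((⌊a⌋ - ⌊b⌋ : ℤ) : ℚ) := by rw [h2]
      push_cast at this
      exact this
    rw [← hab, h3, abs_le]
    have f1 := Int.floor_le a
    have f2 := Int.lt_floor_add_one a
    have f3 := Int.floor_le b
    have f4 := Int.lt_floor_add_one b
    constructor <;> linarith
  have h4 : ((|(k:ℚ) - u / m| : ℚ) : ℝ) ≤ ((1:ℚ):ℝ) := by exact_mod_cast h1
  push_cast at h4
  exact h4

lemma coprime_indicator_real (a q : ℕ) (hq : 1 ≤ q) :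
    (if Nat.Coprime a q then (1:ℝ) else 0) = ∑ d ∈ q.divisors, (if d ∣ a then ((μ d : ℤ) : ℝ) else 0) := by
  have h := coprime_indicator a q hq
  have : (((if Nat.Coprime a q then (1:ℝ) else 0 : ℝ)) : ℂ) = ((∑ d ∈ q.divisors, (if d ∣ a then ((μ d : ℤ) : ℝ) else 0) : ℝ) : ℂ) := by
    rw [Complex.ofReal_sum]
    have e1 : ((if Nat.Coprime a q then (1:ℝ) else 0 : ℝ) : ℂ) = if Nat.Coprime a q then (1:ℂ) else 0 := by
      split_ifs <;> simp
    rw [e1, h]
    refine sum_congr rfl fun d _ => ?_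
    split_ifs <;> simp
  exact_mod_cast this

lemma sum_mu_div (t : ℕ) (ht : 1 ≤ t) : ∑ d ∈ t.divisors, ((μ d : ℤ) : ℝ) / d = (Nat.totient t : ℝ) / t := by
  have h := ram_eq t ht 0
  have h1 : ram t 0 = (Nat.totient t : ℂ) := by
    unfold ram
    have : ∀ a ∈ (range t).filter (fun a => Nat.Coprime a t), e (a * (((0:ℤ):ℝ) / t)) = 1 := by
      intro a _
      rw [Int.cast_zero, zero_div, mul_zero, e_zero]
    rw [sum_congr rfl this, sum_const, nsmul_eq_mul, mul_one, Nat.totient]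
    congr 2
    refine Finset.filter_congr fun a _ => ?_
    exact Nat.coprime_comm
  have ht0 : (t:ℝ) ≠ 0 := by positivity
  rw [h1] at h
  have h2 : ((Nat.totient t : ℝ) : ℂ) = ((∑ d ∈ t.divisors, ((μ d : ℤ) : ℝ) * ((t:ℝ) / d) : ℝ) : ℂ) := by
    push_cast
    rw [h]
    refine sum_congr rfl fun d hd => ?_
    rw [Nat.mem_divisors] at hd
    have hd0 : (d:ℂ) ≠ 0 := by
      have : d ≠ 0 := fun h => by rw [h] at hd; exact hd.2 (Nat.eq_zero_of_zero_dvd hd.1)
      exact_mod_cast this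
    rw [if_pos (dvd_zero _), Nat.cast_div hd.1 hd0]
  have h3 : (Nat.totient t : ℝ) = ∑ d ∈ t.divisors, ((μ d : ℤ) : ℝ) * ((t:ℝ) / d) := by exact_mod_cast h2
  rw [h3, sum_div]
  refine sum_congr rfl fun d _ => ?_
  field_simp

lemma cnt_class (s t c u : ℕ) (hs : 0 < s) (ht : 0 < t) (hst : Nat.Coprime s t) :
    |(((Finset.Ioc 0 u).filter (fun y => y ≡ c [MOD s] ∧ Nat.Coprime y t)).card : ℝ) - u * (Nat.totient t : ℝ) / (s * t)|
      ≤ t.divisors.card := by
  have h1 : (((Finset.Ioc 0 u).filter (fun y => y ≡ c [MOD s] ∧ Nat.Coprime y t)).card : ℝ)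
      = ∑ d ∈ t.divisors, ((μ d : ℤ) : ℝ) * (((Finset.Ioc 0 u).filter (fun y => y ≡ c [MOD s] ∧ d ∣ y)).card : ℝ) := by
    have e1 : (((Finset.Ioc 0 u).filter (fun y => y ≡ c [MOD s] ∧ Nat.Coprime y t)).card : ℝ)
        = ∑ y ∈ (Finset.Ioc 0 u).filter (fun y => y ≡ c [MOD s]), (if Nat.Coprime y t then (1:ℝ) else 0) := by
      rw [← filter_filter, card_eq_sum_ones, sum_filter]
      push_cast
      exact sum_congr rfl fun _ _ => by split_ifs <;> simp
    rw [e1, sum_congr rfl fun y _ => coprime_indicator_real y t ht, sum_comm]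
    refine sum_congr rfl fun d _ => ?_
    rw [← sum_filter, sum_const, nsmul_eq_mul, filter_filter, mul_comm]
  have h2 : (u:ℝ) * (Nat.totient t : ℝ) / (s * t) = ∑ d ∈ t.divisors, ((μ d : ℤ) : ℝ) * (u / (s * d)) := by
    have := sum_mu_div t ht
    have ht0 : (t:ℝ) ≠ 0 := by positivity
    calc (u:ℝ) * (Nat.totient t : ℝ) / (s * t) = (u / s) * ((Nat.totient t : ℝ) / t) := by
          rw [div_mul_div_comm]
      _ = (u / s) * ∑ d ∈ t.divisors, ((μ d : ℤ) : ℝ) / d := by rw [this]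
      _ = _ := by
          rw [mul_sum]
          refine sum_congr rfl fun d _ => ?_
          rw [mul_div_assoc', mul_comm ((u:ℝ)/s), mul_div_assoc, div_div]
  rw [h1, h2, ← sum_sub_distrib]
  refine (abs_sum_le_sum_abs _ _).trans ?_
  have h3 : ∀ d ∈ t.divisors, |((μ d : ℤ) : ℝ) * (((Finset.Ioc 0 u).filter (fun y => y ≡ c [MOD s] ∧ d ∣ y)).card : ℝ)
      - ((μ d : ℤ) : ℝ) * (u / (s * d))| ≤ 1 := by
    intro d hd
    rw [Nat.mem_divisors] at hd
    have hd0 : 0 < d := Nat.pos_of_dvd_of_pos hd.1 ht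
    have hsd : Nat.Coprime s d := Nat.Coprime.coprime_dvd_right hd.1 hst
    obtain ⟨c0, hc1, hc2⟩ := Nat.chineseRemainder hsd c 0
    have h4 : (Finset.Ioc 0 u).filter (fun y => y ≡ c [MOD s] ∧ d ∣ y) = (Finset.Ioc 0 u).filter (fun y => y ≡ c0 [MOD (s * d)]) := by
      refine Finset.filter_congr fun y _ => ?_
      constructor
      · rintro ⟨h5, h6⟩
        rw [← Nat.modEq_and_modEq_iff_modEq_mul hsd]
        exact ⟨h5.trans hc1.symm, ((Nat.modEq_zero_iff_dvd.mpr h6)).trans hc2.symm⟩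
      · intro h5
        rw [← Nat.modEq_and_modEq_iff_modEq_mul hsd] at h5
        exact ⟨h5.1.trans hc1, Nat.modEq_zero_iff_dvd.mp (h5.2.trans hc2)⟩
    rw [h4, ← mul_sub, abs_mul]
    have h5 := cnt_mod (s * d) c0 u (Nat.mul_pos hs hd0)
    push_cast at h5
    have h6 : |((μ d : ℤ) : ℝ)| ≤ 1 := by exact_mod_cast ArithmeticFunction.abs_moebius_le_one (n := d)
    calc |((μ d : ℤ) : ℝ)| * _ ≤ 1 * 1 := mul_le_mul h6 h5 (abs_nonneg _) zero_le_one
      _ = 1 := one_mul 1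
  refine (sum_le_sum h3).trans ?_
  simp

/-- splitting a sum over `y` coprime to `st` into classes modulo `s` -/
lemma split_classes {E : Type*} [AddCommMonoid E] (s t u : ℕ) (hs : 0 < s) (g : ℕ → E) :
    ∑ y ∈ (Finset.Icc 1 u).filter (fun y => Nat.Coprime y (s * t)), g (y % s)
      = ∑ c ∈ (range s).filter (fun c => Nat.Coprime c s),
          (((Finset.Ioc 0 u).filter (fun y => y ≡ c [MOD s] ∧ Nat.Coprime y t)).card) • g c := by
  have h1 : ∀ y ∈ (Finset.Icc 1 u).filter (fun y => Nat.Coprime y (s * t)), y % s ∈ (range s).filter (fun c => Nat.Coprime c s) := by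
    intro y hy
    rw [mem_filter] at hy ⊢
    rw [mem_range]
    refine ⟨Nat.mod_lt y hs, ?_⟩
    have := Nat.Coprime.coprime_dvd_right (Dvd.intro t rfl) hy.2
    unfold Nat.Coprime at this ⊢
    rw [← this, Nat.gcd_comm y s, Nat.gcd_rec s y]
  rw [← sum_fiberwise_of_maps_to h1]
  refine sum_congr rfl fun c hc => ?_
  rw [mem_filter, mem_range] at hc
  have h2 : ((Finset.Icc 1 u).filter (fun y => Nat.Coprime y (s * t))).filter (fun y => y % s = c)
      = (Finset.Ioc 0 u).filter (fun y => y ≡ c [MOD s] ∧ Nat.Coprime y t) := by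
    ext y
    simp only [mem_filter, Finset.mem_Icc, Finset.mem_Ioc, Nat.coprime_mul_iff_right]
    unfold Nat.ModEq
    rw [Nat.mod_eq_of_lt hc.1]
    constructor
    · rintro ⟨⟨h3, h4, h5⟩, h6⟩
      exact ⟨by omega, h6, h5⟩
    · rintro ⟨h3, h6, h5⟩
      refine ⟨⟨by omega, ?_, h5⟩, h6⟩
      have h7 := hc.2
      rw [← h6] at h7
      unfold Nat.Coprime at h7 ⊢
      rw [Nat.gcd_comm y s, Nat.gcd_rec s y]; exact h7
  rw [h2, ← sum_const]
  refine sum_congr rfl fun y hy => ?_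
  rw [mem_filter] at hy
  have := hy.2.1
  unfold Nat.ModEq at this
  rw [Nat.mod_eq_of_lt hc.1] at this
  rw [this]

lemma card_cop (s : ℕ) : (((range s).filter (fun c => Nat.Coprime c s)).card) = Nat.totient s := by
  rw [Nat.totient]
  congr 1
  exact Finset.filter_congr fun a _ => Nat.coprime_comm

/-- number of `y ≤ u` coprime to `st` -/
lemma count_coprime (s t u : ℕ) (hs : 0 < s) (ht : 0 < t) (hst : Nat.Coprime s t) :
    |(((Finset.Icc 1 u).filter (fun y => Nat.Coprime y (s * t))).card : ℝ) - u * ((Nat.totient (s * t) : ℝ) / ((s * t : ℕ) : ℝ))|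
      ≤ Nat.totient s * t.divisors.card := by
  have h := split_classes s t u hs (fun _ => (1:ℝ))
  rw [sum_const, nsmul_eq_mul, mul_one] at h
  simp only [nsmul_eq_mul, mul_one] at h
  rw [h]
  have h2 : (u:ℝ) * ((Nat.totient (s * t) : ℝ) / ((s * t : ℕ) : ℝ))
      = ∑ c ∈ (range s).filter (fun c => Nat.Coprime c s), (u * (Nat.totient t : ℝ) / (s * t)) := by
    rw [sum_const, card_cop, nsmul_eq_mul, Nat.totient_mul hst]
    push_cast
    ring
  rw [h2, ← sum_sub_distrib]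
  refine (abs_sum_le_sum_abs _ _).trans ?_
  refine (sum_le_sum fun c _ => cnt_class s t c u hs ht hst).trans (le_of_eq ?_)
  rw [sum_const, card_cop, nsmul_eq_mul]

lemma exp_coprime (s t u : ℕ) (hs : 0 < s) (ht : 0 < t) (hst : Nat.Coprime s t) (w : ℤ) (hw : IsCoprime w (s:ℤ)) :
    ‖∑ y ∈ (Finset.Icc 1 u).filter (fun y => Nat.Coprime y (s * t)), e ((w * y : ℤ) / s)
        - ((μ s : ℤ) : ℂ) * (u * (Nat.totient t : ℂ) / (s * t))‖ ≤ Nat.totient s * t.divisors.card := by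
  have h := split_classes s t u hs (fun c => e ((w * c : ℤ) / s))
  have h1 : ∑ y ∈ (Finset.Icc 1 u).filter (fun y => Nat.Coprime y (s * t)), e ((w * y : ℤ) / s)
      = ∑ y ∈ (Finset.Icc 1 u).filter (fun y => Nat.Coprime y (s * t)), e ((w * ((y % s : ℕ)) : ℤ) / s) := by
    refine sum_congr rfl fun y _ => ?_
    have hsr : (s:ℝ) ≠ 0 := by positivity
    obtain ⟨a, ha⟩ : ∃ a, a = y % s := ⟨_, rfl⟩
    obtain ⟨b, hb⟩ : ∃ b, b = y / s := ⟨_, rfl⟩
    rw [← ha]
    have h2 : (((w * y : ℤ) : ℝ) / s) = ((w * (a : ℤ) : ℤ) : ℝ) / s + ((w * (b : ℤ) : ℤ) : ℝ) := by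
      have h3 : (y:ℝ) = (a : ℝ) + s * (b : ℝ) := by
        have := Nat.mod_add_div y s
        rw [← ha, ← hb] at this
        exact_mod_cast this.symm
      push_cast
      rw [h3]
      field_simp
    rw [h2, e_add_int]
  rw [h1, h]
  have h4 : ((μ s : ℤ) : ℂ) * (u * (Nat.totient t : ℂ) / (s * t))
      = ∑ c ∈ (range s).filter (fun c => Nat.Coprime c s), ((u * (Nat.totient t : ℝ) / (s * t) : ℝ) : ℂ) * e ((w * c : ℤ) / s) := by
    rw [← mul_sum, ← ram_coprime s hs w hw]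
    unfold ram
    push_cast
    rw [mul_comm]
    congr 1
    refine sum_congr rfl fun c _ => ?_
    congr 1
    ring
  rw [h4, ← sum_sub_distrib]
  refine (norm_sum_le _ _).trans ?_
  have h5 : ∀ c ∈ (range s).filter (fun c => Nat.Coprime c s),
      ‖(((Finset.Ioc 0 u).filter (fun y => y ≡ c [MOD s] ∧ Nat.Coprime y t)).card) • e ((w * c : ℤ) / s)
        - ((u * (Nat.totient t : ℝ) / (s * t) : ℝ) : ℂ) * e ((w * c : ℤ) / s)‖ ≤ t.divisors.card := by
    intro c _
    rw [nsmul_eq_mul, ← sub_mul, norm_mul, norm_e, mul_one]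
    have h6 := cnt_class s t c u hs ht hst
    rw [← Real.norm_eq_abs, ← Complex.norm_real] at h6
    push_cast at h6 ⊢
    exact h6
  refine (sum_le_sum h5).trans (le_of_eq ?_)
  rw [sum_const, card_cop, nsmul_eq_mul]

/-- averaging a function of bounded variation against `e(wy/s)` over `y` coprime to `st` -/
lemma avg_exp (s t Y : ℕ) (hs : 0 < s) (ht : 0 < t) (hst : Nat.Coprime s t) (w : ℤ) (hw : IsCoprime w (s:ℤ))
    (h : ℕ → ℂ) (V : ℝ) (hV : ‖h Y‖ + ∑ u ∈ range Y, ‖h (u + 1) - h u‖ ≤ V) :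
    ‖∑ y ∈ (Finset.Icc 1 Y).filter (fun y => Nat.Coprime y (s * t)), h y * e ((w * y : ℤ) / s)
        - (((μ s : ℤ) : ℂ) / Nat.totient s) * ∑ y ∈ (Finset.Icc 1 Y).filter (fun y => Nat.Coprime y (s * t)), h y‖
      ≤ 2 * Nat.totient s * t.divisors.card * V := by
  set f : ℕ → ℂ := fun y => if Nat.Coprime y (s * t) then (e ((w * y : ℤ) / s) - ((μ s : ℤ) : ℂ) / Nat.totient s) else 0 with hf
  have hφ : (0:ℝ) < Nat.totient s := by exact_mod_cast Nat.totient_pos.mpr hs
  have hφc : ((Nat.totient s : ℕ) : ℂ) ≠ 0 := by exact_mod_cast hφ.ne'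
  have h1 : ∑ y ∈ (Finset.Icc 1 Y).filter (fun y => Nat.Coprime y (s * t)), h y * e ((w * y : ℤ) / s)
        - (((μ s : ℤ) : ℂ) / Nat.totient s) * ∑ y ∈ (Finset.Icc 1 Y).filter (fun y => Nat.Coprime y (s * t)), h y
      = ∑ y ∈ Finset.Icc 1 Y, h y * f y := by
    rw [mul_sum, ← sum_sub_distrib, sum_filter]
    refine sum_congr rfl fun y _ => ?_
    simp only [hf]
    split_ifs <;> ring
  rw [h1]
  have hpart : ∀ u, ‖∑ y ∈ Finset.Icc 1 u, f y‖ ≤ 2 * Nat.totient s * t.divisors.card := by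
    intro u
    have h2 : ∑ y ∈ Finset.Icc 1 u, f y
        = (∑ y ∈ (Finset.Icc 1 u).filter (fun y => Nat.Coprime y (s * t)), e ((w * y : ℤ) / s)
            - ((μ s : ℤ) : ℂ) * (u * (Nat.totient t : ℂ) / (s * t)))
          - (((μ s : ℤ) : ℂ) / Nat.totient s) * ((((Finset.Icc 1 u).filter (fun y => Nat.Coprime y (s * t))).card : ℂ)
              - u * ((Nat.totient (s * t) : ℂ) / ((s * t : ℕ) : ℂ))) := by
      rw [← sum_filter, sum_sub_distrib, sum_const, nsmul_eq_mul, Nat.totient_mul hst]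
      push_cast
      field_simp
      ring
    rw [h2]
    refine (norm_sub_le _ _).trans ?_
    have e1 := exp_coprime s t u hs ht hst w hw
    have e2 := count_coprime s t u hs ht hst
    have e3 : ‖(((μ s : ℤ) : ℂ) / Nat.totient s) * ((((Finset.Icc 1 u).filter (fun y => Nat.Coprime y (s * t))).card : ℂ)
              - u * ((Nat.totient (s * t) : ℂ) / ((s * t : ℕ) : ℂ)))‖ ≤ Nat.totient s * t.divisors.card := by
      rw [norm_mul]
      have e4 : ‖((μ s : ℤ) : ℂ) / Nat.totient s‖ ≤ 1 := by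
        rw [norm_div, Complex.norm_natCast, div_le_one hφ, Complex.norm_intCast]
        have : |((μ s : ℤ) : ℝ)| ≤ 1 := by exact_mod_cast ArithmeticFunction.abs_moebius_le_one (n := s)
        have h3 : (1:ℝ) ≤ Nat.totient s := by exact_mod_cast Nat.totient_pos.mpr hs
        linarith
      rw [← Real.norm_eq_abs, ← Complex.norm_real] at e2
      push_cast at e2 ⊢
      calc _ ≤ 1 * _ := mul_le_mul_of_nonneg_right e4 (norm_nonneg _)
        _ ≤ _ := by rw [one_mul]; exact e2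
    linarith
  refine (abel_var f h Y).trans ?_
  calc ‖h Y‖ * ‖∑ n ∈ Finset.Icc 1 Y, f n‖ + ∑ u ∈ range Y, ‖h (u + 1) - h u‖ * ‖∑ n ∈ Finset.Icc 1 u, f n‖
      ≤ ‖h Y‖ * (2 * Nat.totient s * t.divisors.card) + ∑ u ∈ range Y, ‖h (u + 1) - h u‖ * (2 * Nat.totient s * t.divisors.card) := by
        refine add_le_add (mul_le_mul_of_nonneg_left (hpart Y) (norm_nonneg _)) ?_
        exact sum_le_sum fun u _ => mul_le_mul_of_nonneg_left (hpart u) (norm_nonneg _)
    _ = (‖h Y‖ + ∑ u ∈ range Y, ‖h (u + 1) - h u‖) * (2 * Nat.totient s * t.divisors.card) := by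
        rw [← sum_mul]; ring
    _ ≤ V * (2 * Nat.totient s * t.divisors.card) := mul_le_mul_of_nonneg_right hV (by positivity)
    _ = _ := by ring

/-- averaging a function of bounded variation over `y` coprime to `st` -/
lemma avg_cop (s t Y : ℕ) (hs : 0 < s) (ht : 0 < t) (hst : Nat.Coprime s t)
    (h : ℕ → ℂ) (V : ℝ) (hV : ‖h Y‖ + ∑ u ∈ range Y, ‖h (u + 1) - h u‖ ≤ V) :
    ‖∑ y ∈ (Finset.Icc 1 Y).filter (fun y => Nat.Coprime y (s * t)), h y
        - ((Nat.totient (s * t) : ℂ) / ((s * t : ℕ) : ℂ)) * ∑ y ∈ Finset.Icc 1 Y, h y‖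
      ≤ Nat.totient s * t.divisors.card * V := by
  set f : ℕ → ℂ := fun y => (if Nat.Coprime y (s * t) then 1 else 0) - ((Nat.totient (s * t) : ℂ) / ((s * t : ℕ) : ℂ)) with hf
  have h1 : ∑ y ∈ (Finset.Icc 1 Y).filter (fun y => Nat.Coprime y (s * t)), h y
        - ((Nat.totient (s * t) : ℂ) / ((s * t : ℕ) : ℂ)) * ∑ y ∈ Finset.Icc 1 Y, h y
      = ∑ y ∈ Finset.Icc 1 Y, h y * f y := by
    rw [mul_sum, sum_filter, ← sum_sub_distrib]
    refine sum_congr rfl fun y _ => ?_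
    simp only [hf]
    split_ifs <;> ring
  rw [h1]
  have hpart : ∀ u, ‖∑ y ∈ Finset.Icc 1 u, f y‖ ≤ Nat.totient s * t.divisors.card := by
    intro u
    have h2 : ∑ y ∈ Finset.Icc 1 u, f y
        = (((Finset.Icc 1 u).filter (fun y => Nat.Coprime y (s * t))).card : ℂ)
              - u * ((Nat.totient (s * t) : ℂ) / ((s * t : ℕ) : ℂ)) := by
      simp only [hf]
      rw [sum_sub_distrib, ← sum_filter, sum_const, sum_const, Nat.card_Icc, Nat.add_sub_cancel, nsmul_eq_mul, nsmul_eq_mul, mul_one]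
    rw [h2]
    have e2 := count_coprime s t u hs ht hst
    rw [← Real.norm_eq_abs, ← Complex.norm_real] at e2
    push_cast at e2 ⊢
    exact e2
  refine (abel_var f h Y).trans ?_
  calc ‖h Y‖ * ‖∑ n ∈ Finset.Icc 1 Y, f n‖ + ∑ u ∈ range Y, ‖h (u + 1) - h u‖ * ‖∑ n ∈ Finset.Icc 1 u, f n‖
      ≤ ‖h Y‖ * (Nat.totient s * t.divisors.card) + ∑ u ∈ range Y, ‖h (u + 1) - h u‖ * (Nat.totient s * t.divisors.card) := by
        refine add_le_add (mul_le_mul_of_nonneg_left (hpart Y) (norm_nonneg _)) ?_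
        exact sum_le_sum fun u _ => mul_le_mul_of_nonneg_left (hpart u) (norm_nonneg _)
    _ = (‖h Y‖ + ∑ u ∈ range Y, ‖h (u + 1) - h u‖) * (Nat.totient s * t.divisors.card) := by
        rw [← sum_mul]; ring
    _ ≤ V * (Nat.totient s * t.divisors.card) := mul_le_mul_of_nonneg_right hV (by positivity)
    _ = _ := by ring

end Pool.Agent.Var73
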