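import Pool.Agent.Lib_helper73.Var.Point2

/-! Duality at the chosen points -/

set_option autoImplicit false

namespace Pool.Agent.Var73

open Finset Complex Pool.Agent.Var35 DirichletCharacter Filter
open scoped ArithmeticFunction ArithmeticFunction.Moebius ArithmeticFunction.zeta

lemma dual_ineq {ι : Type*} (Q : ℕ) (hQ : 0 < Q) (v : ℕ → ℝ) (I : Finset ι) (j : ι → ℤ)
    (hinj : ∀ i ∈ I, ∀ i' ∈ I, (Q:ℤ) ∣ j i - j i' → i = i') (w : ι → ℂ) :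
    ‖∑ i ∈ I, w i * FT Q v ((j i : ZMod Q).val)‖ ^ 2 ≤ (∑ i ∈ I, ‖w i‖ ^ 2) * (Q * ∑ a ∈ range Q, (v a) ^ 2) := by
  classical
  have hQ' : NeZero Q := ⟨by omega⟩
  have h1 : ‖∑ i ∈ I, w i * FT Q v ((j i : ZMod Q).val)‖ ≤ ∑ i ∈ I, ‖w i‖ * ‖FT Q v ((j i : ZMod Q).val)‖ := by
    refine (norm_sum_le _ _).trans (sum_le_sum fun i _ => ?_)
    rw [norm_mul]
  have h2 : (∑ i ∈ I, ‖w i‖ * ‖FT Q v ((j i : ZMod Q).val)‖) ^ 2 ≤ (∑ i ∈ I, ‖w i‖ ^ 2) * ∑ i ∈ I, ‖FT Q v ((j i : ZMod Q).val)‖ ^ 2 :=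
    Finset.sum_mul_sq_le_sq_mul_sq _ _ _
  have hinj' : Set.InjOn (fun i => (j i : ZMod Q).val) (I : Set ι) := by
    intro i hi i' hi' h
    simp only at h
    have h3 : (j i : ZMod Q) = (j i' : ZMod Q) := ZMod.val_injective Q h
    have h4 := (ZMod.intCast_eq_intCast_iff_dvd_sub (j i') (j i) Q).mp h3.symm
    exact hinj i hi i' hi' h4
  have h3 : ∑ i ∈ I, ‖FT Q v ((j i : ZMod Q).val)‖ ^ 2 ≤ Q * ∑ a ∈ range Q, (v a) ^ 2 := by
    rw [← parseval Q hQ v, ← sum_image (f := fun c => ‖FT Q v c‖ ^ 2) hinj']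
    refine sum_le_sum_of_subset_of_nonneg ?_ fun _ _ _ => by positivity
    intro c hc
    rw [mem_image] at hc
    obtain ⟨i, hi, rfl⟩ := hc
    exact mem_range.mpr (ZMod.val_lt _)
  calc ‖∑ i ∈ I, w i * FT Q v ((j i : ZMod Q).val)‖ ^ 2 ≤ (∑ i ∈ I, ‖w i‖ * ‖FT Q v ((j i : ZMod Q).val)‖) ^ 2 :=
        pow_le_pow_left₀ (norm_nonneg _) h1 2
    _ ≤ _ := h2
    _ ≤ _ := mul_le_mul_of_nonneg_left h3 (sum_nonneg fun _ _ => by positivity)

lemma FI_sum (N : ℕ) (x : ℝ) (Q : ℕ) (hQ : 0 < Q) (j : ℤ) :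
    FI N x Q j = ∑ a ∈ range Q, (vv N x Q a : ℂ) * e (a * ((j:ℝ) / Q)) := by
  unfold FI FT
  exact sum_congr rfl fun a _ => by rw [e_val Q hQ j a]

lemma FI_neg (N : ℕ) (x : ℝ) (Q : ℕ) (hQ : 0 < Q) (j : ℤ) : FI N x Q (-j) = (starRingEnd ℂ) (FI N x Q j) := by
  rw [FI_sum N x Q hQ, FI_sum N x Q hQ, map_sum]
  refine sum_congr rfl fun a _ => ?_
  rw [map_mul, Complex.conj_ofReal, ← e_neg]
  congr 2
  push_cast; ring

lemma DD_neg (N : ℕ) (β : ℝ) : DD N (-β) = (starRingEnd ℂ) (DD N β) := by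
  unfold DD
  rw [map_sum]
  refine sum_congr rfl fun n _ => ?_
  rw [← e_neg]
  congr 1
  ring

/-- averaging over residues modulo a divisor of `Q` -/
lemma sum_c (N : ℕ) (x : ℝ) (Q g a : ℕ) (hQ : 0 < Q) (hg : g ∣ Q) (hag : Nat.Coprime a g) (y : ℤ) :
    ∑ c ∈ (range g).filter (fun c => Nat.Coprime c g), FI N x Q ((a:ℤ) * ((c:ℤ) * ((Q / g : ℕ) : ℤ) + y))
      = ((μ g : ℤ) : ℂ) * FI N x Q ((a:ℤ) * y) := by
  have hg0 : 0 < g := Nat.pos_of_dvd_of_pos hg hQ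
  have hgr : (g:ℝ) ≠ 0 := by positivity
  have hQr : (Q:ℝ) ≠ 0 := by positivity
  obtain ⟨h, hh⟩ := hg
  have hQg : Q / g = h := by rw [hh]; exact Nat.mul_div_cancel_left h hg0
  have hQgr : (Q:ℝ) = g * h := by exact_mod_cast hh
  have hhr : (h:ℝ) ≠ 0 := fun h0 => hQr (by rw [hQgr, h0, mul_zero])
  rw [hQg]
  rw [FI_sum N x Q hQ, sum_congr rfl fun c _ => FI_sum N x Q hQ _, sum_comm, mul_sum]
  refine sum_congr rfl fun A _ => ?_
  by_cases hA : Nat.Coprime A Q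
  swap
  · have : vv N x Q A = 0 := by unfold vv; rw [if_neg hA]
    rw [this]; simp
  have hAg : Nat.Coprime A g := Nat.Coprime.coprime_dvd_right ⟨h, hh⟩ hA
  have h1 : ∀ c ∈ (range g).filter (fun c => Nat.Coprime c g),
      (vv N x Q A : ℂ) * e (A * (((((a:ℤ) * ((c:ℤ) * (h : ℤ) + y)) : ℤ) : ℝ) / Q))
      = ((vv N x Q A : ℂ) * e (A * ((((a:ℤ) * y : ℤ) : ℝ) / Q))) * e (c * (((A * a : ℤ) : ℝ) / g)) := by
    intro c _
    rw [mul_assoc, ← e_add]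
    congr 2
    push_cast
    rw [hQgr]
    field_simp
    ring
  rw [sum_congr rfl h1, ← mul_sum]
  have h3 : ∑ c ∈ (range g).filter (fun c => Nat.Coprime c g), e (c * (((A * a : ℤ) : ℝ) / g)) = ((μ g : ℤ) : ℂ) := by
    rw [← ram_coprime g hg0 ((A:ℤ) * a)]
    · rfl
    · exact IsCoprime.mul_left (Nat.isCoprime_iff_coprime.mpr hAg) (Nat.isCoprime_iff_coprime.mpr hag)
  rw [h3]; ring

/-- the injectivity of the points -/
lemma inj_core (Q g g' c c' r r' a a' m m' N z Rm : ℕ) (K : ℝ) (y y' : ℤ) (hQ : 0 < Q) (hK0 : 0 ≤ K)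
    (hg : g ∣ Q) (hg' : g' ∣ Q) (hgz : g ≤ z) (hgz' : g' ≤ z) (hc : c < g) (hc' : c' < g') (hcg : Nat.Coprime c g) (hcg' : Nat.Coprime c' g')
    (hrR : r ≤ Rm) (hrR' : r' ≤ Rm) (ham : r * a = 1 + Q * m) (ham' : r' * a' = 1 + Q * m')
    (hy : IsCoprime y (r:ℤ)) (hy' : IsCoprime y' (r':ℤ))
    (hyN : |(y:ℝ)| * N ≤ K * (r * Q)) (hyN' : |(y':ℝ)| * N ≤ K * (r' * Q)) (hsm : 2 * K * (z:ℝ) ^ 2 * (Rm:ℝ) ^ 2 < N)
    (hdvd : (Q:ℤ) ∣ (a:ℤ) * ((c:ℤ) * ((Q / g : ℕ) : ℤ) + y) - (a':ℤ) * ((c':ℤ) * ((Q / g' : ℕ) : ℤ) + y')) :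
    g = g' ∧ c = c' ∧ r = r' ∧ y = y' := by
  have hg0 : 0 < g := Nat.pos_of_dvd_of_pos hg hQ
  have hg0' : 0 < g' := Nat.pos_of_dvd_of_pos hg' hQ
  obtain ⟨h, hh⟩ := hg
  obtain ⟨h', hh'⟩ := hg'
  have e1 : Q / g = h := by rw [hh]; exact Nat.mul_div_cancel_left h hg0
  have e1' : Q / g' = h' := by rw [hh']; exact Nat.mul_div_cancel_left h' hg0'
  rw [e1, e1'] at hdvd
  obtain ⟨k, hk⟩ := hdvd
  have hQg : (Q:ℤ) = g * h := by exact_mod_cast hh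
  have hQg' : (Q:ℤ) = g' * h' := by exact_mod_cast hh'
  have hamz : (r:ℤ) * a = 1 + Q * m := by exact_mod_cast ham
  have hamz' : (r':ℤ) * a' = 1 + Q * m' := by exact_mod_cast ham'
  have hr0 : 0 < r := by
    rcases Nat.eq_zero_or_pos r with h0 | h0
    · rw [h0, zero_mul] at ham; omega
    · exact h0
  have hr0' : 0 < r' := by
    rcases Nat.eq_zero_or_pos r' with h0 | h0
    · rw [h0, zero_mul] at ham'; omega
    · exact h0
  -- the key equation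
  obtain ⟨k2, hk2⟩ : ∃ k2 : ℤ, (r':ℤ) * (c * h + y) - r * (c' * h' + y') = Q * k2 := by
    refine ⟨r * r' * k - r' * m * (c * h + y) + r * m' * (c' * h' + y'), ?_⟩
    linear_combination (r:ℤ) * r' * hk - (r':ℤ) * (c * h + y) * hamz + (r:ℤ) * (c' * h' + y') * hamz'
  have hkey : (g:ℤ) * g' * (r' * y - r * y') = Q * (g * g' * k2 - r' * c * g' + r * c' * g) := by
    have t1 : (g:ℤ) * g' * ((r':ℤ) * (c * h + y) - r * (c' * h' + y')) = g * g' * (Q * k2) := by rw [hk2]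
    have t2 : (g:ℤ) * g' * ((r':ℤ) * (c * h + y) - r * (c' * h' + y'))
        = g * g' * (r' * y - r * y') + (r' * c * g' * (g * h) - r * c' * g * (g' * h')) := by ring
    rw [t2, ← hQg, ← hQg'] at t1
    linear_combination t1
  have hsize : |(g:ℤ) * g' * (r' * y - r * y')| < Q := by
    have hNr : (0:ℝ) < N := by
      have : (0:ℝ) ≤ 2 * K * (z:ℝ) ^ 2 * (Rm:ℝ) ^ 2 := by positivity
      linarith
    have hQr : (0:ℝ) < Q := by exact_mod_cast hQ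
    have h1 : |((g:ℝ) * g' * (r' * y - r * y'))| * N < Q * N := by
      have b1 : |((g:ℝ) * g' * (r' * y - r * y'))| ≤ (z:ℝ) * z * (r' * |(y:ℝ)| + r * |(y':ℝ)|) := by
        rw [abs_mul, abs_of_nonneg (by positivity : (0:ℝ) ≤ g * g')]
        refine mul_le_mul ?_ ?_ (abs_nonneg _) (by positivity)
        · exact mul_le_mul (by exact_mod_cast hgz) (by exact_mod_cast hgz') (Nat.cast_nonneg _) (Nat.cast_nonneg _)
        · refine (abs_sub _ _).trans ?_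
          rw [abs_mul, abs_mul, abs_of_nonneg (Nat.cast_nonneg r' : (0:ℝ) ≤ (r':ℝ)), abs_of_nonneg (Nat.cast_nonneg r : (0:ℝ) ≤ (r:ℝ))]
      have hrm : (r:ℝ) ≤ Rm := by exact_mod_cast hrR
      have hrm' : (r':ℝ) ≤ Rm := by exact_mod_cast hrR'
      have hrr : (r:ℝ) * r' ≤ (Rm:ℝ) ^ 2 := by
        rw [sq]; exact mul_le_mul hrm hrm' (Nat.cast_nonneg _) (Nat.cast_nonneg _)
      calc |((g:ℝ) * g' * (r' * y - r * y'))| * N ≤ (z:ℝ) * z * (r' * |(y:ℝ)| + r * |(y':ℝ)|) * N :=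
            mul_le_mul_of_nonneg_right b1 hNr.le
        _ = (z:ℝ) ^ 2 * (r' * (|(y:ℝ)| * N) + r * (|(y':ℝ)| * N)) := by ring
        _ ≤ (z:ℝ) ^ 2 * (r' * (K * (r * Q)) + r * (K * (r' * Q))) := by
            refine mul_le_mul_of_nonneg_left ?_ (by positivity)
            exact add_le_add (mul_le_mul_of_nonneg_left hyN (Nat.cast_nonneg _)) (mul_le_mul_of_nonneg_left hyN' (Nat.cast_nonneg _))
        _ = (2 * K * (z:ℝ) ^ 2 * Q) * (r * r') := by ring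
        _ ≤ (2 * K * (z:ℝ) ^ 2 * Q) * (Rm:ℝ) ^ 2 := mul_le_mul_of_nonneg_left hrr (by positivity)
        _ = Q * (2 * K * (z:ℝ) ^ 2 * (Rm:ℝ) ^ 2) := by ring
        _ < Q * N := mul_lt_mul_of_pos_left hsm hQr
    have h2 := lt_of_mul_lt_mul_right h1 hNr.le
    have h3 : ((|(g:ℤ) * g' * (r' * y - r * y')| : ℤ) : ℝ) < ((Q:ℤ) : ℝ) := by
      push_cast; exact h2
    exact_mod_cast h3
  have hzero : (g:ℤ) * g' * (r' * y - r * y') = 0 := by
    refine Int.eq_zero_of_abs_lt_dvd ?_ hsize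
    exact ⟨_, hkey⟩
  have hgg : (g:ℤ) * g' ≠ 0 := by
    have : (0:ℤ) < g * g' := by exact_mod_cast Nat.mul_pos hg0 hg0'
    exact this.ne'
  have hry : (r':ℤ) * y = r * y' := by
    rcases mul_eq_zero.mp hzero with h0 | h0
    · exact absurd h0 hgg
    · linarith
  have hrr1 : (r:ℤ) ∣ r' := by
    have : (r:ℤ) ∣ r' * y := ⟨y', hry⟩
    exact hy.symm.dvd_of_dvd_mul_right this
  have hrr2 : (r':ℤ) ∣ r := by
    have : (r':ℤ) ∣ r * y' := ⟨y, hry.symm⟩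
    exact hy'.symm.dvd_of_dvd_mul_right this
  have hre : r = r' := Nat.dvd_antisymm (by exact_mod_cast hrr1) (by exact_mod_cast hrr2)
  have hye : y = y' := by
    rw [← hre] at hry
    have hrz : (r:ℤ) ≠ 0 := by exact_mod_cast hr0.ne'
    exact mul_left_cancel₀ hrz hry
  have hQz : (Q:ℤ) ≠ 0 := by exact_mod_cast hQ.ne'
  have h5 : (g:ℤ) * g' * k2 - r' * c * g' + r * c' * g = 0 := by
    have := hkey
    rw [hzero] at this
    rcases mul_eq_zero.mp this.symm with h0 | h0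
    · exact absurd h0 hQz
    · exact h0
  have hrQ : IsCoprime (r:ℤ) (Q:ℤ) := ⟨a, -m, by linarith⟩
  have hrg : IsCoprime (r:ℤ) ((g:ℤ) * g') := by
    refine IsCoprime.mul_right ?_ ?_
    · exact hrQ.of_isCoprime_of_dvd_right ⟨h, hQg⟩
    · exact hrQ.of_isCoprime_of_dvd_right ⟨h', hQg'⟩
  have h6 : (g:ℤ) * g' ∣ c * g' - c' * g := by
    have : (g:ℤ) * g' ∣ (r:ℤ) * (c * g' - c' * g) := by
      refine ⟨k2, ?_⟩
      rw [← hre] at h5
      linear_combination (-1 : ℤ) * h5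
    exact hrg.symm.dvd_of_dvd_mul_left this
  have h7 : (g:ℤ) ∣ g' := by
    have h8 : (g:ℤ) ∣ c * g' := by
      have h9 : (g:ℤ) ∣ c * g' - c' * g := (Dvd.intro _ rfl).trans h6
      have h10 : (g:ℤ) ∣ c' * g := Dvd.intro_left _ rfl
      have := dvd_add h9 h10
      rwa [sub_add_cancel] at this
    exact (Nat.isCoprime_iff_coprime.mpr hcg).symm.dvd_of_dvd_mul_left h8
  have h7' : (g':ℤ) ∣ g := by
    have h8 : (g':ℤ) ∣ c' * g := by
      have h9 : (g':ℤ) ∣ c * g' - c' * g := (Dvd.intro_left _ rfl).trans h6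
      have h10 : (g':ℤ) ∣ c * g' := Dvd.intro_left _ rfl
      have := dvd_sub h10 h9
      rwa [sub_sub_cancel] at this
    exact (Nat.isCoprime_iff_coprime.mpr hcg').symm.dvd_of_dvd_mul_left h8
  have hge : g = g' := Nat.dvd_antisymm (by exact_mod_cast h7) (by exact_mod_cast h7')
  refine ⟨hge, ?_, hre, hye⟩
  subst hge
  have h8 : (g:ℤ) ∣ c - c' := by
    have : (g:ℤ) * g ∣ g * (c - c') := by
      have e2 : (c:ℤ) * g - c' * g = g * (c - c') := by ring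
      rw [← e2]; exact h6
    exact (mul_dvd_mul_iff_left (by exact_mod_cast hg0.ne')).mp this
  have h9 := Int.eq_zero_of_abs_lt_dvd h8 (by rw [abs_lt]; omega)
  omega

/-- the symmetric set of `y` -/
def ZY (r Y : ℕ) : Finset ℤ := (CY r Y).image (fun y : ℕ => (y:ℤ)) ∪ (CY r Y).image (fun y : ℕ => -(y:ℤ))

lemma sum_ZY {E : Type*} [AddCommMonoid E] (r Y : ℕ) (f : ℤ → E) :
    ∑ y ∈ ZY r Y, f y = ∑ y ∈ CY r Y, (f y + f (-(y:ℤ))) := by
  unfold ZY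
  rw [sum_union, sum_image (fun a _ b _ h => by exact_mod_cast h), sum_image (fun a _ b _ h => by
    have := neg_injective h
    exact_mod_cast this), sum_add_distrib]
  rw [disjoint_left]
  intro k hk hk'
  rw [mem_image] at hk hk'
  obtain ⟨a, ha, rfl⟩ := hk
  obtain ⟨b, hb, hab⟩ := hk'
  rw [mem_CY] at ha hb
  omega

lemma mem_ZY (r Y : ℕ) (y : ℤ) (hy : y ∈ ZY r Y) : IsCoprime y (r:ℤ) ∧ |y| ≤ Y := by
  unfold ZY at hy
  rw [mem_union, mem_image, mem_image] at hy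
  rcases hy with ⟨a, ha, rfl⟩ | ⟨a, ha, rfl⟩
  · rw [mem_CY] at ha
    refine ⟨Nat.isCoprime_iff_coprime.mpr ha.2, ?_⟩
    rw [abs_of_nonneg (by positivity)]
    exact_mod_cast ha.1.2
  · rw [mem_CY] at ha
    refine ⟨(Nat.isCoprime_iff_coprime.mpr ha.2).neg_left, ?_⟩
    rw [abs_neg, abs_of_nonneg (by positivity)]
    exact_mod_cast ha.1.2

/-- the quadratic form -/
noncomputable def H0 (N Q : ℕ) (RR : Finset ℕ) (Yf : ℕ → ℕ) : ℝ :=
  ∑ r ∈ RR, (1 / (Nat.totient r : ℝ)) ^ 2 * ∑ y ∈ CY r (Yf r), ((1 / (N:ℝ)) * ‖DD N ((y:ℝ) / ((r:ℝ) * Q))‖) ^ 2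

theorem main_dual (N : ℕ) (x : ℝ) (Q : ℕ) (hQ : 0 < Q) (GG RR : Finset ℕ) (z Rm : ℕ) (K : ℝ) (hK0 : 0 ≤ K)
    (hGG : ∀ g ∈ GG, g ∣ Q ∧ Squarefree g ∧ g ≤ z) (hRm : ∀ r ∈ RR, r ≤ Rm ∧ Squarefree r)
    (a m : ℕ → ℕ) (ham : ∀ r ∈ RR, r * a r = 1 + Q * m r) (Yf : ℕ → ℕ) (hY : ∀ r ∈ RR, (Yf r : ℝ) * N ≤ K * ((r:ℝ) * Q))
    (hsm : 2 * K * (z:ℝ) ^ 2 * (Rm:ℝ) ^ 2 < N) :
    2 * (∑ g ∈ GG, 1 / (Nat.totient g : ℝ)) ^ 2 * ((∑ r ∈ RR, Tr N x Q (Yf r) r (a r)).re) ^ 2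
      ≤ (∑ g ∈ GG, 1 / (Nat.totient g : ℝ)) * (H0 N Q RR Yf * (Q * ∑ A ∈ range Q, (vv N x Q A) ^ 2)) := by
  classical
  set I : Finset ((_ : ℕ) × (ℕ × ((_ : ℕ) × ℤ))) :=
    GG.sigma (fun g => ((range g).filter (fun c => Nat.Coprime c g)) ×ˢ (RR.sigma (fun r => ZY r (Yf r)))) with hI
  set j : ((_ : ℕ) × (ℕ × ((_ : ℕ) × ℤ))) → ℤ := fun i =>
    (a i.2.2.1 : ℤ) * ((i.2.1 : ℤ) * ((Q / i.1 : ℕ) : ℤ) + i.2.2.2) with hj
  set wr : ℕ → ℤ → ℂ := fun r y => (((μ r : ℤ) : ℂ) / (Nat.totient r : ℂ)) *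
    ((1 / (N:ℂ)) * (starRingEnd ℂ) (DD N ((y:ℝ) / ((r:ℝ) * Q)))) with hwr
  set w : ((_ : ℕ) × (ℕ × ((_ : ℕ) × ℤ))) → ℂ := fun i =>
    (((μ i.1 : ℤ) : ℂ) / (Nat.totient i.1 : ℂ)) * wr i.2.2.1 i.2.2.2 with hw
  have hcop : ∀ r ∈ RR, Nat.Coprime (a r) Q := by
    intro r hr
    have h1 := ham r hr
    have h2 : IsCoprime ((a r : ℕ) : ℤ) (Q:ℤ) := ⟨r, -(m r : ℤ), by
      have : (r:ℤ) * (a r : ℤ) = 1 + Q * (m r : ℤ) := by exact_mod_cast h1
      linarith⟩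
    exact Nat.isCoprime_iff_coprime.mp h2
  have hinj : ∀ i ∈ I, ∀ i' ∈ I, (Q:ℤ) ∣ j i - j i' → i = i' := by
    rintro ⟨g, c, r, y⟩ hi ⟨g', c', r', y'⟩ hi' hd
    rw [hI, mem_sigma, mem_product, mem_filter, mem_range, mem_sigma] at hi hi'
    simp only at hi hi' hd
    obtain ⟨hg, ⟨hc, hcg⟩, hr, hy⟩ := hi
    obtain ⟨hg', ⟨hc', hcg'⟩, hr', hy'⟩ := hi'
    have hYb : ∀ r ∈ RR, ∀ y ∈ ZY r (Yf r), |(y:ℝ)| * N ≤ K * ((r:ℝ) * Q) := by
      intro r hr y hy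
      refine le_trans ?_ (hY r hr)
      refine mul_le_mul_of_nonneg_right ?_ (Nat.cast_nonneg _)
      exact_mod_cast (mem_ZY r _ y hy).2
    obtain ⟨h1, h2, h3, h4⟩ := inj_core Q g g' c c' r r' (a r) (a r') (m r) (m r') N z Rm K y y' hQ hK0
      (hGG g hg).1 (hGG g' hg').1 (hGG g hg).2.2 (hGG g' hg').2.2 hc hc' hcg hcg' (hRm r hr).1 (hRm r' hr').1
      (ham r hr) (ham r' hr') (mem_ZY r _ y hy).1 (mem_ZY r' _ y' hy').1 (hYb r hr y hy) (hYb r' hr' y' hy') hsm hd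
    subst h1 h2 h3 h4
    rfl
  have hD := dual_ineq Q hQ (vv N x Q) I j hinj w
  -- the linear form
  have hlin : ∑ i ∈ I, w i * FT Q (vv N x Q) ((j i : ZMod Q).val)
      = (((∑ g ∈ GG, 1 / (Nat.totient g : ℝ)) * (2 * (∑ r ∈ RR, Tr N x Q (Yf r) r (a r)).re) : ℝ) : ℂ) := by
    have h1 : ∀ i, FT Q (vv N x Q) ((j i : ZMod Q).val) = FI N x Q (j i) := fun i => rfl
    simp_rw [h1]
    rw [hI, sum_sigma]
    have h2 : ∀ g ∈ GG, ∑ i ∈ ((range g).filter (fun c => Nat.Coprime c g)) ×ˢ (RR.sigma (fun r => ZY r (Yf r))),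
        w ⟨g, i⟩ * FI N x Q (j ⟨g, i⟩) = ((1 / (Nat.totient g : ℝ) : ℝ) : ℂ) * ∑ r ∈ RR, ∑ y ∈ ZY r (Yf r), wr r y * FI N x Q ((a r : ℤ) * y) := by
      intro g hg
      rw [sum_product, sum_comm, sum_sigma, mul_sum]
      refine sum_congr rfl fun r hr => ?_
      rw [mul_sum]
      refine sum_congr rfl fun y hy => ?_
      simp only [hw, hj]
      rw [← mul_sum, sum_c N x Q g (a r) hQ (hGG g hg).1 (Nat.Coprime.coprime_dvd_right (hGG g hg).1 (hcop r hr)) y]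
      have h3 : ((μ g : ℤ) : ℂ) * ((μ g : ℤ) : ℂ) = 1 := by
        have := ArithmeticFunction.moebius_sq_eq_one_of_squarefree (hGG g hg).2.1
        rw [sq] at this
        exact_mod_cast this
      push_cast
      calc ((μ g : ℤ) : ℂ) / (Nat.totient g : ℂ) * wr r y * (((μ g : ℤ) : ℂ) * FI N x Q ((a r : ℤ) * y))
          = (((μ g : ℤ) : ℂ) * ((μ g : ℤ) : ℂ)) / (Nat.totient g : ℂ) * (wr r y * FI N x Q ((a r : ℤ) * y)) := by ring
        _ = _ := by rw [h3]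
    rw [sum_congr rfl h2, ← sum_mul]
    have h4 : ∀ r ∈ RR, ∑ y ∈ ZY r (Yf r), wr r y * FI N x Q ((a r : ℤ) * y) = ((2 * (Tr N x Q (Yf r) r (a r)).re : ℝ) : ℂ) := by
      intro r hr
      rw [sum_ZY]
      have h5 : ∀ y ∈ CY r (Yf r), wr r y * FI N x Q ((a r : ℤ) * y) + wr r (-(y:ℤ)) * FI N x Q ((a r : ℤ) * -(y:ℤ))
          = wr r y * FI N x Q ((a r : ℤ) * y) + (starRingEnd ℂ) (wr r y * FI N x Q ((a r : ℤ) * y)) := by
        intro y _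
        congr 1
        have h6 : (a r : ℤ) * -(y:ℤ) = -((a r : ℤ) * y) := by ring
        rw [h6, FI_neg N x Q hQ, map_mul]
        congr 1
        simp only [hwr]
        have h7 : (((-(y:ℤ) : ℤ)) : ℝ) / ((r:ℝ) * Q) = -((((y:ℤ)) : ℝ) / ((r:ℝ) * Q)) := by push_cast; ring
        rw [h7, DD_neg, map_mul, map_mul, Complex.conj_conj, map_div₀, map_div₀, map_one]
        simp
      rw [sum_congr rfl h5, sum_add_distrib, ← map_sum, Complex.add_conj]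
      congr 2
      unfold Tr
      rw [mul_sum]
      congr 1
      refine sum_congr rfl fun y _ => ?_
      simp only [hwr]
      push_cast
      ring
    rw [sum_congr rfl h4]
    push_cast
    rw [Complex.re_sum]
    push_cast
    rw [← mul_sum]
  -- the quadratic form
  have hquad : ∑ i ∈ I, ‖w i‖ ^ 2 = (∑ g ∈ GG, 1 / (Nat.totient g : ℝ)) * (2 * H0 N Q RR Yf) := by
    rw [hI, sum_sigma]
    have h2 : ∀ g ∈ GG, ∑ i ∈ ((range g).filter (fun c => Nat.Coprime c g)) ×ˢ (RR.sigma (fun r => ZY r (Yf r))),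
        ‖w ⟨g, i⟩‖ ^ 2 = (1 / (Nat.totient g : ℝ)) * (2 * H0 N Q RR Yf) := by
      intro g hg
      rw [sum_product, sum_congr rfl fun c _ => sum_sigma _ _ _]
      have h3 : ∀ c ∈ (range g).filter (fun c => Nat.Coprime c g), ∑ r ∈ RR, ∑ y ∈ ZY r (Yf r), ‖w ⟨g, c, r, y⟩‖ ^ 2
          = (1 / (Nat.totient g : ℝ)) ^ 2 * (2 * H0 N Q RR Yf) := by
        intro c _
        unfold H0
        rw [mul_sum, mul_sum]
        refine sum_congr rfl fun r hr => ?_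
        rw [sum_ZY]
        have hmg : ‖((μ g : ℤ) : ℂ)‖ = 1 := by
          have := ArithmeticFunction.abs_moebius_eq_one_of_squarefree (hGG g hg).2.1
          rw [Complex.norm_intCast]; exact_mod_cast this
        have hmr : ‖((μ r : ℤ) : ℂ)‖ = 1 := by
          have := ArithmeticFunction.abs_moebius_eq_one_of_squarefree (hRm r hr).2
          rw [Complex.norm_intCast]; exact_mod_cast this
        have h5 : ∀ y : ℕ, ‖w ⟨g, c, r, (y:ℤ)⟩‖ ^ 2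
            = (1 / (Nat.totient g : ℝ)) ^ 2 * ((1 / (Nat.totient r : ℝ)) ^ 2 * ((1 / (N:ℝ)) * ‖DD N ((y:ℝ) / ((r:ℝ) * Q))‖) ^ 2) := by
          intro y
          simp only [hw, hwr]
          rw [norm_mul, norm_mul, norm_mul, norm_div, norm_div, norm_div, hmg, hmr, Complex.norm_natCast, Complex.norm_natCast,
            Complex.norm_natCast, norm_one, RCLike.norm_conj]
          push_cast
          ring
        have h6 : ∀ y : ℕ, ‖w ⟨g, c, r, -(y:ℤ)⟩‖ ^ 2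
            = (1 / (Nat.totient g : ℝ)) ^ 2 * ((1 / (Nat.totient r : ℝ)) ^ 2 * ((1 / (N:ℝ)) * ‖DD N ((y:ℝ) / ((r:ℝ) * Q))‖) ^ 2) := by
          intro y
          rw [← h5 y]
          simp only [hw, hwr]
          have h7 : (((-(y:ℤ) : ℤ)) : ℝ) / ((r:ℝ) * Q) = -((((y:ℤ)) : ℝ) / ((r:ℝ) * Q)) := by push_cast; ring
          rw [h7, DD_neg]
          simp
        rw [sum_congr rfl fun y _ => by rw [h5 y, h6 y], mul_sum, mul_sum, mul_sum]
        refine sum_congr rfl fun y _ => by ring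
      rw [sum_congr rfl h3, sum_const, card_cop, nsmul_eq_mul]
      have hφ : (Nat.totient g : ℝ) ≠ 0 := by
        have := Nat.totient_pos.mpr (Nat.pos_of_dvd_of_pos (hGG g hg).1 hQ)
        exact_mod_cast this.ne'
      field_simp
    rw [sum_congr rfl h2, ← sum_mul]
  rw [hlin, hquad, Complex.norm_real, Real.norm_eq_abs, sq_abs] at hD
  nlinarith [hD]

end Pool.Agent.Var73
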