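import Pool.Agent.Lib_helper73.Var.Fixed3

/-! The error term from characters of large conductor, individual moduli -/

set_option autoImplicit false

namespace Pool.Agent.Var73

open Finset Complex Pool.Agent.Var35 DirichletCharacter Filter
open scoped ArithmeticFunction ArithmeticFunction.Moebius ArithmeticFunction.zeta

lemma bad_cond (z0 r : ℕ) (hr : Squarefree r) (χ : DirichletCharacter ℂ r) (h : ¬ χ.conductor ∣ smp z0 r) : z0 < χ.conductor := by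
  by_contra hc
  push Not at hc
  apply h
  have hd : χ.conductor ∣ r := χ.conductor_dvd_level
  have hsq : Squarefree χ.conductor := hr.squarefree_of_dvd hd
  rw [← Nat.prod_primeFactors_of_squarefree hsq]
  unfold smp
  refine Finset.prod_dvd_prod_of_subset _ _ _ ?_
  intro p hp
  rw [mem_filter]
  refine ⟨Nat.primeFactors_mono hd hr.ne_zero hp, ?_⟩
  exact (Nat.le_of_dvd (Nat.pos_of_ne_zero hsq.ne_zero) (Nat.dvd_of_mem_primeFactors hp)).trans hc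

open scoped Classical in
lemma E2t_le (N Q Y z0 r m : ℕ) (hr : Squarefree r) :
    ‖E2t N Q Y r (smp z0 r) m‖ ≤ ∑ χ ∈ univ.filter (fun χ : DirichletCharacter ℂ r => z0 < χ.conductor), wt ⟨r, χ⟩ * ‖Xs N Q Y ⟨r, χ⟩‖ := by
  have hr0 : NeZero r := ⟨hr.ne_zero⟩
  have hφ : (0:ℝ) < Nat.totient r := by exact_mod_cast Nat.totient_pos.mpr (Nat.pos_of_ne_zero hr.ne_zero)
  unfold E2t
  rw [norm_mul]
  have h1 : ‖((μ r : ℤ) : ℂ) / (Nat.totient r : ℂ) ^ 2‖ ≤ 1 / (Nat.totient r : ℝ) ^ 2 := by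
    rw [norm_div, norm_pow, Complex.norm_natCast, Complex.norm_intCast]
    refine div_le_div_of_nonneg_right ?_ (by positivity)
    exact_mod_cast ArithmeticFunction.abs_moebius_le_one (n := r)
  have h2 : ‖∑ χ ∈ univ.filter (fun χ : DirichletCharacter ℂ r => ¬ χ.conductor ∣ smp z0 r), (gS ⟨r, χ⟩ * χ (m : ZMod r)) * Xs N Q Y ⟨r, χ⟩‖
      ≤ ∑ χ ∈ univ.filter (fun χ : DirichletCharacter ℂ r => z0 < χ.conductor), Real.sqrt χ.conductor * ‖Xs N Q Y ⟨r, χ⟩‖ := by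
    refine (norm_sum_le _ _).trans ?_
    have h3 : ∀ χ ∈ univ.filter (fun χ : DirichletCharacter ℂ r => ¬ χ.conductor ∣ smp z0 r),
        ‖(gS ⟨r, χ⟩ * χ (m : ZMod r)) * Xs N Q Y ⟨r, χ⟩‖ ≤ Real.sqrt χ.conductor * ‖Xs N Q Y ⟨r, χ⟩‖ := by
      intro χ _
      rw [norm_mul, norm_mul]
      refine mul_le_mul_of_nonneg_right ?_ (norm_nonneg _)
      calc ‖gS ⟨r, χ⟩‖ * ‖χ (m : ZMod r)‖ ≤ Real.sqrt χ.conductor * 1 :=
            mul_le_mul (norm_gS_le r hr χ) (DirichletCharacter.norm_le_one _ _) (norm_nonneg _) (Real.sqrt_nonneg _)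
        _ = _ := mul_one _
    refine (sum_le_sum h3).trans ?_
    refine sum_le_sum_of_subset_of_nonneg ?_ fun _ _ _ => by positivity
    intro χ hχ
    rw [mem_filter] at hχ ⊢
    exact ⟨hχ.1, bad_cond z0 r hr χ hχ.2⟩
  calc _ ≤ (1 / (Nat.totient r : ℝ) ^ 2) * ∑ χ ∈ univ.filter (fun χ : DirichletCharacter ℂ r => z0 < χ.conductor), Real.sqrt χ.conductor * ‖Xs N Q Y ⟨r, χ⟩‖ :=
        mul_le_mul h1 h2 (norm_nonneg _) (by positivity)
    _ = _ := by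
        rw [mul_sum]
        refine sum_congr rfl fun χ _ => ?_
        unfold wt
        ring

lemma block_E2 (B : Finset ℕ) (R z0 : ℕ) (hR : 1 ≤ R) (hz : 1 ≤ z0) (hB : ∀ r ∈ B, R < r ∧ r ≤ 2 * R ∧ Squarefree r)
    (Lg : ℝ) (hLg : 2 * Real.log (2 * R) + 1 ≤ Lg) (Y : ℕ) (hY : 1 ≤ Y) (U N Q : ℕ) (hU : 1 ≤ U) (hN : 1 ≤ N) (hQ : 1 ≤ Q)
    (hl : 1 + Real.log (2 * Y * N) ≤ Lg) (K : ℝ) (hK0 : 0 ≤ K) (hK : (Y:ℝ) * N ≤ K * (R * Q)) (m : ℕ → ℕ) :
    ∑ r ∈ B, ‖E2t N Q Y r (smp z0 r) (m r)‖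
      ≤ 3 * Real.exp (2 * Real.pi * K) * (2816 * Lg ^ 9 * (U * T1b R Y Lg + E2b R z0 Y N U)) := by
  have h1 := sep (Fam B z0) wt wt_nonneg R (fun x hx => by
    unfold Fam at hx
    rw [mem_sigma] at hx
    exact (hB x.1 hx.1).1) N Q Y hN hY hQ K hK0 hK (2816 * Lg ^ 9 * (U * T1b R Y Lg + E2b R z0 Y N U))
    (fun c hc u hu => mvt B R z0 hR hz hB Lg hLg Y hY c hc U u N hU hu hN hl)
  refine le_trans ?_ h1
  unfold Fam
  rw [sum_sigma]
  refine sum_le_sum fun r hr => ?_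
  exact E2t_le N Q Y z0 r (m r) (hB r hr).2.2

/-- numerical estimate -/
lemma numE (N Q R U Y z0 : ℕ) (K Lg p : ℝ) (hN : 1 ≤ N) (hQ : 1 ≤ Q) (hR : 1 ≤ R) (hU : 1 ≤ U) (hK : 1 ≤ K) (hLg : 1 ≤ Lg) (hp : 1 ≤ p)
    (hQN : Q ≤ N) (hz : p ^ 4 ≤ (z0:ℝ)) (hRQ : (R:ℝ) * p ^ 2 ≤ Real.sqrt Q) (hU1 : (N:ℝ) * p ^ 4 ≤ U * Q) (hU2 : (U:ℝ) * Q ≤ 2 * N * p ^ 4)
    (hQ3 : 4 * (N:ℝ) ^ 2 * p ^ 16 ≤ (Q:ℝ) ^ 3) (hY : (Y:ℝ) * N ≤ K * (R * Q)) :
    U * T1b R Y Lg + E2b R z0 Y N U ≤ 16 * K * Lg * (Q / p) := by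
  have hNr : (1:ℝ) ≤ N := by exact_mod_cast hN
  have hQr : (1:ℝ) ≤ Q := by exact_mod_cast hQ
  have hRr : (1:ℝ) ≤ R := by exact_mod_cast hR
  have hUr : (1:ℝ) ≤ U := by exact_mod_cast hU
  have hQNr : (Q:ℝ) ≤ N := by exact_mod_cast hQN
  have hp0 : 0 < p := by linarith
  have hY0 : (0:ℝ) ≤ Y := Nat.cast_nonneg _
  -- square roots
  obtain ⟨n, hn⟩ : ∃ n, n = Real.sqrt N := ⟨_, rfl⟩
  obtain ⟨q, hq⟩ : ∃ q, q = Real.sqrt Q := ⟨_, rfl⟩
  obtain ⟨ρ, hρ⟩ : ∃ ρ, ρ = Real.sqrt R := ⟨_, rfl⟩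
  obtain ⟨v, hv⟩ : ∃ v, v = Real.sqrt U := ⟨_, rfl⟩
  obtain ⟨y, hy⟩ : ∃ y, y = Real.sqrt Y := ⟨_, rfl⟩
  obtain ⟨κ, hκ⟩ : ∃ κ, κ = Real.sqrt K := ⟨_, rfl⟩
  obtain ⟨k, hk⟩ : ∃ k, k = Real.sqrt n := ⟨_, rfl⟩
  have hn2 : n ^ 2 = N := by rw [hn]; exact Real.sq_sqrt (by linarith)
  have hq2 : q ^ 2 = Q := by rw [hq]; exact Real.sq_sqrt (by linarith)
  have hρ2 : ρ ^ 2 = R := by rw [hρ]; exact Real.sq_sqrt (by linarith)
  have hv2 : v ^ 2 = U := by rw [hv]; exact Real.sq_sqrt (by linarith)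
  have hy2 : y ^ 2 = Y := by rw [hy]; exact Real.sq_sqrt hY0
  have hκ2 : κ ^ 2 = K := by rw [hκ]; exact Real.sq_sqrt (by linarith)
  have hn0 : 0 ≤ n := by rw [hn]; positivity
  have hk2 : k ^ 2 = n := by rw [hk]; exact Real.sq_sqrt hn0
  have hn1 : 1 ≤ n := by rw [hn]; exact Real.one_le_sqrt.mpr hNr
  have hq1 : 1 ≤ q := by rw [hq]; exact Real.one_le_sqrt.mpr hQr
  have hρ1 : 1 ≤ ρ := by rw [hρ]; exact Real.one_le_sqrt.mpr hRr
  have hv1 : 1 ≤ v := by rw [hv]; exact Real.one_le_sqrt.mpr hUr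
  have hκ1 : 1 ≤ κ := by rw [hκ]; exact Real.one_le_sqrt.mpr hK
  have hk1 : 1 ≤ k := by rw [hk]; exact Real.one_le_sqrt.mpr hn1
  have hy0 : 0 ≤ y := by rw [hy]; positivity
  have hκK : κ ≤ K := by
    rw [← hκ2, sq]; exact le_mul_of_one_le_left (by linarith) hκ1
  obtain ⟨w, hw⟩ : ∃ w, w = Real.sqrt z0 := ⟨_, rfl⟩
  obtain ⟨s, hs⟩ : ∃ s, s = Real.sqrt q := ⟨_, rfl⟩
  have hs2 : s ^ 2 = q := by rw [hs]; exact Real.sq_sqrt (by linarith)
  have hs1 : 1 ≤ s := by rw [hs]; exact Real.one_le_sqrt.mpr hq1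
  have hwp : p ^ 2 ≤ w := by
    rw [hw]; refine Real.le_sqrt_of_sq_le ?_
    calc (p ^ 2) ^ 2 = p ^ 4 := by ring
      _ ≤ (z0:ℝ) := hz
  -- basic inequalities
  have hκ0 : 0 ≤ κ := by linarith
  have hρ0 : 0 ≤ ρ := by linarith
  have hq0 : 0 ≤ q := by linarith
  have hv0 : 0 ≤ v := by linarith
  have hs0 : 0 ≤ s := by linarith
  have hk0 : 0 ≤ k := by linarith
  have le_of_sq : ∀ a b : ℝ, 0 ≤ b → a ^ 2 ≤ b ^ 2 → a ≤ b := fun a b hb h => le_of_sq_le_sq h hb |> fun h => h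
  have H1 : y * n ≤ κ * ρ * q := by
    refine le_of_sq _ _ (by positivity) ?_
    calc (y * n) ^ 2 = y ^ 2 * n ^ 2 := by ring
      _ = (Y:ℝ) * N := by rw [hy2, hn2]
      _ ≤ K * (R * Q) := hY
      _ = (κ * ρ * q) ^ 2 := by rw [mul_pow, mul_pow, hκ2, hρ2, hq2]; ring
  have H2 : ρ ^ 2 * p ^ 2 ≤ q := by rw [hρ2, hq]; exact hRQ
  have H2' : ρ * p ≤ s := by
    refine le_of_sq _ _ hs0 ?_
    rw [mul_pow, hs2]; exact H2
  have H6 : q ≤ n := by rw [hq, hn]; exact Real.sqrt_le_sqrt hQNr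
  have H2'' : ρ * p ≤ k := by
    refine le_of_sq _ _ hk0 ?_
    rw [mul_pow, hk2]; exact H2.trans H6
  have H3 : n * p ^ 2 ≤ v * q := by
    refine le_of_sq _ _ (by positivity) ?_
    calc (n * p ^ 2) ^ 2 = n ^ 2 * p ^ 4 := by ring
      _ = N * p ^ 4 := by rw [hn2]
      _ ≤ (U:ℝ) * Q := hU1
      _ = (v * q) ^ 2 := by rw [mul_pow, hv2, hq2]
  have H4 : v ^ 2 * q ^ 2 ≤ 2 * n ^ 2 * p ^ 4 := by rw [hv2, hq2, hn2]; exact hU2
  have H5 : 2 * n ^ 2 * p ^ 8 ≤ q ^ 3 := by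
    refine le_of_sq _ _ (by positivity) ?_
    calc (2 * n ^ 2 * p ^ 8) ^ 2 = 4 * (n ^ 2) ^ 2 * p ^ 16 := by ring
      _ = 4 * (N:ℝ) ^ 2 * p ^ 16 := by rw [hn2]
      _ ≤ (Q:ℝ) ^ 3 := hQ3
      _ = (q ^ 3) ^ 2 := by rw [← hq2]; ring
  have H7 : v ^ 2 * p ^ 4 ≤ q := by
    have h1 : (v ^ 2 * p ^ 4) * q ^ 2 ≤ q * q ^ 2 := by
      calc (v ^ 2 * p ^ 4) * q ^ 2 = (v ^ 2 * q ^ 2) * p ^ 4 := by ring
        _ ≤ (2 * n ^ 2 * p ^ 4) * p ^ 4 := mul_le_mul_of_nonneg_right H4 (by positivity)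
        _ = 2 * n ^ 2 * p ^ 8 := by ring
        _ ≤ q ^ 3 := H5
        _ = q * q ^ 2 := by ring
    exact le_of_mul_le_mul_right h1 (by positivity)
  have H8 : n * p ^ 4 ≤ s ^ 3 := by
    refine le_of_sq _ _ (by positivity) ?_
    calc (n * p ^ 4) ^ 2 = n ^ 2 * p ^ 8 := by ring
      _ ≤ 2 * n ^ 2 * p ^ 8 := by
          have : 0 ≤ n ^ 2 * p ^ 8 := by positivity
          linarith
      _ ≤ q ^ 3 := H5
      _ = (s ^ 3) ^ 2 := by rw [← hs2]; ring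
  have hp2 : p ≤ p ^ 2 := by rw [sq]; exact le_mul_of_one_le_left hp0.le hp
  have hp4 : p ≤ p ^ 4 := by
    calc p = p ^ 1 := (pow_one p).symm
      _ ≤ p ^ 4 := pow_le_pow_right₀ hp (by norm_num)
  have hQp0 : 0 ≤ (Q:ℝ) / p := by positivity
  -- t0
  have T0 : 2 * (Y:ℝ) * N / (R * w) ≤ 2 * K * (Q / p) := by
    have hw0 : 0 < w := by have : 0 < p ^ 2 := by positivity
                           linarith
    rw [div_le_iff₀ (by positivity)]
    have h1 : p ≤ w := hp2.trans hwp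
    calc 2 * (Y:ℝ) * N = 2 * (Y * N) := by ring
      _ ≤ 2 * (K * (R * Q)) := by linarith
      _ = (2 * K * (Q / p) * R) * p := by field_simp
      _ ≤ (2 * K * (Q / p) * R) * w := mul_le_mul_of_nonneg_left h1 (by positivity)
      _ = 2 * K * (Q / p) * (R * w) := by ring
  have T1 : 2 * (Y:ℝ) * n * k ≤ (2 * K * (Q / p)) * ρ := by
    have h1 : (2 * (Y:ℝ) * n * k) * k ≤ ((2 * K * (Q / p)) * ρ) * k := by
      calc (2 * (Y:ℝ) * n * k) * k = 2 * (Y * N) := by rw [← hn2, ← hk2]; ring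
        _ ≤ 2 * (K * (R * Q)) := by linarith
        _ = (2 * K * (Q / p) * ρ) * (ρ * p) := by rw [← hρ2]; field_simp
        _ ≤ (2 * K * (Q / p) * ρ) * k := mul_le_mul_of_nonneg_left H2'' (by positivity)
    exact le_of_mul_le_mul_right h1 (by linarith)
  have T2 : 2 * y * N / v ≤ (2 * K * (Q / p)) * ρ := by
    rw [div_le_iff₀ (by linarith)]
    have h1 : (2 * y * N) * p ^ 2 ≤ ((2 * K * (Q / p)) * ρ * v) * p ^ 2 := by
      calc (2 * y * N) * p ^ 2 = 2 * (y * n) * (n * p ^ 2) := by rw [← hn2]; ring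
        _ ≤ 2 * (κ * ρ * q) * (v * q) := by
            refine mul_le_mul ?_ H3 (by positivity) (by positivity)
            linarith
        _ = (2 * κ * (Q / p) * ρ * v) * p := by rw [← hq2]; field_simp
        _ ≤ (2 * K * (Q / p) * ρ * v) * p ^ 2 := by
            refine mul_le_mul ?_ hp2 hp0.le (by positivity)
            refine mul_le_mul_of_nonneg_right ?_ hv0
            refine mul_le_mul_of_nonneg_right ?_ hρ0
            refine mul_le_mul_of_nonneg_right ?_ hQp0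
            linarith
    exact le_of_mul_le_mul_right h1 (by positivity)
  have T3 : y * n * U ≤ (K * (Q / p)) * ρ := by
    have h1 : (y * n * U) * p ^ 4 ≤ ((K * (Q / p)) * ρ) * p ^ 4 := by
      calc (y * n * U) * p ^ 4 = (y * n) * (v ^ 2 * p ^ 4) := by rw [← hv2]; ring
        _ ≤ (κ * ρ * q) * q := mul_le_mul H1 H7 (by positivity) (by positivity)
        _ = (κ * (Q / p) * ρ) * p := by rw [← hq2]; field_simp
        _ ≤ (K * (Q / p) * ρ) * p ^ 4 := by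
            refine mul_le_mul ?_ hp4 hp0.le (by positivity)
            refine mul_le_mul_of_nonneg_right ?_ hρ0
            exact mul_le_mul_of_nonneg_right hκK hQp0
    exact le_of_mul_le_mul_right h1 (by positivity)
  have T4 : 2 * ρ * y * n ≤ 2 * K * (Q / p) := by
    have h1 : (2 * ρ * y * n) * p ^ 2 ≤ (2 * K * (Q / p)) * p ^ 2 := by
      calc (2 * ρ * y * n) * p ^ 2 = (2 * ρ * p ^ 2) * (y * n) := by ring
        _ ≤ (2 * ρ * p ^ 2) * (κ * ρ * q) := mul_le_mul_of_nonneg_left H1 (by positivity)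
        _ = (2 * κ * q) * (ρ ^ 2 * p ^ 2) := by ring
        _ ≤ (2 * κ * q) * q := mul_le_mul_of_nonneg_left H2 (by positivity)
        _ = (2 * κ * (Q / p)) * p := by rw [← hq2]; field_simp
        _ ≤ (2 * K * (Q / p)) * p ^ 2 := by
            refine mul_le_mul ?_ hp2 hp0.le (by positivity)
            refine mul_le_mul_of_nonneg_right ?_ hQp0
            linarith
    exact le_of_mul_le_mul_right h1 (by positivity)
  have T5 : U * (R * Lg * Real.sqrt (2 * (((Y:ℝ) / R + 1) * Y))) ≤ 4 * K * Lg * (Q / p) := by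
    have h1 : Real.sqrt (2 * (((Y:ℝ) / R + 1) * Y)) ≤ 2 * κ * y := by
      have h2 : (Y:ℝ) / R ≤ K := by
        rw [div_le_iff₀ (by linarith)]
        have h3 : (Y:ℝ) * N ≤ (K * R) * N := by
          calc (Y:ℝ) * N ≤ K * (R * Q) := hY
            _ = (K * R) * Q := by ring
            _ ≤ (K * R) * N := mul_le_mul_of_nonneg_left hQNr (by positivity)
        exact le_of_mul_le_mul_right h3 (by linarith)
      rw [Real.sqrt_le_left (by positivity)]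
      calc 2 * (((Y:ℝ) / R + 1) * Y) ≤ 2 * ((K + K) * Y) := by
            refine mul_le_mul_of_nonneg_left (mul_le_mul_of_nonneg_right ?_ hY0) (by norm_num)
            linarith
        _ = (2 * κ * y) ^ 2 := by rw [mul_pow, mul_pow, hκ2, hy2]; ring
    have h2 : U * (R * Lg * Real.sqrt (2 * (((Y:ℝ) / R + 1) * Y))) ≤ (2 * κ * Lg) * (v ^ 2 * ρ ^ 2 * y) := by
      calc U * (R * Lg * Real.sqrt (2 * (((Y:ℝ) / R + 1) * Y))) ≤ U * (R * Lg * (2 * κ * y)) := by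
            refine mul_le_mul_of_nonneg_left ?_ (by linarith)
            exact mul_le_mul_of_nonneg_left h1 (by positivity)
        _ = _ := by rw [← hv2, ← hρ2]; ring
    refine h2.trans ?_
    have h3 : (v ^ 2 * ρ ^ 2 * y) * (n * p ^ 3 * s ^ 4) ≤ (2 * κ * (Q / p) ) * (n * p ^ 3 * s ^ 4) := by
      calc (v ^ 2 * ρ ^ 2 * y) * (n * p ^ 3 * s ^ 4) = (v ^ 2 * s ^ 4) * ((ρ ^ 2 * p ^ 2) * p) * (y * n) := by ring
        _ ≤ (2 * n ^ 2 * p ^ 4) * (s ^ 2 * p) * (κ * ρ * q) := by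
            refine mul_le_mul ?_ H1 (by positivity) (by positivity)
            refine mul_le_mul ?_ ?_ (by positivity) (by positivity)
            · calc v ^ 2 * s ^ 4 = v ^ 2 * q ^ 2 := by rw [← hs2]; ring
                _ ≤ _ := H4
            · refine mul_le_mul_of_nonneg_right ?_ hp0.le
              rw [hs2]; exact H2
        _ = (2 * κ * n * s ^ 4) * ((n * p ^ 4) * (ρ * p)) := by rw [← hs2]; ring
        _ ≤ (2 * κ * n * s ^ 4) * (s ^ 3 * s) := by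
            refine mul_le_mul_of_nonneg_left ?_ (by positivity)
            exact mul_le_mul H8 H2' (by positivity) (by positivity)
        _ = (2 * κ * (Q / p)) * (n * p * s ^ 4) := by rw [← hq2, ← hs2]; field_simp
        _ ≤ (2 * κ * (Q / p)) * (n * p ^ 3 * s ^ 4) := by
            refine mul_le_mul_of_nonneg_left ?_ (by positivity)
            refine mul_le_mul_of_nonneg_right ?_ (by positivity)
            refine mul_le_mul_of_nonneg_left ?_ hn0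
            calc p = p ^ 1 := (pow_one p).symm
              _ ≤ p ^ 3 := pow_le_pow_right₀ hp (by norm_num)
    have h4 := le_of_mul_le_mul_right h3 (by positivity)
    calc (2 * κ * Lg) * (v ^ 2 * ρ ^ 2 * y) ≤ (2 * κ * Lg) * (2 * κ * (Q / p)) := mul_le_mul_of_nonneg_left h4 (by positivity)
      _ = 4 * κ ^ 2 * Lg * (Q / p) := by ring
      _ = _ := by rw [hκ2]
  unfold T1b E2b
  rw [← hn, ← hk, ← hw, ← hρ, ← hy, ← hv]
  have hT123 : (2 * (Y:ℝ) * n * k + 2 * y * N / v + y * n * U) / ρ ≤ 5 * K * (Q / p) := by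
    rw [div_le_iff₀ (by linarith)]
    calc 2 * (Y:ℝ) * n * k + 2 * y * N / v + y * n * U ≤ (2 * K * (Q / p)) * ρ + (2 * K * (Q / p)) * ρ + (K * (Q / p)) * ρ :=
          add_le_add (add_le_add T1 T2) T3
      _ = _ := by ring
  have hKLg : K * (Q / p) ≤ K * Lg * (Q / p) := by
    refine mul_le_mul_of_nonneg_right ?_ hQp0
    exact le_mul_of_one_le_right (by linarith) hLg
  calc _ ≤ 4 * K * Lg * (Q / p) + (2 * K * (Q / p) + 5 * K * (Q / p) + 2 * K * (Q / p)) :=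
        add_le_add T5 (add_le_add (add_le_add T0 hT123) T4)
    _ = 4 * (K * Lg * (Q / p)) + 9 * (K * (Q / p)) := by ring
    _ ≤ 4 * (K * Lg * (Q / p)) + 9 * (K * Lg * (Q / p)) := by linarith
    _ ≤ 16 * K * Lg * (Q / p) := by
        have : 0 ≤ K * Lg * (Q / p) := by positivity
        linarith

end Pool.Agent.Var73
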