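import Pool.Agent.Lib_helper73.Var.ErrA

/-! Dyadic decomposition and the total error for individual moduli -/

set_option autoImplicit false

namespace Pool.Agent.Var73

open Finset Complex Pool.Agent.Var35 DirichletCharacter Filter
open scoped ArithmeticFunction ArithmeticFunction.Moebius ArithmeticFunction.zeta

/-- index of the dyadic block -/
def ib (Rl r : ℕ) : ℕ := Nat.log 2 ((r - 1) / Rl)

/-- length of the `y`-range -/
noncomputable def Yi (K q : ℝ) (N Rl i : ℕ) : ℕ := ⌊K * (((2 ^ i * Rl : ℕ)) : ℝ) * q / N⌋₊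

lemma ib_spec (Rl r : ℕ) (hRl : 1 ≤ Rl) (hr : Rl < r) :
    2 ^ (ib Rl r) * Rl < r ∧ r ≤ 2 * (2 ^ (ib Rl r) * Rl) := by
  have h1 : (r - 1) / Rl ≠ 0 := by
    rw [Nat.div_ne_zero_iff]
    omega
  unfold ib
  have h2 := Nat.pow_log_le_self 2 h1
  have h3 := Nat.lt_pow_succ_log_self (b := 2) (by norm_num) ((r - 1) / Rl)
  set i := Nat.log 2 ((r - 1) / Rl)
  constructor
  · have h4 : 2 ^ i * Rl ≤ r - 1 := (Nat.le_div_iff_mul_le hRl).mp h2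
    omega
  · have h4 : r - 1 < 2 ^ (i + 1) * Rl := (Nat.div_lt_iff_lt_mul hRl).mp h3
    have h5 : 2 ^ (i + 1) * Rl = 2 * (2 ^ i * Rl) := by ring
    omega

lemma ib_lt (Rl r I : ℕ) (hRl : 1 ≤ Rl) (hr : Rl < r) (hr2 : r ≤ 2 ^ I * Rl) : ib Rl r < I := by
  have h1 := (ib_spec Rl r hRl hr).1
  have h2 : 2 ^ (ib Rl r) * Rl < 2 ^ I * Rl := lt_of_lt_of_le h1 hr2
  have h3 : 2 ^ (ib Rl r) < 2 ^ I := lt_of_mul_lt_mul_right h2 (Nat.zero_le _)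
  exact (Nat.pow_lt_pow_iff_right (by norm_num)).mp h3

lemma Yi_le (K q : ℝ) (N Rl i : ℕ) (hK : 0 ≤ K) (hq : 0 ≤ q) (hN : 0 < N) :
    (Yi K q N Rl i : ℝ) * N ≤ K * ((((2 ^ i * Rl : ℕ)) : ℝ) * q) := by
  have hNr : (0:ℝ) < N := by exact_mod_cast hN
  have h1 : (Yi K q N Rl i : ℝ) ≤ K * (((2 ^ i * Rl : ℕ)) : ℝ) * q / N := Nat.floor_le (by positivity)
  rw [le_div_iff₀ hNr] at h1
  linarith

lemma Yi_ge (K q : ℝ) (N Rl i : ℕ) (hK : 0 ≤ K) (hq : 0 ≤ q) (hN : 0 < N) (h : 2 * (N:ℝ) ≤ K * (Rl * q)) :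
    1 ≤ Yi K q N Rl i ∧ K * ((((2 ^ i * Rl : ℕ)) : ℝ) * q) ≤ 2 * (Yi K q N Rl i * N) := by
  have hNr : (0:ℝ) < N := by exact_mod_cast hN
  obtain ⟨w, hw⟩ : ∃ w, w = K * (((2 ^ i * Rl : ℕ)) : ℝ) * q / N := ⟨_, rfl⟩
  have h2 : 2 ≤ w := by
    rw [hw, le_div_iff₀ hNr]
    refine h.trans ?_
    have h3 : (Rl:ℝ) ≤ (((2 ^ i * Rl : ℕ)) : ℝ) := by
      have : Rl ≤ 2 ^ i * Rl := Nat.le_mul_of_pos_left _ (by positivity)
      exact_mod_cast this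
    calc K * (Rl * q) ≤ K * ((((2 ^ i * Rl : ℕ)) : ℝ) * q) := mul_le_mul_of_nonneg_left (mul_le_mul_of_nonneg_right h3 hq) hK
      _ = _ := by ring
  have h3 : w < (Yi K q N Rl i : ℝ) + 1 := by
    unfold Yi; rw [← hw]; exact Nat.lt_floor_add_one w
  have h4 : (1:ℝ) < Yi K q N Rl i := by linarith
  have h5 : w * N = K * ((((2 ^ i * Rl : ℕ)) : ℝ) * q) := by rw [hw]; field_simp
  refine ⟨?_, ?_⟩
  · have : (1:ℕ) < Yi K q N Rl i := by exact_mod_cast h4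
    omega
  · rw [← h5]
    have h6 : w ≤ 2 * Yi K q N Rl i := by linarith
    calc w * N ≤ (2 * Yi K q N Rl i) * N := mul_le_mul_of_nonneg_right h6 hNr.le
      _ = _ := by ring

/-- decomposition of a sum over `RR` into dyadic blocks -/
lemma sum_blocks {E : Type*} [AddCommMonoid E] (RR : Finset ℕ) (Rl I : ℕ) (hRl : 1 ≤ Rl)
    (hRR : ∀ r ∈ RR, Rl < r ∧ r ≤ 2 ^ I * Rl) (f : ℕ → ℕ → E) :
    ∑ r ∈ RR, f (ib Rl r) r = ∑ i ∈ range I, ∑ r ∈ RR.filter (fun r => ib Rl r = i), f i r := by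
  rw [← sum_fiberwise_of_maps_to (g := fun r => ib Rl r) (t := range I)]
  · refine sum_congr rfl fun i _ => sum_congr rfl fun r hr => ?_
    rw [mem_filter] at hr
    rw [hr.2]
  · intro r hr
    rw [mem_range]
    exact ib_lt Rl r I hRl (hRR r hr).1 (hRR r hr).2

theorem E2_A (N Q Rl I U z0 : ℕ) (K q Lg p : ℝ) (RR : Finset ℕ) (m : ℕ → ℕ) (hN : 1 ≤ N) (hQ : 1 ≤ Q) (hRl : 1 ≤ Rl) (hU : 1 ≤ U)
    (hK : 1 ≤ K) (hLg : 1 ≤ Lg) (hp : 1 ≤ p) (hQN : Q ≤ N) (hz : p ^ 4 ≤ (z0:ℝ))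
    (hRQ : ((2 ^ I * Rl : ℕ):ℝ) * p ^ 2 ≤ Real.sqrt Q) (hU1 : (N:ℝ) * p ^ 4 ≤ U * Q) (hU2 : (U:ℝ) * Q ≤ 2 * N * p ^ 4)
    (hQ3 : 4 * (N:ℝ) ^ 2 * p ^ 16 ≤ (Q:ℝ) ^ 3) (hq0 : 0 ≤ q) (hqQ : q ≤ Q) (hKq : 2 * (N:ℝ) ≤ K * (Rl * q))
    (hLgR : 2 * Real.log ((2 ^ I * Rl : ℕ):ℝ) + 1 ≤ Lg) (hLgY : 1 + Real.log (2 * K * (2 ^ I * Rl : ℕ) * Q) ≤ Lg)
    (hRR : ∀ r ∈ RR, Rl < r ∧ r ≤ 2 ^ I * Rl ∧ Squarefree r) :
    ‖∑ r ∈ RR, E2t N Q (Yi K q N Rl (ib Rl r)) r (smp z0 r) (m r)‖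
      ≤ I * (3 * Real.exp (2 * Real.pi * K) * (2816 * Lg ^ 9 * (16 * K * Lg * (Q / p)))) := by
  have hNr : (1:ℝ) ≤ N := by exact_mod_cast hN
  have hQr : (1:ℝ) ≤ Q := by exact_mod_cast hQ
  have hRlr : (1:ℝ) ≤ Rl := by exact_mod_cast hRl
  have hz0 : 1 ≤ z0 := by
    have h1 : (1:ℝ) ≤ z0 := (one_le_pow₀ hp).trans hz
    exact_mod_cast h1
  refine (norm_sum_le _ _).trans ?_
  rw [sum_blocks RR Rl I hRl (fun r hr => ⟨(hRR r hr).1, (hRR r hr).2.1⟩) (fun i r => ‖E2t N Q (Yi K q N Rl i) r (smp z0 r) (m r)‖)]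
  have h1 : ∀ i ∈ range I, ∑ r ∈ RR.filter (fun r => ib Rl r = i), ‖E2t N Q (Yi K q N Rl i) r (smp z0 r) (m r)‖
      ≤ 3 * Real.exp (2 * Real.pi * K) * (2816 * Lg ^ 9 * (16 * K * Lg * (Q / p))) := by
    intro i hi
    rw [mem_range] at hi
    obtain ⟨R, hR⟩ : ∃ R, R = 2 ^ i * Rl := ⟨_, rfl⟩
    have hR1 : 1 ≤ R := by rw [hR]; exact Nat.one_le_iff_ne_zero.mpr (Nat.mul_ne_zero (by positivity) (by omega))
    have hRr : (1:ℝ) ≤ R := by exact_mod_cast hR1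
    have h2R : 2 * R ≤ 2 ^ I * Rl := by
      rw [hR]
      calc 2 * (2 ^ i * Rl) = 2 ^ (i + 1) * Rl := by ring
        _ ≤ 2 ^ I * Rl := Nat.mul_le_mul_right _ (Nat.pow_le_pow_right (by norm_num) hi)
    have h2Rr : 2 * (R:ℝ) ≤ ((2 ^ I * Rl : ℕ):ℝ) := by exact_mod_cast h2R
    have hB : ∀ r ∈ RR.filter (fun r => ib Rl r = i), R < r ∧ r ≤ 2 * R ∧ Squarefree r := by
      intro r hr
      rw [mem_filter] at hr
      have h3 := ib_spec Rl r hRl (hRR r hr.1).1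
      rw [hr.2, ← hR] at h3
      exact ⟨h3.1, h3.2, (hRR r hr.1).2.2⟩
    have hYle := Yi_le K q N Rl i (by linarith) hq0 hN
    obtain ⟨hY1, hY2⟩ := Yi_ge K q N Rl i (by linarith) hq0 hN hKq
    rw [← hR] at hYle hY2
    set Y := Yi K q N Rl i with hYdef
    have hYr : (1:ℝ) ≤ Y := by exact_mod_cast hY1
    have hYK : (Y:ℝ) * N ≤ K * (R * Q) := by
      refine hYle.trans ?_
      refine mul_le_mul_of_nonneg_left (mul_le_mul_of_nonneg_left hqQ (by linarith)) (by linarith)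
    have hlR : 2 * Real.log (2 * R) + 1 ≤ Lg := by
      have := Real.log_le_log (by linarith : (0:ℝ) < 2 * R) h2Rr
      linarith
    have hlY : 1 + Real.log (2 * Y * N) ≤ Lg := by
      refine le_trans ?_ hLgY
      have h3 : 2 * (Y:ℝ) * N ≤ 2 * K * (2 ^ I * Rl : ℕ) * Q := by
        calc 2 * (Y:ℝ) * N = 2 * (Y * N) := by ring
          _ ≤ 2 * (K * (R * Q)) := by linarith
          _ = 2 * K * R * Q := by ring
          _ ≤ 2 * K * (2 ^ I * Rl : ℕ) * Q := by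
              refine mul_le_mul_of_nonneg_right ?_ (by linarith)
              refine mul_le_mul_of_nonneg_left ?_ (by linarith)
              linarith
      have := Real.log_le_log (by positivity : (0:ℝ) < 2 * Y * N) h3
      linarith
    have h4 := block_E2 (RR.filter (fun r => ib Rl r = i)) R z0 hR1 hz0 hB Lg hlR Y hY1 U N Q hU hN hQ hlY K (by linarith) hYK m
    refine h4.trans ?_
    have h5 := numE N Q R U Y z0 K Lg p hN hQ hR1 hU hK hLg hp hQN hz (by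
      refine le_trans ?_ hRQ
      refine mul_le_mul_of_nonneg_right ?_ (by positivity)
      linarith) hU1 hU2 hQ3 hYK
    refine mul_le_mul_of_nonneg_left ?_ (by positivity)
    exact mul_le_mul_of_nonneg_left h5 (by positivity)
  refine (sum_le_sum h1).trans (le_of_eq ?_)
  rw [sum_const, card_range, nsmul_eq_mul]

end Pool.Agent.Var73
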