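import Pool.Agent.Lib_helper73.Var.FinalA

/-! Mean squares over the moduli of sums over characters of large conductor -/

set_option autoImplicit false

namespace Pool.Agent.Var73

open Finset Complex Pool.Agent.Var35 DirichletCharacter Filter
open scoped ArithmeticFunction ArithmeticFunction.Moebius ArithmeticFunction.zeta

lemma prm_mul (x : Chr) (m : ℕ) (h : x.1 / (prm x.2).1 = m) : x.1 = (prm x.2).1 * m := by
  have hd : (prm x.2).1 ∣ x.1 := x.2.conductor_dvd_level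
  rw [← h, Nat.mul_div_cancel' hd]

lemma inj_sum (I : Finset Chr) (m D : ℕ) (hI : ∀ x ∈ I, 1 ≤ x.1 ∧ x.1 / (prm x.2).1 = m ∧ (prm x.2).1 ≤ D)
    (f : Chr → ℝ) (hf : ∀ y, 0 ≤ f y) :
    ∑ x ∈ I, f (prm x.2) ≤ ∑ d ∈ Finset.Icc 1 D, ∑ ψ ∈ Pr d, f ⟨d, ψ⟩ := by
  classical
  have hinj : Set.InjOn (fun x : Chr => prm x.2) (I : Set Chr) := by
    intro x hx x' hx' h
    simp only at h
    have h1 := prm_mul x m (hI x hx).2.1
    have h2 := prm_mul x' m (hI x' hx').2.1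
    have h3 : x.1 = x'.1 := by rw [h1, h2, h]
    obtain ⟨r, χ⟩ := x
    obtain ⟨r', χ'⟩ := x'
    simp only at h3
    subst h3
    simp only at h
    rw [prm_injective h]
  rw [← sum_sigma (Finset.Icc 1 D) Pr f]
  rw [← Finset.sum_image (f := f) hinj]
  refine sum_le_sum_of_subset_of_nonneg ?_ fun y _ _ => hf y
  intro y hy
  rw [mem_image] at hy
  obtain ⟨x, hx, rfl⟩ := hy
  have h1 := hI x hx
  rw [mem_sigma, Finset.mem_Icc, mem_Pr]
  have h2 := prm_mul x m h1.2.1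
  refine ⟨⟨?_, h1.2.2⟩, primitiveCharacter_isPrimitive x.2⟩
  rcases Nat.eq_zero_or_pos (prm x.2).1 with h0 | h0
  · rw [h0, zero_mul] at h2; omega
  · exact h0

lemma ev_prm (x : Chr) (h : 1 ≤ x.1) (n : ℕ) :
    ev x n = if Nat.Coprime n (x.1 / (prm x.2).1) then ev (prm x.2) n else 0 := by
  have : NeZero x.1 := ⟨by omega⟩
  exact char_prm x.2 n

/-- the large sieve over a family with fixed cofactor -/
lemma fam_ls (I : Finset Chr) (m D : ℕ) (hD : 1 ≤ D) (hI : ∀ x ∈ I, 1 ≤ x.1 ∧ x.1 / (prm x.2).1 = m ∧ (prm x.2).1 ≤ D)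
    (a : ℕ → ℂ) (M H : ℕ) :
    ∑ x ∈ I, (((prm x.2).1:ℝ) / Nat.totient (prm x.2).1) * ‖∑ n ∈ Finset.Ioc M (M + H), a n * ev (prm x.2) n‖ ^ 2
      ≤ 22 * (H + (D:ℝ) ^ 2) * ∑ n ∈ Finset.Ioc M (M + H), ‖a n‖ ^ 2 := by
  refine (inj_sum I m D hI (fun y => ((y.1:ℝ) / Nat.totient y.1) * ‖∑ n ∈ Finset.Ioc M (M + H), a n * ev y n‖ ^ 2)
    (fun y => by positivity)).trans ?_
  exact mlsP (Finset.Icc 1 D) D (fun d hd => Finset.mem_Icc.mp hd) hD a M H

/-- the dual large sieve over a family with fixed cofactor -/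
lemma fam_dual (I : Finset Chr) (m D : ℕ) (hD : 1 ≤ D) (hI : ∀ x ∈ I, 1 ≤ x.1 ∧ x.1 / (prm x.2).1 = m ∧ (prm x.2).1 ≤ D)
    (W : Chr → ℂ) (M H : ℕ) :
    ∑ n ∈ Finset.Ioc M (M + H), ‖∑ x ∈ I, W x * ev (prm x.2) n‖ ^ 2
      ≤ 22 * (H + (D:ℝ) ^ 2) * ∑ x ∈ I, ‖W x‖ ^ 2 := by
  refine duality I (Finset.Ioc M (M + H)) (fun x n => ev (prm x.2) n) (22 * (H + (D:ℝ) ^ 2)) (by positivity) ?_ W
  intro a
  refine le_trans ?_ (fam_ls I m D hD hI a M H)
  refine sum_le_sum fun x hx => ?_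
  refine le_mul_of_one_le_left (by positivity) ?_
  have h1 := hI x hx
  have h2 := prm_mul x m h1.2.1
  have h3 : 0 < (prm x.2).1 := by
    rcases Nat.eq_zero_or_pos (prm x.2).1 with h0 | h0
    · rw [h0, zero_mul] at h2; omega
    · exact h0
  have h4 : (0:ℝ) < Nat.totient (prm x.2).1 := by exact_mod_cast Nat.totient_pos.mpr h3
  rw [one_le_div h4]
  exact_mod_cast Nat.totient_le _

lemma wt_sq (x : Chr) (m R : ℕ) (Lg : ℝ) (hR : 1 ≤ R) (hx1 : R < x.1) (hx2 : x.1 ≤ 2 * R) (hsq : Squarefree x.1)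
    (hm : x.1 / (prm x.2).1 = m) (hLg : 2 * Real.log (2 * R) + 1 ≤ Lg) (hLg0 : 0 ≤ Lg) :
    (wt x) ^ 2 ≤ ((Lg / m) ^ 4 * (Lg * m / R) ^ 3) * (((prm x.2).1:ℝ) / Nat.totient (prm x.2).1) := by
  have h2 := prm_mul x m hm
  obtain ⟨d, hd⟩ : ∃ d, d = (prm x.2).1 := ⟨_, rfl⟩
  rw [← hd] at h2 ⊢
  have hd0 : 0 < d := by
    rcases Nat.eq_zero_or_pos d with h0 | h0
    · rw [h0, zero_mul] at h2; omega
    · exact h0
  have hm0 : 0 < m := by
    rcases Nat.eq_zero_or_pos m with h0 | h0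
    · rw [h0, mul_zero] at h2; omega
    · exact h0
  have hcop : Nat.Coprime d m := by
    rw [h2] at hsq
    exact Nat.coprime_of_squarefree_mul hsq
  have hφ : Nat.totient x.1 = Nat.totient d * Nat.totient m := by rw [h2, Nat.totient_mul hcop]
  have hcond : x.2.conductor = d := by rw [hd]; rfl
  have hdr : (0:ℝ) < d := by exact_mod_cast hd0
  have hmr : (0:ℝ) < m := by exact_mod_cast hm0
  have hRr : (0:ℝ) < R := by exact_mod_cast hR
  have hφd : (0:ℝ) < Nat.totient d := by exact_mod_cast Nat.totient_pos.mpr hd0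
  have hφm : (0:ℝ) < Nat.totient m := by exact_mod_cast Nat.totient_pos.mpr hm0
  have hle : d ≤ 2 * R := (Nat.le_mul_of_pos_right d hm0).trans (by rw [← h2]; exact hx2)
  have hle' : m ≤ 2 * R := (Nat.le_mul_of_pos_left m hd0).trans (by rw [← h2]; exact hx2)
  have h2R : (2:ℝ) * R = ((2 * R : ℕ) : ℝ) := by push_cast; ring
  have hld : 2 * Real.log d + 1 ≤ Lg := by
    have : Real.log d ≤ Real.log (2 * R) := Real.log_le_log hdr (by rw [h2R]; exact_mod_cast hle)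
    linarith
  have hlm : 2 * Real.log m + 1 ≤ Lg := by
    have : Real.log m ≤ Real.log (2 * R) := Real.log_le_log hmr (by rw [h2R]; exact_mod_cast hle')
    linarith
  have i1 := inv_totient_le d hd0 Lg hld
  have i2 := inv_totient_le m hm0 Lg hlm
  have i3 : 1 / (Nat.totient d : ℝ) ≤ Lg * m / R := by
    refine i1.trans ?_
    rw [div_le_div_iff₀ hdr hRr]
    have : (R:ℝ) ≤ d * m := by
      have : R ≤ d * m := by rw [← h2]; exact hx1.le
      exact_mod_cast this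
    calc Lg * R ≤ Lg * (d * m) := mul_le_mul_of_nonneg_left this hLg0
      _ = Lg * m * d := by ring
  unfold wt
  rw [hcond, hφ, div_pow, Real.sq_sqrt hdr.le]
  push_cast
  calc (d:ℝ) / (((Nat.totient d : ℝ) * Nat.totient m) ^ 2) ^ 2
      = ((1 / (Nat.totient m : ℝ)) ^ 4 * (1 / (Nat.totient d : ℝ)) ^ 3) * ((d:ℝ) / Nat.totient d) := by
        field_simp
    _ ≤ _ := by
        refine mul_le_mul_of_nonneg_right ?_ (by positivity)
        refine mul_le_mul ?_ ?_ (by positivity) (by positivity)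
        · exact pow_le_pow_left₀ (by positivity) i2 4
        · exact pow_le_pow_left₀ (by positivity) i3 3

/-- mean square over the moduli -/
theorem fam_mean (F : Finset Chr) (R z0 : ℕ) (hR : 1 ≤ R) (hz : 1 ≤ z0)
    (hF : ∀ x ∈ F, R < x.1 ∧ x.1 ≤ 2 * R ∧ Squarefree x.1 ∧ z0 < x.2.conductor)
    (Lg : ℝ) (hLg : 2 * Real.log (2 * R) + 1 ≤ Lg) (W : Chr → ℂ) (v : ℕ → ℂ) (Z : ℕ)
    (hW : ∀ x ∈ F, ‖W x‖ ≤ wt x * ‖∑ w ∈ Finset.Ioc 0 Z, v w * ev x w‖) (M H : ℕ) :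
    ∑ n ∈ Finset.Ioc M (M + H), ‖∑ x ∈ F, W x * ev x n‖ ^ 2
      ≤ 484 * Lg ^ 9 * ((Z + 4 * (R:ℝ) ^ 2) * (2 * H / z0 + 4 * R) / R ^ 2) * ∑ w ∈ Finset.Ioc 0 Z, ‖v w‖ ^ 2 := by
  classical
  have hRr : (1:ℝ) ≤ R := by exact_mod_cast hR
  have hzr : (1:ℝ) ≤ z0 := by exact_mod_cast hz
  have hl2R : 0 ≤ Real.log (2 * R) := Real.log_nonneg (by linarith)
  have hLg1 : 1 ≤ Lg := by linarith
  obtain ⟨V, hV⟩ : ∃ V, V = ∑ w ∈ Finset.Ioc 0 Z, ‖v w‖ ^ 2 := ⟨_, rfl⟩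
  have hV0 : 0 ≤ V := by rw [hV]; positivity
  rw [← hV]
  obtain ⟨mm, hmm⟩ : ∃ mm : Chr → ℕ, mm = fun x => x.1 / (prm x.2).1 := ⟨_, rfl⟩
  obtain ⟨MM, hMM⟩ : ∃ MM, MM = Finset.Icc 1 (2 * R / z0) := ⟨_, rfl⟩
  have hmaps : ∀ x ∈ F, mm x ∈ MM := by
    intro x hx
    have h1 := hF x hx
    have h2 := prm_mul x (mm x) (by rw [hmm])
    have hc : (prm x.2).1 = x.2.conductor := rfl
    rw [hMM, Finset.mem_Icc]
    constructor
    · rcases Nat.eq_zero_or_pos (mm x) with h0 | h0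
      · rw [h0, mul_zero] at h2; omega
      · exact h0
    · rw [Nat.le_div_iff_mul_le (by omega)]
      calc mm x * z0 ≤ mm x * (prm x.2).1 := Nat.mul_le_mul_left _ (by rw [hc]; exact h1.2.2.2.le)
        _ = x.1 := by rw [mul_comm]; exact h2.symm
        _ ≤ 2 * R := h1.2.1
  have hmMM : ∀ m ∈ MM, 1 ≤ m ∧ m * z0 ≤ 2 * R ∧ m ≤ 2 * R := by
    intro m hm
    rw [hMM, Finset.mem_Icc] at hm
    have h1 : m * z0 ≤ 2 * R := (Nat.le_div_iff_mul_le (by omega)).mp hm.2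
    exact ⟨hm.1, h1, (Nat.le_mul_of_pos_right m (by omega)).trans h1⟩
  -- per cofactor
  have hper : ∀ m ∈ MM, (m:ℝ) * ∑ n ∈ Finset.Ioc M (M + H), ‖∑ x ∈ F.filter (fun x => mm x = m), W x * ev x n‖ ^ 2
      ≤ 484 * Lg ^ 7 / R ^ 3 * (Z + 4 * (R:ℝ) ^ 2) * V * (H + 4 * R ^ 2 * (1 / m)) := by
    intro m hm
    obtain ⟨hm1, hm2, hm3⟩ := hmMM m hm
    have hmr : (1:ℝ) ≤ m := by exact_mod_cast hm1
    obtain ⟨I, hI⟩ : ∃ I, I = F.filter (fun x => mm x = m) := ⟨_, rfl⟩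
    rw [← hI]
    obtain ⟨D, hD⟩ : ∃ D, D = 2 * R / m := ⟨_, rfl⟩
    have hD1 : 1 ≤ D := by
      rw [hD, Nat.le_div_iff_mul_le (by omega)]; omega
    have hDr : (D:ℝ) ≤ 2 * R / m := by
      rw [hD]
      refine (Nat.cast_div_le).trans (le_of_eq ?_)
      push_cast; ring
    have hDr2 : (D:ℝ) ^ 2 ≤ 4 * R ^ 2 * (1 / m) := by
      calc (D:ℝ) ^ 2 ≤ (2 * R / m) ^ 2 := pow_le_pow_left₀ (Nat.cast_nonneg _) hDr 2
        _ = 4 * R ^ 2 * ((1 / m) * (1 / m)) := by field_simp; norm_num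
        _ ≤ 4 * R ^ 2 * (1 * (1 / m)) := by
            refine mul_le_mul_of_nonneg_left ?_ (by positivity)
            refine mul_le_mul_of_nonneg_right ?_ (by positivity)
            rw [div_le_one (by linarith)]; exact hmr
        _ = _ := by ring
    have hDr3 : (D:ℝ) ^ 2 ≤ 4 * R ^ 2 := by
      refine hDr2.trans ?_
      have : 1 / (m:ℝ) ≤ 1 := by rw [div_le_one (by linarith)]; exact hmr
      calc 4 * (R:ℝ) ^ 2 * (1 / m) ≤ 4 * R ^ 2 * 1 := mul_le_mul_of_nonneg_left this (by positivity)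
        _ = _ := mul_one _
    have hIF : ∀ x ∈ I, (R < x.1 ∧ x.1 ≤ 2 * R ∧ Squarefree x.1 ∧ z0 < x.2.conductor) ∧ x ∈ F ∧ x.1 / (prm x.2).1 = m := by
      intro x hx
      rw [hI, mem_filter] at hx
      exact ⟨hF x hx.1, hx.1, by rw [← hx.2, hmm]⟩
    have hI' : ∀ x ∈ I, 1 ≤ x.1 ∧ x.1 / (prm x.2).1 = m ∧ (prm x.2).1 ≤ D := by
      intro x hx
      obtain ⟨h1, h2, h3⟩ := hIF x hx
      refine ⟨by omega, h3, ?_⟩
      rw [hD, Nat.le_div_iff_mul_le (by omega), ← prm_mul x m h3]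
      exact h1.2.1
    have h1 : ∑ n ∈ Finset.Ioc M (M + H), ‖∑ x ∈ I, W x * ev x n‖ ^ 2 ≤ ∑ n ∈ Finset.Ioc M (M + H), ‖∑ x ∈ I, W x * ev (prm x.2) n‖ ^ 2 := by
      refine sum_le_sum fun n _ => ?_
      by_cases hc : Nat.Coprime n m
      · refine le_of_eq ?_
        congr 2
        refine sum_congr rfl fun x hx => ?_
        rw [ev_prm x (hI' x hx).1 n, (hI' x hx).2.1, if_pos hc]
      · have : ∑ x ∈ I, W x * ev x n = 0 := by
          refine sum_eq_zero fun x hx => ?_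
          rw [ev_prm x (hI' x hx).1 n, (hI' x hx).2.1, if_neg hc, mul_zero]
        rw [this, norm_zero, zero_pow two_ne_zero]
        positivity
    have h2 := fam_dual I m D hD1 hI' W M H
    have h3 : ∑ x ∈ I, ‖W x‖ ^ 2 ≤ ((Lg / m) ^ 4 * (Lg * m / R) ^ 3) * (22 * (Z + (D:ℝ) ^ 2) * V) := by
      have h4 := fam_ls I m D hD1 hI' (fun w => if Nat.Coprime w m then v w else 0) 0 Z
      rw [zero_add] at h4
      have h5 : ∑ w ∈ Finset.Ioc 0 Z, ‖(if Nat.Coprime w m then v w else 0 : ℂ)‖ ^ 2 ≤ V := by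
        rw [hV]
        refine sum_le_sum fun w _ => ?_
        split_ifs
        · exact le_rfl
        · simp
      calc ∑ x ∈ I, ‖W x‖ ^ 2 ≤ ∑ x ∈ I, ((Lg / m) ^ 4 * (Lg * m / R) ^ 3) *
            ((((prm x.2).1:ℝ) / Nat.totient (prm x.2).1) * ‖∑ w ∈ Finset.Ioc 0 Z, (if Nat.Coprime w m then v w else 0) * ev (prm x.2) w‖ ^ 2) := by
            refine sum_le_sum fun x hx => ?_
            obtain ⟨g1, g2, g3⟩ := hIF x hx
            have h6 : ∑ w ∈ Finset.Ioc 0 Z, v w * ev x w = ∑ w ∈ Finset.Ioc 0 Z, (if Nat.Coprime w m then v w else 0) * ev (prm x.2) w := by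
              refine sum_congr rfl fun w _ => ?_
              rw [ev_prm x (by omega) w, g3]
              split_ifs <;> simp
            have h7 := pow_le_pow_left₀ (norm_nonneg _) (hW x g2) 2
            rw [h6, mul_pow] at h7
            refine h7.trans ?_
            rw [← mul_assoc]
            exact mul_le_mul_of_nonneg_right (wt_sq x m R Lg hR g1.1 g1.2.1 g1.2.2.1 g3 hLg (by linarith)) (by positivity)
        _ = ((Lg / m) ^ 4 * (Lg * m / R) ^ 3) * ∑ x ∈ I,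
            ((((prm x.2).1:ℝ) / Nat.totient (prm x.2).1) * ‖∑ w ∈ Finset.Ioc 0 Z, (if Nat.Coprime w m then v w else 0) * ev (prm x.2) w‖ ^ 2) := by
            rw [mul_sum]
        _ ≤ _ := by
            refine mul_le_mul_of_nonneg_left ?_ (by positivity)
            refine h4.trans ?_
            exact mul_le_mul_of_nonneg_left h5 (by positivity)
    calc (m:ℝ) * ∑ n ∈ Finset.Ioc M (M + H), ‖∑ x ∈ I, W x * ev x n‖ ^ 2
        ≤ m * (22 * (H + (D:ℝ) ^ 2) * (((Lg / m) ^ 4 * (Lg * m / R) ^ 3) * (22 * (Z + (D:ℝ) ^ 2) * V))) := by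
          refine mul_le_mul_of_nonneg_left ?_ (by linarith)
          refine h1.trans (h2.trans ?_)
          exact mul_le_mul_of_nonneg_left h3 (by positivity)
      _ = 484 * Lg ^ 7 / R ^ 3 * (Z + (D:ℝ) ^ 2) * V * (H + (D:ℝ) ^ 2) := by
          field_simp
          ring
      _ ≤ 484 * Lg ^ 7 / R ^ 3 * (Z + 4 * (R:ℝ) ^ 2) * V * (H + 4 * R ^ 2 * (1 / m)) := by
          gcongr
  -- Cauchy-Schwarz
  have hcs : ∀ n, ‖∑ x ∈ F, W x * ev x n‖ ^ 2 ≤ Lg * ∑ m ∈ MM, (m:ℝ) * ‖∑ x ∈ F.filter (fun x => mm x = m), W x * ev x n‖ ^ 2 := by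
    intro n
    rw [← Finset.sum_fiberwise_of_maps_to hmaps]
    have h1 : ‖∑ m ∈ MM, ∑ x ∈ F.filter (fun x => mm x = m), W x * ev x n‖ ^ 2
        ≤ (∑ m ∈ MM, ‖∑ x ∈ F.filter (fun x => mm x = m), W x * ev x n‖) ^ 2 :=
      pow_le_pow_left₀ (norm_nonneg _) (norm_sum_le _ _) 2
    refine h1.trans ?_
    have h2 := Finset.sum_sq_le_sum_mul_sum_of_sq_le_mul MM (r := fun m => ‖∑ x ∈ F.filter (fun x => mm x = m), W x * ev x n‖)
      (f := fun m => 1 / (m:ℝ)) (g := fun m => (m:ℝ) * ‖∑ x ∈ F.filter (fun x => mm x = m), W x * ev x n‖ ^ 2)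
      (fun m _ => by positivity) (fun m _ => by positivity) (fun m hm => by
        have : (m:ℝ) ≠ 0 := by
          have := (hmMM m hm).1
          positivity
        refine le_of_eq ?_
        field_simp)
    refine h2.trans ?_
    refine mul_le_mul_of_nonneg_right ?_ (by positivity)
    calc ∑ m ∈ MM, 1 / (m:ℝ) ≤ ∑ m ∈ Finset.Icc 1 (2 * R), 1 / (m:ℝ) := by
          refine sum_le_sum_of_subset_of_nonneg ?_ fun _ _ _ => by positivity
          intro m hm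
          rw [Finset.mem_Icc]
          exact ⟨(hmMM m hm).1, (hmMM m hm).2.2⟩
      _ ≤ 1 + Real.log ((2 * R : ℕ)) := sum_inv_le _
      _ ≤ Lg := by push_cast; linarith
  have hsum1 : ∑ m ∈ MM, 1 / (m:ℝ) ≤ Lg := by
    calc ∑ m ∈ MM, 1 / (m:ℝ) ≤ ∑ m ∈ Finset.Icc 1 (2 * R), 1 / (m:ℝ) := by
          refine sum_le_sum_of_subset_of_nonneg ?_ fun _ _ _ => by positivity
          intro m hm
          rw [Finset.mem_Icc]
          exact ⟨(hmMM m hm).1, (hmMM m hm).2.2⟩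
      _ ≤ 1 + Real.log ((2 * R : ℕ)) := sum_inv_le _
      _ ≤ Lg := by push_cast; linarith
  have hcard : (MM.card : ℝ) ≤ 2 * R / z0 := by
    rw [hMM, Nat.card_Icc, Nat.add_sub_cancel]
    refine (Nat.cast_div_le).trans (le_of_eq ?_)
    push_cast; ring
  calc ∑ n ∈ Finset.Ioc M (M + H), ‖∑ x ∈ F, W x * ev x n‖ ^ 2
      ≤ ∑ n ∈ Finset.Ioc M (M + H), Lg * ∑ m ∈ MM, (m:ℝ) * ‖∑ x ∈ F.filter (fun x => mm x = m), W x * ev x n‖ ^ 2 :=
        sum_le_sum fun n _ => hcs n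
    _ = Lg * ∑ m ∈ MM, (m:ℝ) * ∑ n ∈ Finset.Ioc M (M + H), ‖∑ x ∈ F.filter (fun x => mm x = m), W x * ev x n‖ ^ 2 := by
        rw [← mul_sum, sum_comm]
        congr 1
        exact sum_congr rfl fun m _ => by rw [mul_sum]
    _ ≤ Lg * ∑ m ∈ MM, 484 * Lg ^ 7 / R ^ 3 * (Z + 4 * (R:ℝ) ^ 2) * V * (H + 4 * R ^ 2 * (1 / m)) :=
        mul_le_mul_of_nonneg_left (sum_le_sum hper) (by linarith)
    _ = Lg * (484 * Lg ^ 7 / R ^ 3 * (Z + 4 * (R:ℝ) ^ 2) * V * (MM.card * H + 4 * R ^ 2 * ∑ m ∈ MM, 1 / (m:ℝ))) := by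
        rw [← mul_sum, sum_add_distrib, sum_const, nsmul_eq_mul, mul_sum]
    _ ≤ Lg * (484 * Lg ^ 7 / R ^ 3 * (Z + 4 * (R:ℝ) ^ 2) * V * ((2 * R / z0) * H * Lg + 4 * R ^ 2 * Lg)) := by
        refine mul_le_mul_of_nonneg_left ?_ (by linarith)
        refine mul_le_mul_of_nonneg_left ?_ (by positivity)
        refine add_le_add ?_ (mul_le_mul_of_nonneg_left hsum1 (by positivity))
        have : (MM.card : ℝ) * H ≤ (2 * R / z0) * H := mul_le_mul_of_nonneg_right hcard (Nat.cast_nonneg _)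
        refine this.trans ?_
        exact le_mul_of_one_le_right (by positivity) hLg1
    _ = _ := by
        field_simp

end Pool.Agent.Var73
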