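import Pool.Agent.Lib_helper73.Var.ErrB

/-! Mean squares over the moduli: one block -/

set_option autoImplicit false

namespace Pool.Agent.Var73

open Finset Complex Pool.Agent.Var35 DirichletCharacter Filter
open scoped ArithmeticFunction ArithmeticFunction.Moebius ArithmeticFunction.zeta

noncomputable def w0 (x : Chr) : ℂ := (((μ x.1 : ℤ) : ℂ) / (Nat.totient x.1 : ℂ) ^ 2) * (gS x * x.2 (-1))

lemma norm_w0_le (x : Chr) (hx : Squarefree x.1) : ‖w0 x‖ ≤ wt x := by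
  have hr0 : NeZero x.1 := ⟨hx.ne_zero⟩
  have h1 : ‖((μ x.1 : ℤ) : ℂ) / (Nat.totient x.1 : ℂ) ^ 2‖ ≤ 1 / (Nat.totient x.1 : ℝ) ^ 2 := by
    rw [norm_div, norm_pow, Complex.norm_natCast, Complex.norm_intCast]
    refine div_le_div_of_nonneg_right ?_ (by positivity)
    exact_mod_cast ArithmeticFunction.abs_moebius_le_one (n := x.1)
  have h2 : ‖gS x * x.2 (-1)‖ ≤ Real.sqrt x.2.conductor := by
    rw [norm_mul]
    calc ‖gS x‖ * ‖x.2 (-1)‖ ≤ Real.sqrt x.2.conductor * 1 :=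
          mul_le_mul (norm_gS_le x.1 hx x.2) (DirichletCharacter.norm_le_one _ _) (norm_nonneg _) (Real.sqrt_nonneg _)
      _ = _ := mul_one _
  unfold w0 wt
  rw [norm_mul]
  calc _ ≤ (1 / (Nat.totient x.1 : ℝ) ^ 2) * Real.sqrt x.2.conductor := mul_le_mul h1 h2 (norm_nonneg _) (by positivity)
    _ = _ := by ring

open scoped Classical in
lemma E2t_Q (N Q Y r s m : ℕ) (h : ∃ a, r * a = 1 + Q * m) :
    E2t N Q Y r s m = ∑ χ ∈ univ.filter (fun χ : DirichletCharacter ℂ r => ¬ χ.conductor ∣ s),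
      w0 ⟨r, χ⟩ * (starRingEnd ℂ) (ev ⟨r, χ⟩ Q) * Xs N Q Y ⟨r, χ⟩ := by
  obtain ⟨a, ha⟩ := h
  unfold E2t w0
  rw [mul_sum]
  have hQm : (Q : ZMod r) * (m : ZMod r) = -1 := by
    have h1 : ((r * a : ℕ) : ZMod r) = ((1 + Q * m : ℕ) : ZMod r) := by rw [ha]
    push_cast at h1
    rw [ZMod.natCast_self, zero_mul] at h1
    linear_combination -h1
  refine sum_congr ?_ fun χ _ => ?_
  · congr!
  have h2 : χ (m : ZMod r) = χ (-1) * (starRingEnd ℂ) (ev ⟨r, χ⟩ Q) := by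
    have hu : IsUnit (Q : ZMod r) := by
      refine IsUnit.of_mul_eq_one (-(m : ZMod r)) ?_
      rw [mul_neg, hQm, neg_neg]
    have h3 : ‖χ (Q : ZMod r)‖ = 1 := by
      obtain ⟨u, hu'⟩ := hu
      rw [← hu']; exact DirichletCharacter.unit_norm_eq_one χ u
    have h4 : χ (Q : ZMod r) * χ (m : ZMod r) = χ (-1) := by rw [← map_mul, hQm]
    have h5 : (starRingEnd ℂ) (χ (Q : ZMod r)) * χ (Q : ZMod r) = 1 := by
      rw [Complex.conj_mul', h3]; norm_num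
    unfold ev
    simp only
    rw [← h4]
    calc χ (m : ZMod r) = ((starRingEnd ℂ) (χ (Q : ZMod r)) * χ (Q : ZMod r)) * χ (m : ZMod r) := by rw [h5, one_mul]
      _ = _ := by ring
  rw [h2]
  simp only
  ring

theorem block_mean (F : Finset Chr) (R z0 N Y M H : ℕ) (K Lg : ℝ) (hR : 1 ≤ R) (hz : 1 ≤ z0)
    (hF : ∀ x ∈ F, R < x.1 ∧ x.1 ≤ 2 * R ∧ Squarefree x.1 ∧ z0 < x.2.conductor)
    (hLg : 2 * Real.log (2 * R) + 1 ≤ Lg) (hN : 1 ≤ N) (hY : 1 ≤ Y) (hM : 1 ≤ M) (hK : 0 < K)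
    (hYK : (Y:ℝ) * N ≤ K * (R * M)) (hLN : Real.log N ≤ Lg) (hLZ : 1 + Real.log ((Y * N : ℕ):ℝ) ≤ Lg) :
    ∑ Q ∈ Finset.Ioc M (M + H), ‖∑ x ∈ F, w0 x * (starRingEnd ℂ) (ev x Q) * Xs N Q Y x‖ ^ 2
      ≤ (Real.exp (2 * Real.pi * K)) ^ 2 *
        ((484 * Lg ^ 9 * ((K * (R * M) + 4 * (R:ℝ) ^ 2) * (2 * H / z0 + 4 * R) / R ^ 2)) * (Lg ^ 2 * ((K * (R * M)) * Lg ^ 3))) := by
  have hpi := Real.pi_pos
  have hRr : (1:ℝ) ≤ R := by exact_mod_cast hR
  have hNr : (1:ℝ) ≤ N := by exact_mod_cast hN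
  have hYr : (1:ℝ) ≤ Y := by exact_mod_cast hY
  have hMr : (1:ℝ) ≤ M := by exact_mod_cast hM
  have hl2R : 0 ≤ Real.log (2 * R) := Real.log_nonneg (by linarith)
  have hLg1 : 1 ≤ Lg := by linarith
  refine series_avg (Finset.Ioc M (M + H)) (fun Q => ∑ x ∈ F, w0 x * (starRingEnd ℂ) (ev x Q) * Xs N Q Y x)
    (fun k Q => ∑ x ∈ F, w0 x * (starRingEnd ℂ) (ev x Q) *
      (((2 * Real.pi * Complex.I * ((Y:ℝ) * N / (x.1 * Q) : ℝ) : ℂ) ^ k / (k.factorial : ℂ)) * (Ck Y k x * Gk N k x)))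
    (fun k Q => ∑ x ∈ F, (starRingEnd ℂ) (w0 x * (((Y:ℝ) * N / (x.1 * M * K) : ℝ) : ℂ) ^ k * (Ck Y k x * Gk N k x)) * ev x Q)
    (fun k => (2 * Real.pi * K) ^ k / (k.factorial : ℝ)) _ _ (fun k => by positivity)
    (fun J => sum_exp_le (2 * Real.pi * K) (by positivity) J) (by positivity) ?_ ?_ ?_
  · intro Q hQ
    rw [Finset.mem_Ioc] at hQ
    have hfun : (fun J => ∑ j ∈ range J, ∑ x ∈ F, w0 x * (starRingEnd ℂ) (ev x Q) *
      (((2 * Real.pi * Complex.I * ((Y:ℝ) * N / (x.1 * Q) : ℝ) : ℂ) ^ j / (j.factorial : ℂ)) * (Ck Y j x * Gk N j x)))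
        = fun J => ∑ x ∈ F, (w0 x * (starRingEnd ℂ) (ev x Q)) * ∑ j ∈ range J,
      (((2 * Real.pi * Complex.I * ((Y:ℝ) * N / (x.1 * Q) : ℝ) : ℂ) ^ j / (j.factorial : ℂ)) * (Ck Y j x * Gk N j x)) := by
      funext J
      rw [sum_comm]
      exact sum_congr rfl fun x _ => by rw [mul_sum]
    rw [hfun]
    refine tendsto_finsetSum _ fun x hx => ?_
    have h1 := hF x hx
    exact Tendsto.const_mul _ (Xs_series N Q Y x (by omega) (by omega) (by omega) (by omega))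
  · intro k Q hQ
    rw [Finset.mem_Ioc] at hQ
    have hQr : (0:ℝ) < Q := by exact_mod_cast (by omega : 0 < Q)
    have hMQ : (M:ℝ) ≤ Q := by exact_mod_cast hQ.1.le
    have h1 : ∑ x ∈ F, w0 x * (starRingEnd ℂ) (ev x Q) *
        (((2 * Real.pi * Complex.I * ((Y:ℝ) * N / (x.1 * Q) : ℝ) : ℂ) ^ k / (k.factorial : ℂ)) * (Ck Y k x * Gk N k x))
        = (((2 * Real.pi * Complex.I) ^ k / (k.factorial : ℂ)) * (((K * (M / Q) : ℝ) : ℂ)) ^ k) *
          (starRingEnd ℂ) (∑ x ∈ F, (starRingEnd ℂ) (w0 x * (((Y:ℝ) * N / (x.1 * M * K) : ℝ) : ℂ) ^ k * (Ck Y k x * Gk N k x)) * ev x Q) := by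
      rw [map_sum, mul_sum]
      refine sum_congr rfl fun x hx => ?_
      have hx0 : (0:ℝ) < x.1 := by exact_mod_cast (by have := hF x hx; omega : 0 < x.1)
      rw [map_mul, Complex.conj_conj]
      have h2 : (((Y:ℝ) * N / (x.1 * Q) : ℝ) : ℂ) = (((K * (M / Q) : ℝ) : ℂ)) * (((Y:ℝ) * N / (x.1 * M * K) : ℝ) : ℂ) := by
        rw [← Complex.ofReal_mul]
        congr 1
        field_simp
      rw [h2, mul_pow, mul_pow]
      ring
    rw [h1, norm_mul, RCLike.norm_conj]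
    refine mul_le_mul_of_nonneg_right ?_ (norm_nonneg _)
    rw [norm_mul, norm_div, norm_pow, norm_pow, Complex.norm_natCast, norm_mul, norm_mul, Complex.norm_I, Complex.norm_real,
      Complex.norm_real, Real.norm_of_nonneg hpi.le, Real.norm_of_nonneg (by positivity), Complex.norm_two, mul_one]
    rw [div_mul_eq_mul_div, ← mul_pow]
    refine div_le_div_of_nonneg_right ?_ (by positivity)
    refine pow_le_pow_left₀ (by positivity) ?_ k
    have h3 : (M:ℝ) / Q ≤ 1 := by rw [div_le_one hQr]; exact hMQ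
    calc 2 * Real.pi * (K * (M / Q)) ≤ 2 * Real.pi * (K * 1) := by gcongr
      _ = _ := by ring
  · intro k
    have hc : ∀ y ∈ Finset.Ioc 0 Y, ‖((((y:ℝ) / Y) ^ k : ℝ) : ℂ)‖ ≤ 1 := by
      intro y hy
      rw [Finset.mem_Ioc] at hy
      rw [Complex.norm_real, Real.norm_of_nonneg (by positivity)]
      refine pow_le_one₀ (by positivity) ?_
      rw [div_le_one (by linarith)]; exact_mod_cast hy.2
    have ha : ∀ n ∈ Finset.Ioc 0 N, ‖((Ak N k n : ℝ) : ℂ) * ((Λ n : ℝ) : ℂ)‖ ≤ Lg := by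
      intro n hn
      rw [Finset.mem_Ioc] at hn
      rw [norm_mul, Complex.norm_real, Complex.norm_real, Real.norm_eq_abs,
        Real.norm_of_nonneg ArithmeticFunction.vonMangoldt_nonneg]
      have h1 : (Λ n : ℝ) ≤ Lg := by
        refine ArithmeticFunction.vonMangoldt_le_log.trans (le_trans ?_ hLN)
        exact Real.log_le_log (by exact_mod_cast hn.1) (by exact_mod_cast hn.2)
      calc |Ak N k n| * (Λ n : ℝ) ≤ 1 * Lg :=
            mul_le_mul (Ak_le N k n hn.2) h1 ArithmeticFunction.vonMangoldt_nonneg (by norm_num)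
        _ = _ := one_mul _
    obtain ⟨v, hv⟩ : ∃ v, v = cv Y (fun y => ((((y:ℝ) / Y) ^ k : ℝ) : ℂ)) (Finset.Ioc 0 N) (fun n => ((Ak N k n : ℝ) : ℂ) * ((Λ n : ℝ) : ℂ)) := ⟨_, rfl⟩
    have hvs : ∀ x : Chr, ∑ w ∈ Finset.Ioc 0 (Y * N), v w * ev x w = Ck Y k x * Gk N k x := by
      intro x
      rw [hv, ← cv_sum Y N _ _ (Finset.Ioc 0 N) (Finset.Subset.refl _) (fun n => ev x n) (fun m n => ev_mul x m n)]
      unfold Ck Gk
      congr 1
      rw [Icc_eq_Ioc]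
      exact sum_congr rfl fun n _ => by ring
    have hvn := cv_norm Y N (fun y => ((((y:ℝ) / Y) ^ k : ℝ) : ℂ)) (fun n => ((Ak N k n : ℝ) : ℂ) * ((Λ n : ℝ) : ℂ)) (Finset.Ioc 0 N) Lg (by linarith) hc ha
    rw [← hv] at hvn
    have hZ : ((Y * N : ℕ):ℝ) ≤ K * (R * M) := by push_cast; exact hYK
    have hZ1 : (1:ℝ) ≤ ((Y * N : ℕ):ℝ) := by push_cast; nlinarith
    have hlZ0 : 0 ≤ Real.log ((Y * N : ℕ):ℝ) := Real.log_nonneg hZ1
    have h1 := fam_mean F R z0 hR hz hF Lg hLg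
      (fun x => (starRingEnd ℂ) (w0 x * (((Y:ℝ) * N / (x.1 * M * K) : ℝ) : ℂ) ^ k * (Ck Y k x * Gk N k x))) v (Y * N) (fun x hx => by
        have hx' := hF x hx
        have hx0 : (0:ℝ) < x.1 := by exact_mod_cast (by omega : 0 < x.1)
        have hRx : (R:ℝ) ≤ x.1 := by exact_mod_cast hx'.1.le
        rw [RCLike.norm_conj, norm_mul, norm_mul, norm_pow, hvs x, Complex.norm_real, Real.norm_of_nonneg (by positivity)]
        refine mul_le_mul_of_nonneg_right ?_ (norm_nonneg _)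
        have h2 : ((Y:ℝ) * N / (x.1 * M * K)) ^ k ≤ 1 := by
          refine pow_le_one₀ (by positivity) ?_
          rw [div_le_one (by positivity)]
          refine hYK.trans ?_
          calc K * (R * M) ≤ K * (x.1 * M) := by gcongr
            _ = _ := by ring
        calc ‖w0 x‖ * ((Y:ℝ) * N / (x.1 * M * K)) ^ k ≤ wt x * 1 :=
              mul_le_mul (norm_w0_le x hx'.2.2.1) h2 (by positivity) (wt_nonneg x)
          _ = _ := mul_one _) M H
    refine h1.trans ?_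
    refine mul_le_mul ?_ ?_ (by positivity) (by positivity)
    · gcongr
    · refine hvn.trans ?_
      gcongr

end Pool.Agent.Var73
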