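import Pool.Agent.Lib_helper73.Var.ErrB2

/-! Mean squares over the moduli: all blocks -/

set_option autoImplicit false

namespace Pool.Agent.Var73

open Finset Complex Pool.Agent.Var35 DirichletCharacter Filter
open scoped ArithmeticFunction ArithmeticFunction.Moebius ArithmeticFunction.zeta

def RRa (Rl B z0 S1 : ℕ) : Finset ℕ := (Finset.Ioc Rl B).filter (fun r => Squarefree r ∧ smp z0 r ≤ S1)

open scoped Classical in
noncomputable def ET (N Q Y z0 r : ℕ) : ℂ := ∑ χ ∈ univ.filter (fun χ : DirichletCharacter ℂ r => ¬ χ.conductor ∣ smp z0 r),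
      w0 ⟨r, χ⟩ * (starRingEnd ℂ) (ev ⟨r, χ⟩ Q) * Xs N Q Y ⟨r, χ⟩

noncomputable def EE (N M Rl B z0 S1 : ℕ) (K : ℝ) (Q : ℕ) : ℂ :=
  ∑ r ∈ RRa Rl B z0 S1, ET N Q (Yi K M N Rl (ib Rl r)) z0 r

lemma EE_eq (N M Rl B z0 S1 Q : ℕ) (K : ℝ) (m : ℕ → ℕ) (hm : ∀ r ∈ RRs Q Rl B z0 S1, ∃ a, r * a = 1 + Q * m r) :
    ∑ r ∈ RRs Q Rl B z0 S1, E2t N Q (Yi K M N Rl (ib Rl r)) r (smp z0 r) (m r) = EE N M Rl B z0 S1 K Q := by
  classical
  have h1 : ∑ r ∈ RRs Q Rl B z0 S1, E2t N Q (Yi K M N Rl (ib Rl r)) r (smp z0 r) (m r)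
      = ∑ r ∈ RRs Q Rl B z0 S1, ET N Q (Yi K M N Rl (ib Rl r)) z0 r := by
    refine sum_congr rfl fun r hr => ?_
    rw [E2t_Q N Q _ r _ _ (hm r hr)]
    unfold ET
    congr!
  rw [h1]
  unfold EE
  refine Finset.sum_subset ?_ ?_
  · intro r hr
    unfold RRs at hr
    unfold RRa
    rw [mem_filter] at hr ⊢
    exact ⟨hr.1, hr.2.1, hr.2.2.2⟩
  · intro r hr hr'
    unfold RRs at hr'
    unfold RRa at hr
    rw [mem_filter] at hr hr'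
    have hc : ¬ Nat.Coprime r Q := fun h => hr' ⟨hr.1, hr.2.1, h, hr.2.2⟩
    unfold ET
    refine sum_eq_zero fun χ _ => ?_
    have : ev ⟨r, χ⟩ Q = 0 := by
      unfold ev
      refine χ.map_nonunit ?_
      rw [ZMod.isUnit_iff_coprime]
      exact fun h => hc h.symm
    rw [this, map_zero, mul_zero, zero_mul]

theorem EE_mean (N M H Rl I B z0 S1 : ℕ) (K Lg : ℝ) (hB : B = 2 ^ I * Rl) (hRl : 1 ≤ Rl) (hz : 1 ≤ z0) (hN : 1 ≤ N) (hM : 1 ≤ M)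
    (hK : 1 ≤ K) (hKq : 2 * (N:ℝ) ≤ K * (Rl * M)) (hLgB : 2 * Real.log (B:ℝ) + 1 ≤ Lg) (hLN : Real.log N ≤ Lg)
    (hLZ : 1 + Real.log (K * B * M) ≤ Lg) :
    ∑ Q ∈ Finset.Ioc M (M + H), ‖EE N M Rl B z0 S1 K Q‖ ^ 2
      ≤ (I:ℝ) ^ 2 * ((Real.exp (2 * Real.pi * K)) ^ 2 * (484 * Lg ^ 14 * ((K * M + 4 * B) * (K * M) * (2 * H / z0 + 4 * B)))) := by
  classical
  have hpi := Real.pi_pos
  have hRlr : (1:ℝ) ≤ Rl := by exact_mod_cast hRl
  have hNr : (1:ℝ) ≤ N := by exact_mod_cast hN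
  have hMr : (1:ℝ) ≤ M := by exact_mod_cast hM
  have hB1 : 1 ≤ B := by rw [hB]; exact Nat.one_le_iff_ne_zero.mpr (Nat.mul_ne_zero (by positivity) (by omega))
  have hBr : (1:ℝ) ≤ B := by exact_mod_cast hB1
  have hlB : 0 ≤ Real.log B := Real.log_nonneg hBr
  have hLg1 : 1 ≤ Lg := by linarith
  obtain ⟨T, hT⟩ : ∃ T, T = (Real.exp (2 * Real.pi * K)) ^ 2 * (484 * Lg ^ 14 * ((K * M + 4 * B) * (K * M) * (2 * H / z0 + 4 * B))) := ⟨_, rfl⟩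
  have hRR : ∀ r ∈ RRa Rl B z0 S1, Rl < r ∧ r ≤ 2 ^ I * Rl ∧ Squarefree r := by
    intro r hr
    unfold RRa at hr
    rw [mem_filter, Finset.mem_Ioc] at hr
    rw [← hB]
    exact ⟨hr.1.1, hr.1.2, hr.2.1⟩
  obtain ⟨Fi, hFi⟩ : ∃ Fi : ℕ → Finset Chr, Fi = fun i => ((RRa Rl B z0 S1).filter (fun r => ib Rl r = i)).sigma
      (fun r => univ.filter (fun χ : DirichletCharacter ℂ r => ¬ χ.conductor ∣ smp z0 r)) := ⟨_, rfl⟩
  have hEE : ∀ Q, EE N M Rl B z0 S1 K Q = ∑ i ∈ range I, ∑ x ∈ Fi i, w0 x * (starRingEnd ℂ) (ev x Q) * Xs N Q (Yi K M N Rl i) x := by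
    intro Q
    unfold EE
    rw [sum_blocks (RRa Rl B z0 S1) Rl I hRl (fun r hr => ⟨(hRR r hr).1, (hRR r hr).2.1⟩) (fun i r => ET N Q (Yi K M N Rl i) z0 r)]
    refine sum_congr rfl fun i _ => ?_
    rw [hFi]
    simp only
    rw [sum_sigma]
    refine sum_congr rfl fun r _ => ?_
    unfold ET
    congr!
  have hblock : ∀ i ∈ range I, ∑ Q ∈ Finset.Ioc M (M + H), ‖∑ x ∈ Fi i, w0 x * (starRingEnd ℂ) (ev x Q) * Xs N Q (Yi K M N Rl i) x‖ ^ 2 ≤ T := by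
    intro i hi
    rw [mem_range] at hi
    obtain ⟨R, hR⟩ : ∃ R, R = 2 ^ i * Rl := ⟨_, rfl⟩
    have hR1 : 1 ≤ R := by rw [hR]; exact Nat.one_le_iff_ne_zero.mpr (Nat.mul_ne_zero (by positivity) (by omega))
    have hRr : (1:ℝ) ≤ R := by exact_mod_cast hR1
    have h2R : 2 * R ≤ B := by
      rw [hR, hB]
      calc 2 * (2 ^ i * Rl) = 2 ^ (i + 1) * Rl := by ring
        _ ≤ 2 ^ I * Rl := Nat.mul_le_mul_right _ (Nat.pow_le_pow_right (by norm_num) hi)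
    have h2Rr : 2 * (R:ℝ) ≤ (B:ℝ) := by exact_mod_cast h2R
    have hYle := Yi_le K M N Rl i (by linarith) (by linarith) hN
    obtain ⟨hY1, hY2⟩ := Yi_ge K M N Rl i (by linarith) (by linarith) hN hKq
    rw [← hR] at hYle hY2
    have hlR : 2 * Real.log (2 * R) + 1 ≤ Lg := by
      have := Real.log_le_log (by linarith : (0:ℝ) < 2 * R) h2Rr
      linarith
    have hYr : (1:ℝ) ≤ (Yi K M N Rl i : ℝ) := by exact_mod_cast hY1
    have hlY : 1 + Real.log ((Yi K M N Rl i * N : ℕ):ℝ) ≤ Lg := by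
      refine le_trans ?_ hLZ
      have h3 : ((Yi K M N Rl i * N : ℕ):ℝ) ≤ K * B * M := by
        push_cast
        refine hYle.trans ?_
        calc K * (R * M) ≤ K * (B * M) := by
              refine mul_le_mul_of_nonneg_left ?_ (by linarith)
              refine mul_le_mul_of_nonneg_right ?_ (by linarith)
              linarith
          _ = _ := by ring
      have := Real.log_le_log (by push_cast; positivity : (0:ℝ) < ((Yi K M N Rl i * N : ℕ):ℝ)) h3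
      linarith
    have h1 := block_mean (Fi i) R z0 N (Yi K M N Rl i) M H K Lg hR1 hz (by
      intro x hx
      rw [hFi] at hx
      simp only [mem_sigma, mem_filter, mem_univ, true_and] at hx
      have h3 := ib_spec Rl x.1 hRl (hRR x.1 hx.1.1).1
      rw [hx.1.2, ← hR] at h3
      have h4 := (hRR x.1 hx.1.1).2.2
      exact ⟨h3.1, h3.2, h4, bad_cond z0 x.1 h4 x.2 hx.2⟩) hlR hN hY1 hM (by linarith) hYle hLN hlY
    refine h1.trans ?_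
    rw [hT]
    refine mul_le_mul_of_nonneg_left ?_ (by positivity)
    calc (484 * Lg ^ 9 * ((K * (R * M) + 4 * (R:ℝ) ^ 2) * (2 * H / z0 + 4 * R) / R ^ 2)) * (Lg ^ 2 * ((K * (R * M)) * Lg ^ 3))
        = 484 * Lg ^ 14 * ((K * M + 4 * R) * (K * M) * (2 * H / z0 + 4 * R)) := by
          field_simp
      _ ≤ _ := by
          have hRB : (R:ℝ) ≤ B := by linarith
          gcongr
  have hcs : ∀ Q, ‖EE N M Rl B z0 S1 K Q‖ ^ 2 ≤ (I:ℝ) * ∑ i ∈ range I, ‖∑ x ∈ Fi i, w0 x * (starRingEnd ℂ) (ev x Q) * Xs N Q (Yi K M N Rl i) x‖ ^ 2 := by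
    intro Q
    rw [hEE Q]
    have h1 : ‖∑ i ∈ range I, ∑ x ∈ Fi i, w0 x * (starRingEnd ℂ) (ev x Q) * Xs N Q (Yi K M N Rl i) x‖ ^ 2
        ≤ (∑ i ∈ range I, ‖∑ x ∈ Fi i, w0 x * (starRingEnd ℂ) (ev x Q) * Xs N Q (Yi K M N Rl i) x‖) ^ 2 :=
      pow_le_pow_left₀ (norm_nonneg _) (norm_sum_le _ _) 2
    refine h1.trans ?_
    have h2 := sq_sum_le_card_mul_sum_sq (s := range I) (f := fun i => ‖∑ x ∈ Fi i, w0 x * (starRingEnd ℂ) (ev x Q) * Xs N Q (Yi K M N Rl i) x‖)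
    rw [card_range] at h2
    exact h2
  rw [← hT]
  calc ∑ Q ∈ Finset.Ioc M (M + H), ‖EE N M Rl B z0 S1 K Q‖ ^ 2
      ≤ ∑ Q ∈ Finset.Ioc M (M + H), (I:ℝ) * ∑ i ∈ range I, ‖∑ x ∈ Fi i, w0 x * (starRingEnd ℂ) (ev x Q) * Xs N Q (Yi K M N Rl i) x‖ ^ 2 :=
        sum_le_sum fun Q _ => hcs Q
    _ = (I:ℝ) * ∑ i ∈ range I, ∑ Q ∈ Finset.Ioc M (M + H), ‖∑ x ∈ Fi i, w0 x * (starRingEnd ℂ) (ev x Q) * Xs N Q (Yi K M N Rl i) x‖ ^ 2 := by
        rw [← mul_sum, sum_comm]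
    _ ≤ (I:ℝ) * ∑ i ∈ range I, T := mul_le_mul_of_nonneg_left (sum_le_sum hblock) (Nat.cast_nonneg _)
    _ = _ := by
        rw [sum_const, card_range, nsmul_eq_mul]
        ring

end Pool.Agent.Var73
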