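import Pool.Agent.Lib_helper73.Var.GenCore2

/-! Lower bound for every modulus -/

set_option autoImplicit false

namespace Pool.Agent.Var73

open Finset Pool.Agent.Var35 Filter
open scoped ArithmeticFunction

noncomputable def CA (ε : ℝ) : ℝ :=
  24 * (3 * Real.exp (2 * Real.pi * KE ε) * (2816 * 4 ^ 9 * (16 * KE ε * 4)))

/-- choice of `I` -/
lemma exists_I (w : ℝ) (Rl : ℕ) (hRl : 1 ≤ Rl) (hw : (Rl:ℝ) ≤ w) :
    ∃ I : ℕ, ((2 ^ I * Rl : ℕ):ℝ) ≤ w ∧ w < 2 * ((2 ^ I * Rl : ℕ):ℝ) ∧ ((I:ℕ):ℝ) ≤ 2 * Real.log w := by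
  have hRlr : (1:ℝ) ≤ Rl := by exact_mod_cast hRl
  have hRl0 : (0:ℝ) < Rl := by linarith
  obtain ⟨A, hA⟩ : ∃ A, A = ⌊w / Rl⌋₊ := ⟨_, rfl⟩
  have hA1 : 1 ≤ A := by
    rw [hA]
    refine Nat.le_floor ?_
    rw [Nat.cast_one, le_div_iff₀ hRl0]; linarith
  have h1 : 2 ^ (Nat.log 2 A) ≤ A := Nat.pow_log_le_self 2 (by omega)
  have h2 : A < 2 ^ (Nat.log 2 A + 1) := Nat.lt_pow_succ_log_self (by norm_num) A
  have hw0 : 0 < w := lt_of_lt_of_le hRl0 hw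
  have h3 : (A:ℝ) ≤ w / Rl := by rw [hA]; exact Nat.floor_le (by positivity)
  have h4 : w / Rl < A + 1 := by rw [hA]; exact Nat.lt_floor_add_one _
  have h1r : ((2 ^ (Nat.log 2 A) : ℕ):ℝ) ≤ A := by exact_mod_cast h1
  have h2r : (A:ℝ) + 1 ≤ ((2 ^ (Nat.log 2 A + 1) : ℕ):ℝ) := by exact_mod_cast h2
  have h5 : ((2 ^ (Nat.log 2 A) * Rl : ℕ):ℝ) ≤ w := by
    rw [Nat.cast_mul]
    rw [le_div_iff₀ hRl0] at h3
    exact (mul_le_mul_of_nonneg_right h1r hRl0.le).trans h3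
  refine ⟨Nat.log 2 A, h5, ?_, ?_⟩
  · rw [Nat.cast_mul]
    rw [div_lt_iff₀ hRl0] at h4
    have h6 : ((2 ^ (Nat.log 2 A + 1) : ℕ):ℝ) = 2 * ((2 ^ (Nat.log 2 A) : ℕ):ℝ) := by push_cast; ring
    rw [h6] at h2r
    calc w < (A + 1) * Rl := h4
      _ ≤ (2 * ((2 ^ (Nat.log 2 A) : ℕ):ℝ)) * Rl := mul_le_mul_of_nonneg_right h2r hRl0.le
      _ = _ := by ring
  · have h7 : ((2 ^ (Nat.log 2 A) : ℕ):ℝ) ≤ w := by
      refine le_trans ?_ h5
      rw [Nat.cast_mul]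
      exact le_mul_of_one_le_right (Nat.cast_nonneg _) hRlr
    have h8 := Real.log_le_log (by positivity) h7
    rw [Nat.cast_pow, Real.log_pow] at h8
    have h9 := Real.log_two_gt_d9
    have h10 : (0:ℝ) ≤ (Nat.log 2 A : ℕ) := Nat.cast_nonneg _
    push_cast at h8
    nlinarith

theorem case_A (ε : ℝ) (h0 : 0 < ε) (h1 : ε ≤ 1) (N : ℕ) (hG : Good ε N) (hCA : CA ε * (Real.log N) ^ 11 ≤ (N:ℝ) ^ (aE ε - cE ε))
    (x : ℝ) (hx : 0 ≤ x) (hxN : x ≤ 2 * N) (Q : ℕ) (hQ : 1 ≤ Q) (hQN : Q ≤ N) :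
    N * (3 / 2 * Real.log Q - (1 + ε) * Real.log N) ≤ GV N x Q := by
  have hP := par_of_good ε h0 h1 N hG
  have hn1 := hP.n1
  have hn0 : (0:ℝ) < N := by linarith
  have hN1 : 1 ≤ N := by exact_mod_cast hn1.le
  have hL32 := hP.L32
  have hLε := hP.Lε
  have hQr : (1:ℝ) ≤ Q := by exact_mod_cast hQ
  have hQn : (Q:ℝ) ≤ N := by exact_mod_cast hQN
  have hlogQ : Real.log Q ≤ Real.log N := Real.log_le_log (by linarith) hQn
  have ha0 := hP.a0
  have hb0 := hP.b0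
  have hc0 := hP.c0
  have hbd := hP.bdef
  have hε2 : ε ^ 2 ≤ ε := by nlinarith
  have haε : aE ε ≤ ε / 2 ^ 14 := by
    unfold aE
    linarith
  rw [div_le_iff₀ h0] at hLε
  have haL : aE ε * Real.log N ≤ ε / 2 ^ 14 * Real.log N := mul_le_mul_of_nonneg_right haε (by linarith)
  have hlog2 : 0 < Real.log 2 := Real.log_pos (by norm_num)
  have hlog2' := Real.log_two_lt_d9
  -- the trivial range
  by_cases htriv : 3 / 2 * Real.log Q ≤ (1 + ε) * Real.log N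
  · have h2 : (N:ℝ) * (3 / 2 * Real.log Q - (1 + ε) * Real.log N) ≤ 0 := by
      have : 3 / 2 * Real.log Q - (1 + ε) * Real.log N ≤ 0 := by linarith
      nlinarith
    exact h2.trans (GV_nonneg N x Q)
  push Not at htriv
  -- parameters
  obtain ⟨p, hp⟩ : ∃ p : ℝ, p = (N:ℝ) ^ aE ε := ⟨_, rfl⟩
  have hp1 : 1 ≤ p := by rw [hp]; exact Real.one_le_rpow hn1.le ha0.le
  have hp0 : 0 < p := by linarith
  have hlogp : Real.log p = aE ε * Real.log N := by rw [hp, Real.log_rpow hn0]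
  have hnb1 : 1 ≤ (N:ℝ) ^ bE ε := Real.one_le_rpow hn1.le hb0.le
  have hnb : (N:ℝ) ^ (1 + bE ε) = N * (N:ℝ) ^ bE ε := by rw [Real.rpow_add hn0, Real.rpow_one]
  have hQnb : (Q:ℝ) ≤ (N:ℝ) ^ (1 + bE ε) := by rw [hnb]; nlinarith
  obtain ⟨Rl, hRl⟩ : ∃ Rl, Rl = ⌈(N:ℝ) ^ (1 + bE ε) / Q⌉₊ := ⟨_, rfl⟩
  have hRl1 : 1 ≤ Rl := by rw [hRl]; exact Nat.one_le_ceil_iff.mpr (by positivity)
  have hRlr : (1:ℝ) ≤ Rl := by exact_mod_cast hRl1
  have hR1 : (N:ℝ) ^ (1 + bE ε) ≤ Rl * Q := by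
    have : (N:ℝ) ^ (1 + bE ε) / Q ≤ Rl := by rw [hRl]; exact Nat.le_ceil _
    rwa [div_le_iff₀ (by linarith)] at this
  have hR2' : (Rl:ℝ) * Q ≤ 2 * (N:ℝ) ^ (1 + bE ε) := by
    have h3 : (Rl:ℝ) < (N:ℝ) ^ (1 + bE ε) / Q + 1 := by rw [hRl]; exact Nat.ceil_lt_add_one (by positivity)
    have h4 := mul_lt_mul_of_pos_right h3 (by linarith : (0:ℝ) < Q)
    rw [add_mul, div_mul_cancel₀ _ (by linarith)] at h4
    linarith
  -- B exists
  have hsqQ : 0 < Real.sqrt Q := Real.sqrt_pos.mpr (by linarith)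
  have hlogsq : Real.log (Real.sqrt Q) = Real.log Q / 2 := Real.log_sqrt (by linarith)
  have hw : (Rl:ℝ) ≤ Real.sqrt Q / p ^ 2 := by
    rw [← Real.log_le_log_iff (by linarith) (by positivity), Real.log_div (by positivity) (by positivity), hlogsq, Real.log_pow, hlogp]
    have h3 := Real.log_le_log (by positivity) hR2'
    rw [Real.log_mul (by positivity) (by positivity), Real.log_mul (by norm_num) (by positivity), Real.log_rpow hn0, hbd] at h3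
    push_cast
    linarith
  obtain ⟨I, hI1, hI2, hI3⟩ := exists_I (Real.sqrt Q / p ^ 2) Rl hRl1 hw
  obtain ⟨B, hB⟩ : ∃ B, B = 2 ^ I * Rl := ⟨_, rfl⟩
  rw [← hB] at hI1 hI2
  have hB1 : 1 ≤ B := by rw [hB]; exact Nat.one_le_iff_ne_zero.mpr (Nat.mul_ne_zero (by positivity) (by omega))
  have hBr : (1:ℝ) ≤ B := by exact_mod_cast hB1
  have hsq : Real.sqrt Q ≤ (N:ℝ) ^ (1/2 : ℝ) := by
    rw [← Real.sqrt_eq_rpow]; exact Real.sqrt_le_sqrt hQn
  have hp2 : p ^ 2 = (N:ℝ) ^ (2 * aE ε) := by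
    rw [hp, ← Real.rpow_natCast, ← Real.rpow_mul hn0.le]; congr 1; push_cast; ring
  have hBn : (B:ℝ) ≤ (N:ℝ) ^ (1 / 2 - 2 * aE ε) := by
    refine hI1.trans ?_
    rw [Real.rpow_sub hn0, ← hp2]
    exact div_le_div_of_nonneg_right hsq (by positivity)
  have hlogB : Real.log Q / 2 - 2 * aE ε * Real.log N - Real.log 2 ≤ Real.log B := by
    have h3 := Real.log_le_log (by positivity) hI2.le
    rw [Real.log_div (by positivity) (by positivity), hlogsq, Real.log_pow, hlogp, Real.log_mul (by norm_num) (by positivity)] at h3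
    push_cast at h3
    linarith
  have hI4 : (I:ℝ) ≤ 2 * Real.log N := by
    have h3 : Real.log (Real.sqrt Q / p ^ 2) ≤ Real.log Q / 2 := by
      rw [Real.log_div (by positivity) (by positivity), hlogsq]
      have : 0 ≤ Real.log (p ^ 2) := Real.log_nonneg (one_le_pow₀ hp1)
      linarith
    linarith
  -- U
  obtain ⟨U, hU⟩ : ∃ U, U = ⌈(N:ℝ) * p ^ 4 / Q⌉₊ := ⟨_, rfl⟩
  have hU1 : 1 ≤ U := by rw [hU]; exact Nat.one_le_ceil_iff.mpr (by positivity)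
  have hUa : (N:ℝ) * p ^ 4 ≤ U * Q := by
    have : (N:ℝ) * p ^ 4 / Q ≤ U := by rw [hU]; exact Nat.le_ceil _
    rwa [div_le_iff₀ (by linarith)] at this
  have hUb : (U:ℝ) * Q ≤ 2 * N * p ^ 4 := by
    have h3 : (U:ℝ) < (N:ℝ) * p ^ 4 / Q + 1 := by rw [hU]; exact Nat.ceil_lt_add_one (by positivity)
    have h4 := mul_lt_mul_of_pos_right h3 (by linarith : (0:ℝ) < Q)
    rw [add_mul, div_mul_cancel₀ _ (by linarith)] at h4
    have h5 : (N:ℝ) ≤ N * p ^ 4 := le_mul_of_one_le_right hn0.le (one_le_pow₀ hp1)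
    linarith
  have hQ3 : 4 * (N:ℝ) ^ 2 * p ^ 16 ≤ (Q:ℝ) ^ 3 := by
    rw [← Real.log_le_log_iff (by positivity) (by positivity), Real.log_mul (by positivity) (by positivity),
      Real.log_mul (by norm_num) (by positivity), Real.log_pow, Real.log_pow, Real.log_pow, hlogp,
      show (4:ℝ) = 2 ^ 2 by norm_num, Real.log_pow]
    push_cast
    linarith
  have hz0 : p ^ 4 ≤ (z0E ε N : ℝ) := by
    have h3 := (gc_z0 ε N _ _ _ _ _ _ _ hP (z0E ε N) rfl).1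
    have hp4 : p ^ 4 = (N:ℝ) ^ (4 * aE ε) := by
      rw [hp, ← Real.rpow_natCast, ← Real.rpow_mul hn0.le]; congr 1; push_cast; ring
    rw [hp4]; exact h3
  have hK := hP.K256
  have hKpos : 0 < KE ε := by linarith
  have hKN : 2 * KE ε ≤ N := by
    have := hG.f3
    rwa [Real.rpow_one] at this
  have hlogK : Real.log (2 * KE ε) ≤ Real.log N := Real.log_le_log (by positivity) hKN
  obtain ⟨hBn1, hlogB0, hlogBu, hBsq, hBJ⟩ := gc_B ε N _ _ _ _ _ _ _ hP B (JE ε) (z0E ε N) hB1 hBn (Nat.le_ceil _)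
    (gc_z0 ε N _ _ _ _ _ _ _ hP (z0E ε N) rfl).1
  have hKq : 2 * (N:ℝ) ≤ KE ε * (Rl * Q) := by
    have h5 : (N:ℝ) ≤ Rl * Q := le_trans (by rw [hnb]; nlinarith) hR1
    have h6 : (0:ℝ) ≤ Rl * Q := by positivity
    have h7 : 2 * (Rl * Q:ℝ) ≤ KE ε * (Rl * Q) := mul_le_mul_of_nonneg_right (by linarith) h6
    linarith
  obtain ⟨E, hE⟩ : ∃ E, E = (I:ℝ) * (3 * Real.exp (2 * Real.pi * KE ε) * (2816 * (4 * Real.log N) ^ 9 * (16 * KE ε * (4 * Real.log N) * (Q / p)))) := ⟨_, rfl⟩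
  have hL0 : 0 < Real.log N := by linarith
  have hE0 : 0 ≤ E := by rw [hE]; positivity
  have hEQ : 12 * (N:ℝ) ^ (cE ε) * E ≤ Q := by
    have e1 : 12 * (N:ℝ) ^ (cE ε) * E
        = (I:ℝ) * ((12 * (3 * Real.exp (2 * Real.pi * KE ε) * (2816 * 4 ^ 9 * (16 * KE ε * 4)))) * (Real.log N) ^ 10 * ((N:ℝ) ^ cE ε / p) * Q) := by
      rw [hE]; ring
    have e2 : 12 * (N:ℝ) ^ (cE ε) * E ≤ (CA ε * (Real.log N) ^ 11) * ((N:ℝ) ^ cE ε / p) * Q := by
      rw [e1]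
      calc (I:ℝ) * ((12 * (3 * Real.exp (2 * Real.pi * KE ε) * (2816 * 4 ^ 9 * (16 * KE ε * 4)))) * (Real.log N) ^ 10 * ((N:ℝ) ^ cE ε / p) * Q)
          ≤ (2 * Real.log N) * ((12 * (3 * Real.exp (2 * Real.pi * KE ε) * (2816 * 4 ^ 9 * (16 * KE ε * 4)))) * (Real.log N) ^ 10 * ((N:ℝ) ^ cE ε / p) * Q) :=
            mul_le_mul_of_nonneg_right hI4 (by positivity)
        _ = _ := by unfold CA; ring
    refine e2.trans ?_
    have e3 : (CA ε * (Real.log N) ^ 11) * ((N:ℝ) ^ cE ε / p) ≤ 1 := by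
      calc (CA ε * (Real.log N) ^ 11) * ((N:ℝ) ^ cE ε / p) ≤ (N:ℝ) ^ (aE ε - cE ε) * ((N:ℝ) ^ cE ε / p) :=
            mul_le_mul_of_nonneg_right hCA (by positivity)
        _ = 1 := by
            rw [hp, Real.rpow_sub hn0]
            field_simp
    calc (CA ε * (Real.log N) ^ 11) * ((N:ℝ) ^ cE ε / p) * Q ≤ 1 * Q := mul_le_mul_of_nonneg_right e3 (by linarith)
      _ = Q := one_mul _
  have hfin := gen_core ε h0 h1 N hG x hx hxN Q hQ hQN (Q:ℝ) Rl I B E (by linarith) le_rfl (by linarith) hRl1 hB hR1 (by linarith) hBn hE0 hEQ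
    (by
      intro m hm
      rw [hE]
      refine E2_A N Q Rl I U (z0E ε N) (KE ε) Q (4 * Real.log N) p _ m hN1 hQ hRl1 hU1 (by linarith) (by linarith) hp1 hQN hz0 ?_ hUa hUb hQ3
        (by linarith) le_rfl hKq ?_ ?_ ?_
      · rw [← hB]
        rw [le_div_iff₀ (by positivity)] at hI1
        exact hI1
      · rw [← hB]; linarith
      · rw [← hB, Real.log_mul (by positivity) (by positivity), Real.log_mul (by positivity) (by positivity)]
        linarith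
      · intro r hr
        unfold RRs at hr
        rw [mem_filter, Finset.mem_Ioc] at hr
        rw [← hB]
        exact ⟨hr.1.1, hr.1.2, hr.2.1⟩)
  refine le_trans (mul_le_mul_of_nonneg_left ?_ hn0.le) hfin
  linarith

end Pool.Agent.Var73
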