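import Pool.Agent.Lib_helper73.Var.FinalA

/-! Lower bound for every modulus: real X -/

set_option autoImplicit false

namespace Pool.Agent.Var73

open Finset Pool.Agent.Var35 Filter
open scoped ArithmeticFunction

lemma pass (X P c δ G : ℝ) (hX : 1 ≤ X) (hδ : 0 < δ) (hG : 0 ≤ G) (hc : 0 ≤ c) (hN : 2 ≤ δ * (⌊X⌋₊ : ℝ))
    (hP : P ≤ 2 * Real.log (⌊X⌋₊ : ℝ)) (h : (⌊X⌋₊ : ℝ) * (P - c * Real.log (⌊X⌋₊ : ℝ)) ≤ G) :
    X * (P - (c + δ) * Real.log X) ≤ G := by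
  obtain ⟨N, hN'⟩ : ∃ N : ℝ, N = (⌊X⌋₊ : ℝ) := ⟨_, rfl⟩
  rw [← hN'] at h hN hP
  have h1 : N ≤ X := by rw [hN']; exact Nat.floor_le (by linarith)
  have h2 : X ≤ N + 1 := by rw [hN']; exact (Nat.lt_floor_add_one X).le
  have h3 : 1 ≤ N := by rw [hN']; exact_mod_cast Nat.le_floor (by exact_mod_cast hX)
  have hl : Real.log N ≤ Real.log X := Real.log_le_log (by linarith) h1
  have hl0 : 0 ≤ Real.log N := Real.log_nonneg h3
  by_cases hneg : P - (c + δ) * Real.log X ≤ 0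
  · have : X * (P - (c + δ) * Real.log X) ≤ 0 := mul_nonpos_of_nonneg_of_nonpos (by linarith) hneg
    linarith
  push Not at hneg
  have h4 : P - (c + δ) * Real.log X ≤ P - (c + δ) * Real.log N := by
    have := mul_le_mul_of_nonneg_left hl (by linarith : 0 ≤ c + δ)
    linarith
  calc X * (P - (c + δ) * Real.log X) ≤ (N + 1) * (P - (c + δ) * Real.log X) := mul_le_mul_of_nonneg_right h2 hneg.le
    _ ≤ (N + 1) * (P - (c + δ) * Real.log N) := mul_le_mul_of_nonneg_left h4 (by linarith)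
    _ = N * (P - c * Real.log N) + (P - c * Real.log N - δ * Real.log N) - δ * N * Real.log N := by ring
    _ ≤ G := by
        have h5 : 2 * Real.log N ≤ δ * N * Real.log N := mul_le_mul_of_nonneg_right hN hl0
        have h6 : 0 ≤ c * Real.log N := mul_nonneg hc hl0
        have h7 : 0 ≤ δ * Real.log N := mul_nonneg hδ.le hl0
        linarith

lemma GV_eq (X : ℝ) (Q : ℕ) :
    ∑ a ∈ (Finset.range Q).filter (fun a => Nat.Coprime a Q),
      ((∑ n ∈ (Finset.Icc 1 ⌊X⌋₊).filter (fun n => n % Q = a),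
        ArithmeticFunction.vonMangoldt n) - X / (Nat.totient Q : ℝ)) ^ 2 = GV ⌊X⌋₊ X Q := by
  unfold GV
  rw [Finset.sum_filter]
  refine Finset.sum_congr rfl fun a _ => ?_
  unfold Pool.Agent.Var35.vv
  by_cases h : Nat.Coprime a Q
  · rw [if_pos h, if_pos h]
  · rw [if_neg h, if_neg h, zero_pow two_ne_zero]

theorem lower_all (ε : ℝ) (h0 : 0 < ε) : ∃ X₀ : ℝ, ∀ X : ℝ, X₀ ≤ X → ∀ Q : ℕ, 1 ≤ Q → (Q:ℝ) ≤ X →
    X * (3 / 2 * Real.log Q - (1 + ε) * Real.log X) ≤ GV ⌊X⌋₊ X Q := by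
  obtain ⟨e, he⟩ : ∃ e, e = min ε 1 / 2 := ⟨_, rfl⟩
  have he0 : 0 < e := by rw [he]; positivity
  have he1 : e ≤ 1 := by
    rw [he]
    have := min_le_right ε 1
    linarith
  have heε : e + e ≤ ε := by
    rw [he]
    have := min_le_left ε 1
    linarith
  have ha : 0 < aE e - cE e := by
    have : aE e - cE e = e ^ 2 / 2 ^ 15 := by unfold aE cE; ring
    rw [this]; positivity
  have hK : 0 < KE e := by unfold KE; positivity
  have E1 := good_eventually e he0 he1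
  have E2 := ev_nat 11 (aE e - cE e) (CA e) ha (by unfold CA; positivity)
  have E3 : ∀ᶠ N : ℕ in atTop, 2 / e ≤ (N:ℝ) := by
    have := tendsto_natCast_atTop_atTop (R := ℝ)
    exact this.eventually_ge_atTop _
  have E4 : ∀ᶠ N : ℕ in atTop, 1 ≤ N := eventually_ge_atTop 1
  obtain ⟨N₀, hN₀⟩ := eventually_atTop.mp (E1.and (E2.and (E3.and E4)))
  refine ⟨max (N₀:ℝ) 1, fun X hX Q hQ1 hQX => ?_⟩
  have hX1 : 1 ≤ X := (le_max_right _ _).trans hX
  have hXN : (N₀:ℝ) ≤ X := (le_max_left _ _).trans hX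
  have hNN : N₀ ≤ ⌊X⌋₊ := Nat.le_floor hXN
  obtain ⟨g1, g2, g3, g4⟩ := hN₀ ⌊X⌋₊ hNN
  have hQN : Q ≤ ⌊X⌋₊ := Nat.le_floor hQX
  have hNr : (1:ℝ) ≤ (⌊X⌋₊ : ℝ) := by exact_mod_cast g4
  have hx2 : X ≤ 2 * (⌊X⌋₊ : ℝ) := by
    have := Nat.lt_floor_add_one X
    linarith
  have h1 := case_A e he0 he1 ⌊X⌋₊ g1 g2 X (by linarith) hx2 Q hQ1 hQN
  have hQr : (1:ℝ) ≤ Q := by exact_mod_cast hQ1
  have hlQ : Real.log Q ≤ Real.log (⌊X⌋₊ : ℝ) := Real.log_le_log (by linarith) (by exact_mod_cast hQN)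
  have hlQ0 : 0 ≤ Real.log Q := Real.log_nonneg hQr
  have hlX : 0 ≤ Real.log X := Real.log_nonneg hX1
  have h2 := pass X (3 / 2 * Real.log Q) (1 + e) e (GV ⌊X⌋₊ X Q) hX1 he0 (GV_nonneg _ _ _) (by linarith)
    (by rw [div_le_iff₀ he0] at g3; linarith) (by linarith) h1
  refine le_trans (mul_le_mul_of_nonneg_left ?_ (by linarith)) h2
  have := mul_le_mul_of_nonneg_right heε hlX
  linarith

end Pool.Agent.Var73
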