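import Pool.Agent.Lib_helper73.Var.ErrB3
import Pool.Agent.Lib_helper73.Var.FinalA2

/-! Lower bound for almost all moduli -/

set_option autoImplicit false

namespace Pool.Agent.Var73

open Finset Pool.Agent.Var35 Filter
open scoped ArithmeticFunction

noncomputable def CB (ε : ℝ) : ℝ :=
  144 * 4 * (Real.exp (2 * Real.pi * KE ε)) ^ 2 * 484 * 4 ^ 14 * (KE ε + 4) * KE ε * 6

theorem dyadic_B (ε : ℝ) (h0 : 0 < ε) (h1 : ε ≤ 1) (N : ℕ) (hG : Good ε N) (hCB : CB ε * (Real.log N) ^ 16 ≤ (N:ℝ) ^ (aE ε / 2))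
    (M : ℕ) (hM : (N:ℝ) ^ (1 / 2 + ε / 2) ≤ M) (hMN : M ≤ N) :
    ∃ Ex : Finset ℕ, Ex ⊆ Finset.Ioc M (M + M) ∧ (Ex.card : ℝ) ≤ M * (N:ℝ) ^ (-(aE ε / 2)) ∧
      ∀ x : ℝ, 0 ≤ x → x ≤ 2 * N → ∀ Q ∈ Finset.Ioc M (M + M), Q ≤ N → Q ∉ Ex →
        N * (Real.log Q - (1 / 2 + ε) * Real.log N) ≤ GV N x Q := by
  have hP := par_of_good ε h0 h1 N hG
  have hn1 := hP.n1
  have hn0 : (0:ℝ) < N := by linarith
  have hN1 : 1 ≤ N := by exact_mod_cast hn1.le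
  have hL32 := hP.L32
  have hLε := hP.Lε
  have ha0 := hP.a0
  have hb0 := hP.b0
  have hc0 := hP.c0
  have hbd := hP.bdef
  have hca := hP.ca
  have hε2 : ε ^ 2 ≤ ε := by nlinarith
  have haε : aE ε ≤ ε / 2 ^ 14 := by
    unfold aE
    linarith
  rw [div_le_iff₀ h0] at hLε
  have haL : aE ε * Real.log N ≤ ε / 2 ^ 14 * Real.log N := mul_le_mul_of_nonneg_right haε (by linarith)
  have hlog2 : 0 < Real.log 2 := Real.log_pos (by norm_num)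
  have hlog2' := Real.log_two_lt_d9
  have hL0 : 0 < Real.log N := by linarith
  have hsqM : (N:ℝ) ^ (1/2 : ℝ) ≤ M := by
    refine le_trans ?_ hM
    exact Real.rpow_le_rpow_of_exponent_le hn1.le (by linarith)
  have hM0 : (0:ℝ) < M := lt_of_lt_of_le (by positivity) hM
  have hM1 : 1 ≤ M := by exact_mod_cast hM0
  have hMr : (1:ℝ) ≤ M := by exact_mod_cast hM1
  have hMn : (M:ℝ) ≤ N := by exact_mod_cast hMN
  have hlogM : Real.log M ≤ Real.log N := Real.log_le_log hM0 hMn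
  have hlogM' : (1 / 2 + ε / 2) * Real.log N ≤ Real.log M := by
    have := Real.log_le_log (by positivity) hM
    rwa [Real.log_rpow hn0] at this
  have hnb1 : 1 ≤ (N:ℝ) ^ bE ε := Real.one_le_rpow hn1.le hb0.le
  have hnb : (N:ℝ) ^ (1 + bE ε) = N * (N:ℝ) ^ bE ε := by rw [Real.rpow_add hn0, Real.rpow_one]
  have hMnb : (M:ℝ) ≤ (N:ℝ) ^ (1 + bE ε) := by rw [hnb]; nlinarith
  obtain ⟨Rl, hRl⟩ : ∃ Rl, Rl = ⌈(N:ℝ) ^ (1 + bE ε) / M⌉₊ := ⟨_, rfl⟩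
  have hRl1 : 1 ≤ Rl := by rw [hRl]; exact Nat.one_le_ceil_iff.mpr (by positivity)
  have hRlr : (1:ℝ) ≤ Rl := by exact_mod_cast hRl1
  have hR1 : (N:ℝ) ^ (1 + bE ε) ≤ Rl * M := by
    have : (N:ℝ) ^ (1 + bE ε) / M ≤ Rl := by rw [hRl]; exact Nat.le_ceil _
    rwa [div_le_iff₀ hM0] at this
  have hR2' : (Rl:ℝ) * M ≤ 2 * (N:ℝ) ^ (1 + bE ε) := by
    have h3 : (Rl:ℝ) < (N:ℝ) ^ (1 + bE ε) / M + 1 := by rw [hRl]; exact Nat.ceil_lt_add_one (by positivity)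
    have h4 := mul_lt_mul_of_pos_right h3 hM0
    rw [add_mul, div_mul_cancel₀ _ (by linarith)] at h4
    linarith
  -- B
  have hw : (Rl:ℝ) ≤ (N:ℝ) ^ (1 / 2 - 2 * aE ε) := by
    rw [← Real.log_le_log_iff (by linarith) (by positivity), Real.log_rpow hn0]
    have h3 := Real.log_le_log (by positivity) hR2'
    rw [Real.log_mul (by positivity) (by positivity), Real.log_mul (by norm_num) (by positivity), Real.log_rpow hn0, hbd] at h3
    linarith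
  obtain ⟨I, hI1, hI2, hI3⟩ := exists_I ((N:ℝ) ^ (1 / 2 - 2 * aE ε)) Rl hRl1 hw
  obtain ⟨B, hB⟩ : ∃ B, B = 2 ^ I * Rl := ⟨_, rfl⟩
  rw [← hB] at hI1 hI2
  have hB1 : 1 ≤ B := by rw [hB]; exact Nat.one_le_iff_ne_zero.mpr (Nat.mul_ne_zero (by positivity) (by omega))
  have hBr : (1:ℝ) ≤ B := by exact_mod_cast hB1
  have hlogB : (1 / 2 - 2 * aE ε) * Real.log N - Real.log 2 ≤ Real.log B := by
    have h3 := Real.log_le_log (by positivity) hI2.le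
    rw [Real.log_rpow hn0, Real.log_mul (by norm_num) (by positivity)] at h3
    linarith
  have hI4 : (I:ℝ) ≤ 2 * Real.log N := by
    rw [Real.log_rpow hn0] at hI3
    have h3 : 0 ≤ aE ε * Real.log N := by positivity
    linarith
  obtain ⟨hBn1, hlogB0, hlogBu, hBsq, hBJ⟩ := gc_B ε N _ _ _ _ _ _ _ hP B (JE ε) (z0E ε N) hB1 hI1 (Nat.le_ceil _)
    (gc_z0 ε N _ _ _ _ _ _ _ hP (z0E ε N) rfl).1
  have hz0 := (gc_z0 ε N _ _ _ _ _ _ _ hP (z0E ε N) rfl).1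
  have hz1 : 1 ≤ z0E ε N := by
    have h2 : (1:ℝ) ≤ z0E ε N := (Real.one_le_rpow hn1.le (by positivity)).trans hz0
    exact_mod_cast h2
  have hK := hP.K256
  have hKpos : 0 < KE ε := by linarith
  have hKN : KE ε ≤ N := by
    have := hG.f3
    rw [Real.rpow_one] at this
    linarith
  have hlogK : Real.log (KE ε) ≤ Real.log N := Real.log_le_log (by positivity) hKN
  have hKq : 2 * (N:ℝ) ≤ KE ε * (Rl * M) := by
    have h5 : (N:ℝ) ≤ Rl * M := le_trans (by rw [hnb]; nlinarith) hR1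
    have h6 : (0:ℝ) ≤ Rl * M := by positivity
    have h7 : 2 * (Rl * M:ℝ) ≤ KE ε * (Rl * M) := mul_le_mul_of_nonneg_right (by linarith) h6
    linarith
  have hmean := EE_mean N M M Rl I B (z0E ε N) (S1E ε N) (KE ε) (4 * Real.log N) hB hRl1 hz1 hN1 hM1 (by linarith) hKq
    (by linarith) (by linarith) (by
      rw [Real.log_mul (by positivity) (by positivity), Real.log_mul (by positivity) (by positivity)]
      linarith)
  obtain ⟨ee, hee⟩ : ∃ ee : ℕ → ℝ, ee = fun Q => ‖EE N M Rl B (z0E ε N) (S1E ε N) (KE ε) Q‖ := ⟨_, rfl⟩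
  have hee' : ∀ Q, ‖EE N M Rl B (z0E ε N) (S1E ε N) (KE ε) Q‖ = ee Q := fun Q => by rw [hee]
  simp only [hee'] at hmean
  obtain ⟨Ex, hEx⟩ : ∃ Ex, Ex = (Finset.Ioc M (M + M)).filter (fun Q => (M:ℝ) / (12 * (N:ℝ) ^ cE ε) < ee Q) := ⟨_, rfl⟩
  refine ⟨Ex, by rw [hEx]; exact filter_subset _ _, ?_, ?_⟩
  · -- Chebyshev
    have hlow : (Ex.card : ℝ) * ((M:ℝ) / (12 * (N:ℝ) ^ cE ε)) ^ 2 ≤ ∑ Q ∈ Finset.Ioc M (M + M), ee Q ^ 2 := by
      calc (Ex.card : ℝ) * ((M:ℝ) / (12 * (N:ℝ) ^ cE ε)) ^ 2 = ∑ Q ∈ Ex, ((M:ℝ) / (12 * (N:ℝ) ^ cE ε)) ^ 2 := by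
            rw [sum_const, nsmul_eq_mul]
        _ ≤ ∑ Q ∈ Ex, ee Q ^ 2 := by
            refine sum_le_sum fun Q hQ => ?_
            rw [hEx, mem_filter] at hQ
            exact pow_le_pow_left₀ (by positivity) hQ.2.le 2
        _ ≤ _ := by
            refine sum_le_sum_of_subset_of_nonneg (by rw [hEx]; exact filter_subset _ _) fun _ _ _ => by positivity
    have hup : ∑ Q ∈ Finset.Ioc M (M + M), ee Q ^ 2
        ≤ (4 * (Real.exp (2 * Real.pi * KE ε)) ^ 2 * 484 * 4 ^ 14 * (KE ε + 4) * KE ε * 6 * (Real.log N) ^ 16) * ((M:ℝ) ^ 3 * (N:ℝ) ^ (-(2 * aE ε))) := by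
      refine hmean.trans ?_
      have hBM : (B:ℝ) ≤ M := by
        refine hI1.trans (le_trans ?_ hsqM)
        exact Real.rpow_le_rpow_of_exponent_le hn1.le (by linarith)
      have e1 : KE ε * M + 4 * B ≤ (KE ε + 4) * M := by linarith
      have e2 : 2 * (M:ℝ) / z0E ε N + 4 * B ≤ 6 * M * (N:ℝ) ^ (-(2 * aE ε)) := by
        have e3 : 2 * (M:ℝ) / z0E ε N ≤ 2 * M * (N:ℝ) ^ (-(2 * aE ε)) := by
          rw [Real.rpow_neg hn0.le, ← div_eq_mul_inv]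
          refine div_le_div_of_nonneg_left (by positivity) (by positivity) (le_trans ?_ hz0)
          exact Real.rpow_le_rpow_of_exponent_le hn1.le (by linarith)
        have e4 : (B:ℝ) ≤ M * (N:ℝ) ^ (-(2 * aE ε)) := by
          calc (B:ℝ) ≤ (N:ℝ) ^ (1 / 2 - 2 * aE ε) := hI1
            _ = (N:ℝ) ^ (1/2 : ℝ) * (N:ℝ) ^ (-(2 * aE ε)) := by rw [← Real.rpow_add hn0]; congr 1
            _ ≤ M * (N:ℝ) ^ (-(2 * aE ε)) := mul_le_mul_of_nonneg_right hsqM (by positivity)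
        linarith
      calc (I:ℝ) ^ 2 * ((Real.exp (2 * Real.pi * KE ε)) ^ 2 * (484 * (4 * Real.log N) ^ 14 *
            ((KE ε * M + 4 * B) * (KE ε * M) * (2 * (M:ℝ) / z0E ε N + 4 * B))))
          ≤ (2 * Real.log N) ^ 2 * ((Real.exp (2 * Real.pi * KE ε)) ^ 2 * (484 * (4 * Real.log N) ^ 14 *
            (((KE ε + 4) * M) * (KE ε * M) * (6 * M * (N:ℝ) ^ (-(2 * aE ε)))))) := by
            gcongr
        _ = _ := by ring
    have h3 := hlow.trans hup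
    have h4 : (Ex.card : ℝ) * ((M:ℝ) / (12 * (N:ℝ) ^ cE ε)) ^ 2 * (144 * ((N:ℝ) ^ cE ε) ^ 2 / (M:ℝ) ^ 2)
        ≤ (4 * (Real.exp (2 * Real.pi * KE ε)) ^ 2 * 484 * 4 ^ 14 * (KE ε + 4) * KE ε * 6 * (Real.log N) ^ 16) * ((M:ℝ) ^ 3 * (N:ℝ) ^ (-(2 * aE ε)))
          * (144 * ((N:ℝ) ^ cE ε) ^ 2 / (M:ℝ) ^ 2) := mul_le_mul_of_nonneg_right h3 (by positivity)
    have h5 : (Ex.card : ℝ) * ((M:ℝ) / (12 * (N:ℝ) ^ cE ε)) ^ 2 * (144 * ((N:ℝ) ^ cE ε) ^ 2 / (M:ℝ) ^ 2) = Ex.card := by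
      field_simp
      norm_num
    have h6 : ((N:ℝ) ^ cE ε) ^ 2 = (N:ℝ) ^ aE ε := by
      rw [← Real.rpow_natCast, ← Real.rpow_mul hn0.le]; congr 1; push_cast; linarith
    have h7 : (N:ℝ) ^ (-(2 * aE ε)) * (N:ℝ) ^ aE ε = (N:ℝ) ^ (-(aE ε / 2)) * (N:ℝ) ^ (-(aE ε / 2)) := by
      rw [← Real.rpow_add hn0, ← Real.rpow_add hn0]; congr 1; ring
    rw [h5, h6] at h4
    calc (Ex.card : ℝ) ≤ _ := h4
      _ = (CB ε * (Real.log N) ^ 16) * (M * ((N:ℝ) ^ (-(2 * aE ε)) * (N:ℝ) ^ aE ε)) := by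
          unfold CB
          field_simp
      _ = (CB ε * (Real.log N) ^ 16) * (M * ((N:ℝ) ^ (-(aE ε / 2)) * (N:ℝ) ^ (-(aE ε / 2)))) := by rw [h7]
      _ ≤ (N:ℝ) ^ (aE ε / 2) * (M * ((N:ℝ) ^ (-(aE ε / 2)) * (N:ℝ) ^ (-(aE ε / 2)))) :=
          mul_le_mul_of_nonneg_right hCB (by positivity)
      _ = M * (N:ℝ) ^ (-(aE ε / 2)) := by
          have : (N:ℝ) ^ (aE ε / 2) * (N:ℝ) ^ (-(aE ε / 2)) = 1 := by
            rw [← Real.rpow_add hn0, add_neg_cancel, Real.rpow_zero]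
          calc _ = ((N:ℝ) ^ (aE ε / 2) * (N:ℝ) ^ (-(aE ε / 2))) * (M * (N:ℝ) ^ (-(aE ε / 2))) := by ring
            _ = _ := by rw [this, one_mul]
  · intro x hx hxN Q hQ hQN hQE
    have hQ' := Finset.mem_Ioc.mp hQ
    have hQ1 : 1 ≤ Q := by omega
    have hMQ : (M:ℝ) ≤ Q := by exact_mod_cast hQ'.1.le
    have hQ2M : (Q:ℝ) ≤ 2 * M := by
      have : (Q:ℝ) ≤ ((M + M : ℕ):ℝ) := by exact_mod_cast hQ'.2
      push_cast at this
      linarith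
    have hnot : ee Q ≤ (M:ℝ) / (12 * (N:ℝ) ^ cE ε) := by
      by_contra hcon
      push Not at hcon
      exact hQE (by rw [hEx, mem_filter]; exact ⟨hQ, hcon⟩)
    have hfin := gen_core ε h0 h1 N hG x hx hxN Q hQ1 hQN (M:ℝ) Rl I B (ee Q) (by linarith) hMQ hQ2M hRl1 hB hR1
      (by
        have : (Rl:ℝ) * Q ≤ Rl * (2 * M) := mul_le_mul_of_nonneg_left hQ2M (by linarith)
        linarith) hI1 (by rw [← hee']; exact norm_nonneg _)
      (by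
        calc 12 * (N:ℝ) ^ (cE ε) * ee Q ≤ 12 * (N:ℝ) ^ (cE ε) * ((M:ℝ) / (12 * (N:ℝ) ^ cE ε)) :=
              mul_le_mul_of_nonneg_left hnot (by positivity)
          _ = M := by field_simp
          _ ≤ Q := hMQ)
      (by
        intro m hm
        rw [EE_eq N M Rl B (z0E ε N) (S1E ε N) Q (KE ε) m hm, hee'])
    refine le_trans (mul_le_mul_of_nonneg_left ?_ hn0.le) hfin
    linarith

end Pool.Agent.Var73
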