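import Pool.Agent.Lib_helper73.Var.FinalB

/-! Lower bound for almost all moduli, real X -/

set_option autoImplicit false

namespace Pool.Agent.Var73

open Finset Pool.Agent.Var35 Filter
open scoped ArithmeticFunction

lemma sum_two_pow_le (S : Finset ℕ) (Y : ℝ) (hY : 0 ≤ Y) (hS : ∀ j ∈ S, (2:ℝ) ^ j < Y) : ∑ j ∈ S, (2:ℝ) ^ j ≤ 2 * Y := by
  rcases S.eq_empty_or_nonempty with h | h
  · subst h; simp; exact hY
  · obtain ⟨J, hJ, hJmax⟩ := S.exists_max_image (fun j => j) h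
    have h1 : ∑ k ∈ S, 2 ^ k < 2 ^ (J + 1) := Nat.geomSum_lt le_rfl (fun k hk => Nat.lt_succ_of_le (hJmax k hk))
    have h2 : ∑ k ∈ S, (2:ℝ) ^ k < (2:ℝ) ^ (J + 1) := by exact_mod_cast h1
    have h3 := hS J hJ
    rw [pow_succ] at h2
    linarith

theorem almost_sharp (ε : ℝ) (h0 : 0 < ε) (h1 : ε ≤ 1) : ∃ X₀ : ℝ, ∀ X : ℝ, X₀ ≤ X → ∃ E : Finset ℕ,
    (∀ Y : ℝ, 0 ≤ Y → ((E.filter (fun Q : ℕ => (Q : ℝ) ≤ Y)).card : ℝ) ≤ Y * X ^ (-(ε ^ 2 / 2 ^ 18))) ∧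
    ∀ Q : ℕ, 1 ≤ Q → (Q:ℝ) ≤ X → Q ∉ E →
      X * (Real.log Q - (1 / 2 + ε) * Real.log X) ≤ GV ⌊X⌋₊ X Q := by
  classical
  obtain ⟨e, he⟩ : ∃ e, e = ε / 2 := ⟨_, rfl⟩
  have he0 : 0 < e := by rw [he]; positivity
  have he1 : e ≤ 1 := by rw [he]; linarith
  obtain ⟨a, hadef⟩ : ∃ a, a = aE e := ⟨_, rfl⟩
  have haval : a = ε ^ 2 / 2 ^ 16 := by rw [hadef]; unfold aE; rw [he]; ring
  have ha : 0 < a := by rw [haval]; positivity
  have hK : 0 < KE e := by unfold KE; positivity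
  have hε2 : ε ^ 2 ≤ ε := by nlinarith
  have E1 := good_eventually e he0 he1
  have E2 := ev_nat 16 (aE e / 2) (CB e) (by rw [← hadef]; positivity) (by unfold CB; positivity)
  have E3 : ∀ᶠ N : ℕ in atTop, 2 / e ≤ (N:ℝ) := by
    have := tendsto_natCast_atTop_atTop (R := ℝ)
    exact this.eventually_ge_atTop _
  have E4 : ∀ᶠ N : ℕ in atTop, 1 ≤ N := eventually_ge_atTop 1
  have E5 := ev_nat 0 (a / 4) 4 (by positivity) (by norm_num)
  obtain ⟨N₀, hN₀⟩ := eventually_atTop.mp (E1.and (E2.and (E3.and (E4.and E5))))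
  refine ⟨max (N₀:ℝ) 1, fun X hX => ?_⟩
  have hX1 : 1 ≤ X := (le_max_right _ _).trans hX
  have hXN : (N₀:ℝ) ≤ X := (le_max_left _ _).trans hX
  have hNN : N₀ ≤ ⌊X⌋₊ := Nat.le_floor hXN
  obtain ⟨g1, g2, g3, g4, g5⟩ := hN₀ ⌊X⌋₊ hNN
  rw [pow_zero, mul_one] at g5
  have hP := par_of_good e he0 he1 _ g1
  have hNX : (⌊X⌋₊ : ℝ) ≤ X := Nat.floor_le (by linarith)
  have hXN1 := Nat.lt_floor_add_one X
  obtain ⟨N, hN⟩ : ∃ N, N = ⌊X⌋₊ := ⟨_, rfl⟩
  rw [← hN] at g1 g2 g3 g4 g5 hP hNX hXN1 ⊢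
  have hNr : (1:ℝ) ≤ N := by exact_mod_cast g4
  have hn0 : (0:ℝ) < N := by linarith
  have hx2 : X ≤ 2 * (N : ℝ) := by linarith
  have hL32 := hP.L32
  have hLe := hP.Lε
  rw [div_le_iff₀ he0] at hLe
  have hlX : Real.log N ≤ Real.log X := Real.log_le_log hn0 hNX
  -- exceptional sets
  have hex : ∀ j : ℕ, ∃ Ex : Finset ℕ, Ex ⊆ Finset.Ioc (2 ^ j) (2 ^ j + 2 ^ j) ∧ (Ex.card : ℝ) ≤ (2:ℝ) ^ j * (N:ℝ) ^ (-(a / 2)) ∧
      ((N:ℝ) ^ (1 / 2 + e / 2) ≤ (2 ^ j : ℕ) ∧ 2 ^ j ≤ N →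
        ∀ x : ℝ, 0 ≤ x → x ≤ 2 * N → ∀ Q ∈ Finset.Ioc (2 ^ j) (2 ^ j + 2 ^ j), Q ≤ N → Q ∉ Ex →
        N * (Real.log Q - (1 / 2 + e) * Real.log N) ≤ GV N x Q) := by
    intro j
    by_cases hc : (N:ℝ) ^ (1 / 2 + e / 2) ≤ (2 ^ j : ℕ) ∧ 2 ^ j ≤ N
    · obtain ⟨Ex, h2, h3, h4⟩ := dyadic_B e he0 he1 N g1 g2 (2 ^ j) hc.1 hc.2
      refine ⟨Ex, h2, ?_, fun _ => h4⟩
      rw [hadef]
      refine h3.trans (le_of_eq ?_)
      push_cast; ring
    · refine ⟨∅, by simp, ?_, fun h => absurd h hc⟩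
      simp only [card_empty, Nat.cast_zero]
      positivity
  choose Ex hEx1 hEx2 hEx3 using hex
  refine ⟨(range (N + 1)).biUnion Ex, ?_, ?_⟩
  · intro Y hY
    have hsub : ((range (N + 1)).biUnion Ex).filter (fun Q : ℕ => (Q : ℝ) ≤ Y)
        ⊆ ((range (N + 1)).filter (fun j => (2:ℝ) ^ j < Y)).biUnion Ex := by
      intro Q hQ
      rw [mem_filter, mem_biUnion] at hQ
      obtain ⟨⟨j, hj, hQj⟩, hQY⟩ := hQ
      rw [mem_biUnion]
      refine ⟨j, ?_, hQj⟩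
      rw [mem_filter]
      refine ⟨hj, ?_⟩
      have h2 := Finset.mem_Ioc.mp (hEx1 j hQj)
      have h3 : ((2 ^ j : ℕ):ℝ) < Q := by exact_mod_cast h2.1
      push_cast at h3
      linarith
    have hcard : (((((range (N + 1)).biUnion Ex).filter (fun Q : ℕ => (Q : ℝ) ≤ Y)).card : ℕ) : ℝ)
        ≤ ∑ j ∈ (range (N + 1)).filter (fun j => (2:ℝ) ^ j < Y), (2:ℝ) ^ j * (N:ℝ) ^ (-(a / 2)) := by
      have h2 := (Finset.card_le_card hsub).trans Finset.card_biUnion_le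
      have h3 : (((((range (N + 1)).biUnion Ex).filter (fun Q : ℕ => (Q : ℝ) ≤ Y)).card : ℕ) : ℝ)
          ≤ ∑ j ∈ (range (N + 1)).filter (fun j => (2:ℝ) ^ j < Y), ((Ex j).card : ℝ) := by exact_mod_cast h2
      exact h3.trans (sum_le_sum fun j _ => hEx2 j)
    refine hcard.trans ?_
    rw [← sum_mul]
    have h2 := sum_two_pow_le ((range (N + 1)).filter (fun j => (2:ℝ) ^ j < Y)) Y hY (fun j hj => (mem_filter.mp hj).2)
    have h3 : 2 * (N:ℝ) ^ (-(a / 2)) ≤ X ^ (-(a / 4)) := by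
      rw [Real.rpow_neg hn0.le, Real.rpow_neg (by linarith), ← div_eq_mul_inv, inv_eq_one_div]
      rw [div_le_div_iff₀ (by positivity) (by positivity), one_mul]
      calc 2 * X ^ (a / 4) ≤ 2 * (2 * (N:ℝ)) ^ (a / 4) := by
            refine mul_le_mul_of_nonneg_left ?_ (by norm_num)
            exact Real.rpow_le_rpow (by linarith) hx2 (by positivity)
        _ = 2 * ((2:ℝ) ^ (a / 4) * (N:ℝ) ^ (a / 4)) := by rw [Real.mul_rpow (by norm_num) hn0.le]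
        _ ≤ 2 * (2 * (N:ℝ) ^ (a / 4)) := by
            refine mul_le_mul_of_nonneg_left ?_ (by norm_num)
            refine mul_le_mul_of_nonneg_right ?_ (by positivity)
            calc (2:ℝ) ^ (a / 4) ≤ (2:ℝ) ^ (1:ℝ) := Real.rpow_le_rpow_of_exponent_le (by norm_num) (by rw [haval]; linarith)
              _ = 2 := Real.rpow_one 2
        _ = 4 * (N:ℝ) ^ (a / 4) := by ring
        _ ≤ (N:ℝ) ^ (a / 4) * (N:ℝ) ^ (a / 4) := mul_le_mul_of_nonneg_right g5 (by positivity)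
        _ = (N:ℝ) ^ (a / 2) := by rw [← Real.rpow_add hn0]; congr 1; ring
    have h4 : a / 4 = ε ^ 2 / 2 ^ 18 := by rw [haval]; ring
    rw [h4] at h3
    calc (∑ j ∈ (range (N + 1)).filter (fun j => (2:ℝ) ^ j < Y), (2:ℝ) ^ j) * (N:ℝ) ^ (-(a / 2))
        ≤ (2 * Y) * (N:ℝ) ^ (-(a / 2)) := mul_le_mul_of_nonneg_right h2 (by positivity)
      _ = Y * (2 * (N:ℝ) ^ (-(a / 2))) := by ring
      _ ≤ _ := mul_le_mul_of_nonneg_left h3 hY
  · intro Q hQ1 hQX hQE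
    have hQN : Q ≤ N := by rw [hN]; exact Nat.le_floor hQX
    have hQr : (1:ℝ) ≤ Q := by exact_mod_cast hQ1
    have hlQN : Real.log Q ≤ Real.log N := Real.log_le_log (by linarith) (by exact_mod_cast hQN)
    have hlX0 : 0 ≤ Real.log X := Real.log_nonneg hX1
    by_cases htriv : Real.log Q ≤ (1 / 2 + ε) * Real.log X
    · have h2 : X * (Real.log Q - (1 / 2 + ε) * Real.log X) ≤ 0 :=
        mul_nonpos_of_nonneg_of_nonpos (by linarith) (by linarith)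
      exact h2.trans (GV_nonneg N X Q)
    push Not at htriv
    have hlog2 : 0 < Real.log 2 := Real.log_pos (by norm_num)
    have hlog2' := Real.log_two_lt_d9
    have hQ2 : 2 ≤ Q := by
      by_contra hcon
      have : Q = 1 := by omega
      rw [this] at htriv
      simp only [Nat.cast_one, Real.log_one] at htriv
      have : 0 ≤ (1 / 2 + ε) * Real.log X := by positivity
      linarith
    obtain ⟨j, hj⟩ : ∃ j, j = Nat.log 2 (Q - 1) := ⟨_, rfl⟩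
    have hj1 : 2 ^ j ≤ Q - 1 := by rw [hj]; exact Nat.pow_log_le_self 2 (by omega)
    have hj2 : Q - 1 < 2 ^ (j + 1) := by rw [hj]; exact Nat.lt_pow_succ_log_self (by norm_num) _
    have hj2' : Q ≤ 2 ^ j + 2 ^ j := by rw [pow_succ] at hj2; omega
    have hjQ : Q ∈ Finset.Ioc (2 ^ j) (2 ^ j + 2 ^ j) := by rw [Finset.mem_Ioc]; omega
    have hjN : 2 ^ j ≤ N := by omega
    have hjN' : j ∈ range (N + 1) := by
      rw [mem_range]
      have := Nat.lt_two_pow_self (n := j)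
      omega
    have hQE' : Q ∉ Ex j := fun h => hQE (mem_biUnion.mpr ⟨j, hjN', h⟩)
    have hjc : (N:ℝ) ^ (1 / 2 + e / 2) ≤ (2 ^ j : ℕ) := by
      have h2 : (Q:ℝ) ≤ 2 * ((2 ^ j : ℕ):ℝ) := by
        have : (Q:ℝ) ≤ ((2 ^ j + 2 ^ j : ℕ):ℝ) := by exact_mod_cast hj2'
        rw [Nat.cast_add] at this
        linarith
      have h2j : (0:ℝ) < ((2 ^ j : ℕ):ℝ) := by positivity
      rw [← Real.log_le_log_iff (by positivity) h2j, Real.log_rpow hn0]
      have h3 := Real.log_le_log (by linarith) h2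
      rw [Real.log_mul (by norm_num) (by positivity)] at h3
      have h4 : (1 / 2 + ε) * Real.log N ≤ (1 / 2 + ε) * Real.log X := mul_le_mul_of_nonneg_left hlX (by positivity)
      have h5 : ε * Real.log N = 2 * (e * Real.log N) := by rw [he]; ring
      have h6 : (1 / 2 + ε) * Real.log N = (1/2) * Real.log N + ε * Real.log N := by ring
      have h7 : (1 / 2 + e / 2) * Real.log N = (1/2) * Real.log N + (1/2) * (e * Real.log N) := by ring
      rw [h7]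
      linarith
    have h2 := hEx3 j ⟨hjc, hjN⟩ X (by linarith) hx2 Q hjQ hQN hQE'
    have hlQ0 : 0 ≤ Real.log Q := Real.log_nonneg hQr
    rw [hN] at h2 ⊢
    rw [hN] at g3 hlQN
    have h3 := pass X (Real.log Q) (1 / 2 + e) e (GV ⌊X⌋₊ X Q) hX1 he0 (GV_nonneg _ _ _) (by positivity)
      (by rw [div_le_iff₀ he0] at g3; linarith) (by linarith) h2
    have h4 : 1 / 2 + ε = 1 / 2 + e + e := by rw [he]; ring
    rw [h4]
    exact h3

end Pool.Agent.Var73
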