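import Pool.Agent.Lib_helper73.Var.Tail

/-! The lower bound for a fixed modulus in terms of the error term from characters of large conductor -/

set_option autoImplicit false

namespace Pool.Agent.Var73

open Finset Complex Pool.Agent.Var35 DirichletCharacter Filter
open scoped ArithmeticFunction ArithmeticFunction.Moebius ArithmeticFunction.zeta

/-- the variance -/
noncomputable def GV (N : ℕ) (x : ℝ) (Q : ℕ) : ℝ := ∑ A ∈ range Q, (vv N x Q A) ^ 2

lemma GV_nonneg (N : ℕ) (x : ℝ) (Q : ℕ) : 0 ≤ GV N x Q := sum_nonneg fun _ _ => by positivity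

lemma H0_nonneg (N Q : ℕ) (RR : Finset ℕ) (Yf : ℕ → ℕ) : 0 ≤ H0 N Q RR Yf :=
  sum_nonneg fun _ _ => mul_nonneg (by positivity) (sum_nonneg fun _ _ => by positivity)

/-- step F1 -/
lemma lower_of_re (N : ℕ) (x : ℝ) (Q : ℕ) (hN : 1 ≤ N) (hQ : 0 < Q) (Gs W H Err : ℝ) (hGs : 0 ≤ Gs) (hH : 0 ≤ H) (hErr : 0 ≤ Err)
    (hW : (N:ℝ) * H - Err ≤ W) (hmain : 2 * Gs ^ 2 * W ^ 2 ≤ Gs * (H * (Q * GV N x Q))) :
    (2 * Gs * N / Q) * ((N:ℝ) * H - 2 * Err) ≤ GV N x Q := by
  have hG := GV_nonneg N x Q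
  have hNr : (0:ℝ) < N := by exact_mod_cast hN
  have hQr : (0:ℝ) < Q := by exact_mod_cast hQ
  rcases le_or_gt ((N:ℝ) * H) (2 * Err) with hc | hc
  · refine le_trans ?_ hG
    refine mul_nonpos_of_nonneg_of_nonpos (by positivity) (by linarith)
  rcases eq_or_lt_of_le hGs with h0 | h0
  · rw [← h0]; simpa using hG
  have hHpos : 0 < H := by
    rcases eq_or_lt_of_le hH with h1 | h1
    · rw [← h1, mul_zero] at hc; linarith
    · exact h1
  have h2 : (N:ℝ) * H * ((N:ℝ) * H - 2 * Err) ≤ W ^ 2 := by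
    have h3 : 0 ≤ (N:ℝ) * H - Err := by nlinarith
    have h4 : ((N:ℝ) * H - Err) ^ 2 ≤ W ^ 2 := pow_le_pow_left₀ h3 hW 2
    nlinarith [sq_nonneg Err]
  have h3 : 2 * Gs ^ 2 * ((N:ℝ) * H * ((N:ℝ) * H - 2 * Err)) ≤ Gs * (H * (Q * GV N x Q)) :=
    (mul_le_mul_of_nonneg_left h2 (by positivity)).trans hmain
  have h4 : (Gs * H) * (2 * Gs * N * ((N:ℝ) * H - 2 * Err)) ≤ (Gs * H) * (Q * GV N x Q) := by
    calc (Gs * H) * (2 * Gs * N * ((N:ℝ) * H - 2 * Err)) = 2 * Gs ^ 2 * ((N:ℝ) * H * ((N:ℝ) * H - 2 * Err)) := by ring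
      _ ≤ Gs * (H * (Q * GV N x Q)) := h3
      _ = _ := by ring
  have h5 := le_of_mul_le_mul_left h4 (mul_pos h0 hHpos)
  rw [div_mul_eq_mul_div, div_le_iff₀ hQr]
  calc 2 * Gs * N * ((N:ℝ) * H - 2 * Err) ≤ Q * GV N x Q := h5
    _ = _ := by ring

/-- smooth and rough parts -/
def smp (z0 r : ℕ) : ℕ := ∏ p ∈ r.primeFactors.filter (fun p => p ≤ z0), p
def rgp (z0 r : ℕ) : ℕ := ∏ p ∈ r.primeFactors.filter (fun p => ¬ p ≤ z0), p

lemma smp_mul_rgp (z0 r : ℕ) (hr : Squarefree r) : smp z0 r * rgp z0 r = r := by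
  unfold smp rgp
  rw [prod_filter_mul_prod_filter_not]
  exact Nat.prod_primeFactors_of_squarefree hr

lemma smp_pos (z0 r : ℕ) : 0 < smp z0 r := prod_pos fun p hp => (Nat.prime_of_mem_primeFactors (mem_filter.mp hp).1).pos
lemma rgp_pos (z0 r : ℕ) : 0 < rgp z0 r := prod_pos fun p hp => (Nat.prime_of_mem_primeFactors (mem_filter.mp hp).1).pos

lemma smp_coprime (z0 r : ℕ) (hr : Squarefree r) : Nat.Coprime (smp z0 r) (rgp z0 r) := by
  have h := smp_mul_rgp z0 r hr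
  rw [← h] at hr
  exact Nat.coprime_of_squarefree_mul hr

lemma rgp_prime (z0 r p : ℕ) (hp : p.Prime) (h : p ∣ rgp z0 r) : z0 < p := by
  unfold rgp at h
  rw [Prime.dvd_finsetProd_iff hp.prime] at h
  obtain ⟨q, hq, hpq⟩ := h
  rw [mem_filter] at hq
  have := (Nat.prime_dvd_prime_iff_eq hp (Nat.prime_of_mem_primeFactors hq.1)).mp hpq
  rw [this]; omega

/-- the number of divisors of the rough part -/
lemma card_div_rgp (z0 r J : ℕ) (hr : Squarefree r) (h : r < z0 ^ J) : (rgp z0 r).divisors.card ≤ 2 ^ J := by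
  have hsq : Squarefree (rgp z0 r) := by
    have h1 := smp_mul_rgp z0 r hr
    rw [← h1] at hr
    exact hr.of_mul_right
  have h2 : (rgp z0 r).divisors.card = 2 ^ (rgp z0 r).primeFactors.card := by
    rw [Nat.card_divisors hsq.ne_zero, prod_congr rfl (g := fun _ => 2), prod_const]
    intro p hp
    have h3 := hsq.natFactorization_le_one p
    have h4 := (Nat.prime_of_mem_primeFactors hp).factorization_pos_of_dvd hsq.ne_zero (Nat.dvd_of_mem_primeFactors hp)
    omega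
  rw [h2]
  refine Nat.pow_le_pow_right (by norm_num) ?_
  by_contra hc
  push Not at hc
  have h3 : z0 ^ J ≤ rgp z0 r := by
    have h4 : ∏ p ∈ (rgp z0 r).primeFactors, p = rgp z0 r := Nat.prod_primeFactors_of_squarefree hsq
    have h5 : (z0 + 1) ^ (rgp z0 r).primeFactors.card ≤ ∏ p ∈ (rgp z0 r).primeFactors, p := by
      refine Finset.pow_card_le_prod _ _ _ fun p hp => ?_
      have := rgp_prime z0 r p (Nat.prime_of_mem_primeFactors hp) (Nat.dvd_of_mem_primeFactors hp)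
      omega
    calc z0 ^ J ≤ (z0 + 1) ^ J := Nat.pow_le_pow_left (by omega) J
      _ ≤ (z0 + 1) ^ (rgp z0 r).primeFactors.card := Nat.pow_le_pow_right (by omega) hc.le
      _ ≤ _ := h5
      _ = rgp z0 r := h4
  have h4 : rgp z0 r ≤ r := by
    have h1 := smp_mul_rgp z0 r hr
    have h5 := smp_pos z0 r
    calc rgp z0 r = 1 * rgp z0 r := (one_mul _).symm
      _ ≤ smp z0 r * rgp z0 r := Nat.mul_le_mul_right _ h5
      _ = r := h1
  omega

end Pool.Agent.Var73
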