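import Pool.Agent.Lib_helper73.Var.Fixed

/-! The lower bound for a fixed modulus, assembly -/

set_option autoImplicit false

namespace Pool.Agent.Var73

open Finset Complex Pool.Agent.Var35 DirichletCharacter Filter
open scoped ArithmeticFunction ArithmeticFunction.Moebius ArithmeticFunction.zeta

/-- the error for a single `r` in `point` -/
noncomputable def eP (N Q : ℕ) (x K Δ : ℝ) (Y r s t : ℕ) : ℝ :=
  (1 / (Nat.totient r : ℝ)) * (∑ y ∈ CY r Y, (E0 N Q + E0 N r + (x / (Nat.totient Q : ℝ)) * (y * (1 + Real.log y))))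
    + (1 / (Nat.totient r : ℝ)) * ((1 / (Nat.totient t : ℝ)) * ((N + Δ) * (2 * Nat.totient s * t.divisors.card * (1 + 2 * Real.pi * K))))
    + (1 / (Nat.totient r : ℝ)) ^ 2 * (((CY r Y).card : ℝ) * (E0 N r + (1 + 2 * Real.pi * K) * Δ))

lemma card_CY_le (r Y : ℕ) : ((CY r Y).card : ℝ) ≤ Y := by
  have h : CY r Y ⊆ Finset.Icc 1 Y := by unfold CY; exact filter_subset _ _
  have := card_le_card h
  rw [Nat.card_Icc, Nat.add_sub_cancel] at this
  exact_mod_cast this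

/-- estimate for a single `r` -/
lemma per_r (N Q Rm Rl S1 D0 Y r s t : ℕ) (x K Δ Lg c0 : ℝ) (hr : r = s * t) (hN : 1 ≤ N) (hQ : 1 ≤ Q) (hx : 0 ≤ x) (hxN : x ≤ 2 * N)
    (hK0 : 0 ≤ K) (hs : 0 < s) (ht : 0 < t) (hst : Nat.Coprime s t) (hRl : 1 ≤ Rl) (hr1 : Rl < r) (hr2 : r ≤ Rm)
    (hS1 : s ≤ S1) (hD0 : t.divisors.card ≤ D0) (hY1 : 1 ≤ Y) (hY : (Y:ℝ) * N ≤ K * ((r : ℝ) * Q))
    (hYc : ((r : ℝ) * Q) ≤ c0 * (Y * N)) (hΔ0 : 0 ≤ Δ) (hΔN : Δ ≤ N) (hLg1 : 1 ≤ Lg) (hLN : Real.log N ≤ Lg)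
    (hLQ : 2 * Real.log Q + 1 ≤ Lg) (hLr : 2 * Real.log (r : ℝ) + 1 ≤ Lg) (hLY : 1 + Real.log Y ≤ Lg) (hLg2 : Lg ^ 2 ≤ N) :
    (1 / (Nat.totient r : ℝ)) * ((Q / 2) * (1 - N / (Rl * Q) - c0 / 2 - 4 * K * (Lg ^ 2 + (1 + 2 * Real.pi * K) * Δ) / N))
        - (4 * (K + K ^ 2) * Lg ^ 3 * (Q / N) * Rm + (11 * (1 + 2 * Real.pi * K) + 2) * N * S1 ^ 2 * D0 * Lg ^ 2 / (r : ℝ) ^ 2)
      ≤ (1 / (Nat.totient r : ℝ)) ^ 2 * (N * ∑ y ∈ CY r Y, ((1 / (N:ℝ)) * ‖DD N ((y:ℝ) / ((r : ℝ) * Q))‖) ^ 2)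
        - 2 * eP N Q x K Δ Y r s t := by
  have hpi := Real.pi_pos
  have hr0 : 0 < r := by rw [hr]; exact Nat.mul_pos hs ht
  have hH := H_lower N Q Y s t K hN hQ hY1 hs ht hst (by rw [← hr]; exact hY)
  unfold eP
  rw [← hr] at hH
  obtain ⟨V, hV⟩ : ∃ V, V = 1 + 2 * Real.pi * K := ⟨_, rfl⟩
  rw [← hV] at hH ⊢
  have hV0 : 1 ≤ V := by rw [hV]; have : 0 ≤ 2 * Real.pi * K := by positivity
                         linarith
  have hNr : (0:ℝ) < N := by exact_mod_cast hN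
  have hQr : (0:ℝ) < Q := by exact_mod_cast hQ
  have hrr : (0:ℝ) < r := by exact_mod_cast hr0
  have hYr : (1:ℝ) ≤ Y := by exact_mod_cast hY1
  have hRlr : (1:ℝ) ≤ Rl := by exact_mod_cast hRl
  obtain ⟨f, hf⟩ : ∃ f : ℝ, f = (Nat.totient r : ℝ) := ⟨_, rfl⟩
  have hf0 : 0 < f := by rw [hf]; exact_mod_cast Nat.totient_pos.mpr hr0
  have hfr : 1 / f ≤ Lg / r := by rw [hf]; exact inv_totient_le r hr0 Lg hLr
  obtain ⟨fs, hfs⟩ : ∃ fs : ℝ, fs = (Nat.totient s : ℝ) := ⟨_, rfl⟩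
  have hfs0 : 0 < fs := by rw [hfs]; exact_mod_cast Nat.totient_pos.mpr hs
  have hfsS : fs ≤ S1 := by rw [hfs]; exact_mod_cast (Nat.totient_le s).trans hS1
  obtain ⟨ft, hft⟩ : ∃ ft : ℝ, ft = (Nat.totient t : ℝ) := ⟨_, rfl⟩
  have hft0 : 0 < ft := by rw [hft]; exact_mod_cast Nat.totient_pos.mpr ht
  have hfst : f = fs * ft := by rw [hf, hfs, hft, hr, Nat.totient_mul hst]; push_cast; ring
  obtain ⟨D, hD⟩ : ∃ D : ℝ, D = (t.divisors.card : ℝ) := ⟨_, rfl⟩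
  have hD00 : 0 ≤ D := by rw [hD]; positivity
  have hDD : D ≤ D0 := by rw [hD]; exact_mod_cast hD0
  have hS10 : (0:ℝ) ≤ S1 := Nat.cast_nonneg _
  have hS11 : (1:ℝ) ≤ S1 := by
    have : 1 ≤ S1 := le_trans hs hS1
    exact_mod_cast this
  have hD01 : (0:ℝ) ≤ D0 := Nat.cast_nonneg _
  have hLr0 : 0 ≤ Real.log (r:ℝ) := Real.log_natCast_nonneg r
  have hLN0 : 0 ≤ Real.log (N:ℝ) := Real.log_natCast_nonneg N
  have hLQ0 : 0 ≤ Real.log (Q:ℝ) := Real.log_natCast_nonneg Q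
  have hE1 : E0 N Q ≤ Lg ^ 2 := by
    refine (E0_le N Q hQ).trans ?_
    rw [sq]
    exact mul_le_mul (by linarith) hLN hLN0 (by linarith)
  have hE2 : E0 N r ≤ Lg ^ 2 := by
    refine (E0_le N r hr0).trans ?_
    rw [sq]
    exact mul_le_mul (by linarith) hLN hLN0 (by linarith)
  have hE20 : 0 ≤ E0 N r := E0_nonneg N r
  have hE10 : 0 ≤ E0 N Q := E0_nonneg N Q
  have hYK : (Y:ℝ) ≤ K * r * Q / N := by
    rw [le_div_iff₀ hNr]
    calc (Y:ℝ) * N ≤ K * (r * Q) := hY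
      _ = K * r * Q := by ring
  obtain ⟨T, hT⟩ : ∃ T, T = Lg ^ 2 + V * Δ := ⟨_, rfl⟩
  rw [← hT]
  have hVΔ : 0 ≤ V * Δ := by positivity
  have hT0 : 0 ≤ T := by rw [hT]; positivity
  have hTN : T ≤ (1 + V) * N := by
    rw [hT]
    have : V * Δ ≤ V * N := mul_le_mul_of_nonneg_left hΔN (zero_le_one.trans hV0)
    calc Lg ^ 2 + V * Δ ≤ N + V * N := add_le_add hLg2 this
      _ = (1 + V) * N := by ring
  have hfsSS : fs ≤ (S1:ℝ) * S1 := hfsS.trans (le_mul_of_one_le_left hS10 hS11)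
  rw [← hf, ← hft, ← hfs, ← hD]
  rw [← hf, ← hfs, ← hD] at hH
  have hinv : (1 / f) ^ 2 ≤ Lg ^ 2 / (r:ℝ) ^ 2 := by
    calc (1 / f) ^ 2 ≤ (Lg / r) ^ 2 := pow_le_pow_left₀ (by positivity) hfr 2
      _ = _ := by rw [div_pow]
  -- e1
  have he1 : (1 / f) * (∑ y ∈ CY r Y, (E0 N Q + E0 N r + (x / (Nat.totient Q : ℝ)) * (y * (1 + Real.log y))))
      ≤ 2 * (K + K ^ 2) * Lg ^ 3 * (Q / N) * Rm := by
    have h1 : ∀ y ∈ CY r Y, E0 N Q + E0 N r + (x / (Nat.totient Q : ℝ)) * (y * (1 + Real.log y)) ≤ 2 * Lg ^ 2 + (2 * N * (Lg / Q)) * (Y * Lg) := by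
      intro y hy
      rw [mem_CY] at hy
      have hy1 : (1:ℝ) ≤ y := by exact_mod_cast hy.1.1
      have hyY : (y:ℝ) ≤ Y := by exact_mod_cast hy.1.2
      have h2 : 0 ≤ Real.log y := Real.log_nonneg hy1
      have h3 : Real.log y ≤ Real.log Y := Real.log_le_log (by linarith) hyY
      have h4 : (y:ℝ) * (1 + Real.log y) ≤ Y * Lg := mul_le_mul hyY (by linarith) (by linarith) (by linarith)
      have h5 : x / (Nat.totient Q : ℝ) ≤ 2 * N * (Lg / Q) := by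
        have := inv_totient_le Q hQ Lg hLQ
        calc x / (Nat.totient Q : ℝ) = x * (1 / (Nat.totient Q : ℝ)) := by ring
          _ ≤ (2 * N) * (Lg / Q) := mul_le_mul hxN this (by positivity) (by positivity)
      have h6 : (x / (Nat.totient Q : ℝ)) * (y * (1 + Real.log y)) ≤ (2 * N * (Lg / Q)) * (Y * Lg) :=
        mul_le_mul h5 h4 (by positivity) (by positivity)
      linarith
    have h2 : ∑ y ∈ CY r Y, (E0 N Q + E0 N r + (x / (Nat.totient Q : ℝ)) * (y * (1 + Real.log y)))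
        ≤ Y * (2 * Lg ^ 2 + (2 * N * (Lg / Q)) * (Y * Lg)) := by
      refine (sum_le_sum h1).trans ?_
      rw [sum_const, nsmul_eq_mul]
      exact mul_le_mul_of_nonneg_right (card_CY_le r Y) (by positivity)
    have hrRm : (r:ℝ) ≤ Rm := by exact_mod_cast hr2
    have h1Rm : (1:ℝ) ≤ Rm := le_trans (by exact_mod_cast hr0) hrRm
    have h3 : (Y:ℝ) * (2 * Lg ^ 2 + (2 * N * (Lg / Q)) * (Y * Lg)) ≤ (K * r * Q / N) * (2 * Lg ^ 2 + (2 * N * (Lg / Q)) * ((K * r * Q / N) * Lg)) := by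
      refine mul_le_mul hYK ?_ (by positivity) (by positivity)
      refine add_le_add le_rfl (mul_le_mul_of_nonneg_left ?_ (by positivity))
      exact mul_le_mul_of_nonneg_right hYK (by linarith)
    calc (1 / f) * (∑ y ∈ CY r Y, (E0 N Q + E0 N r + (x / (Nat.totient Q : ℝ)) * (y * (1 + Real.log y))))
        ≤ (Lg / r) * ((K * r * Q / N) * (2 * Lg ^ 2 + (2 * N * (Lg / Q)) * ((K * r * Q / N) * Lg))) := by
          refine mul_le_mul hfr (h2.trans h3) ?_ (by positivity)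
          refine sum_nonneg fun y hy => ?_
          rw [mem_CY] at hy
          have hy1 : (1:ℝ) ≤ y := by exact_mod_cast hy.1.1
          have h2 : 0 ≤ Real.log y := Real.log_nonneg hy1
          have h5 : 0 ≤ (x / (Nat.totient Q : ℝ)) * (y * (1 + Real.log y)) := by positivity
          linarith
      _ = 2 * Lg ^ 3 * (Q / N) * (K * 1 + K ^ 2 * r) := by field_simp
      _ ≤ 2 * Lg ^ 3 * (Q / N) * (K * Rm + K ^ 2 * Rm) := by
          refine mul_le_mul_of_nonneg_left ?_ (by positivity)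
          exact add_le_add (mul_le_mul_of_nonneg_left h1Rm hK0) (mul_le_mul_of_nonneg_left hrRm (by positivity))
      _ = _ := by ring
  -- e2
  have he2 : (1 / f) * ((1 / ft) * ((N + Δ) * (2 * fs * D * V))) ≤ 4 * V * N * S1 ^ 2 * D0 * Lg ^ 2 / (r:ℝ) ^ 2 := by
    have h1 : (1 / f) * ((1 / ft) * ((N + Δ) * (2 * fs * D * V))) = (1 / f) ^ 2 * ((N + Δ) * (2 * (fs * fs) * D * V)) := by
      rw [hfst]; field_simp
    rw [h1]
    have h2 : (N + Δ) * (2 * (fs * fs) * D * V) ≤ (2 * N) * (2 * (S1 * S1) * D0 * V) := by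
      refine mul_le_mul (by linarith) ?_ (by positivity) (by positivity)
      refine mul_le_mul_of_nonneg_right ?_ (by linarith)
      refine mul_le_mul ?_ hDD hD00 (by positivity)
      refine mul_le_mul_of_nonneg_left ?_ (by norm_num)
      exact mul_le_mul hfsS hfsS hfs0.le hS10
    calc (1 / f) ^ 2 * ((N + Δ) * (2 * (fs * fs) * D * V)) ≤ (Lg ^ 2 / (r:ℝ) ^ 2) * ((2 * N) * (2 * (S1 * S1) * D0 * V)) :=
          mul_le_mul hinv h2 (by positivity) (by positivity)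
      _ = _ := by ring
  -- e3
  have hcard : ((CY r Y).card : ℝ) ≤ Y * (f / r) + fs * D := by
    have h1 := count_coprime s t Y hs ht hst
    have h2 : (Finset.Icc 1 Y).filter (fun y => Nat.Coprime y (s * t)) = CY r Y := by unfold CY; rw [hr]
    rw [h2, ← hr, ← hf, ← hfs, ← hD] at h1
    have := (abs_le.mp h1).2
    linarith
  have he3 : (1 / f) ^ 2 * (((CY r Y).card : ℝ) * (E0 N r + V * Δ))
      ≤ (1 / f) * (K * Q / N * T) + (1 + V) * N * S1 ^ 2 * D0 * Lg ^ 2 / (r:ℝ) ^ 2 := by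
    have h0 : E0 N r + V * Δ ≤ T := by rw [hT]; linarith
    calc (1 / f) ^ 2 * (((CY r Y).card : ℝ) * (E0 N r + V * Δ)) ≤ (1 / f) ^ 2 * ((Y * (f / r) + fs * D) * T) := by
          refine mul_le_mul_of_nonneg_left ?_ (by positivity)
          exact mul_le_mul hcard h0 (by positivity) (by positivity)
      _ = (1 / f) * ((Y / r) * T) + (1 / f) ^ 2 * (fs * D * T) := by field_simp
      _ ≤ (1 / f) * (K * Q / N * T) + (Lg ^ 2 / (r:ℝ) ^ 2) * ((S1 * S1) * D0 * ((1 + V) * N)) := by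
          refine add_le_add ?_ ?_
          · refine mul_le_mul_of_nonneg_left (mul_le_mul_of_nonneg_right ?_ hT0) (by positivity)
            rw [div_le_iff₀ hrr]
            refine hYK.trans (le_of_eq ?_)
            ring
          · refine mul_le_mul hinv ?_ (by positivity) (by positivity)
            refine mul_le_mul ?_ hTN hT0 (by positivity)
            exact mul_le_mul hfsSS hDD hD00 (by positivity)
      _ = _ := by ring
  -- main term
  have hM : (1 / f) * ((Q / 2) * (1 - N / (Rl * Q) - c0 / 2)) - V * N * S1 ^ 2 * D0 * Lg ^ 2 / (r:ℝ) ^ 2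
      ≤ (1 / f) ^ 2 * (N * ∑ y ∈ CY r Y, ((1 / (N:ℝ)) * ‖DD N ((y:ℝ) / ((r : ℝ) * Q))‖) ^ 2) := by
    have h1 := mul_le_mul_of_nonneg_left (mul_le_mul_of_nonneg_left hH hNr.le) (by positivity : 0 ≤ (1 / f) ^ 2)
    refine le_trans ?_ h1
    have h2 : (1 / f) ^ 2 * (N * (f / r * ((1 / (N:ℝ)) ^ 2 * (((r * Q) * N - (N:ℝ) ^ 2 - (r * Q) ^ 2 / (2 * Y)) / 2)) - fs * D * V))
        = (1 / f) * ((Q / 2) * (1 - N / (r * Q) - (r * Q) / (2 * (Y * N)))) - (1 / f) ^ 2 * (N * (fs * D * V)) := by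
      field_simp
    rw [h2]
    refine sub_le_sub ?_ ?_
    · refine mul_le_mul_of_nonneg_left (mul_le_mul_of_nonneg_left ?_ (by positivity)) (by positivity)
      have h3 : (N:ℝ) / (r * Q) ≤ N / (Rl * Q) := by
        refine div_le_div_of_nonneg_left hNr.le (by positivity) ?_
        refine mul_le_mul_of_nonneg_right ?_ hQr.le
        exact_mod_cast hr1.le
      have h4 : ((r:ℝ) * Q) / (2 * (Y * N)) ≤ c0 / 2 := by
        rw [div_le_div_iff₀ (by positivity) (by norm_num)]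
        calc (r:ℝ) * Q * 2 ≤ (c0 * (Y * N)) * 2 := mul_le_mul_of_nonneg_right hYc (by norm_num)
          _ = c0 * (2 * (Y * N)) := by ring
      linarith
    · calc (1 / f) ^ 2 * (N * (fs * D * V)) ≤ (Lg ^ 2 / (r:ℝ) ^ 2) * (N * ((S1 * S1) * D0 * V)) := by
            refine mul_le_mul hinv ?_ (by positivity) (by positivity)
            refine mul_le_mul_of_nonneg_left ?_ hNr.le
            refine mul_le_mul_of_nonneg_right ?_ (by linarith)
            exact mul_le_mul hfsSS hDD hD00 (by positivity)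
        _ = _ := by ring
  have hsplit : (1 / f) * ((Q / 2) * (1 - N / (Rl * Q) - c0 / 2 - 4 * K * T / N))
      = (1 / f) * ((Q / 2) * (1 - N / (Rl * Q) - c0 / 2)) - 2 * ((1 / f) * (K * Q / N * T)) := by
    field_simp
    ring
  rw [hsplit]
  have hfin : 4 * (K + K ^ 2) * Lg ^ 3 * (Q / N) * Rm + (11 * V + 2) * N * S1 ^ 2 * D0 * Lg ^ 2 / (r:ℝ) ^ 2
      = 2 * (2 * (K + K ^ 2) * Lg ^ 3 * (Q / N) * Rm) + 2 * (4 * V * N * S1 ^ 2 * D0 * Lg ^ 2 / (r:ℝ) ^ 2)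
        + 2 * ((1 + V) * N * S1 ^ 2 * D0 * Lg ^ 2 / (r:ℝ) ^ 2) + V * N * S1 ^ 2 * D0 * Lg ^ 2 / (r:ℝ) ^ 2 := by ring
  rw [hfin]
  linarith [he1, he2, he3, hM]

end Pool.Agent.Var73
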