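import Pool.Agent.Lib_helper73.Var.Fixed2

/-! The lower bound for a fixed modulus, final form -/

set_option autoImplicit false

namespace Pool.Agent.Var73

open Finset Complex Pool.Agent.Var35 DirichletCharacter Filter
open scoped ArithmeticFunction ArithmeticFunction.Moebius ArithmeticFunction.zeta

theorem fixed (N Q Rm Rl z z0 S1 D0 : ℕ) (x K Δ Lg c0 : ℝ) (GG RR : Finset ℕ) (a m Yf : ℕ → ℕ)
    (hN : 1 ≤ N) (hQ : 1 ≤ Q) (hx : 0 ≤ x) (hxN : x ≤ 2 * N) (hK0 : 0 ≤ K) (hRl : 1 ≤ Rl)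
    (hGG : ∀ g ∈ GG, g ∣ Q ∧ Squarefree g ∧ g ≤ z)
    (hRR : ∀ r ∈ RR, Rl < r ∧ r ≤ Rm ∧ Squarefree r ∧ smp z0 r ≤ S1 ∧ (rgp z0 r).divisors.card ≤ D0)
    (ham : ∀ r ∈ RR, r * a r = 1 + Q * m r)
    (hY1 : ∀ r ∈ RR, 1 ≤ Yf r) (hY : ∀ r ∈ RR, (Yf r : ℝ) * N ≤ K * ((r:ℝ) * Q)) (hYc : ∀ r ∈ RR, ((r : ℝ) * Q) ≤ c0 * (Yf r * N))
    (hsm : 2 * K * (z:ℝ) ^ 2 * (Rm:ℝ) ^ 2 < N)
    (hΔ : ∀ j ≤ N, |∑ n ∈ Finset.Icc 1 j, Λ n - j| ≤ Δ) (hΔN : Δ ≤ N)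
    (hLg1 : 1 ≤ Lg) (hLN : Real.log N ≤ Lg) (hLQ : 2 * Real.log Q + 1 ≤ Lg) (hLr : 2 * Real.log (Rm : ℝ) + 1 ≤ Lg)
    (hLY : ∀ r ∈ RR, 1 + Real.log (Yf r) ≤ Lg) (hLg2 : Lg ^ 2 ≤ N) :
    N * (∑ g ∈ GG, 1 / (Nat.totient g : ℝ)) * ((∑ r ∈ RR, 1 / (Nat.totient r : ℝ)) *
        (1 - N / (Rl * Q) - c0 / 2 - 4 * K * (Lg ^ 2 + (1 + 2 * Real.pi * K) * Δ) / N))
      - (2 * (∑ g ∈ GG, 1 / (Nat.totient g : ℝ)) * N / Q) *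
        (4 * (K + K ^ 2) * Lg ^ 3 * (Q / N) * Rm ^ 2 + (11 * (1 + 2 * Real.pi * K) + 2) * N * S1 ^ 2 * D0 * Lg ^ 2 / Rl
          + 2 * ‖∑ r ∈ RR, E2t N Q (Yf r) r (smp z0 r) (m r)‖)
      ≤ GV N x Q := by
  have hNr : (0:ℝ) < N := by exact_mod_cast hN
  have hQr : (0:ℝ) < Q := by exact_mod_cast hQ
  have hpi := Real.pi_pos
  have hΔ0 : 0 ≤ Δ := (abs_nonneg _).trans (hΔ N le_rfl)
  obtain ⟨Gs, hGs⟩ : ∃ Gs, Gs = ∑ g ∈ GG, 1 / (Nat.totient g : ℝ) := ⟨_, rfl⟩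
  have hGs0 : 0 ≤ Gs := by rw [hGs]; exact sum_nonneg fun _ _ => by positivity
  obtain ⟨br, hbr⟩ : ∃ br, br = 1 - N / (Rl * Q) - c0 / 2 - 4 * K * (Lg ^ 2 + (1 + 2 * Real.pi * K) * Δ) / N := ⟨_, rfl⟩
  obtain ⟨V, hV⟩ : ∃ V, V = 11 * (1 + 2 * Real.pi * K) + 2 := ⟨_, rfl⟩
  have hV0 : 0 ≤ V := by rw [hV]; positivity
  -- local data
  have hloc : ∀ r ∈ RR, 0 < smp z0 r ∧ 0 < rgp z0 r ∧ Nat.Coprime (smp z0 r) (rgp z0 r) ∧ r = smp z0 r * rgp z0 r :=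
    fun r hr => ⟨smp_pos z0 r, rgp_pos z0 r, smp_coprime z0 r (hRR r hr).2.2.1, (smp_mul_rgp z0 r (hRR r hr).2.2.1).symm⟩
  have hmu : ∀ r ∈ RR, (((μ r : ℤ) : ℂ) / (Nat.totient r : ℂ)) ^ 2 = (((1 / (Nat.totient r : ℝ)) ^ 2 : ℝ) : ℂ) := by
    intro r hr
    have h1 := ArithmeticFunction.moebius_sq_eq_one_of_squarefree (hRR r hr).2.2.1
    have h2 : ((μ r : ℤ) : ℂ) ^ 2 = 1 := by exact_mod_cast h1
    rw [div_pow, h2]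
    push_cast
    rw [div_pow, one_pow]
  set Md : ℕ → ℝ := fun r => (1 / (Nat.totient r : ℝ)) ^ 2 * (N * ∑ y ∈ CY r (Yf r), ((1 / (N:ℝ)) * ‖DD N ((y:ℝ) / ((r : ℝ) * Q))‖) ^ 2) with hMd
  -- point estimates
  have hpt : ∀ r ∈ RR, ‖Tr N x Q (Yf r) r (a r) - E2t N Q (Yf r) r (smp z0 r) (m r) - (Md r : ℂ)‖ ≤ eP N Q x K Δ (Yf r) r (smp z0 r) (rgp z0 r) := by
    intro r hr
    obtain ⟨h1, h2, h3, h4⟩ := hloc r hr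
    have h5 := point N Q (Yf r) (smp z0 r) (rgp z0 r) (a r) (m r) x K Δ hN hQ h1 h2 h3 (by rw [← h4]; exact ham r hr) hx
      (by rw [← h4]; exact hY r hr) hΔ
    rw [← h4] at h5
    unfold eP
    rw [hmu r hr] at h5
    have h6 : (Md r : ℂ) = (((1 / (Nat.totient r : ℝ)) ^ 2 : ℝ) : ℂ) *
        ((((1 / (N:ℝ)) * ∑ y ∈ CY r (Yf r), ‖DD N ((y:ℝ) / ((r : ℝ) * Q))‖ ^ 2 : ℝ)) : ℂ) := by
      rw [← Complex.ofReal_mul]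
      congr 1
      simp only [hMd]
      congr 1
      rw [mul_sum, mul_sum]
      refine sum_congr rfl fun y _ => ?_
      field_simp
    rw [h6]
    exact h5
  have heP0 : ∀ r ∈ RR, 0 ≤ eP N Q x K Δ (Yf r) r (smp z0 r) (rgp z0 r) := fun r hr => (norm_nonneg _).trans (hpt r hr)
  -- real part
  obtain ⟨S, hS⟩ : ∃ S, S = ∑ r ∈ RR, eP N Q x K Δ (Yf r) r (smp z0 r) (rgp z0 r) := ⟨_, rfl⟩
  obtain ⟨E, hE⟩ : ∃ E, E = ∑ r ∈ RR, E2t N Q (Yf r) r (smp z0 r) (m r) := ⟨_, rfl⟩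
  have hMsum : (N:ℝ) * H0 N Q RR Yf = ∑ r ∈ RR, Md r := by
    unfold H0
    rw [mul_sum]
    refine sum_congr rfl fun r _ => ?_
    simp only [hMd]; ring
  have hre : (N:ℝ) * H0 N Q RR Yf - (S + ‖E‖) ≤ (∑ r ∈ RR, Tr N x Q (Yf r) r (a r)).re := by
    have h1 : ‖∑ r ∈ RR, Tr N x Q (Yf r) r (a r) - E - (((N:ℝ) * H0 N Q RR Yf : ℝ) : ℂ)‖ ≤ S := by
      rw [hMsum, hE, hS]
      push_cast
      rw [← sum_sub_distrib, ← sum_sub_distrib]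
      exact (norm_sum_le _ _).trans (sum_le_sum hpt)
    have h2 := Complex.abs_re_le_norm (∑ r ∈ RR, Tr N x Q (Yf r) r (a r) - E - (((N:ℝ) * H0 N Q RR Yf : ℝ) : ℂ))
    rw [Complex.sub_re, Complex.sub_re, Complex.ofReal_re] at h2
    have h3 := (abs_le.mp (h2.trans h1)).1
    have h4 := (abs_le.mp (Complex.abs_re_le_norm E)).1
    linarith
  have hS0 : 0 ≤ S := by rw [hS]; exact sum_nonneg heP0
  have hmain := main_dual N x Q hQ GG RR z Rm K hK0 hGG (fun r hr => ⟨(hRR r hr).2.1, (hRR r hr).2.2.1⟩) a m ham Yf hY hsm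
  rw [← hGs] at hmain
  have hF1 := lower_of_re N x Q hN hQ Gs _ (H0 N Q RR Yf) (S + ‖E‖) hGs0 (H0_nonneg N Q RR Yf) (by positivity) hre hmain
  -- lower bound for the main term
  have hper : ∀ r ∈ RR, (1 / (Nat.totient r : ℝ)) * ((Q / 2) * br)
        - (4 * (K + K ^ 2) * Lg ^ 3 * (Q / N) * Rm + V * N * S1 ^ 2 * D0 * Lg ^ 2 / (r : ℝ) ^ 2)
      ≤ Md r - 2 * eP N Q x K Δ (Yf r) r (smp z0 r) (rgp z0 r) := by
    intro r hr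
    obtain ⟨h1, h2, h3, h4⟩ := hloc r hr
    have h5 := per_r N Q Rm Rl S1 D0 (Yf r) r (smp z0 r) (rgp z0 r) x K Δ Lg c0 h4 hN hQ hx hxN hK0 h1 h2 h3 hRl (hRR r hr).1 (hRR r hr).2.1
      (hRR r hr).2.2.2.1 (hRR r hr).2.2.2.2 (hY1 r hr) (hY r hr) (hYc r hr) hΔ0 hΔN hLg1 hLN hLQ
      (by
        have : Real.log (r:ℝ) ≤ Real.log Rm := Real.log_le_log (by exact_mod_cast (by have := (hRR r hr).1; omega : 0 < r)) (by exact_mod_cast (hRR r hr).2.1)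
        linarith) (hLY r hr) hLg2
    rw [← hbr, ← hV] at h5
    exact h5
  have hRRsub : RR ⊆ Finset.Ioc Rl Rm := fun r hr => Finset.mem_Ioc.mpr ⟨(hRR r hr).1, (hRR r hr).2.1⟩
  have hcardRR : (RR.card : ℝ) ≤ Rm := by
    have := card_le_card hRRsub
    rw [Nat.card_Ioc] at this
    have h2 : RR.card ≤ Rm := by omega
    exact_mod_cast h2
  have hinvsq : ∑ r ∈ RR, 1 / (r:ℝ) ^ 2 ≤ 1 / (Rl:ℝ) := by
    rcases Nat.lt_or_ge Rm Rl with hc | hc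
    · have h0 : RR = ∅ := by
        rw [eq_empty_iff_forall_notMem]
        intro r hr
        have := hRR r hr
        omega
      rw [h0, sum_empty]; positivity
    · have h1 := sum_Ioc_inv_sq_le_sub (α := ℝ) (k := Rl) (n := Rm) (by omega) hc
      have h2 : ∑ r ∈ RR, 1 / (r:ℝ) ^ 2 ≤ ∑ r ∈ Finset.Ioc Rl Rm, ((r:ℝ) ^ 2)⁻¹ := by
        refine (sum_le_sum_of_subset_of_nonneg hRRsub fun _ _ _ => by positivity).trans (le_of_eq ?_)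
        exact sum_congr rfl fun _ _ => one_div _
      have h3 : (0:ℝ) ≤ (Rm:ℝ)⁻¹ := by positivity
      rw [one_div (Rl:ℝ)]
      linarith
  have hlow : (∑ r ∈ RR, 1 / (Nat.totient r : ℝ)) * ((Q / 2) * br)
        - (4 * (K + K ^ 2) * Lg ^ 3 * (Q / N) * Rm ^ 2 + V * N * S1 ^ 2 * D0 * Lg ^ 2 / Rl)
      ≤ (N:ℝ) * H0 N Q RR Yf - 2 * S := by
    have h1 := sum_le_sum hper
    rw [sum_sub_distrib, ← sum_mul, sum_add_distrib, sum_const, nsmul_eq_mul, sum_sub_distrib, ← mul_sum, ← hS, ← hMsum] at h1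
    refine le_trans ?_ h1
    refine sub_le_sub le_rfl (add_le_add ?_ ?_)
    · calc (RR.card : ℝ) * (4 * (K + K ^ 2) * Lg ^ 3 * (Q / N) * Rm) ≤ Rm * (4 * (K + K ^ 2) * Lg ^ 3 * (Q / N) * Rm) :=
            mul_le_mul_of_nonneg_right hcardRR (by positivity)
        _ = _ := by ring
    · have h2 : ∑ r ∈ RR, V * N * S1 ^ 2 * D0 * Lg ^ 2 / (r : ℝ) ^ 2 = (V * N * S1 ^ 2 * D0 * Lg ^ 2) * ∑ r ∈ RR, 1 / (r:ℝ) ^ 2 := by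
        rw [mul_sum]; exact sum_congr rfl fun r _ => by ring
      rw [h2]
      calc (V * N * S1 ^ 2 * D0 * Lg ^ 2) * ∑ r ∈ RR, 1 / (r:ℝ) ^ 2 ≤ (V * N * S1 ^ 2 * D0 * Lg ^ 2) * (1 / (Rl:ℝ)) :=
            mul_le_mul_of_nonneg_left hinvsq (by positivity)
        _ = _ := by ring
  refine le_trans ?_ hF1
  rw [← hGs, ← hbr, ← hV, ← hE]
  obtain ⟨SR, hSR⟩ : ∃ SR, SR = ∑ r ∈ RR, 1 / (Nat.totient r : ℝ) := ⟨_, rfl⟩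
  rw [← hSR] at hlow ⊢
  obtain ⟨EE, hEE⟩ : ∃ EE, EE = 4 * (K + K ^ 2) * Lg ^ 3 * (Q / N) * Rm ^ 2 + V * N * S1 ^ 2 * D0 * Lg ^ 2 / Rl := ⟨_, rfl⟩
  rw [← hEE] at hlow ⊢
  have h9 : N * Gs * (SR * br) - (2 * Gs * N / Q) * (EE + 2 * ‖E‖)
      = (2 * Gs * N / Q) * (SR * ((Q / 2) * br) - EE - 2 * ‖E‖) := by
    field_simp
    ring
  rw [h9]
  refine mul_le_mul_of_nonneg_left ?_ (by positivity)
  linarith

end Pool.Agent.Var73
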