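import Pool.Agent.Lib_helper73.Var.GenFinal

/-! The general final inequality -/

set_option autoImplicit false

namespace Pool.Agent.Var73

open Finset Pool.Agent.Var35 Filter
open scoped ArithmeticFunction

/-- elementary consequences of `Good` -/
structure Par (ε n L a b c η K V : ℝ) : Prop where
  ε0 : 0 < ε
  ε1 : ε ≤ 1
  n1 : 1 < n
  Ldef : L = Real.log n
  L32 : 32 ≤ L
  Lε : 32 / ε ≤ L
  a0 : 0 < a
  b0 : 0 < b
  c0 : 0 < c
  η0 : 0 < η
  bdef : b = ε / 16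
  ca : 2 * c = a
  cε : c ≤ ε / 32
  Kdef : K = 256 / ε
  Vdef : V = 1 + 2 * Real.pi * K
  K256 : 256 ≤ K
  V1 : 1 ≤ V

lemma par_of_good (ε : ℝ) (h0 : 0 < ε) (h1 : ε ≤ 1) (N : ℕ) (hG : Good ε N) :
    Par ε N (Real.log N) (aE ε) (bE ε) (cE ε) (hE1 ε) (KE ε) (VE ε) := by
  have hpi := Real.pi_pos
  have hL := hG.f1
  have h32 : (32:ℝ) ≤ 32 / ε := by rw [le_div_iff₀ h0]; linarith
  have hL32 : (32:ℝ) ≤ Real.log N := h32.trans hL
  have hε2 : ε ^ 2 ≤ ε := by nlinarith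
  refine ⟨h0, h1, ?_, rfl, hL32, hL, ?_, ?_, ?_, ?_, rfl, ?_, ?_, rfl, rfl, ?_, VE_ge ε h0⟩
  · by_contra hcon
    push Not at hcon
    have := Real.log_nonpos (Nat.cast_nonneg N) hcon
    linarith
  · unfold aE; positivity
  · unfold bE; positivity
  · unfold cE; positivity
  · unfold hE1; positivity
  · unfold cE aE; ring
  · unfold cE; linarith
  · unfold KE
    rw [le_div_iff₀ h0]; linarith

lemma gc_kappa (ε n L a b c η K V W δ : ℝ) (hP : Par ε n L a b c η K V) (hW : n ^ (1 + b) ≤ W)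
    (g6 : 64 / ε ≤ n ^ b) (g7 : (4 * K * 16 * (128 / ε)) * L ^ 2 ≤ n ^ (1:ℝ)) (hδ : δ = ε / (512 * K * V)) :
    n / W + 4 / K + 4 * K * ((4 * L) ^ 2 + (1 + 2 * Real.pi * K) * (δ * n)) / n ≤ ε / 16 := by
  have h0 := hP.ε0
  have hn1 := hP.n1
  have hn0 : 0 < n := by linarith
  have hK := hP.K256
  have hV := hP.V1
  have hKpos : 0 < K := by linarith
  have hVpos : 0 < V := by linarith
  rw [← hP.Vdef]
  rw [Real.rpow_one] at g7
  have hnb : n ^ (1 + b) = n * n ^ b := by rw [Real.rpow_add hn0, Real.rpow_one]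
  have hW0 : 0 < W := lt_of_lt_of_le (by positivity) hW
  have k1 : n / W ≤ ε / 64 := by
    rw [div_le_div_iff₀ hW0 (by norm_num)]
    have : 64 / ε * n ≤ W := by
      refine le_trans ?_ hW
      rw [hnb, mul_comm]
      exact mul_le_mul_of_nonneg_left g6 hn0.le
    rw [div_mul_eq_mul_div, div_le_iff₀ h0] at this
    linarith
  have k2 : 4 / K = ε / 64 := by
    rw [hP.Kdef]; field_simp; norm_num
  have k3 : 4 * K * ((4 * L) ^ 2 + V * (δ * n)) / n ≤ ε / 64 := by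
    rw [div_le_iff₀ hn0]
    have e1 : 4 * K * ((4 * L) ^ 2 + V * (δ * n)) = 4 * K * 16 * L ^ 2 + 4 * K * V * δ * n := by ring
    have e2 : 4 * K * V * δ = ε / 128 := by rw [hδ]; field_simp; norm_num
    have e3 : 4 * K * 16 * L ^ 2 ≤ ε / 128 * n := by
      have e4 := mul_le_mul_of_nonneg_left g7 (by positivity : 0 ≤ ε / 128)
      have e5 : ε / 128 * (4 * K * 16 * (128 / ε) * L ^ 2) = 4 * K * 16 * L ^ 2 := by field_simp
      rw [e5] at e4
      exact e4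
    rw [e1, e2]
    linarith
  rw [k2]
  linarith

lemma gc_theta (ε n L a b c η K V : ℝ) (hP : Par ε n L a b c η K V) (Q z z0 S1 t : ℕ) (hQ : 1 ≤ Q) (hQn : Real.log Q ≤ L)
    (hz2 : 2 ≤ z) (hS2 : 2 ≤ S1) (ht1 : 1 ≤ t) (ht64 : 64 / ε ≤ t)
    (hlogz : c * L - Real.log 2 ≤ Real.log z) (hlogS : η * L - Real.log 2 ≤ Real.log S1) (hlogz0 : Real.log z0 ≤ Real.log 2 + 4 * a * L)
    (g8 : (64 / ε) * (Real.log 4 * (1 + Real.log (L + 1)) + 1) ≤ c * L - Real.log 2)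
    (g9 : (32 / ε) * (Real.log 4 * (1 + Real.log 2 + 4 * a * L)) ≤ η * L - Real.log 2) :
    1 / (t:ℝ) + (∑ p ∈ Q.primeFactors, Real.log p / p) / Real.log z
        + (∑ p ∈ (Finset.Icc 1 z0).filter Nat.Prime, Real.log p / p) / Real.log S1 ≤ ε / 16 := by
  have h0 := hP.ε0
  have hL32 := hP.L32
  have hL0 : 0 < L := by linarith
  have hlog4 := log4_nonneg
  have htr : (1:ℝ) ≤ t := by exact_mod_cast ht1
  have k1 : 1 / (t:ℝ) ≤ ε / 64 := by
    rw [div_le_div_iff₀ (by linarith) (by norm_num)]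
    rw [div_le_iff₀ h0] at ht64
    linarith
  have hlz : 0 < Real.log z := Real.log_pos (by exact_mod_cast (by omega : 1 < z))
  have hlS : 0 < Real.log S1 := Real.log_pos (by exact_mod_cast (by omega : 1 < S1))
  have k2 : (∑ p ∈ Q.primeFactors, Real.log p / p) / Real.log z ≤ ε / 64 := by
    rw [div_le_iff₀ hlz]
    obtain ⟨w, hw⟩ : ∃ w, w = ⌈L⌉₊ := ⟨_, rfl⟩
    have hw1 : 1 ≤ w := by rw [hw]; exact Nat.one_le_ceil_iff.mpr hL0
    have hwr : (0:ℝ) < w := by exact_mod_cast hw1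
    have hwL : L ≤ w := by rw [hw]; exact Nat.le_ceil _
    have hwL1 : (w:ℝ) ≤ L + 1 := by rw [hw]; exact (Nat.ceil_lt_add_one hL0.le).le
    refine (mertens_dvd Q w hQ hw1).trans ?_
    have m1 : Real.log w ≤ Real.log (L + 1) := Real.log_le_log hwr hwL1
    have m2 : Real.log Q / w ≤ 1 := by rw [div_le_one hwr]; linarith
    have m3 : Real.log 4 * (1 + Real.log w) ≤ Real.log 4 * (1 + Real.log (L + 1)) := mul_le_mul_of_nonneg_left (by linarith) hlog4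
    have m4 : (64 / ε) * (Real.log 4 * (1 + Real.log (L + 1)) + 1) ≤ Real.log z := g8.trans hlogz
    have m5 := mul_le_mul_of_nonneg_left m4 (by positivity : 0 ≤ ε / 64)
    have m6 : ε / 64 * ((64 / ε) * (Real.log 4 * (1 + Real.log (L + 1)) + 1)) = Real.log 4 * (1 + Real.log (L + 1)) + 1 := by
      field_simp
    rw [m6] at m5
    linarith
  have k3 : (∑ p ∈ (Finset.Icc 1 z0).filter Nat.Prime, Real.log p / p) / Real.log S1 ≤ ε / 32 := by
    rw [div_le_iff₀ hlS]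
    refine (mertens z0).trans ?_
    have m3 : Real.log 4 * (1 + Real.log z0) ≤ Real.log 4 * (1 + Real.log 2 + 4 * a * L) := mul_le_mul_of_nonneg_left (by linarith) hlog4
    have m4 : (32 / ε) * (Real.log 4 * (1 + Real.log 2 + 4 * a * L)) ≤ Real.log S1 := g9.trans hlogS
    have m5 := mul_le_mul_of_nonneg_left m4 (by positivity : 0 ≤ ε / 32)
    have m6 : ε / 32 * ((32 / ε) * (Real.log 4 * (1 + Real.log 2 + 4 * a * L))) = Real.log 4 * (1 + Real.log 2 + 4 * a * L) := by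
      field_simp
    rw [m6] at m5
    linarith
  linarith

lemma gc_sm (ε n L a b c η K V : ℝ) (hP : Par ε n L a b c η K V) (z B : ℝ) (hz0 : 0 ≤ z) (hB0 : 0 ≤ B)
    (hz : z ≤ n ^ c) (hB : B ^ 2 ≤ n ^ (1 - 4 * a)) (g4 : 4 * K ≤ n ^ (3 * a)) : 2 * K * z ^ 2 * B ^ 2 < n := by
  have hn1 := hP.n1
  have hn0 : 0 < n := by linarith
  have hK := hP.K256
  have hca := hP.ca
  have e1 : z ^ 2 ≤ n ^ a := by
    calc z ^ 2 ≤ (n ^ c) ^ 2 := pow_le_pow_left₀ hz0 hz 2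
      _ = n ^ a := by rw [← Real.rpow_natCast, ← Real.rpow_mul hn0.le]; congr 1; push_cast; linarith
  have e2 : 2 * K * z ^ 2 * B ^ 2 ≤ 2 * K * n ^ a * n ^ (1 - 4 * a) := by gcongr
  have e3 : 2 * (2 * K * n ^ a * n ^ (1 - 4 * a)) ≤ n ^ (3 * a) * (n ^ a * n ^ (1 - 4 * a)) := by
    have := mul_le_mul_of_nonneg_right g4 (by positivity : 0 ≤ n ^ a * n ^ (1 - 4 * a))
    linarith
  have e4 : n ^ (3 * a) * (n ^ a * n ^ (1 - 4 * a)) = n := by
    rw [← Real.rpow_add hn0, ← Real.rpow_add hn0]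
    rw [show 3 * a + (a + (1 - 4 * a)) = 1 by ring, Real.rpow_one]
  linarith

/-- error terms -/
lemma gc_err (ε n L a b c η K V : ℝ) (hP : Par ε n L a b c η K V) (z B S1 Rl Q E D : ℝ) (hz0 : 0 ≤ z) (hB0 : 0 ≤ B)
    (hS0 : 0 ≤ S1) (hRl : 0 < Rl) (hQ : 0 < Q) (hE0 : 0 ≤ E) (hD : 0 ≤ D)
    (hz : z ≤ n ^ c) (hS : S1 ≤ n ^ η) (hB : B ^ 2 ≤ n ^ (1 - 4 * a)) (hW : n ^ (1 + b) ≤ Rl * Q)
    (hEQ : 12 * n ^ c * E ≤ Q)
    (g11 : (1536 * (K + K ^ 2)) * L ^ 3 ≤ n ^ (4 * a - c))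
    (g12 : (96 * (11 * V + 2) * D) * L ^ 2 ≤ n ^ (b - 2 * η - c)) :
    (2 * z * n / Q) * (4 * (K + K ^ 2) * (4 * L) ^ 3 * (Q / n) * B ^ 2 + (11 * (1 + 2 * Real.pi * K) + 2) * n * S1 ^ 2 * D * (4 * L) ^ 2 / Rl
          + 2 * E) ≤ n := by
  have hn1 := hP.n1
  have hn0 : 0 < n := by linarith
  have hK := hP.K256
  have hV := hP.V1
  have hL32 := hP.L32
  have hL0 : 0 < L := by linarith
  have hK0 : 0 < K := by linarith
  have hV0 : 0 < V := by linarith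
  rw [← hP.Vdef]
  have t1 : (2 * z * n / Q) * (4 * (K + K ^ 2) * (4 * L) ^ 3 * (Q / n) * B ^ 2) ≤ n / 3 := by
    have e1 : (2 * z * n / Q) * (4 * (K + K ^ 2) * (4 * L) ^ 3 * (Q / n) * B ^ 2) = (512 * (K + K ^ 2) * L ^ 3) * (z * B ^ 2) := by
      field_simp
      ring
    rw [e1]
    have e2 : z * B ^ 2 ≤ n ^ c * n ^ (1 - 4 * a) := mul_le_mul hz hB (by positivity) (by positivity)
    have e3 : (512 * (K + K ^ 2) * L ^ 3) ≤ n ^ (4 * a - c) / 3 := by linarith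
    calc (512 * (K + K ^ 2) * L ^ 3) * (z * B ^ 2) ≤ (n ^ (4 * a - c) / 3) * (n ^ c * n ^ (1 - 4 * a)) :=
          mul_le_mul e3 e2 (by positivity) (by positivity)
      _ = (n ^ (4 * a - c) * (n ^ c * n ^ (1 - 4 * a))) / 3 := by ring
      _ = n / 3 := by
          rw [← Real.rpow_add hn0, ← Real.rpow_add hn0]
          rw [show (4 * a - c) + (c + (1 - 4 * a)) = 1 by ring, Real.rpow_one]
  have t2 : (2 * z * n / Q) * ((11 * V + 2) * n * S1 ^ 2 * D * (4 * L) ^ 2 / Rl) ≤ n / 3 := by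
    have e1 : (2 * z * n / Q) * ((11 * V + 2) * n * S1 ^ 2 * D * (4 * L) ^ 2 / Rl)
        = ((32 * (11 * V + 2) * D) * L ^ 2) * (z * S1 ^ 2) * n ^ 2 / (Rl * Q) := by
      field_simp
      ring
    rw [e1, div_le_iff₀ (by positivity)]
    have e2 : z * S1 ^ 2 ≤ n ^ c * (n ^ η) ^ 2 := by gcongr
    have e3 : (32 * (11 * V + 2) * D) * L ^ 2 ≤ n ^ (b - 2 * η - c) / 3 := by linarith
    have e4 : (n ^ η) ^ 2 = n ^ (2 * η) := by
      rw [← Real.rpow_natCast, ← Real.rpow_mul hn0.le]; congr 1; push_cast; ring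
    have e5 : n ^ (b - 2 * η - c) * (n ^ c * (n ^ η) ^ 2) = n ^ b := by
      rw [e4, ← Real.rpow_add hn0, ← Real.rpow_add hn0]
      congr 1; ring
    calc ((32 * (11 * V + 2) * D) * L ^ 2) * (z * S1 ^ 2) * n ^ 2 ≤ (n ^ (b - 2 * η - c) / 3) * (n ^ c * (n ^ η) ^ 2) * n ^ 2 := by
          refine mul_le_mul_of_nonneg_right ?_ (by positivity)
          exact mul_le_mul e3 e2 (by positivity) (by positivity)
      _ = (n ^ (b - 2 * η - c) * (n ^ c * (n ^ η) ^ 2)) * n ^ 2 / 3 := by ring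
      _ = n ^ b * n ^ 2 / 3 := by rw [e5]
      _ = n / 3 * n ^ (1 + b) := by rw [Real.rpow_add hn0, Real.rpow_one]; ring
      _ ≤ n / 3 * (Rl * Q) := mul_le_mul_of_nonneg_left hW (by positivity)
  have t3 : (2 * z * n / Q) * (2 * E) ≤ n / 3 := by
    have e1 : (2 * z * n / Q) * (2 * E) = (4 * (z * E)) * n / Q := by ring
    rw [e1, div_le_iff₀ hQ]
    have e2 : z * E ≤ n ^ c * E := mul_le_mul_of_nonneg_right hz hE0
    have e3 : 4 * (z * E) ≤ Q / 3 := by nlinarith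
    calc 4 * (z * E) * n ≤ Q / 3 * n := mul_le_mul_of_nonneg_right e3 hn0.le
      _ = n / 3 * Q := by ring
  calc _ = (2 * z * n / Q) * (4 * (K + K ^ 2) * (4 * L) ^ 3 * (Q / n) * B ^ 2)
        + (2 * z * n / Q) * ((11 * V + 2) * n * S1 ^ 2 * D * (4 * L) ^ 2 / Rl) + (2 * z * n / Q) * (2 * E) := by ring
    _ ≤ n / 3 + n / 3 + n / 3 := by linarith
    _ = n := by ring

/-- main term -/
lemma gc_main (ε n L a b c η K V : ℝ) (hP : Par ε n L a b c η K V) (z Rl B Q t : ℝ) (hz : 1 ≤ z) (hRl : 1 ≤ Rl) (hQ : 1 ≤ Q) (ht : 1 ≤ t)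
    (hlz : Real.log z ≤ c * L) (hW : Rl * Q ≤ 4 * n ^ (1 + b)) (hlogB0 : 0 ≤ Real.log B) (hlogB : Real.log B ≤ L / 2)
    (g10 : Real.log 4 + 2 * Real.log t + 2 ≤ (ε / 32) * L) :
    n * (Real.log B + Real.log Q - (1 + ε / 2) * L)
      ≤ n * (1 - ε / 16) * (Real.log B - Real.log ((z * Rl) * t ^ 2) - 1 - (1 + Real.log B) * (ε / 16)) - n := by
  have h0 := hP.ε0
  have h1 := hP.ε1
  have hn1 := hP.n1
  have hn0 : 0 < n := by linarith
  have hLε := hP.Lε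
  have hL32 := hP.L32
  have hc := hP.cε
  have hb := hP.bdef
  rw [div_le_iff₀ h0] at hLε
  have e1 : Real.log ((z * Rl) * t ^ 2) = Real.log z + Real.log Rl + 2 * Real.log t := by
    rw [Real.log_mul (by positivity) (by positivity), Real.log_mul (by positivity) (by positivity), Real.log_pow]
    push_cast; ring
  have e2 : Real.log Rl + Real.log Q ≤ Real.log 4 + (1 + b) * L := by
    have h3 := Real.log_le_log (by positivity) hW
    rw [Real.log_mul (by positivity) (by positivity), Real.log_mul (by norm_num) (by positivity), Real.log_rpow hn0, ← hP.Ldef] at h3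
    exact h3
  have hlz0 : 0 ≤ Real.log z := Real.log_nonneg hz
  have hlR0 : 0 ≤ Real.log Rl := Real.log_nonneg hRl
  have hlt0 : 0 ≤ Real.log t := Real.log_nonneg ht
  obtain ⟨M, hM⟩ : ∃ M, M = Real.log B - Real.log ((z * Rl) * t ^ 2) - 1 - (1 + Real.log B) * (ε / 16) := ⟨_, rfl⟩
  rw [← hM]
  have hM1 : M ≤ L / 2 := by
    rw [hM, e1]
    have : 0 ≤ (1 + Real.log B) * (ε / 16) := by positivity
    linarith
  have hM2 : Real.log B + Real.log Q - (1 + ε / 2) * L + 1 ≤ M - (ε / 16) * (L / 2) := by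
    rw [hM, e1]
    have m1 : (1 + Real.log B) * (ε / 16) ≤ (1 + L / 2) * (ε / 16) := mul_le_mul_of_nonneg_right (by linarith) (by positivity)
    have m2 : c * L ≤ (ε / 32) * L := mul_le_mul_of_nonneg_right hc (by linarith)
    have m3 : (1 + b) * L = L + (ε / 16) * L := by rw [hb]; ring
    rw [m3] at e2
    nlinarith
  have hM3 : (ε / 16) * M ≤ (ε / 16) * (L / 2) := mul_le_mul_of_nonneg_left hM1 (by positivity)
  have : Real.log B + Real.log Q - (1 + ε / 2) * L ≤ (1 - ε / 16) * M - 1 := by linarith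
  calc n * (Real.log B + Real.log Q - (1 + ε / 2) * L) ≤ n * ((1 - ε / 16) * M - 1) := mul_le_mul_of_nonneg_left this hn0.le
    _ = _ := by ring

end Pool.Agent.Var73
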