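import Pool.Agent.Lib_helper73.Var.GenCore

/-! The general final inequality -/

set_option autoImplicit false

namespace Pool.Agent.Var73

open Finset Pool.Agent.Var35 Filter
open scoped ArithmeticFunction

lemma gc_z (ε n L a b c η K V : ℝ) (hP : Par ε n L a b c η K V) (e : ℝ) (z : ℕ) (hz : z = ⌊n ^ e⌋₊) (h2 : 2 ≤ n ^ e) :
    2 ≤ z ∧ (z:ℝ) ≤ n ^ e ∧ e * L - Real.log 2 ≤ Real.log z ∧ Real.log z ≤ e * L := by
  have hn1 := hP.n1
  have hn0 : 0 < n := by linarith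
  have h3 : 2 ≤ z := by rw [hz]; exact Nat.le_floor (by exact_mod_cast h2)
  have h4 : (z:ℝ) ≤ n ^ e := by rw [hz]; exact Nat.floor_le (by positivity)
  have hzge : n ^ e / 2 ≤ z := by
    have : n ^ e < (z:ℝ) + 1 := by rw [hz]; exact Nat.lt_floor_add_one _
    linarith
  refine ⟨h3, h4, ?_, ?_⟩
  · have h2 := Real.log_le_log (by positivity) hzge
    rw [Real.log_div (by positivity) (by norm_num), Real.log_rpow hn0, ← hP.Ldef] at h2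
    exact h2
  · have hzp : (0:ℝ) < z := by exact_mod_cast (by omega : 0 < z)
    have h2 := Real.log_le_log hzp h4
    rw [Real.log_rpow hn0, ← hP.Ldef] at h2
    exact h2

lemma gc_z0 (ε n L a b c η K V : ℝ) (hP : Par ε n L a b c η K V) (z0 : ℕ) (hz : z0 = ⌈n ^ (4 * a)⌉₊) :
    n ^ (4 * a) ≤ z0 ∧ Real.log z0 ≤ Real.log 2 + 4 * a * L := by
  have hn1 := hP.n1
  have hn0 : 0 < n := by linarith
  have ha := hP.a0
  have hz0ge : n ^ (4 * a) ≤ z0 := by rw [hz]; exact Nat.le_ceil _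
  have hn4a : 1 ≤ n ^ (4 * a) := Real.one_le_rpow hn1.le (by positivity)
  have hz0le : (z0:ℝ) ≤ 2 * n ^ (4 * a) := by
    have : (z0:ℝ) < n ^ (4 * a) + 1 := by rw [hz]; exact Nat.ceil_lt_add_one (by positivity)
    linarith
  have hz0pos : (0:ℝ) < z0 := by linarith
  refine ⟨hz0ge, ?_⟩
  have h2 := Real.log_le_log hz0pos hz0le
  rw [Real.log_mul (by norm_num) (by positivity), Real.log_rpow hn0, ← hP.Ldef] at h2
  exact h2

lemma gc_B (ε n L a b c η K V : ℝ) (hP : Par ε n L a b c η K V) (B J z0 : ℕ) (hB1 : 1 ≤ B)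
    (hBn : (B:ℝ) ≤ n ^ (1 / 2 - 2 * a)) (hJ : 1 / (2 * a) ≤ J) (hz0 : n ^ (4 * a) ≤ z0) :
    (B:ℝ) ≤ n ∧ 0 ≤ Real.log B ∧ Real.log B ≤ L / 2 ∧ (B:ℝ) ^ 2 ≤ n ^ (1 - 4 * a) ∧ B < z0 ^ J := by
  have hn1 := hP.n1
  have hn0 : 0 < n := by linarith
  have ha := hP.a0
  have hBr : (1:ℝ) ≤ B := by exact_mod_cast hB1
  have hBn2 : (B:ℝ) ≤ n ^ (1/2 : ℝ) := hBn.trans (Real.rpow_le_rpow_of_exponent_le hn1.le (by linarith))
  have hBn1 : (B:ℝ) ≤ n := by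
    refine hBn2.trans ?_
    calc n ^ (1/2 : ℝ) ≤ n ^ (1:ℝ) := Real.rpow_le_rpow_of_exponent_le hn1.le (by norm_num)
      _ = n := Real.rpow_one n
  refine ⟨hBn1, Real.log_nonneg hBr, ?_, ?_, ?_⟩
  · have h2 := Real.log_le_log (by linarith) hBn2
    rw [Real.log_rpow hn0, ← hP.Ldef] at h2
    linarith
  · calc (B:ℝ) ^ 2 ≤ (n ^ (1 / 2 - 2 * a)) ^ 2 := pow_le_pow_left₀ (by linarith) hBn 2
      _ = n ^ (1 - 4 * a) := by rw [← Real.rpow_natCast, ← Real.rpow_mul hn0.le]; congr 1; push_cast; ring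
  · have h2 : (B:ℝ) < (z0:ℝ) ^ J := by
      have h4 : 2 ≤ 4 * a * (J : ℝ) := by
        rw [div_le_iff₀ (by positivity)] at hJ; linarith
      calc (B:ℝ) ≤ n := hBn1
        _ = n ^ (1:ℝ) := (Real.rpow_one n).symm
        _ < n ^ (4 * a * (J : ℝ)) := Real.rpow_lt_rpow_of_exponent_lt hn1 (by linarith)
        _ = (n ^ (4 * a)) ^ J := by rw [Real.rpow_mul hn0.le, Real.rpow_natCast]
        _ ≤ (z0:ℝ) ^ J := pow_le_pow_left₀ (by positivity) hz0 _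
    exact_mod_cast h2

theorem gen_core (ε : ℝ) (h0 : 0 < ε) (h1 : ε ≤ 1) (N : ℕ) (hG : Good ε N) (x : ℝ) (hx : 0 ≤ x) (hxN : x ≤ 2 * N)
    (Q : ℕ) (hQ : 1 ≤ Q) (hQN : Q ≤ N) (q : ℝ) (Rl I B : ℕ) (E : ℝ) (hq0 : 0 ≤ q) (hqQ : q ≤ Q) (hQq : (Q:ℝ) ≤ 2 * q)
    (hRl : 1 ≤ Rl) (hB : B = 2 ^ I * Rl) (hR1 : (N:ℝ) ^ (1 + bE ε) ≤ Rl * q) (hR2 : (Rl:ℝ) * Q ≤ 4 * (N:ℝ) ^ (1 + bE ε))
    (hBn : (B:ℝ) ≤ (N:ℝ) ^ (1 / 2 - 2 * aE ε)) (hE0 : 0 ≤ E) (hEQ : 12 * (N:ℝ) ^ (cE ε) * E ≤ Q)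
    (hE : ∀ m : ℕ → ℕ, (∀ r ∈ RRs Q Rl B (z0E ε N) (S1E ε N), ∃ a, r * a = 1 + Q * m r) →
      ‖∑ r ∈ RRs Q Rl B (z0E ε N) (S1E ε N), E2t N Q (Yi (KE ε) q N Rl (ib Rl r)) r (smp (z0E ε N) r) (m r)‖ ≤ E) :
    N * (Real.log B + Real.log Q - (1 + ε / 2) * Real.log N) ≤ GV N x Q := by
  have hP := par_of_good ε h0 h1 N hG
  obtain ⟨hz2, hzle, hlogz, hlogzle⟩ := gc_z ε N _ _ _ _ _ _ _ hP (cE ε) (zE ε N) rfl hG.f5
  obtain ⟨hS2, hSle, hlogS, -⟩ := gc_z ε N _ _ _ _ _ _ _ hP (hE1 ε) (S1E ε N) rfl hG.f5'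
  obtain ⟨hz0ge, hlogz0⟩ := gc_z0 ε N _ _ _ _ _ _ _ hP (z0E ε N) rfl
  have hB1 : 1 ≤ B := by rw [hB]; exact Nat.one_le_iff_ne_zero.mpr (Nat.mul_ne_zero (by positivity) (by omega))
  obtain ⟨hBn1, hlogB0, hlogB, hBsq, hBJ⟩ := gc_B ε N _ _ _ _ _ _ _ hP B (JE ε) (z0E ε N) hB1 hBn (Nat.le_ceil _) hz0ge
  have ht1 : 1 ≤ tE ε := Nat.one_le_ceil_iff.mpr (by positivity)
  have ht64 : 64 / ε ≤ tE ε := Nat.le_ceil _
  have hn1 := hP.n1
  have hn0 : (0:ℝ) < N := by linarith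
  have hN1 : 1 ≤ N := by exact_mod_cast hn1.le
  have hQr : (1:ℝ) ≤ Q := by exact_mod_cast hQ
  have hQn : (Q:ℝ) ≤ N := by exact_mod_cast hQN
  have hRlr : (1:ℝ) ≤ Rl := by exact_mod_cast hRl
  have hBr : (1:ℝ) ≤ B := by exact_mod_cast hB1
  have hlogQ : Real.log Q ≤ Real.log N := Real.log_le_log (by linarith) hQn
  have hW : (N:ℝ) ^ (1 + bE ε) ≤ Rl * Q := hR1.trans (mul_le_mul_of_nonneg_left hqQ (by linarith))
  have hL32 := hP.L32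
  have hK := hP.K256
  have hV := hP.V1
  have hb := hP.b0
  have hKpos : 0 < KE ε := by linarith
  have hVpos : 0 < VE ε := by linarith
  have hnnb : (N:ℝ) ≤ (N:ℝ) ^ (1 + bE ε) := by
    calc (N:ℝ) = (N:ℝ) ^ (1:ℝ) := (Real.rpow_one _).symm
      _ ≤ _ := Real.rpow_le_rpow_of_exponent_le hn1.le (by linarith)
  have hKN : KE ε ≤ N := by
    have := hG.f3
    rw [Real.rpow_one] at this
    linarith
  have hlogK : Real.log (KE ε) ≤ Real.log N := Real.log_le_log hKpos hKN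
  have hLKBQ : 1 + Real.log (KE ε * (B:ℝ) * Q) ≤ 4 * Real.log N := by
    rw [Real.log_mul (by positivity) (by positivity), Real.log_mul (by positivity) (by positivity)]
    linarith
  have hδ1 : δE ε ≤ 1 := by
    unfold δE
    rw [div_le_one (by positivity)]
    have : 1 * 1 ≤ KE ε * VE ε := mul_le_mul (by linarith) hV (by norm_num) (by linarith)
    linarith
  have hκ := gc_kappa ε N _ _ _ _ _ _ _ (Rl * Q) (δE ε) hP hW hG.f6 hG.f7 rfl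
  have hθ := gc_theta ε N _ _ _ _ _ _ _ hP Q (zE ε N) (z0E ε N) (S1E ε N) (tE ε) hQ hlogQ hz2 hS2 ht1 ht64 hlogz hlogS hlogz0 hG.f8 hG.f9
  have hsm := gc_sm ε N _ _ _ _ _ _ _ hP (zE ε N) B (Nat.cast_nonneg _) (Nat.cast_nonneg _) hzle hBsq hG.f4
  have hLg2 := hG.f2
  rw [Real.rpow_one] at hLg2
  have hmain := assemble N Q Rl I B (zE ε N) (z0E ε N) (S1E ε N) (2 ^ JE ε) (tE ε) x (KE ε) q (δE ε * N) (4 * Real.log N) (ε / 16) (ε / 16) E hB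
    hN1 hQ hx hxN (by linarith) hRl hz2 hS2 ht1 hq0 hqQ hQq
    (by
      have h5 : (N:ℝ) ≤ Rl * q := hnnb.trans hR1
      have h6 : (0:ℝ) ≤ Rl * q := by positivity
      have h7 : 2 * (Rl * q) ≤ KE ε * (Rl * q) := mul_le_mul_of_nonneg_right (by linarith) h6
      linarith)
    (fun r hr => by
      unfold RRs at hr
      rw [mem_filter, Finset.mem_Ioc] at hr
      exact card_div_rgp (z0E ε N) r (JE ε) hr.2.1 (lt_of_le_of_lt hr.1.2 hBJ))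
    hsm
    (fun j hj => hG.f13 j hj)
    (by
      have := mul_le_mul_of_nonneg_right hδ1 hn0.le
      linarith)
    (by linarith) (by linarith) (by linarith) (by linarith) hLKBQ
    (by linarith) hκ (by linarith) hθ hE
  have herr := gc_err ε N _ _ _ _ _ _ _ hP (zE ε N) B (S1E ε N) Rl Q E ((2 ^ JE ε : ℕ) : ℝ) (Nat.cast_nonneg _) (Nat.cast_nonneg _)
    (Nat.cast_nonneg _) (by linarith) (by linarith) hE0 (Nat.cast_nonneg _) hzle hSle hBsq hW hEQ hG.f11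
    (by have := hG.f12; push_cast; exact this)
  have hmt := gc_main ε N _ _ _ _ _ _ _ hP (zE ε N) Rl B Q (tE ε) (by exact_mod_cast (by omega : 1 ≤ zE ε N)) hRlr hQr
    (by exact_mod_cast ht1) hlogzle hR2 hlogB0 hlogB hG.f10
  refine hmt.trans (le_trans ?_ hmain)
  rw [Nat.cast_mul]
  exact sub_le_sub le_rfl herr

end Pool.Agent.Var73
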