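import Pool.Agent.Lib_helper73.Var.Pnt

/-! Choice of parameters -/

set_option autoImplicit false

namespace Pool.Agent.Var73

open Finset Pool.Agent.Var35 Filter
open scoped ArithmeticFunction

noncomputable def aE (ε : ℝ) : ℝ := ε ^ 2 / 2 ^ 14
noncomputable def bE (ε : ℝ) : ℝ := ε / 16
noncomputable def hE1 (ε : ℝ) : ℝ := ε / 64
noncomputable def cE (ε : ℝ) : ℝ := ε ^ 2 / 2 ^ 15
noncomputable def KE (ε : ℝ) : ℝ := 256 / ε
noncomputable def VE (ε : ℝ) : ℝ := 1 + 2 * Real.pi * KE ε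
noncomputable def zE (ε : ℝ) (N : ℕ) : ℕ := ⌊(N:ℝ) ^ cE ε⌋₊
noncomputable def S1E (ε : ℝ) (N : ℕ) : ℕ := ⌊(N:ℝ) ^ hE1 ε⌋₊
noncomputable def z0E (ε : ℝ) (N : ℕ) : ℕ := ⌈(N:ℝ) ^ (4 * aE ε)⌉₊
noncomputable def JE (ε : ℝ) : ℕ := ⌈1 / (2 * aE ε)⌉₊
noncomputable def tE (ε : ℝ) : ℕ := ⌈64 / ε⌉₊
noncomputable def δE (ε : ℝ) : ℝ := ε / (512 * KE ε * VE ε)

structure Good (ε : ℝ) (N : ℕ) : Prop where
  f1 : 32 / ε ≤ Real.log N
  f2 : 16 * (Real.log N) ^ 2 ≤ (N:ℝ) ^ (1:ℝ)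
  f3 : 2 * KE ε ≤ (N:ℝ) ^ (1:ℝ)
  f4 : 4 * KE ε ≤ (N:ℝ) ^ (3 * aE ε)
  f5 : 2 ≤ (N:ℝ) ^ cE ε
  f5' : 2 ≤ (N:ℝ) ^ hE1 ε
  f6 : 64 / ε ≤ (N:ℝ) ^ bE ε
  f7 : (4 * KE ε * 16 * (128 / ε)) * (Real.log N) ^ 2 ≤ (N:ℝ) ^ (1:ℝ)
  f8 : (64 / ε) * (Real.log 4 * (1 + Real.log (Real.log N + 1)) + 1) ≤ cE ε * Real.log N - Real.log 2
  f9 : (32 / ε) * (Real.log 4 * (1 + Real.log 2 + 4 * aE ε * Real.log N)) ≤ hE1 ε * Real.log N - Real.log 2
  f10 : Real.log 4 + 2 * Real.log (tE ε) + 2 ≤ (ε / 32) * Real.log N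
  f11 : (1536 * (KE ε + (KE ε) ^ 2)) * (Real.log N) ^ 3 ≤ (N:ℝ) ^ (4 * aE ε - cE ε)
  f12 : (96 * (11 * VE ε + 2) * 2 ^ (JE ε)) * (Real.log N) ^ 2 ≤ (N:ℝ) ^ (bE ε - 2 * hE1 ε - cE ε)
  f13 : ∀ j ≤ N, |∑ n ∈ Finset.Icc 1 j, Λ n - j| ≤ δE ε * N

lemma VE_ge (ε : ℝ) (h : 0 < ε) : 1 ≤ VE ε := by
  unfold VE KE
  have := Real.pi_pos
  have : 0 ≤ 2 * Real.pi * (256 / ε) := by positivity
  linarith

lemma good_eventually (ε : ℝ) (h0 : 0 < ε) (h1 : ε ≤ 1) : ∀ᶠ N : ℕ in atTop, Good ε N := by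
  have hpi := Real.pi_pos
  have ha : 0 < aE ε := by unfold aE; positivity
  have hb : 0 < bE ε := by unfold bE; positivity
  have hc : 0 < cE ε := by unfold cE; positivity
  have hh : 0 < hE1 ε := by unfold hE1; positivity
  have hK : 0 < KE ε := by unfold KE; positivity
  have hV := VE_ge ε h0
  have hδ : 0 < δE ε := by unfold δE; positivity
  have hlog2 : 0 < Real.log 2 := Real.log_pos (by norm_num)
  have hlog4 : Real.log 4 = 2 * Real.log 2 := by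
    rw [show (4:ℝ) = 2 ^ 2 by norm_num, Real.log_pow]; norm_num
  have hl2 := Real.log_two_lt_d9
  have hc2 : cE ε = 2 * (aE ε) / 4 := by unfold cE aE; ring
  have E4 := ev_nat 0 (3 * aE ε) (4 * KE ε) (by positivity) (by positivity)
  have E3 := ev_nat 0 1 (2 * KE ε) one_pos (by positivity)
  have E5 := ev_nat 0 (cE ε) 2 hc (by norm_num)
  have E5' := ev_nat 0 (hE1 ε) 2 hh (by norm_num)
  have E6 := ev_nat 0 (bE ε) (64 / ε) hb (by positivity)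
  have E2 := ev_nat 2 1 16 one_pos (by norm_num)
  have E7 := ev_nat 2 1 (4 * KE ε * 16 * (128 / ε)) one_pos (by positivity)
  have E11 := ev_nat 3 (4 * aE ε - cE ε) (1536 * (KE ε + (KE ε) ^ 2)) (by rw [hc2]; linarith) (by positivity)
  have E12 := ev_nat 2 (bE ε - 2 * hE1 ε - cE ε) (96 * (11 * VE ε + 2) * 2 ^ (JE ε)) (by
    unfold bE hE1 cE
    have : ε ^ 2 ≤ ε := by nlinarith
    nlinarith) (by positivity)
  have E8a := ev_loglog ((64 / ε) * Real.log 4) (cE ε / 2) (by positivity) (by rw [hlog4]; positivity)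
  have E8b := ev_log_ge (((64 / ε) * (Real.log 4 + 1) + Real.log 2) / (cE ε / 2))
  have E9 := ev_log_ge (((32 / ε) * (Real.log 4 * (1 + Real.log 2)) + Real.log 2) / (ε / 256))
  have E10 := ev_log_ge ((Real.log 4 + 2 * Real.log (tE ε) + 2) / (ε / 32))
  have E1 := ev_log_ge (32 / ε)
  have E13 := pnt_unif (δE ε) hδ
  filter_upwards [E1, E2, E3, E4, E5, E5', E6, E7, E8a, E8b, E9, E10, E11, E12, E13] with N g1 g2 g3 g4 g5 g5' g6 g7 g8a g8b g9 g10 g11 g12 g13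
  rw [pow_zero, mul_one] at g3 g4 g5 g5' g6
  refine ⟨g1, g2, g3, g4, g5, g5', g6, g7, ?_, ?_, ?_, g11, g12, g13⟩
  · rw [div_le_iff₀ (by positivity)] at g8b
    have : (64 / ε) * (Real.log 4 * (1 + Real.log (Real.log N + 1)) + 1)
        = (64 / ε) * Real.log 4 * Real.log (Real.log N + 1) + (64 / ε) * (Real.log 4 + 1) := by ring
    rw [this]
    linarith
  · rw [div_le_iff₀ (by positivity)] at g9
    have hL : 0 < Real.log N := lt_of_lt_of_le (by positivity) g1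
    have e1 : (32 / ε) * (Real.log 4 * (1 + Real.log 2 + 4 * aE ε * Real.log N))
        = (32 / ε) * (Real.log 4 * (1 + Real.log 2)) + (Real.log 4 / 128 * ε) * Real.log N := by
      unfold aE; field_simp; ring
    rw [e1]
    have e2 : (Real.log 4 / 128 * ε) * Real.log N ≤ (1.4 / 128 * ε) * Real.log N := by
      refine mul_le_mul_of_nonneg_right ?_ hL.le
      refine mul_le_mul_of_nonneg_right ?_ h0.le
      rw [hlog4]; linarith
    have e3 : hE1 ε * Real.log N = (2 / 128 * ε) * Real.log N := by unfold hE1; ring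
    have e4 : (1.4 / 128 * ε) * Real.log N + Real.log N * (ε / 256) ≤ (2 / 128 * ε) * Real.log N := by nlinarith
    rw [e3]
    linarith
  · rw [div_le_iff₀ (by positivity)] at g10
    linarith

end Pool.Agent.Var73
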