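import Pool.Agent.Lib_helper73.Var.TypeI

/-! Mean value theorem over characters for primes with an additional variable -/

set_option autoImplicit false

namespace Pool.Agent.Var73

open Finset Complex Pool.Agent.Var35 DirichletCharacter
open scoped ArithmeticFunction ArithmeticFunction.Moebius ArithmeticFunction.zeta

lemma T1b_nonneg (R Y : ℕ) (Lg : ℝ) (h : 0 ≤ Lg) : 0 ≤ T1b R Y Lg := by unfold T1b; positivity

lemma Icc_eq_Ioc (y : ℕ) : Finset.Icc 1 y = Finset.Ioc 0 y := by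
  ext k; simp only [Finset.mem_Ioc, Finset.mem_Icc]; omega

/-- trivial estimate -/
lemma type0_block (B : Finset ℕ) (R z0 : ℕ) (hR : 1 ≤ R) (hz : 1 ≤ z0) (hB : ∀ r ∈ B, R < r ∧ r ≤ 2 * R)
    (Lg : ℝ) (hLg : 2 * Real.log (2 * R) + 1 ≤ Lg) (Y : ℕ) (c : ℕ → ℂ) (hc : ∀ y ∈ Finset.Ioc 0 Y, ‖c y‖ ≤ 1) :
    ∑ x ∈ Fam B z0, wt x * ‖∑ n ∈ Finset.Ioc 0 Y, c n * ev x n‖ ≤ T1b R Y Lg := by
  refine le_trans (le_of_eq ?_) (type1_block B R z0 hR hz hB Lg hLg Y 1 c hc)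
  refine sum_congr rfl fun x _ => ?_
  have h1 : Finset.Ioc 0 1 = {1} := by decide
  rw [h1, sum_singleton]
  have : ev x 1 = 1 := by unfold ev; simp
  rw [this, norm_one, mul_one]

/-- type I with a logarithm -/
lemma type1_log_block (B : Finset ℕ) (R z0 : ℕ) (hR : 1 ≤ R) (hz : 1 ≤ z0) (hB : ∀ r ∈ B, R < r ∧ r ≤ 2 * R)
    (Lg : ℝ) (hLg : 2 * Real.log (2 * R) + 1 ≤ Lg) (Y y : ℕ) (c : ℕ → ℂ) (hc : ∀ y ∈ Finset.Ioc 0 Y, ‖c y‖ ≤ 1) :
    ∑ x ∈ Fam B z0, wt x * (‖∑ n ∈ Finset.Ioc 0 Y, c n * ev x n‖ * ‖∑ k ∈ Finset.Icc 1 y, ((Real.log k : ℝ) : ℂ) * ev x k‖)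
      ≤ 2 * Real.log y * T1b R Y Lg := by
  set w : ℕ → ℝ := fun k => Real.log k with hw
  have hmono : Monotone w := by
    intro a b hab
    simp only [hw]
    rcases Nat.eq_zero_or_pos a with h | h
    · subst h; simp only [CharP.cast_eq_zero, Real.log_zero]
      exact Real.log_natCast_nonneg b
    · exact Real.log_le_log (by exact_mod_cast h) (by exact_mod_cast hab)
  have hw0 : 0 ≤ w 0 := by simp [hw]
  have h0 : w 0 = 0 := by simp [hw]
  have hwy : 0 ≤ w y := hw0.trans (hmono (Nat.zero_le y))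
  set f : Chr → ℕ → ℂ := fun x k => if k = 0 then 0 else ev x k with hf
  have hfs : ∀ x j, ∑ k ∈ range (j + 1), f x k = ∑ k ∈ Finset.Ioc 0 j, ev x k := by
    intro x j
    rw [sum_range_eq_add_Ico _ (Nat.succ_pos j)]
    have e1 : f x 0 = 0 := by simp [hf]
    have e2 : Finset.Ico 1 (j + 1) = Finset.Ioc 0 j := by ext k; simp only [Finset.mem_Ico, Finset.mem_Ioc]; omega
    rw [e1, zero_add, e2]
    refine sum_congr rfl fun k hk => ?_
    rw [Finset.mem_Ioc] at hk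
    simp only [hf]
    rw [if_neg (by omega)]
  have h1 : ∀ x, ∑ k ∈ Finset.Icc 1 y, ((Real.log k : ℝ) : ℂ) * ev x k = ∑ k ∈ range (y + 1), (w k : ℂ) * f x k := by
    intro x
    rw [sum_range_eq_add_Ico _ (Nat.succ_pos y)]
    have e1 : (w 0 : ℂ) * f x 0 = 0 := by simp [hf]
    have e2 : Finset.Ico 1 (y + 1) = Finset.Icc 1 y := by ext k; simp only [Finset.mem_Ico, Finset.mem_Icc]; omega
    rw [e1, zero_add, e2]
    refine sum_congr rfl fun k hk => ?_
    rw [Finset.mem_Icc] at hk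
    simp only [hf]
    rw [if_neg (by omega)]
  set C : Chr → ℂ := fun x => ∑ n ∈ Finset.Ioc 0 Y, c n * ev x n with hC
  set T := T1b R Y Lg with hT
  have hTj : ∀ j, ∑ x ∈ Fam B z0, wt x * (‖C x‖ * ‖∑ k ∈ range (j + 1), f x k‖) ≤ T := by
    intro j
    have := type1_block B R z0 hR hz hB Lg hLg Y j c hc
    refine le_trans (le_of_eq ?_) this
    exact sum_congr rfl fun x _ => by rw [hfs x j]
  calc ∑ x ∈ Fam B z0, wt x * (‖C x‖ * ‖∑ k ∈ Finset.Icc 1 y, ((Real.log k : ℝ) : ℂ) * ev x k‖)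
      ≤ ∑ x ∈ Fam B z0, wt x * (‖C x‖ * (w y * ‖∑ k ∈ range (y + 1), f x k‖
          + ∑ j ∈ range y, (w (j + 1) - w j) * ‖∑ k ∈ range (j + 1), f x k‖)) := by
        refine sum_le_sum fun x _ => ?_
        rw [h1 x]
        refine mul_le_mul_of_nonneg_left ?_ (wt_nonneg x)
        exact mul_le_mul_of_nonneg_left (abel_bound (f x) w hw0 hmono y) (norm_nonneg _)
    _ = w y * ∑ x ∈ Fam B z0, wt x * (‖C x‖ * ‖∑ k ∈ range (y + 1), f x k‖)
          + ∑ j ∈ range y, (w (j + 1) - w j) * ∑ x ∈ Fam B z0, wt x * (‖C x‖ * ‖∑ k ∈ range (j + 1), f x k‖) := by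
        rw [mul_sum]
        simp_rw [mul_sum]
        rw [sum_comm (s := range y), ← sum_add_distrib]
        refine sum_congr rfl fun x _ => ?_
        rw [mul_add, mul_add, mul_sum, mul_sum]
        congr 1
        · ring
        · exact sum_congr rfl fun j _ => by ring
    _ ≤ w y * T + ∑ j ∈ range y, (w (j + 1) - w j) * T := by
        refine add_le_add (mul_le_mul_of_nonneg_left (hTj y) hwy) ?_
        refine sum_le_sum fun j _ => mul_le_mul_of_nonneg_left (hTj j) ?_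
        exact sub_nonneg.mpr (hmono (Nat.le_succ j))
    _ = 2 * w y * T := by
        rw [← sum_mul, sum_range_sub, h0]; ring

/-- the mean value theorem -/
theorem mvt (B : Finset ℕ) (R z0 : ℕ) (hR : 1 ≤ R) (hz : 1 ≤ z0) (hB : ∀ r ∈ B, R < r ∧ r ≤ 2 * R ∧ Squarefree r)
    (Lg : ℝ) (hLg : 2 * Real.log (2 * R) + 1 ≤ Lg) (Y : ℕ) (hY : 1 ≤ Y) (c : ℕ → ℂ) (hc : ∀ y ∈ Finset.Ioc 0 Y, ‖c y‖ ≤ 1)
    (U u N : ℕ) (hU : 1 ≤ U) (hu : u ≤ N) (hN : 1 ≤ N) (hl : 1 + Real.log (2 * Y * N) ≤ Lg) :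
    ∑ x ∈ Fam B z0, wt x * (‖∑ y ∈ Finset.Ioc 0 Y, c y * ev x y‖ * ‖∑ n ∈ Finset.Icc 1 u, ((Λ n : ℝ) : ℂ) * ev x n‖)
      ≤ 2816 * Lg ^ 9 * (U * T1b R Y Lg + E2b R z0 Y N U) := by
  have hlN : 0 ≤ Real.log N := Real.log_natCast_nonneg N
  have hRr : (1:ℝ) ≤ R := by exact_mod_cast hR
  have hNr : (1:ℝ) ≤ N := by exact_mod_cast hN
  have hYr : (1:ℝ) ≤ Y := by exact_mod_cast hY
  have hlog0 : 0 ≤ Real.log (2 * R) := Real.log_nonneg (by linarith)
  have hLg1 : 1 ≤ Lg := by linarith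
  have hLNL : Real.log N ≤ Lg - 1 := by
    have : Real.log N ≤ Real.log (2 * Y * N) := Real.log_le_log (by linarith) (by nlinarith)
    linarith
  have hB' : ∀ r ∈ B, R < r ∧ r ≤ 2 * R := fun r hr => ⟨(hB r hr).1, (hB r hr).2.1⟩
  set LN := 2 + Real.log N with hLN
  have hLN0 : 0 ≤ LN := by linarith
  have hLN2 : LN ≤ 2 * Lg := by linarith
  set T := T1b R Y Lg with hT
  have hT0 : 0 ≤ T := T1b_nonneg R Y Lg (by linarith)
  set E := E2b R z0 Y N U with hE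
  have hE0 : 0 ≤ E := E2b_nonneg R z0 Y N U
  set C : Chr → ℂ := fun x => ∑ y ∈ Finset.Ioc 0 Y, c y * ev x y with hC
  have hcard : (((Finset.Icc 1 u).filter (fun n => n ≤ U)).card : ℝ) ≤ U := by
    have h7 : (Finset.Icc 1 u).filter (fun n => n ≤ U) ⊆ Finset.Icc 1 U := by
      intro n hn; rw [mem_filter, Finset.mem_Icc] at hn; rw [Finset.mem_Icc]; omega
    have := card_le_card h7
    rw [Nat.card_Icc, Nat.add_sub_cancel] at this
    exact_mod_cast this
  -- decomposition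
  have hdec : ∀ x, ∑ n ∈ Finset.Icc 1 u, ((Λ n : ℝ) : ℂ) * ev x n
      = ∑ n ∈ Finset.Icc 1 u, ((Ll U n : ℝ) : ℂ) * ev x n
        + ∑ m ∈ Finset.Icc 1 u, ∑ k ∈ Finset.Icc 1 (u / m), ((Ml U m : ℝ) : ℂ) * ((Real.log k : ℝ) : ℂ) * ev x (m * k)
        - ∑ m ∈ Finset.Icc 1 u, ∑ k ∈ Finset.Icc 1 (u / m), (((Ml U * Ll U) m : ℝ) : ℂ) * ((1 : ℝ) : ℂ) * ev x (m * k)
        + ∑ m ∈ Finset.Icc 1 u, ∑ k ∈ Finset.Icc 1 (u / m),
          ((((μ : ArithmeticFunction ℝ) - Ml U) m : ℝ) : ℂ) * ((((Λ - Ll U) * (ζ : ArithmeticFunction ℝ)) k : ℝ) : ℂ) * ev x (m * k) := by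
    intro x
    have h1 : ∑ n ∈ Finset.Icc 1 u, ((Λ n : ℝ) : ℂ) * ev x n
        = ∑ n ∈ Finset.Icc 1 u, ((Ll U n : ℝ) : ℂ) * ev x n
          + ∑ n ∈ Finset.Icc 1 u, (((Ml U * ArithmeticFunction.log) n : ℝ) : ℂ) * ev x n
          - ∑ n ∈ Finset.Icc 1 u, ((((Ml U * Ll U) * (ζ : ArithmeticFunction ℝ)) n : ℝ) : ℂ) * ev x n
          + ∑ n ∈ Finset.Icc 1 u, (((((μ : ArithmeticFunction ℝ) - Ml U) * ((Λ - Ll U) * (ζ : ArithmeticFunction ℝ))) n : ℝ) : ℂ) * ev x n := by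
      rw [← sum_add_distrib, ← sum_sub_distrib, ← sum_add_distrib]
      refine sum_congr rfl fun n _ => ?_
      have h2 := congrArg (fun F : ArithmeticFunction ℝ => F n) (vaughan U)
      have hsub : ∀ (F G : ArithmeticFunction ℝ) (n : ℕ), (F - G) n = F n - G n := fun _ _ _ => rfl
      simp only [ArithmeticFunction.add_apply] at h2
      rw [hsub (Ll U + Ml U * ArithmeticFunction.log) (Ml U * Ll U * (ζ : ArithmeticFunction ℝ)),
        ArithmeticFunction.add_apply] at h2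
      rw [h2]
      push_cast
      ring
    rw [h1, conv_sum, conv_sum, conv_sum]
    have h3 : ∑ m ∈ Finset.Icc 1 u, ∑ k ∈ Finset.Icc 1 (u / m),
          (((Ml U * Ll U) m : ℝ) : ℂ) * ((((ζ : ArithmeticFunction ℝ)) k : ℝ) : ℂ) * ev x (m * k)
        = ∑ m ∈ Finset.Icc 1 u, ∑ k ∈ Finset.Icc 1 (u / m),
          (((Ml U * Ll U) m : ℝ) : ℂ) * ((1 : ℝ) : ℂ) * ev x (m * k) := by
      refine sum_congr rfl fun m _ => sum_congr rfl fun k hk => ?_
      rw [Finset.mem_Icc] at hk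
      have : ((ζ : ArithmeticFunction ℝ)) k = 1 := by
        rw [ArithmeticFunction.natCoe_apply, ArithmeticFunction.zeta_apply, if_neg (by omega)]
        simp
      rw [this]
    rw [h3]
    rfl
  -- S1
  have hS1 : ∑ x ∈ Fam B z0, wt x * (‖C x‖ * ‖∑ n ∈ Finset.Icc 1 u, ((Ll U n : ℝ) : ℂ) * ev x n‖) ≤ U * Lg * T := by
    have h1 : ∀ x ∈ Fam B z0, wt x * (‖C x‖ * ‖∑ n ∈ Finset.Icc 1 u, ((Ll U n : ℝ) : ℂ) * ev x n‖)
        ≤ (U * Lg) * (wt x * ‖C x‖) := by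
      intro x _
      have h2 : ∑ n ∈ Finset.Icc 1 u, ((Ll U n : ℝ) : ℂ) * ev x n
          = ∑ n ∈ (Finset.Icc 1 u).filter (fun n => n ≤ U), ((Ll U n : ℝ) : ℂ) * ev x n := by
        rw [sum_filter]
        refine sum_congr rfl fun n _ => ?_
        split_ifs with h
        · rfl
        · rw [Ll_apply, if_neg h]; simp
      have h3 : ‖∑ n ∈ Finset.Icc 1 u, ((Ll U n : ℝ) : ℂ) * ev x n‖ ≤ U * Lg := by
        rw [h2]
        refine (norm_sum_le _ _).trans ?_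
        calc ∑ n ∈ (Finset.Icc 1 u).filter (fun n => n ≤ U), ‖((Ll U n : ℝ) : ℂ) * ev x n‖
            ≤ ∑ n ∈ (Finset.Icc 1 u).filter (fun n => n ≤ U), Lg := by
              refine sum_le_sum fun n hn => ?_
              rw [mem_filter, Finset.mem_Icc] at hn
              rw [norm_mul, Complex.norm_real, Real.norm_eq_abs, Ll_apply, if_pos hn.2,
                abs_of_nonneg ArithmeticFunction.vonMangoldt_nonneg]
              have h3 : Λ n ≤ Real.log n := ArithmeticFunction.vonMangoldt_le_log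
              have h4 : Real.log n ≤ Real.log N :=
                Real.log_le_log (by exact_mod_cast hn.1.1) (by exact_mod_cast hn.1.2.trans hu)
              have h5 := norm_ev_le x n
              have h6 : (0:ℝ) ≤ Λ n := ArithmeticFunction.vonMangoldt_nonneg
              nlinarith [norm_nonneg (ev x n)]
          _ = (((Finset.Icc 1 u).filter (fun n => n ≤ U)).card : ℝ) * Lg := by rw [sum_const, nsmul_eq_mul]
          _ ≤ U * Lg := mul_le_mul_of_nonneg_right hcard (by linarith)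
      calc wt x * (‖C x‖ * ‖∑ n ∈ Finset.Icc 1 u, ((Ll U n : ℝ) : ℂ) * ev x n‖)
          ≤ wt x * (‖C x‖ * (U * Lg)) :=
            mul_le_mul_of_nonneg_left (mul_le_mul_of_nonneg_left h3 (norm_nonneg _)) (wt_nonneg x)
        _ = _ := by ring
    refine (sum_le_sum h1).trans ?_
    rw [← mul_sum]
    exact mul_le_mul_of_nonneg_left (type0_block B R z0 hR hz hB' Lg hLg Y c hc) (by positivity)
  -- S2
  have hS2 : ∑ x ∈ Fam B z0, wt x * (‖C x‖ * ‖∑ m ∈ Finset.Icc 1 u, ∑ k ∈ Finset.Icc 1 (u / m),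
      ((Ml U m : ℝ) : ℂ) * ((Real.log k : ℝ) : ℂ) * ev x (m * k)‖) ≤ U * (2 * Lg * T) := by
    have h1 : ∀ x ∈ Fam B z0, wt x * (‖C x‖ * ‖∑ m ∈ Finset.Icc 1 u, ∑ k ∈ Finset.Icc 1 (u / m),
        ((Ml U m : ℝ) : ℂ) * ((Real.log k : ℝ) : ℂ) * ev x (m * k)‖)
        ≤ ∑ m ∈ (Finset.Icc 1 u).filter (fun n => n ≤ U), wt x * (‖C x‖ * ‖∑ k ∈ Finset.Icc 1 (u / m), ((Real.log k : ℝ) : ℂ) * ev x k‖) := by
      intro x _
      have h2 : ∑ m ∈ Finset.Icc 1 u, ∑ k ∈ Finset.Icc 1 (u / m), ((Ml U m : ℝ) : ℂ) * ((Real.log k : ℝ) : ℂ) * ev x (m * k)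
          = ∑ m ∈ (Finset.Icc 1 u).filter (fun n => n ≤ U), (((Ml U m : ℝ) : ℂ) * ev x m) * ∑ k ∈ Finset.Icc 1 (u / m), ((Real.log k : ℝ) : ℂ) * ev x k := by
        rw [sum_filter]
        refine sum_congr rfl fun m _ => ?_
        split_ifs with h
        · rw [mul_sum]; refine sum_congr rfl fun k _ => by rw [ev_mul]; ring
        · rw [Ml_apply, if_neg h]; simp
      rw [h2, ← mul_sum, ← mul_sum]
      refine mul_le_mul_of_nonneg_left ?_ (wt_nonneg x)
      refine mul_le_mul_of_nonneg_left ?_ (norm_nonneg _)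
      refine (norm_sum_le _ _).trans (sum_le_sum fun m _ => ?_)
      rw [norm_mul, norm_mul, Complex.norm_real, Real.norm_eq_abs]
      have h3 := abs_Ml_le U m
      have h4 := norm_ev_le x m
      have h5 : |Ml U m| * ‖ev x m‖ ≤ 1 := by
        calc |Ml U m| * ‖ev x m‖ ≤ 1 * 1 := mul_le_mul h3 h4 (norm_nonneg _) zero_le_one
          _ = 1 := one_mul 1
      calc |Ml U m| * ‖ev x m‖ * ‖∑ k ∈ Finset.Icc 1 (u / m), ((Real.log k : ℝ) : ℂ) * ev x k‖
          ≤ 1 * ‖∑ k ∈ Finset.Icc 1 (u / m), ((Real.log k : ℝ) : ℂ) * ev x k‖ := mul_le_mul_of_nonneg_right h5 (norm_nonneg _)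
        _ = _ := one_mul _
    refine (sum_le_sum h1).trans ?_
    rw [sum_comm]
    have h3 : ∀ m ∈ (Finset.Icc 1 u).filter (fun n => n ≤ U),
        ∑ x ∈ Fam B z0, wt x * (‖C x‖ * ‖∑ k ∈ Finset.Icc 1 (u / m), ((Real.log k : ℝ) : ℂ) * ev x k‖) ≤ 2 * Lg * T := by
      intro m hm
      rw [mem_filter, Finset.mem_Icc] at hm
      refine (type1_log_block B R z0 hR hz hB' Lg hLg Y (u / m) c hc).trans ?_
      refine mul_le_mul_of_nonneg_right ?_ hT0
      have h4 : 1 ≤ u / m := by rw [Nat.one_le_div_iff (by omega)]; exact hm.1.2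
      have h5 : Real.log (u / m : ℕ) ≤ Real.log N :=
        Real.log_le_log (by exact_mod_cast h4) (by exact_mod_cast (Nat.div_le_self u m).trans hu)
      linarith
    refine (sum_le_sum h3).trans ?_
    rw [sum_const, nsmul_eq_mul]
    exact mul_le_mul_of_nonneg_right hcard (by positivity)
  -- S3
  have hS3 : ∑ x ∈ Fam B z0, wt x * (‖C x‖ * ‖∑ m ∈ Finset.Icc 1 u, ∑ k ∈ Finset.Icc 1 (u / m),
      (((Ml U * Ll U) m : ℝ) : ℂ) * ((1 : ℝ) : ℂ) * ev x (m * k)‖)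
      ≤ U * (Lg * T) + 176 * Lg ^ 6 * LN ^ 2 * LN * 1 * E := by
    set lam2 : ℕ → ℝ := fun m => if m ≤ U then 0 else (Ml U * Ll U) m with hlam2
    have h1 : ∀ x ∈ Fam B z0, wt x * (‖C x‖ * ‖∑ m ∈ Finset.Icc 1 u, ∑ k ∈ Finset.Icc 1 (u / m),
        (((Ml U * Ll U) m : ℝ) : ℂ) * ((1 : ℝ) : ℂ) * ev x (m * k)‖)
        ≤ (∑ m ∈ (Finset.Icc 1 u).filter (fun n => n ≤ U), Lg * (wt x * (‖C x‖ * ‖∑ k ∈ Finset.Ioc 0 (u / m), ev x k‖)))
          + wt x * (‖C x‖ * ‖∑ m ∈ Finset.Icc 1 u, ∑ k ∈ Finset.Icc 1 (u / m), (lam2 m : ℂ) * (((fun _ => 1 : ℕ → ℝ) k : ℝ) : ℂ) * ev x (m * k)‖) := by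
      intro x _
      have h2 : ∑ m ∈ Finset.Icc 1 u, ∑ k ∈ Finset.Icc 1 (u / m),
          (((Ml U * Ll U) m : ℝ) : ℂ) * ((1 : ℝ) : ℂ) * ev x (m * k)
          = ∑ m ∈ (Finset.Icc 1 u).filter (fun n => n ≤ U), ((((Ml U * Ll U) m : ℝ) : ℂ) * ev x m) * ∑ k ∈ Finset.Ioc 0 (u / m), ev x k
          + ∑ m ∈ Finset.Icc 1 u, ∑ k ∈ Finset.Icc 1 (u / m), (lam2 m : ℂ) * (((fun _ => 1 : ℕ → ℝ) k : ℝ) : ℂ) * ev x (m * k) := by
        rw [sum_filter, ← sum_add_distrib]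
        refine sum_congr rfl fun m _ => ?_
        simp only [hlam2]
        split_ifs with h
        · simp only [Complex.ofReal_zero, zero_mul, sum_const_zero, add_zero]
          rw [mul_sum, Icc_eq_Ioc]; refine sum_congr rfl fun k _ => by rw [ev_mul]; push_cast; ring
        · rw [zero_add]
      rw [h2]
      have h3 : ‖∑ m ∈ (Finset.Icc 1 u).filter (fun n => n ≤ U), ((((Ml U * Ll U) m : ℝ) : ℂ) * ev x m) * ∑ k ∈ Finset.Ioc 0 (u / m), ev x k‖
          ≤ ∑ m ∈ (Finset.Icc 1 u).filter (fun n => n ≤ U), Lg * ‖∑ k ∈ Finset.Ioc 0 (u / m), ev x k‖ := by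
        refine (norm_sum_le _ _).trans (sum_le_sum fun m hm => ?_)
        rw [mem_filter, Finset.mem_Icc] at hm
        rw [norm_mul, norm_mul, Complex.norm_real, Real.norm_eq_abs]
        refine mul_le_mul_of_nonneg_right ?_ (norm_nonneg _)
        have h3 := lam_le U m
        have h4 : Real.log m ≤ Real.log N :=
          Real.log_le_log (by exact_mod_cast hm.1.1) (by exact_mod_cast hm.1.2.trans hu)
        have h5 := norm_ev_le x m
        calc |(Ml U * Ll U) m| * ‖ev x m‖ ≤ Lg * 1 := mul_le_mul (by linarith) h5 (norm_nonneg _) (by linarith)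
          _ = Lg := mul_one _
      calc wt x * (‖C x‖ * ‖∑ m ∈ (Finset.Icc 1 u).filter (fun n => n ≤ U), ((((Ml U * Ll U) m : ℝ) : ℂ) * ev x m) * ∑ k ∈ Finset.Ioc 0 (u / m), ev x k
              + ∑ m ∈ Finset.Icc 1 u, ∑ k ∈ Finset.Icc 1 (u / m), (lam2 m : ℂ) * (((fun _ => 1 : ℕ → ℝ) k : ℝ) : ℂ) * ev x (m * k)‖)
          ≤ wt x * (‖C x‖ * (∑ m ∈ (Finset.Icc 1 u).filter (fun n => n ≤ U), Lg * ‖∑ k ∈ Finset.Ioc 0 (u / m), ev x k‖
              + ‖∑ m ∈ Finset.Icc 1 u, ∑ k ∈ Finset.Icc 1 (u / m), (lam2 m : ℂ) * (((fun _ => 1 : ℕ → ℝ) k : ℝ) : ℂ) * ev x (m * k)‖)) := by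
            refine mul_le_mul_of_nonneg_left ?_ (wt_nonneg x)
            refine mul_le_mul_of_nonneg_left ?_ (norm_nonneg _)
            exact (norm_add_le _ _).trans (add_le_add h3 le_rfl)
        _ = _ := by
            rw [mul_add, mul_add, mul_sum, mul_sum]
            congr 1
            exact sum_congr rfl fun m _ => by ring
    refine (sum_le_sum h1).trans ?_
    rw [sum_add_distrib]
    refine add_le_add ?_ ?_
    · rw [sum_comm]
      have h3 : ∀ m ∈ (Finset.Icc 1 u).filter (fun n => n ≤ U),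
          ∑ x ∈ Fam B z0, Lg * (wt x * (‖C x‖ * ‖∑ k ∈ Finset.Ioc 0 (u / m), ev x k‖)) ≤ Lg * T := by
        intro m _
        rw [← mul_sum]
        exact mul_le_mul_of_nonneg_left (type1_block B R z0 hR hz hB' Lg hLg Y (u / m) c hc) (by linarith)
      refine (sum_le_sum h3).trans ?_
      rw [sum_const, nsmul_eq_mul]
      exact mul_le_mul_of_nonneg_right hcard (by positivity)
    · refine type2y B R z0 hR hz hB Lg hLg Y hY c hc U u N hU hu hN hl lam2 (fun _ => 1) LN 1 hLN0 zero_le_one ?_ ?_ ?_ ?_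
      · intro m hm; simp only [hlam2]; rw [if_pos hm]
      · intro m hm
        simp only [hlam2]
        split_ifs with h
        · simp; linarith
        · refine (lam_le U m).trans ?_
          have hm1 : 0 < m := by omega
          calc Real.log m ≤ Real.log (2 * N) := Real.log_le_log (by exact_mod_cast hm1) (by exact_mod_cast hm)
            _ = Real.log 2 + Real.log N := Real.log_mul (by norm_num) (by positivity)
            _ ≤ LN := by
                have := Real.log_two_lt_d9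
                linarith
      · intro k _ _; simp
      · intro M hUM hMN hc1 _
        right
        obtain ⟨m, hm1, hm2, hm3⟩ := hc1
        have hMU : M ≤ U * U := by
          by_contra h
          push Not at h
          apply hm3
          simp only [hlam2]
          split_ifs with h'
          · rfl
          · exact lam_zero U m (by omega)
        rw [Real.sqrt_le_left (by positivity)]
        rw [sq]; exact_mod_cast hMU
  -- S4
  have hS4 : ∑ x ∈ Fam B z0, wt x * (‖C x‖ * ‖∑ m ∈ Finset.Icc 1 u, ∑ k ∈ Finset.Icc 1 (u / m),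
      ((((μ : ArithmeticFunction ℝ) - Ml U) m : ℝ) : ℂ) * ((((Λ - Ll U) * (ζ : ArithmeticFunction ℝ)) k : ℝ) : ℂ) * ev x (m * k)‖)
      ≤ 176 * Lg ^ 6 * LN ^ 2 * 1 * LN * E := by
    refine type2y B R z0 hR hz hB Lg hLg Y hY c hc U u N hU hu hN hl (fun m => ((μ : ArithmeticFunction ℝ) - Ml U) m)
      (fun k => ((Λ - Ll U) * (ζ : ArithmeticFunction ℝ)) k) 1 LN zero_le_one hLN0 ?_ ?_ ?_ ?_
    · intro m hm; exact mu_sub_Ml_zero U m hm
    · intro m _; exact abs_mu_sub_Ml_le U m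
    · intro k hk1 hk2
      refine (beta_le U k).trans ?_
      have : Real.log k ≤ Real.log N := Real.log_le_log (by exact_mod_cast hk1) (by exact_mod_cast hk2)
      linarith
    · intro M hUM hMN _ hc2
      left
      obtain ⟨k, hk1, hk2, hk3⟩ := hc2
      have hkU : U < k := by
        by_contra h
        push Not at h
        exact hk3 (beta_zero U k h)
      have hUr : (1:ℝ) ≤ U := by exact_mod_cast hU
      rw [← Real.sqrt_div (by positivity)]
      refine Real.sqrt_le_sqrt ?_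
      rw [le_div_iff₀ (by linarith)]
      have h7 : M * (u / M) ≤ u := Nat.mul_div_le u M
      have h8 : M * U ≤ M * (u / M) := Nat.mul_le_mul_left M (hkU.le.trans hk2)
      have h9 : M * U ≤ N := (h8.trans h7).trans hu
      exact_mod_cast h9
  -- assembly
  have hsum : ∑ x ∈ Fam B z0, wt x * (‖C x‖ * ‖∑ n ∈ Finset.Icc 1 u, ((Λ n : ℝ) : ℂ) * ev x n‖)
      ≤ U * Lg * T + U * (2 * Lg * T) + (U * (Lg * T) + 176 * Lg ^ 6 * LN ^ 2 * LN * 1 * E) + 176 * Lg ^ 6 * LN ^ 2 * 1 * LN * E := by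
    refine le_trans ?_ (add_le_add (add_le_add (add_le_add hS1 hS2) hS3) hS4)
    rw [← sum_add_distrib, ← sum_add_distrib, ← sum_add_distrib]
    refine sum_le_sum fun x _ => ?_
    rw [hdec x, ← mul_add, ← mul_add, ← mul_add, ← mul_add, ← mul_add, ← mul_add]
    refine mul_le_mul_of_nonneg_left ?_ (wt_nonneg x)
    refine mul_le_mul_of_nonneg_left ?_ (norm_nonneg _)
    refine (norm_add_le _ _).trans (add_le_add ?_ le_rfl)
    refine (norm_sub_le _ _).trans (add_le_add ?_ le_rfl)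
    exact norm_add_le _ _
  refine hsum.trans ?_
  have hLN3 : LN ^ 3 ≤ 8 * Lg ^ 3 := by
    calc LN ^ 3 ≤ (2 * Lg) ^ 3 := pow_le_pow_left₀ hLN0 hLN2 3
      _ = _ := by ring
  have e1 : 176 * Lg ^ 6 * LN ^ 2 * LN * 1 * E ≤ 1408 * Lg ^ 9 * E := by
    have : 176 * Lg ^ 6 * LN ^ 2 * LN * 1 * E = 176 * Lg ^ 6 * LN ^ 3 * E := by ring
    rw [this]
    calc 176 * Lg ^ 6 * LN ^ 3 * E ≤ 176 * Lg ^ 6 * (8 * Lg ^ 3) * E :=
          mul_le_mul_of_nonneg_right (mul_le_mul_of_nonneg_left hLN3 (by positivity)) hE0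
      _ = _ := by ring
  have e2 : 176 * Lg ^ 6 * LN ^ 2 * 1 * LN * E ≤ 1408 * Lg ^ 9 * E := by
    refine le_trans (le_of_eq ?_) e1
    ring
  have hLg9 : Lg ≤ Lg ^ 9 := by
    have : Lg ^ 1 ≤ Lg ^ 9 := pow_le_pow_right₀ hLg1 (by norm_num)
    simpa using this
  have e3 : U * Lg * T ≤ Lg ^ 9 * (U * T) := by
    have : U * Lg * T = Lg * (U * T) := by ring
    rw [this]
    exact mul_le_mul_of_nonneg_right hLg9 (by positivity)
  have e4 : 0 ≤ Lg ^ 9 * (U * T) := by positivity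
  nlinarith [e1, e2, e3, e4]

end Pool.Agent.Var73
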