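import Pool.Agent.Lib_helper73.Var.Mod

/-! Lower bound for the sum over admissible moduli -/

set_option autoImplicit false

namespace Pool.Agent.Var73

open Finset Complex Pool.Agent.Var35 DirichletCharacter Filter
open scoped ArithmeticFunction ArithmeticFunction.Moebius ArithmeticFunction.zeta

lemma sum_inv_dvd (p B : ℕ) (hp : 1 ≤ p) : ∑ k ∈ (Finset.Icc 1 B).filter (fun k => p ∣ k), 1 / (k:ℝ) ≤ (1 / p) * (1 + Real.log B) := by
  have hpr : (0:ℝ) < p := by exact_mod_cast hp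
  rcases Nat.eq_zero_or_pos B with h0 | h0
  · subst h0; simp; 
  have hset : (Finset.Icc 1 B).filter (fun k => p ∣ k) = (Finset.Icc 1 (B / p)).image (fun j => p * j) := by
    ext k
    rw [mem_filter, Finset.mem_Icc, mem_image]
    constructor
    · rintro ⟨⟨h1, h2⟩, j, rfl⟩
      refine ⟨j, ?_, rfl⟩
      rw [Finset.mem_Icc]
      refine ⟨Nat.pos_of_ne_zero (fun h => by rw [h, mul_zero] at h1; omega), ?_⟩
      rw [Nat.le_div_iff_mul_le hp, mul_comm]; exact h2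
    · rintro ⟨j, hj, rfl⟩
      rw [Finset.mem_Icc, Nat.le_div_iff_mul_le hp, mul_comm] at hj
      exact ⟨⟨Nat.mul_pos hp hj.1, hj.2⟩, Dvd.intro j rfl⟩
  rw [hset, sum_image (fun a _ b _ h => Nat.eq_of_mul_eq_mul_left hp h)]
  have h1 : ∑ j ∈ Finset.Icc 1 (B / p), 1 / ((p * j : ℕ) : ℝ) = (1 / p) * ∑ j ∈ Finset.Icc 1 (B / p), 1 / (j:ℝ) := by
    rw [mul_sum]
    refine sum_congr rfl fun j _ => ?_
    push_cast
    rw [one_div_mul_one_div]
  rw [h1]
  refine mul_le_mul_of_nonneg_left ?_ (by positivity)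
  refine le_trans ?_ (sum_inv_le B)
  exact sum_le_sum_of_subset_of_nonneg (Finset.Icc_subset_Icc_right (Nat.div_le_self B p)) fun _ _ _ => by positivity

/-- the weight -/
noncomputable def hP (P : Finset ℕ) (k : ℕ) : ℝ := ∑ p ∈ P.filter (fun p => p ∣ k), Real.log p

lemma hP_nonneg (P : Finset ℕ) (k : ℕ) : 0 ≤ hP P k := sum_nonneg fun p _ => Real.log_natCast_nonneg p

lemma dvd_weight (P : Finset ℕ) (hPp : ∀ p ∈ P, p.Prime) (B : ℕ) :
    ∑ k ∈ Finset.Icc 1 B, (1 / (k:ℝ)) * hP P k ≤ (1 + Real.log B) * ∑ p ∈ P, Real.log p / p := by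
  have h1 : ∑ k ∈ Finset.Icc 1 B, (1 / (k:ℝ)) * hP P k = ∑ p ∈ P, Real.log p * ∑ k ∈ (Finset.Icc 1 B).filter (fun k => p ∣ k), 1 / (k:ℝ) := by
    unfold hP
    simp_rw [mul_sum, sum_filter]
    rw [sum_comm]
    refine sum_congr rfl fun p _ => sum_congr rfl fun k _ => ?_
    split_ifs
    · ring
    · simp
  rw [h1, mul_sum]
  refine sum_le_sum fun p hp => ?_
  have h2 := mul_le_mul_of_nonneg_left (sum_inv_dvd p B (hPp p hp).one_le) (Real.log_natCast_nonneg p)
  refine h2.trans (le_of_eq ?_)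
  ring

lemma bad_weight (P : Finset ℕ) (hPp : ∀ p ∈ P, p.Prime) (B : ℕ) (lw : ℝ) (hlw : 0 < lw) :
    ∑ k ∈ (Finset.Icc 1 B).filter (fun k => lw < hP P k), 1 / (k:ℝ) ≤ (1 + Real.log B) * (∑ p ∈ P, Real.log p / p) / lw := by
  rw [le_div_iff₀ hlw, sum_mul]
  refine le_trans ?_ (dvd_weight P hPp B)
  calc ∑ k ∈ (Finset.Icc 1 B).filter (fun k => lw < hP P k), 1 / (k:ℝ) * lw
      ≤ ∑ k ∈ (Finset.Icc 1 B).filter (fun k => lw < hP P k), 1 / (k:ℝ) * hP P k := by
        refine sum_le_sum fun k hk => ?_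
        rw [mem_filter] at hk
        exact mul_le_mul_of_nonneg_left hk.2.le (by positivity)
    _ ≤ _ := sum_le_sum_of_subset_of_nonneg (filter_subset _ _) fun k _ _ => mul_nonneg (by positivity) (hP_nonneg P k)

/-- numbers with small radical -/
lemma bad_rad (A B t : ℕ) (ht : 1 ≤ t) :
    ∑ k ∈ (Finset.Icc 1 B).filter (fun k => A * t ^ 2 < k ∧ rd k ≤ A), 1 / (k:ℝ) ≤ (1 + Real.log B) / t := by
  have htr : (0:ℝ) < t := by exact_mod_cast ht
  have hex : ∀ n : ℕ, ∃ x : ℕ × ℕ, 1 ≤ n → (x.1 ^ 2 * x.2 = n ∧ Squarefree x.2 ∧ 0 < x.1 ∧ 0 < x.2) := by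
    intro n
    by_cases hn : 1 ≤ n
    · obtain ⟨a, b, ha, hb, h1, h2⟩ := Nat.sq_mul_squarefree_of_pos hn
      exact ⟨(b, a), fun _ => ⟨h1, h2, hb, ha⟩⟩
    · exact ⟨(0, 0), fun h => absurd h hn⟩
  choose f hf using hex
  set S := (Finset.Icc 1 B).filter (fun k => A * t ^ 2 < k ∧ rd k ≤ A) with hS
  have hinj : Set.InjOn f (S : Set ℕ) := by
    intro m hm n hn hmn
    rw [mem_coe, hS, mem_filter, Finset.mem_Icc] at hm hn
    rw [← (hf m hm.1.1).1, ← (hf n hn.1.1).1, hmn]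
  have h3 : ∑ n ∈ S, 1 / (n:ℝ) = ∑ x ∈ S.image f, 1 / (x.1:ℝ) ^ 2 * (1 / (x.2:ℝ)) := by
    rw [sum_image hinj]
    refine sum_congr rfl fun n hn => ?_
    rw [hS, mem_filter, Finset.mem_Icc] at hn
    obtain ⟨h4, _, h5, h6⟩ := hf n hn.1.1
    have : (n:ℝ) = ((f n).1:ℝ) ^ 2 * ((f n).2:ℝ) := by exact_mod_cast h4.symm
    rw [this, one_div_mul_one_div]
  have hsub : S.image f ⊆ (Finset.Ioc t B) ×ˢ (Finset.Icc 1 B) := by
    intro x hx
    rw [mem_image] at hx
    obtain ⟨n, hn, rfl⟩ := hx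
    rw [hS, mem_filter, Finset.mem_Icc] at hn
    obtain ⟨h4, h5, h6, h7⟩ := hf n hn.1.1
    rw [mem_product, Finset.mem_Ioc, Finset.mem_Icc]
    have h8 : (f n).1 ≤ n := by
      calc (f n).1 ≤ (f n).1 ^ 2 := Nat.le_self_pow (by norm_num) _
        _ = (f n).1 ^ 2 * 1 := (mul_one _).symm
        _ ≤ (f n).1 ^ 2 * (f n).2 := Nat.mul_le_mul_left _ h7
        _ = n := h4
    have h9 : (f n).2 ≤ n := by
      calc (f n).2 = 1 * (f n).2 := (one_mul _).symm
        _ ≤ (f n).1 ^ 2 * (f n).2 := Nat.mul_le_mul_right _ (Nat.one_le_pow _ _ h6)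
        _ = n := h4
    refine ⟨⟨?_, h8.trans hn.1.2⟩, h7, h9.trans hn.1.2⟩
    have h10 : (f n).2 ∣ rd n := by
      have h11 : (f n).2 ∣ n := Dvd.intro_left _ h4
      rw [← Nat.prod_primeFactors_of_squarefree h5]
      unfold rd
      exact Finset.prod_dvd_prod_of_subset _ _ _ (Nat.primeFactors_mono h11 (by omega))
    have h12 : (f n).2 ≤ A := (Nat.le_of_dvd (rd_pos n) h10).trans hn.2.2
    by_contra hc
    push Not at hc
    have h13 : (f n).1 ^ 2 * (f n).2 ≤ t ^ 2 * A := Nat.mul_le_mul (Nat.pow_le_pow_left hc 2) h12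
    rw [h4] at h13
    have h14 := hn.2.1
    rw [mul_comm] at h14
    omega
  rw [h3]
  refine (sum_le_sum_of_subset_of_nonneg hsub fun _ _ _ => by positivity).trans ?_
  rw [sum_product]
  have h5 : ∑ x ∈ Finset.Ioc t B, ∑ y ∈ Finset.Icc 1 B, 1 / (x:ℝ) ^ 2 * (1 / (y:ℝ))
      = (∑ x ∈ Finset.Ioc t B, 1 / (x:ℝ) ^ 2) * ∑ y ∈ Finset.Icc 1 B, 1 / (y:ℝ) := by
    rw [sum_mul_sum]
  simp only
  rw [h5]
  have h6 : ∑ x ∈ Finset.Ioc t B, 1 / (x:ℝ) ^ 2 ≤ 1 / (t:ℝ) := by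
    rcases Nat.lt_or_ge B t with hc | hc
    · rw [Finset.Ioc_eq_empty (by omega), sum_empty]; positivity
    · have h7 := sum_Ioc_inv_sq_le_sub (α := ℝ) (k := t) (n := B) (by omega) hc
      have h8 : (0:ℝ) ≤ (B:ℝ)⁻¹ := by positivity
      rw [sum_congr rfl fun (x:ℕ) _ => one_div ((x:ℝ) ^ 2), one_div (t:ℝ)]
      linarith
  have h7 : 0 ≤ ∑ y ∈ Finset.Icc 1 B, 1 / (y:ℝ) := sum_nonneg fun _ _ => by positivity
  calc (∑ x ∈ Finset.Ioc t B, 1 / (x:ℝ) ^ 2) * ∑ y ∈ Finset.Icc 1 B, 1 / (y:ℝ) ≤ (1 / (t:ℝ)) * (1 + Real.log B) :=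
        mul_le_mul h6 (sum_inv_le B) h7 (by positivity)
    _ = _ := by ring

/-- the admissible squarefree numbers -/
def MM (Q A B z S1 z0 : ℕ) : Finset ℕ :=
  (Finset.Icc 1 B).filter (fun m => Squarefree m ∧ A < m ∧ Nat.gcd m Q ≤ z ∧ smp z0 m ≤ S1)

lemma log_prod_le (T : Finset ℕ) (hT : ∀ p ∈ T, p.Prime) : Real.log ((∏ p ∈ T, p : ℕ) : ℝ) = ∑ p ∈ T, Real.log p := by
  push_cast
  rw [Real.log_prod (fun p hp => by
    have := (hT p hp).pos
    positivity)]

theorem mod_lower (Q A B z S1 z0 t : ℕ) (hQ : 1 ≤ Q) (ht : 1 ≤ t) (hB : 1 ≤ B) (hz : 2 ≤ z) (hS1 : 2 ≤ S1) :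
    Real.log B - Real.log (A * (t:ℝ) ^ 2) - 1 - (1 + Real.log B) * (1 / t + (∑ p ∈ Q.primeFactors, Real.log p / p) / Real.log z
        + (∑ p ∈ (Finset.Icc 1 z0).filter Nat.Prime, Real.log p / p) / Real.log S1)
      ≤ ∑ m ∈ MM Q A B z S1 z0, 1 / (Nat.totient m : ℝ) := by
  classical
  have hlz : 0 < Real.log z := Real.log_pos (by exact_mod_cast hz)
  have hlS : 0 < Real.log S1 := Real.log_pos (by exact_mod_cast hS1)
  set g : ℕ → ℝ := fun k => 1 / (k:ℝ) with hg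
  have hg0 : ∀ k, 0 ≤ g k := fun k => by simp only [hg]; positivity
  set P2 := Q.primeFactors with hP2
  set P3 := (Finset.Icc 1 z0).filter Nat.Prime with hP3
  have hP2p : ∀ p ∈ P2, p.Prime := fun p hp => Nat.prime_of_mem_primeFactors hp
  have hP3p : ∀ p ∈ P3, p.Prime := fun p hp => (mem_filter.mp hp).2
  -- the sum over k with radical in MM
  have h1 : ∑ k ∈ (Finset.Icc 1 B).filter (fun k => rd k ∈ MM Q A B z S1 z0), g k ≤ ∑ m ∈ MM Q A B z S1 z0, 1 / (Nat.totient m : ℝ) := by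
    rw [← sum_fiberwise_of_maps_to (g := rd) (t := MM Q A B z S1 z0) (fun k hk => (mem_filter.mp hk).2)]
    refine sum_le_sum fun m hm => ?_
    have hm1 : 1 ≤ m := by
      unfold MM at hm; rw [mem_filter, Finset.mem_Icc] at hm; exact hm.1.1
    refine le_trans ?_ (rd_sum m B hm1)
    refine sum_le_sum_of_subset_of_nonneg ?_ fun k _ _ => hg0 k
    intro k hk
    rw [mem_filter, mem_filter] at hk
    rw [mem_filter]
    exact ⟨hk.1.1, hk.2⟩
  -- covering
  have hcover : (Finset.Icc 1 B).filter (fun k => A * t ^ 2 < k) ⊆ (Finset.Icc 1 B).filter (fun k => rd k ∈ MM Q A B z S1 z0)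
      ∪ ((Finset.Icc 1 B).filter (fun k => A * t ^ 2 < k ∧ rd k ≤ A) ∪ ((Finset.Icc 1 B).filter (fun k => Real.log z < hP P2 k)
        ∪ (Finset.Icc 1 B).filter (fun k => Real.log S1 < hP P3 k))) := by
    intro k hk
    rw [mem_filter, Finset.mem_Icc] at hk
    rw [mem_union, mem_union, mem_union, mem_filter, mem_filter, mem_filter, mem_filter, Finset.mem_Icc]
    by_cases c1 : rd k ≤ A
    · right; left; exact ⟨hk.1, hk.2, c1⟩
    by_cases c2 : Nat.gcd (rd k) Q ≤ z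
    swap
    · right; right; left
      refine ⟨hk.1, ?_⟩
      have hgs : Squarefree (Nat.gcd (rd k) Q) := (rd_squarefree k).squarefree_of_dvd (Nat.gcd_dvd_left _ _)
      have e1 := log_prod_le (Nat.gcd (rd k) Q).primeFactors (fun p hp => Nat.prime_of_mem_primeFactors hp)
      rw [Nat.prod_primeFactors_of_squarefree hgs] at e1
      have e2 : Real.log z < Real.log (Nat.gcd (rd k) Q : ℕ) := by
        refine Real.log_lt_log (by exact_mod_cast (by omega : 0 < z)) ?_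
        exact_mod_cast (by omega : z < Nat.gcd (rd k) Q)
      rw [e1] at e2
      refine lt_of_lt_of_le e2 ?_
      unfold hP
      refine sum_le_sum_of_subset_of_nonneg ?_ fun p _ _ => Real.log_natCast_nonneg p
      intro p hp
      rw [mem_filter]
      have hpd := Nat.dvd_of_mem_primeFactors hp
      have hpp := Nat.prime_of_mem_primeFactors hp
      refine ⟨?_, ?_⟩
      · rw [hP2, Nat.mem_primeFactors]
        exact ⟨hpp, hpd.trans (Nat.gcd_dvd_right _ _), by omega⟩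
      · exact (hpd.trans (Nat.gcd_dvd_left _ _)).trans (rd_dvd k)
    by_cases c3 : smp z0 (rd k) ≤ S1
    swap
    · right; right; right
      refine ⟨hk.1, ?_⟩
      have e1 := log_prod_le ((rd k).primeFactors.filter (fun p => p ≤ z0)) (fun p hp => Nat.prime_of_mem_primeFactors (mem_filter.mp hp).1)
      have e2 : Real.log S1 < Real.log (smp z0 (rd k) : ℕ) := by
        refine Real.log_lt_log (by exact_mod_cast (by omega : 0 < S1)) ?_
        exact_mod_cast (by omega : S1 < smp z0 (rd k))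
      unfold smp at e2
      rw [e1] at e2
      refine lt_of_lt_of_le e2 ?_
      unfold hP
      refine sum_le_sum_of_subset_of_nonneg ?_ fun p _ _ => Real.log_natCast_nonneg p
      intro p hp
      rw [mem_filter] at hp ⊢
      have hpd := Nat.dvd_of_mem_primeFactors hp.1
      have hpp := Nat.prime_of_mem_primeFactors hp.1
      refine ⟨?_, hpd.trans (rd_dvd k)⟩
      rw [hP3, mem_filter, Finset.mem_Icc]
      exact ⟨⟨hpp.one_le, hp.2⟩, hpp⟩
    · left
      refine ⟨hk.1, ?_⟩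
      unfold MM
      rw [mem_filter, Finset.mem_Icc]
      refine ⟨⟨rd_pos k, (Nat.le_of_dvd hk.1.1 (rd_dvd k)).trans hk.1.2⟩, rd_squarefree k, by omega, c2, c3⟩
  have hun : ∀ s u : Finset ℕ, ∑ k ∈ s ∪ u, g k ≤ ∑ k ∈ s, g k + ∑ k ∈ u, g k := fun s u => sum_union_le_of_nonneg hg0 s u
  have h2 : ∑ k ∈ (Finset.Icc 1 B).filter (fun k => A * t ^ 2 < k), g k ≤ ∑ m ∈ MM Q A B z S1 z0, 1 / (Nat.totient m : ℝ)
      + ((1 + Real.log B) / t + ((1 + Real.log B) * (∑ p ∈ P2, Real.log p / p) / Real.log z + (1 + Real.log B) * (∑ p ∈ P3, Real.log p / p) / Real.log S1)) := by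
    refine (sum_le_sum_of_subset_of_nonneg hcover fun k _ _ => hg0 k).trans ?_
    refine (hun _ _).trans (add_le_add h1 ((hun _ _).trans (add_le_add (bad_rad A B t ht) ((hun _ _).trans (add_le_add ?_ ?_)))))
    · exact bad_weight P2 hP2p B _ hlz
    · exact bad_weight P3 hP3p B _ hlS
  have h3 : Real.log B - Real.log (A * (t:ℝ) ^ 2) - 1 ≤ ∑ k ∈ (Finset.Icc 1 B).filter (fun k => A * t ^ 2 < k), g k := by
    have e1 : Real.log B ≤ ∑ k ∈ Finset.Icc 1 B, g k := by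
      have h2 := log_add_one_le_harmonic B
      rw [harmonic_eq_sum_Icc] at h2
      push_cast at h2
      have h3 : Real.log B ≤ Real.log (B + 1) := Real.log_le_log (by exact_mod_cast hB) (by linarith)
      refine h3.trans (h2.trans (le_of_eq ?_))
      refine sum_congr rfl fun n _ => by simp only [hg]; rw [one_div]
    have e2 : ∑ k ∈ (Finset.Icc 1 B).filter (fun k => ¬ A * t ^ 2 < k), g k ≤ 1 + Real.log (A * (t:ℝ) ^ 2) := by
      have e3 := sum_inv_le (A * t ^ 2)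
      push_cast at e3
      refine le_trans ?_ e3
      refine sum_le_sum_of_subset_of_nonneg ?_ fun k _ _ => hg0 k
      intro k hk
      rw [mem_filter, Finset.mem_Icc] at hk
      rw [Finset.mem_Icc]
      omega
    have e3 := sum_filter_add_sum_filter_not (Finset.Icc 1 B) (fun k => A * t ^ 2 < k) g
    linarith
  have h4 : (1 + Real.log B) * (1 / t + (∑ p ∈ P2, Real.log p / p) / Real.log z + (∑ p ∈ P3, Real.log p / p) / Real.log S1)
      = (1 + Real.log B) / t + ((1 + Real.log B) * (∑ p ∈ P2, Real.log p / p) / Real.log z + (1 + Real.log B) * (∑ p ∈ P3, Real.log p / p) / Real.log S1) := by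
    ring
  rw [h4]
  linarith

end Pool.Agent.Var73
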