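import Pool.Agent.Lib_helper73.Var.Mod2

/-! The product of the two sums over moduli -/

set_option autoImplicit false

namespace Pool.Agent.Var73

open Finset Complex Pool.Agent.Var35 DirichletCharacter Filter
open scoped ArithmeticFunction ArithmeticFunction.Moebius ArithmeticFunction.zeta

def GGs (Q z : ℕ) : Finset ℕ := Q.divisors.filter (fun g => Squarefree g ∧ g ≤ z)

def RRs (Q Rl B z0 S1 : ℕ) : Finset ℕ := (Finset.Ioc Rl B).filter (fun r => Squarefree r ∧ Nat.Coprime r Q ∧ smp z0 r ≤ S1)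

theorem prod_lower (Q Rl B z S1 z0 : ℕ) (hQ : 1 ≤ Q) :
    ∑ m ∈ MM Q (z * Rl) B z S1 z0, 1 / (Nat.totient m : ℝ)
      ≤ (∑ g ∈ GGs Q z, 1 / (Nat.totient g : ℝ)) * ∑ r ∈ RRs Q Rl B z0 S1, 1 / (Nat.totient r : ℝ) := by
  classical
  rw [sum_mul_sum, ← sum_product']
  set f : ℕ → ℕ × ℕ := fun m => (Nat.gcd m Q, m / Nat.gcd m Q) with hf
  have hm : ∀ m ∈ MM Q (z * Rl) B z S1 z0, (1 ≤ m ∧ m ≤ B) ∧ Squarefree m ∧ z * Rl < m ∧ Nat.gcd m Q ≤ z ∧ smp z0 m ≤ S1 := by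
    intro m hm
    unfold MM at hm
    rw [mem_filter, Finset.mem_Icc] at hm
    exact hm
  have hdec : ∀ m ∈ MM Q (z * Rl) B z S1 z0, Nat.gcd m Q * (m / Nat.gcd m Q) = m := fun m _ => Nat.mul_div_cancel' (Nat.gcd_dvd_left m Q)
  have hinj : Set.InjOn f ((MM Q (z * Rl) B z S1 z0 : Finset ℕ) : Set ℕ) := by
    intro m h1 n h2 h
    simp only [hf, Prod.mk.injEq] at h
    have e1 := hdec m h1
    have e2 := hdec n h2
    rw [h.2, h.1] at e1
    exact e1.symm.trans e2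
  have h1 : ∑ m ∈ MM Q (z * Rl) B z S1 z0, 1 / (Nat.totient m : ℝ)
      = ∑ x ∈ (MM Q (z * Rl) B z S1 z0).image f, 1 / (Nat.totient x.1 : ℝ) * (1 / (Nat.totient x.2 : ℝ)) := by
    rw [sum_image hinj]
    refine sum_congr rfl fun m hmm => ?_
    simp only [hf]
    have h2 := hdec m hmm
    have h3 : Nat.Coprime (Nat.gcd m Q) (m / Nat.gcd m Q) := by
      have h4 := (hm m hmm).2.1
      rw [← h2] at h4
      exact Nat.coprime_of_squarefree_mul h4
    have h4 : (Nat.totient m : ℝ) = (Nat.totient (Nat.gcd m Q) : ℝ) * (Nat.totient (m / Nat.gcd m Q) : ℝ) := by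
      have := Nat.totient_mul h3
      rw [h2] at this
      exact_mod_cast this
    rw [h4, one_div_mul_one_div]
  rw [h1]
  refine sum_le_sum_of_subset_of_nonneg ?_ fun _ _ _ => by positivity
  intro x hx
  rw [mem_image] at hx
  obtain ⟨m, hmm, rfl⟩ := hx
  obtain ⟨⟨h2, h3⟩, h4, h5, h6, h7⟩ := hm m hmm
  simp only [hf]
  obtain ⟨g, hg⟩ : ∃ g, g = Nat.gcd m Q := ⟨_, rfl⟩
  obtain ⟨r, hr⟩ : ∃ r, r = m / Nat.gcd m Q := ⟨_, rfl⟩
  have hgr := hdec m hmm
  rw [← hg] at hgr h6 ⊢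
  rw [← hg] at hr
  rw [← hr] at hgr ⊢
  have hg0 : 0 < g := by rw [hg]; exact Nat.gcd_pos_of_pos_left _ (by omega)
  have hr0 : 0 < r := by
    rcases Nat.eq_zero_or_pos r with h | h
    · rw [h, mul_zero] at hgr; omega
    · exact h
  have hsq : Squarefree (g * r) := by rw [hgr]; exact h4
  have hcop : Nat.Coprime g r := Nat.coprime_of_squarefree_mul hsq
  rw [mem_product]
  constructor
  · unfold GGs
    rw [mem_filter, Nat.mem_divisors]
    exact ⟨⟨by rw [hg]; exact Nat.gcd_dvd_right m Q, by omega⟩, hsq.of_mul_left, h6⟩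
  · unfold RRs
    rw [mem_filter, Finset.mem_Ioc]
    refine ⟨⟨?_, ?_⟩, hsq.of_mul_right, ?_, ?_⟩
    · by_contra hc
      push Not at hc
      have h8 : g * r ≤ z * Rl := Nat.mul_le_mul h6 hc
      rw [hgr] at h8
      omega
    · calc r = 1 * r := (one_mul r).symm
        _ ≤ g * r := Nat.mul_le_mul_right r hg0
        _ = m := hgr
        _ ≤ B := h3
    · rw [Nat.coprime_iff_gcd_eq_one]
      by_contra hne
      obtain ⟨p, hp, hpd⟩ := Nat.exists_prime_and_dvd hne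
      have hp1 : p ∣ r := hpd.trans (Nat.gcd_dvd_left _ _)
      have hp2 : p ∣ Q := hpd.trans (Nat.gcd_dvd_right _ _)
      have hp3 : p ∣ g := by
        rw [hg]
        exact Nat.dvd_gcd (by rw [← hgr]; exact Dvd.dvd.mul_left hp1 g) hp2
      have := Nat.dvd_gcd hp3 hp1
      rw [hcop] at this
      exact hp.one_lt.ne' (Nat.dvd_one.mp this)
    · refine le_trans (Nat.le_of_dvd (smp_pos z0 m) ?_) h7
      unfold smp
      refine Finset.prod_dvd_prod_of_subset _ _ _ ?_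
      intro p hp
      rw [mem_filter] at hp ⊢
      exact ⟨Nat.primeFactors_mono (Dvd.intro_left g hgr) (by omega) hp.1, hp.2⟩

/-- trivial bound -/
lemma Gs_le (Q z : ℕ) (hQ : 1 ≤ Q) : ∑ g ∈ GGs Q z, 1 / (Nat.totient g : ℝ) ≤ z := by
  have h1 : ∀ g ∈ GGs Q z, 1 / (Nat.totient g : ℝ) ≤ 1 := by
    intro g hg
    unfold GGs at hg
    rw [mem_filter, Nat.mem_divisors] at hg
    have h2 : 0 < g := Nat.pos_of_dvd_of_pos hg.1.1 hQ
    have h3 : (1:ℝ) ≤ Nat.totient g := by exact_mod_cast Nat.totient_pos.mpr h2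
    rw [div_le_one (by linarith)]; exact h3
  refine (sum_le_sum h1).trans ?_
  rw [sum_const, nsmul_eq_mul, mul_one]
  have h2 : GGs Q z ⊆ Finset.Icc 1 z := by
    intro g hg
    unfold GGs at hg
    rw [mem_filter, Nat.mem_divisors] at hg
    rw [Finset.mem_Icc]
    exact ⟨Nat.pos_of_dvd_of_pos hg.1.1 hQ, hg.2.2⟩
  have := card_le_card h2
  rw [Nat.card_Icc, Nat.add_sub_cancel] at this
  exact_mod_cast this

end Pool.Agent.Var73
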