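import Pool.Agent.Lib_helper73.Var.Cnt
import Pool.Agent.Lib_helper35.Var.Local

/-! The contribution of one modulus -/

set_option autoImplicit false

namespace Pool.Agent.Var73

open Finset Complex Pool.Agent.Var35 DirichletCharacter Filter
open scoped ArithmeticFunction ArithmeticFunction.Moebius ArithmeticFunction.zeta

/-- the finite Fourier transform at an integer -/
noncomputable def FI (N : ℕ) (x : ℝ) (Q : ℕ) (j : ℤ) : ℂ := FT Q (vv N x Q) ((j : ZMod Q).val)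

lemma val_shift (Q : ℕ) (hQ : 0 < Q) (j : ℤ) : ∃ m : ℤ, j = ((j : ZMod Q).val : ℤ) + Q * m := by
  have : NeZero Q := ⟨by omega⟩
  have h1 : (((j : ZMod Q).val : ℤ) : ZMod Q) = (j : ZMod Q) := by
    rw [Int.cast_natCast, ZMod.natCast_zmod_val]
  rw [ZMod.intCast_eq_intCast_iff_dvd_sub] at h1
  obtain ⟨m, hm⟩ := h1
  exact ⟨m, by linarith⟩

lemma e_val (Q : ℕ) (hQ : 0 < Q) (j : ℤ) (n : ℕ) : e (n * (((j : ZMod Q).val : ℝ) / Q)) = e (n * ((j:ℝ) / Q)) := by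
  obtain ⟨m, hm⟩ := val_shift Q hQ j
  have hQr : (Q:ℝ) ≠ 0 := by positivity
  have h1 : (n:ℝ) * ((j:ℝ) / Q) = n * (((j : ZMod Q).val : ℝ) / Q) + ((n * m : ℤ) : ℝ) := by
    have : (j:ℝ) = ((j : ZMod Q).val : ℝ) + Q * m := by exact_mod_cast hm
    rw [this]; push_cast; field_simp
  rw [h1, e_add_int]

lemma FI_eq (N : ℕ) (x : ℝ) (Q : ℕ) (hQ : 0 < Q) (j : ℤ) :
    FI N x Q j = ∑ n ∈ (Finset.Icc 1 N).filter (fun n => Nat.Coprime n Q), ((Λ n : ℝ) : ℂ) * e (n * ((j:ℝ) / Q))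
      - ((x / (Nat.totient Q : ℝ) : ℝ) : ℂ) * ram Q j := by
  unfold FI
  rw [FT_vv N x Q hQ]
  congr 1
  · exact sum_congr rfl fun n _ => by rw [e_val Q hQ j n]
  · congr 1
    unfold ram
    refine sum_congr rfl fun n _ => ?_
    have := e_val Q hQ j n
    push_cast at this ⊢
    exact this

lemma sum_divisors_le (y : ℕ) (hy : 1 ≤ y) : ∑ c ∈ y.divisors, (c:ℝ) ≤ y * (1 + Real.log y) := by
  rw [← Nat.sum_div_divisors y (fun c => (c:ℝ))]
  have hyr : (0:ℝ) < y := by exact_mod_cast hy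
  have h1 : ∀ c ∈ y.divisors, ((y / c : ℕ) : ℝ) = y * (1 / c) := by
    intro c hc
    rw [Nat.mem_divisors] at hc
    have hc0 : (c:ℝ) ≠ 0 := by
      have : c ≠ 0 := fun h => by rw [h] at hc; exact hc.2 (Nat.eq_zero_of_zero_dvd hc.1)
      exact_mod_cast this
    rw [Nat.cast_div hc.1 hc0]; ring
  rw [sum_congr rfl h1, ← mul_sum]
  refine mul_le_mul_of_nonneg_left ?_ hyr.le
  refine le_trans ?_ (sum_inv_le y)
  refine sum_le_sum_of_subset_of_nonneg ?_ fun _ _ _ => by positivity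
  intro c hc
  rw [Finset.mem_Icc]
  exact ⟨Nat.pos_of_mem_divisors hc, Nat.divisor_le hc⟩

lemma ram_le (Q y : ℕ) (hQ : 1 ≤ Q) (hy : 1 ≤ y) (j : ℤ) (h : ∀ c : ℕ, c ∣ Q → (c:ℤ) ∣ j → c ∣ y) :
    ‖ram Q j‖ ≤ y * (1 + Real.log y) := by
  rw [ram_eq Q hQ j]
  refine (norm_sum_le _ _).trans ?_
  have h1 : ∑ d ∈ Q.divisors, ‖((μ d : ℤ) : ℂ) * (if ((Q / d : ℕ) : ℤ) ∣ j then ((Q / d : ℕ) : ℂ) else 0)‖
      ≤ ∑ d ∈ Q.divisors, (if ((Q / d : ℕ) : ℤ) ∣ j then ((Q / d : ℕ) : ℝ) else 0) := by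
    refine sum_le_sum fun d _ => ?_
    rw [norm_mul]
    have h2 : ‖((μ d : ℤ) : ℂ)‖ ≤ 1 := by
      rw [Complex.norm_intCast]
      exact_mod_cast ArithmeticFunction.abs_moebius_le_one (n := d)
    split_ifs
    · rw [Complex.norm_natCast]
      nlinarith [Nat.cast_nonneg (α := ℝ) (Q / d)]
    · simp
  refine h1.trans ?_
  rw [Nat.sum_div_divisors Q (fun c => if ((c : ℕ) : ℤ) ∣ j then ((c : ℕ) : ℝ) else 0), ← sum_filter]
  refine le_trans ?_ (sum_divisors_le y hy)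
  refine sum_le_sum_of_subset_of_nonneg ?_ fun _ _ _ => by positivity
  intro c hc
  rw [mem_filter, Nat.mem_divisors] at hc
  rw [Nat.mem_divisors]
  exact ⟨h c hc.1.1 hc.2, by omega⟩

lemma norm_e_sub (a b : ℝ) : ‖e a - e b‖ ≤ 2 * Real.pi * |a - b| := by
  have h1 : e a - e b = e b * (e (a - b) - 1) := by
    have h2 : e a = e b * e (a - b) := by rw [← e_add]; congr 1; ring
    rw [mul_sub, ← h2, mul_one]
  rw [h1, norm_mul, norm_e, one_mul]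
  exact norm_e_sub_one_le _

lemma hh_var (N n : ℕ) (hn : n ≤ N) (b c : ℝ) : ‖hh N b n - hh N c n‖ ≤ 2 * Real.pi * N * |b - c| := by
  rcases Nat.eq_zero_or_pos N with h | h
  · subst h; simp [hh]
  have hN : (0:ℝ) < N := by exact_mod_cast h
  have hpi := Real.pi_pos
  rw [hh_eq, hh_eq, ← mul_sub, ← sum_sub_distrib, norm_mul, norm_div, norm_one, Complex.norm_natCast]
  have h1 : ‖∑ i ∈ range N, (e (((n:ℝ) - (i + 1)) * b) - e (((n:ℝ) - (i + 1)) * c))‖ ≤ N * (2 * Real.pi * N * |b - c|) := by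
    refine (norm_sum_le _ _).trans ?_
    have h2 : ∀ i ∈ range N, ‖e (((n:ℝ) - (i + 1)) * b) - e (((n:ℝ) - (i + 1)) * c)‖ ≤ 2 * Real.pi * N * |b - c| := by
      intro i hi
      rw [mem_range] at hi
      have hi' : (i:ℝ) + 1 ≤ N := by exact_mod_cast hi
      have hi0 : (0:ℝ) ≤ i := Nat.cast_nonneg i
      have hn0 : (0:ℝ) ≤ n := Nat.cast_nonneg n
      have hnr : (n:ℝ) ≤ N := by exact_mod_cast hn
      refine (norm_e_sub _ _).trans ?_
      rw [← mul_sub, abs_mul, mul_assoc, mul_assoc, mul_assoc]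
      refine mul_le_mul_of_nonneg_left ?_ (by norm_num)
      refine mul_le_mul_of_nonneg_left ?_ hpi.le
      refine mul_le_mul_of_nonneg_right ?_ (abs_nonneg _)
      rw [abs_le]
      constructor <;> linarith
    refine (sum_le_sum h2).trans (le_of_eq ?_)
    rw [sum_const, card_range, nsmul_eq_mul]
  rw [one_div, inv_mul_le_iff₀ hN]
  exact h1

/-- variation of the kernel -/
lemma hh_tv (N n Y : ℕ) (hn : n ≤ N) (B K : ℝ) (hB : 0 < B) (hK : (Y:ℝ) * N ≤ K * B) :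
    ‖hh N ((Y:ℝ) / B) n‖ + ∑ u ∈ range Y, ‖hh N (((u + 1 : ℕ) : ℝ) / B) n - hh N ((u:ℝ) / B) n‖ ≤ 1 + 2 * Real.pi * K := by
  have hpi := Real.pi_pos
  refine add_le_add (norm_hh_le _ _ _) ?_
  have h1 : ∀ u ∈ range Y, ‖hh N (((u + 1 : ℕ) : ℝ) / B) n - hh N ((u:ℝ) / B) n‖ ≤ 2 * Real.pi * N * (1 / B) := by
    intro u _
    refine (hh_var N n hn _ _).trans (le_of_eq ?_)
    congr 1
    rw [← sub_div, Nat.cast_add, Nat.cast_one, add_sub_cancel_left, abs_of_pos (by positivity)]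
  refine (sum_le_sum h1).trans ?_
  rw [sum_const, card_range, nsmul_eq_mul]
  have h2 : (Y:ℝ) * N / B ≤ K := by rw [div_le_iff₀ hB]; exact hK
  calc (Y:ℝ) * (2 * Real.pi * N * (1 / B)) = 2 * Real.pi * ((Y:ℝ) * N / B) := by ring
    _ ≤ 2 * Real.pi * K := mul_le_mul_of_nonneg_left h2 (by positivity)

/-- the set of `y ≤ Y` coprime to `r` -/
def CY (r Y : ℕ) : Finset ℕ := (Finset.Icc 1 Y).filter (fun y => Nat.Coprime y r)

lemma mem_CY (r Y y : ℕ) : y ∈ CY r Y ↔ (1 ≤ y ∧ y ≤ Y) ∧ Nat.Coprime y r := by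
  unfold CY; rw [mem_filter, Finset.mem_Icc]

lemma norm_DD_le (N : ℕ) (β : ℝ) : ‖DD N β‖ ≤ N := by
  unfold DD
  refine (norm_sum_le _ _).trans (le_of_eq ?_)
  rw [sum_congr rfl fun n _ => norm_e _]
  simp

/-- the Gauss sum of the inverse character -/
noncomputable def gS (x : Chr) : ℂ := ∑ a ∈ range x.1, x.2⁻¹ (a : ZMod x.1) * e ((a:ℝ) / x.1)

lemma gS_eq (r : ℕ) [NeZero r] (χ : DirichletCharacter ℂ r) : gaussSum χ⁻¹ (ZMod.stdAddChar (N := r)) = gS ⟨r, χ⟩ := by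
  unfold gS gaussSum
  simp only
  symm
  refine Finset.sum_nbij' (fun c => (c : ZMod r)) (fun z => z.val) ?_ ?_ ?_ ?_ ?_
  · intro c _; exact mem_univ _
  · intro z _; rw [mem_range]; exact ZMod.val_lt z
  · intro c hc; rw [mem_range] at hc; exact ZMod.val_cast_of_lt hc
  · intro z _; exact ZMod.natCast_zmod_val z
  · intro c _
    rw [← std_eq_nat r c]

lemma norm_gS_le (r : ℕ) [NeZero r] (hr : Squarefree r) (χ : DirichletCharacter ℂ r) : ‖gS ⟨r, χ⟩‖ ≤ Real.sqrt χ.conductor := by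
  rw [← gS_eq]
  refine (gauss_norm_le hr χ⁻¹).trans (le_of_eq ?_)
  rw [conductor_inv]

open scoped Classical in
/-- the error term coming from characters of large conductor -/
noncomputable def E2t (N Q Y r s m : ℕ) : ℂ :=
  (((μ r : ℤ) : ℂ) / (Nat.totient r : ℂ) ^ 2) * ∑ χ ∈ univ.filter (fun χ : DirichletCharacter ℂ r => ¬ χ.conductor ∣ s),
    (gS ⟨r, χ⟩ * χ (m : ZMod r)) * Xs N Q Y ⟨r, χ⟩

/-- the local sum -/
noncomputable def Tr (N : ℕ) (x : ℝ) (Q Y r a : ℕ) : ℂ :=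
  (((μ r : ℤ) : ℂ) / (Nat.totient r : ℂ)) * ∑ y ∈ CY r Y,
    ((1 / (N:ℂ)) * (starRingEnd ℂ) (DD N ((y:ℝ) / ((r:ℝ) * Q)))) * FI N x Q ((a * y : ℕ) : ℤ)

lemma cop_m (r Q a m : ℕ) (h : r * a = 1 + Q * m) : Nat.Coprime m r := by
  have h1 : IsCoprime (m:ℤ) (r:ℤ) := ⟨-Q, a, by
    have : (r:ℤ) * a = 1 + Q * m := by exact_mod_cast h
    linarith⟩
  exact Nat.isCoprime_iff_coprime.mp h1

/-- replacing the Fourier transform by the sum over `n` coprime to `r` -/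
lemma FI_approx (N Q r a m y : ℕ) (x : ℝ) (hQ : 1 ≤ Q) (hr : 1 ≤ r) (hx : 0 ≤ x) (hy : 1 ≤ y) (ham : r * a = 1 + Q * m) :
    ‖FI N x Q ((a * y : ℕ) : ℤ) - ∑ n ∈ (Finset.Icc 1 N).filter (fun n => Nat.Coprime n r),
        ((Λ n : ℝ) : ℂ) * (e (((n * y * m : ℕ) : ℝ) / r) * e (n * ((y:ℝ) / ((r:ℝ) * Q))))‖
      ≤ E0 N Q + E0 N r + (x / (Nat.totient Q : ℝ)) * (y * (1 + Real.log y)) := by
  have hQr : (Q:ℝ) ≠ 0 := by positivity
  have hrr : (r:ℝ) ≠ 0 := by positivity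
  rw [FI_eq N x Q hQ]
  set g : ℕ → ℂ := fun n => ((Λ n : ℝ) : ℂ) * e (n * (((((a * y : ℕ) : ℤ) : ℝ)) / Q)) with hg
  have hgn : ∀ n, ‖g n‖ = Λ n := by
    intro n
    simp only [hg]
    rw [norm_mul, norm_e, mul_one, Complex.norm_real, Real.norm_of_nonneg ArithmeticFunction.vonMangoldt_nonneg]
  have h1 : ∀ n, ((Λ n : ℝ) : ℂ) * (e (((n * y * m : ℕ) : ℝ) / r) * e (n * ((y:ℝ) / ((r:ℝ) * Q)))) = g n := by
    intro n
    simp only [hg]
    rw [← e_add]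
    congr 2
    have h2 : (r:ℝ) * a = 1 + Q * m := by exact_mod_cast ham
    have h3 : (a:ℝ) = (1 + Q * m) / r := by field_simp; linarith
    push_cast
    rw [h3]
    field_simp
    ring
  rw [sum_congr rfl fun n _ => h1 n]
  have h2 : ∑ n ∈ (Finset.Icc 1 N).filter (fun n => Nat.Coprime n Q), g n - ∑ n ∈ (Finset.Icc 1 N).filter (fun n => Nat.Coprime n r), g n
      = ∑ n ∈ (Finset.Icc 1 N).filter (fun n => ¬ Nat.Coprime n r), g n - ∑ n ∈ (Finset.Icc 1 N).filter (fun n => ¬ Nat.Coprime n Q), g n := by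
    have e1 := sum_filter_add_sum_filter_not (Finset.Icc 1 N) (fun n => Nat.Coprime n Q) g
    have e2 := sum_filter_add_sum_filter_not (Finset.Icc 1 N) (fun n => Nat.Coprime n r) g
    linear_combination e1 - e2
  have h3 : ∀ k, ‖∑ n ∈ (Finset.Icc 1 N).filter (fun n => ¬ Nat.Coprime n k), g n‖ ≤ E0 N k := by
    intro k
    refine (norm_sum_le _ _).trans (le_of_eq ?_)
    unfold E0
    exact sum_congr rfl fun n _ => hgn n
  have h4 : ‖ram Q ((a * y : ℕ) : ℤ)‖ ≤ y * (1 + Real.log y) := by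
    refine ram_le Q y hQ hy _ ?_
    intro c hc1 hc2
    have hc3 : c ∣ a * y := by exact_mod_cast hc2
    have h5 : r * (a * y) = y + Q * (m * y) := by
      calc r * (a * y) = (r * a) * y := by ring
        _ = _ := by rw [ham]; ring
    have h6 : c ∣ y + Q * (m * y) := h5 ▸ Dvd.dvd.mul_left hc3 r
    exact (Nat.dvd_add_left (Dvd.dvd.mul_right hc1 _)).mp h6
  have hφ : (0:ℝ) ≤ x / (Nat.totient Q : ℝ) := by positivity
  have h5 : ∑ n ∈ (Finset.Icc 1 N).filter (fun n => Nat.Coprime n Q), g n - ((x / (Nat.totient Q : ℝ) : ℝ) : ℂ) * ram Q ((a * y : ℕ) : ℤ)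
        - ∑ n ∈ (Finset.Icc 1 N).filter (fun n => Nat.Coprime n r), g n
      = (∑ n ∈ (Finset.Icc 1 N).filter (fun n => ¬ Nat.Coprime n r), g n - ∑ n ∈ (Finset.Icc 1 N).filter (fun n => ¬ Nat.Coprime n Q), g n)
        - ((x / (Nat.totient Q : ℝ) : ℝ) : ℂ) * ram Q ((a * y : ℕ) : ℤ) := by
    rw [← h2]; ring
  rw [h5]
  refine (norm_sub_le _ _).trans ?_
  refine add_le_add ?_ ?_
  · refine (norm_sub_le _ _).trans ?_
    rw [add_comm]
    exact add_le_add (h3 Q) (h3 r)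
  · rw [norm_mul, Complex.norm_real, Real.norm_of_nonneg hφ]
    exact mul_le_mul_of_nonneg_left h4 hφ

/-- prime number theorem input -/
lemma pnt_local (N r : ℕ) (β Δ K : ℝ) (hN : 1 ≤ N) (hβ0 : 0 ≤ β) (hβ : β * N ≤ K)
    (hΔ : ∀ j ≤ N, |∑ n ∈ Finset.Icc 1 j, Λ n - j| ≤ Δ) :
    ‖∑ n ∈ (Finset.Icc 1 N).filter (fun n => Nat.Coprime n r), ((Λ n : ℝ) : ℂ) * e (n * β) - DD N β‖
      ≤ E0 N r + (1 + 2 * Real.pi * K) * Δ := by
  have hΔ0 : 0 ≤ Δ := (abs_nonneg _).trans (hΔ N le_rfl)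
  have hpi := Real.pi_pos
  have hNr : (0:ℝ) < N := by exact_mod_cast hN
  have h1 : ∑ n ∈ (Finset.Icc 1 N).filter (fun n => Nat.Coprime n r), ((Λ n : ℝ) : ℂ) * e (n * β) - DD N β
      = ∑ n ∈ Finset.Icc 1 N, (((Λ n : ℝ) : ℂ) - 1) * e (n * β)
        - ∑ n ∈ (Finset.Icc 1 N).filter (fun n => ¬ Nat.Coprime n r), ((Λ n : ℝ) : ℂ) * e (n * β) := by
    have e1 := sum_filter_add_sum_filter_not (Finset.Icc 1 N) (fun n => Nat.Coprime n r) (fun n => ((Λ n : ℝ) : ℂ) * e (n * β))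
    have e2 : ∑ n ∈ Finset.Icc 1 N, (((Λ n : ℝ) : ℂ) - 1) * e (n * β) = ∑ n ∈ Finset.Icc 1 N, ((Λ n : ℝ) : ℂ) * e (n * β) - DD N β := by
      unfold DD
      rw [← sum_sub_distrib]
      exact sum_congr rfl fun n _ => by ring
    rw [e2, ← e1]; ring
  rw [h1]
  refine (norm_sub_le _ _).trans ?_
  rw [add_comm]
  refine add_le_add ?_ ?_
  · refine (norm_sum_le _ _).trans (le_of_eq ?_)
    unfold E0
    refine sum_congr rfl fun n _ => ?_
    rw [norm_mul, norm_e, mul_one, Complex.norm_real, Real.norm_of_nonneg ArithmeticFunction.vonMangoldt_nonneg]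
  · refine (abel_exp (fun n => ((Λ n : ℝ) : ℂ) - 1) β N (2 * Real.pi * β) (by rw [abs_of_nonneg hβ0])).trans ?_
    have h2 : ∀ j ≤ N, ‖∑ n ∈ Finset.Icc 1 j, (((Λ n : ℝ) : ℂ) - 1)‖ ≤ Δ := by
      intro j hj
      have h3 : ∑ n ∈ Finset.Icc 1 j, (((Λ n : ℝ) : ℂ) - 1) = ((∑ n ∈ Finset.Icc 1 j, Λ n - j : ℝ) : ℂ) := by
        rw [sum_sub_distrib]
        push_cast
        simp
      rw [h3, Complex.norm_real, Real.norm_eq_abs]
      exact hΔ j hj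
    have h4 : ∑ j ∈ range N, ‖∑ n ∈ Finset.Icc 1 j, (((Λ n : ℝ) : ℂ) - 1)‖ ≤ N * Δ := by
      refine (sum_le_sum fun j hj => h2 j (mem_range.mp hj).le).trans (le_of_eq ?_)
      rw [sum_const, card_range, nsmul_eq_mul]
    have h5 : 2 * Real.pi * β * ∑ j ∈ range N, ‖∑ n ∈ Finset.Icc 1 j, (((Λ n : ℝ) : ℂ) - 1)‖ ≤ 2 * Real.pi * K * Δ := by
      calc 2 * Real.pi * β * ∑ j ∈ range N, ‖∑ n ∈ Finset.Icc 1 j, (((Λ n : ℝ) : ℂ) - 1)‖
          ≤ 2 * Real.pi * β * (N * Δ) := mul_le_mul_of_nonneg_left h4 (by positivity)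
        _ = 2 * Real.pi * (β * N) * Δ := by ring
        _ ≤ 2 * Real.pi * K * Δ := by
            refine mul_le_mul_of_nonneg_right ?_ hΔ0
            exact mul_le_mul_of_nonneg_left hβ (by positivity)
    have h6 := h2 N le_rfl
    linarith

end Pool.Agent.Var73
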