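import Pool.Agent.Lib_helper73.Var.Point

/-! The contribution of one modulus: main theorem -/

set_option autoImplicit false

namespace Pool.Agent.Var73

open Finset Complex Pool.Agent.Var35 DirichletCharacter Filter
open scoped ArithmeticFunction ArithmeticFunction.Moebius ArithmeticFunction.zeta

lemma norm_mu_div (r : ℕ) : ‖((μ r : ℤ) : ℂ) / (Nat.totient r : ℂ)‖ ≤ 1 / (Nat.totient r : ℝ) := by
  rw [norm_div, Complex.norm_natCast, Complex.norm_intCast]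
  refine div_le_div_of_nonneg_right ?_ (Nat.cast_nonneg _)
  exact_mod_cast ArithmeticFunction.abs_moebius_le_one (n := r)

open scoped Classical in
/-- the character part -/
lemma char_part (N Q Y r s m : ℕ) :
    (((μ r : ℤ) : ℂ) / (Nat.totient r : ℂ)) * ∑ n ∈ (Finset.Icc 1 N).filter (fun n => Nat.Coprime n r), ∑ y ∈ CY r Y,
        ((Λ n : ℝ) : ℂ) * hh N ((y:ℝ) / ((r:ℝ) * Q)) n *
        ((1 / (Nat.totient r : ℂ)) * ∑ χ ∈ univ.filter (fun χ : DirichletCharacter ℂ r => ¬ χ.conductor ∣ s),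
          gS ⟨r, χ⟩ * χ ((n * y * m : ℕ) : ZMod r))
      = E2t N Q Y r s m := by
  have h1 : ∀ χ : DirichletCharacter ℂ r, Xs N Q Y ⟨r, χ⟩ = ∑ n ∈ (Finset.Icc 1 N).filter (fun n => Nat.Coprime n r), ∑ y ∈ CY r Y,
      ((Λ n : ℝ) : ℂ) * (χ (n : ZMod r) * χ (y : ZMod r)) * hh N ((y:ℝ) / ((r:ℝ) * Q)) n := by
    intro χ
    unfold Xs
    rw [sum_comm, sum_filter]
    refine sum_congr rfl fun n _ => ?_
    split_ifs with hn
    · unfold CY
      rw [sum_filter, Icc_eq_Ioc]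
      refine sum_congr rfl fun y _ => ?_
      unfold ev
      simp only
      split_ifs with hy
      · rfl
      · have : χ (y : ZMod r) = 0 := MulChar.map_nonunit _ (by rw [ZMod.isUnit_iff_coprime]; exact hy)
        rw [this]; ring
    · refine sum_eq_zero fun y _ => ?_
      unfold ev
      simp only
      have : χ (n : ZMod r) = 0 := MulChar.map_nonunit _ (by rw [ZMod.isUnit_iff_coprime]; exact hn)
      rw [this]; ring
  unfold E2t
  simp_rw [h1, mul_sum]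
  have h2 : ∀ n ∈ (Finset.Icc 1 N).filter (fun n => Nat.Coprime n r), ∑ y ∈ CY r Y, ∑ χ ∈ univ.filter (fun χ : DirichletCharacter ℂ r => ¬ χ.conductor ∣ s),
      ((μ r : ℤ) : ℂ) / (Nat.totient r : ℂ) * (((Λ n : ℝ) : ℂ) * hh N ((y:ℝ) / ((r:ℝ) * Q)) n * ((1 / (Nat.totient r : ℂ)) * (gS ⟨r, χ⟩ * χ ((n * y * m : ℕ) : ZMod r))))
      = ∑ χ ∈ univ.filter (fun χ : DirichletCharacter ℂ r => ¬ χ.conductor ∣ s), ∑ y ∈ CY r Y,
      ((μ r : ℤ) : ℂ) / (Nat.totient r : ℂ) * (((Λ n : ℝ) : ℂ) * hh N ((y:ℝ) / ((r:ℝ) * Q)) n * ((1 / (Nat.totient r : ℂ)) * (gS ⟨r, χ⟩ * χ ((n * y * m : ℕ) : ZMod r)))) :=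
    fun n _ => sum_comm
  rw [sum_congr rfl h2, sum_comm]
  refine sum_congr rfl fun χ _ => sum_congr rfl fun n _ => sum_congr rfl fun y _ => ?_
  push_cast
  rw [map_mul, map_mul]
  ring

/-- the main theorem for one modulus -/
theorem point (N Q Y s t a m : ℕ) (x K Δ : ℝ) (hN : 1 ≤ N) (hQ : 1 ≤ Q) (hs : 0 < s) (ht : 0 < t) (hst : Nat.Coprime s t)
    (ham : s * t * a = 1 + Q * m) (hx : 0 ≤ x) (hK : (Y:ℝ) * N ≤ K * (((s * t : ℕ) : ℝ) * Q))
    (hΔ : ∀ j ≤ N, |∑ n ∈ Finset.Icc 1 j, Λ n - j| ≤ Δ) :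
    ‖Tr N x Q Y (s * t) a - E2t N Q Y (s * t) s m
        - (((μ (s * t) : ℤ) : ℂ) / (Nat.totient (s * t) : ℂ)) ^ 2 * ((((1 / (N:ℝ)) * ∑ y ∈ CY (s * t) Y, ‖DD N ((y:ℝ) / (((s * t : ℕ) : ℝ) * Q))‖ ^ 2 : ℝ)) : ℂ)‖
      ≤ (1 / (Nat.totient (s * t) : ℝ)) * (∑ y ∈ CY (s * t) Y, (E0 N Q + E0 N (s * t) + (x / (Nat.totient Q : ℝ)) * (y * (1 + Real.log y))))
        + (1 / (Nat.totient (s * t) : ℝ)) * ((1 / (Nat.totient t : ℝ)) * ((N + Δ) * (2 * Nat.totient s * t.divisors.card * (1 + 2 * Real.pi * K))))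
        + (1 / (Nat.totient (s * t) : ℝ)) ^ 2 * (((CY (s * t) Y).card : ℝ) * (E0 N (s * t) + (1 + 2 * Real.pi * K) * Δ)) := by
  classical
  have hs' : NeZero s := ⟨by omega⟩
  have ht' : NeZero t := ⟨by omega⟩
  have hst0 : 0 < s * t := Nat.mul_pos hs ht
  have hst' : NeZero (s * t) := ⟨by omega⟩
  have hNr : (0:ℝ) < N := by exact_mod_cast hN
  have hQr : (0:ℝ) < Q := by exact_mod_cast hQ
  have hNc : (N:ℂ) ≠ 0 := by exact_mod_cast hNr.ne'
  have hpi := Real.pi_pos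
  obtain ⟨u, v, huv⟩ : ∃ u v : ℤ, (s:ℤ) * u + t * v = 1 := by
    have h1 : IsCoprime (s:ℤ) (t:ℤ) := Nat.isCoprime_iff_coprime.mpr hst
    obtain ⟨u, v, h⟩ := h1
    exact ⟨u, v, by linarith⟩
  have hmr := cop_m (s * t) Q a m ham
  obtain ⟨r, hr⟩ : ∃ r, r = s * t := ⟨_, rfl⟩
  have hrr : (0:ℝ) < (r:ℝ) := by rw [hr]; exact_mod_cast hst0
  obtain ⟨κ, hκ⟩ : ∃ κ : ℂ, κ = ((μ r : ℤ) : ℂ) / (Nat.totient r : ℂ) := ⟨_, rfl⟩
  have hκn : ‖κ‖ ≤ 1 / (Nat.totient r : ℝ) := by rw [hκ]; exact norm_mu_div r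
  have hφr : (0:ℝ) < Nat.totient r := by rw [hr]; exact_mod_cast Nat.totient_pos.mpr hst0
  have hφt : (0:ℝ) < Nat.totient t := by exact_mod_cast Nat.totient_pos.mpr ht
  have hφs : (0:ℝ) < Nat.totient s := by exact_mod_cast Nat.totient_pos.mpr hs
  have hκ2 : κ = (((μ t : ℤ) : ℂ) / (Nat.totient t : ℂ)) * (((μ s : ℤ) : ℂ) / (Nat.totient s : ℂ)) := by
    rw [hκ, hr, Nat.totient_mul hst, ArithmeticFunction.isMultiplicative_moebius.map_mul_of_coprime hst]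
    push_cast
    rw [div_mul_div_comm]
    congr 1 <;> ring
  set A := (Finset.Icc 1 N).filter (fun n => Nat.Coprime n r) with hA
  set β : ℕ → ℝ := fun y => (y:ℝ) / ((r:ℝ) * Q) with hβ
  set S : ℕ → ℂ := fun y => ∑ n ∈ A, ((Λ n : ℝ) : ℂ) * (e (((n * y * m : ℕ) : ℝ) / r) * e (n * (β y))) with hS
  set c : ℕ → ℂ := fun y => (1 / (N:ℂ)) * (starRingEnd ℂ) (DD N (β y)) with hc
  have hcn : ∀ y, ‖c y‖ ≤ 1 := by
    intro y
    simp only [hc]
    rw [norm_mul, norm_div, norm_one, Complex.norm_natCast, RCLike.norm_conj, one_div, inv_mul_le_iff₀ hNr, mul_one]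
    exact norm_DD_le N _
  have hch : ∀ (y n : ℕ), c y * e ((n:ℝ) * β y) = hh N (β y) n := by
    intro y n; simp only [hc]; unfold hh; ring
  have hβN : ∀ y ∈ CY r Y, β y * N ≤ K := by
    intro y hy
    rw [mem_CY] at hy
    simp only [hβ]
    rw [div_mul_eq_mul_div, div_le_iff₀ (by positivity)]
    have : (y:ℝ) ≤ Y := by exact_mod_cast hy.1.2
    calc (y:ℝ) * N ≤ Y * N := mul_le_mul_of_nonneg_right this hNr.le
      _ ≤ K * (r * Q) := by rw [hr]; exact hK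
  -- step 1
  set T1 : ℂ := κ * ∑ y ∈ CY r Y, c y * S y with hT1
  have step1 : ‖Tr N x Q Y r a - T1‖ ≤ (1 / (Nat.totient r : ℝ)) * (∑ y ∈ CY r Y, (E0 N Q + E0 N r + (x / (Nat.totient Q : ℝ)) * (y * (1 + Real.log y)))) := by
    have e1 : Tr N x Q Y r a - T1 = κ * ∑ y ∈ CY r Y, c y * (FI N x Q ((a * y : ℕ) : ℤ) - S y) := by
      rw [hT1]
      unfold Tr
      rw [← hκ, ← mul_sub, ← sum_sub_distrib]
      congr 1
      exact sum_congr rfl fun y _ => by rw [mul_sub]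
    rw [e1, norm_mul]
    refine mul_le_mul hκn ?_ (norm_nonneg _) (by positivity)
    refine (norm_sum_le _ _).trans (sum_le_sum fun y hy => ?_)
    rw [mem_CY] at hy
    rw [norm_mul]
    have h2 := FI_approx N Q r a m y x hQ (by rw [hr]; omega) hx hy.1.1 (by rw [hr]; exact ham)
    calc ‖c y‖ * ‖FI N x Q ((a * y : ℕ) : ℤ) - S y‖ ≤ 1 * ‖FI N x Q ((a * y : ℕ) : ℤ) - S y‖ :=
          mul_le_mul_of_nonneg_right (hcn y) (norm_nonneg _)
      _ ≤ _ := by rw [one_mul]; exact h2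
  -- step 2
  set T2 : ℂ := κ * ∑ n ∈ A, ((Λ n : ℝ) : ℂ) * ((((μ t : ℤ) : ℂ) / (Nat.totient t : ℂ)) *
    ∑ y ∈ CY r Y, hh N (β y) n * e (((v * n * m * y : ℤ) : ℝ) / s)) with hT2
  have step2 : T1 = T2 + E2t N Q Y r s m := by
    have e1 : T1 = κ * ∑ n ∈ A, ∑ y ∈ CY r Y, ((Λ n : ℝ) : ℂ) * hh N (β y) n * e (((n * y * m : ℕ) : ℝ) / r) := by
      rw [hT1]
      congr 1
      simp only [hS]
      simp_rw [mul_sum]
      rw [sum_comm]
      refine sum_congr rfl fun n _ => sum_congr rfl fun y _ => ?_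
      rw [← hch]; ring
    rw [e1, ← char_part N Q Y r s m, ← hκ, hT2, ← mul_add, ← sum_add_distrib]
    congr 1
    refine sum_congr rfl fun n hn => ?_
    rw [hA, mem_filter, Finset.mem_Icc] at hn
    rw [mul_sum, mul_sum, ← sum_add_distrib]
    refine sum_congr rfl fun y hy => ?_
    rw [mem_CY] at hy
    have hcop : IsCoprime (((n * y * m : ℕ) : ℤ)) ((s * t : ℕ) : ℤ) := by
      rw [Nat.isCoprime_iff_coprime]
      rw [← hr]
      exact Nat.Coprime.mul_left (Nat.Coprime.mul_left hn.2 hy.2) (by rw [hr]; exact hmr)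
    have h3 := e_expand s t hst u v huv ((n * y * m : ℕ) : ℤ) hcop
    have h4 : e (((n * y * m : ℕ) : ℝ) / r) = (((μ t : ℤ) : ℂ) / (Nat.totient t : ℂ)) * e (((v * n * m * y : ℤ) : ℝ) / s)
        + (1 / (Nat.totient r : ℂ)) * ∑ χ ∈ univ.filter (fun χ : DirichletCharacter ℂ r => ¬ χ.conductor ∣ s),
          gS ⟨r, χ⟩ * χ ((n * y * m : ℕ) : ZMod r) := by
      subst hr
      rw [Int.cast_natCast] at h3
      rw [h3]
      congr 1
      · congr 3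
        push_cast; ring
      · congr 1
        refine sum_congr rfl fun χ _ => ?_
        rw [gS_eq, Int.cast_natCast]
    rw [h4]
    ring
  -- step 3
  set T3 : ℂ := κ * ∑ n ∈ A, ((Λ n : ℝ) : ℂ) * ((((μ t : ℤ) : ℂ) / (Nat.totient t : ℂ)) *
    ((((μ s : ℤ) : ℂ) / (Nat.totient s : ℂ)) * ∑ y ∈ CY r Y, hh N (β y) n)) with hT3
  have hψ : ∑ n ∈ A, Λ n ≤ N + Δ := by
    have h1 : ∑ n ∈ A, Λ n ≤ ∑ n ∈ Finset.Icc 1 N, Λ n :=
      sum_le_sum_of_subset_of_nonneg (filter_subset _ _) fun _ _ _ => ArithmeticFunction.vonMangoldt_nonneg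
    have h2 := (abs_le.mp (hΔ N le_rfl)).2
    linarith
  have hV0 : 0 ≤ 1 + 2 * Real.pi * K := by
    have h0 := hh_tv N N Y le_rfl ((r:ℝ) * Q) K (by positivity) (by rw [hr]; exact hK)
    refine le_trans ?_ h0
    positivity
  have step3 : ‖T2 - T3‖ ≤ (1 / (Nat.totient r : ℝ)) * ((1 / (Nat.totient t : ℝ)) * ((N + Δ) * (2 * Nat.totient s * t.divisors.card * (1 + 2 * Real.pi * K)))) := by
    have e1 : T2 - T3 = κ * ((((μ t : ℤ) : ℂ) / (Nat.totient t : ℂ)) * ∑ n ∈ A, ((Λ n : ℝ) : ℂ) *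
        (∑ y ∈ CY r Y, hh N (β y) n * e (((v * n * m * y : ℤ) : ℝ) / s) - (((μ s : ℤ) : ℂ) / (Nat.totient s : ℂ)) * ∑ y ∈ CY r Y, hh N (β y) n)) := by
      rw [hT2, hT3, ← mul_sub, ← sum_sub_distrib]
      congr 1
      rw [mul_sum]
      exact sum_congr rfl fun n _ => by ring
    rw [e1, norm_mul]
    refine mul_le_mul hκn ?_ (norm_nonneg _) (by positivity)
    rw [norm_mul]
    refine mul_le_mul (norm_mu_div t) ?_ (norm_nonneg _) (by positivity)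
    refine (norm_sum_le _ _).trans ?_
    have h2 : ∀ n ∈ A, ‖((Λ n : ℝ) : ℂ) *
        (∑ y ∈ CY r Y, hh N (β y) n * e (((v * n * m * y : ℤ) : ℝ) / s) - (((μ s : ℤ) : ℂ) / (Nat.totient s : ℂ)) * ∑ y ∈ CY r Y, hh N (β y) n)‖
        ≤ Λ n * (2 * Nat.totient s * t.divisors.card * (1 + 2 * Real.pi * K)) := by
      intro n hn
      rw [hA, mem_filter, Finset.mem_Icc] at hn
      rw [norm_mul, Complex.norm_real, Real.norm_of_nonneg ArithmeticFunction.vonMangoldt_nonneg]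
      refine mul_le_mul_of_nonneg_left ?_ ArithmeticFunction.vonMangoldt_nonneg
      have hns : Nat.Coprime n s := Nat.Coprime.coprime_dvd_right (by rw [hr]; exact Dvd.intro t rfl) hn.2
      have hms : Nat.Coprime m s := Nat.Coprime.coprime_dvd_right (Dvd.intro t rfl) hmr
      have hvs : IsCoprime v (s:ℤ) := ⟨t, u, by linarith⟩
      have hw : IsCoprime (v * n * m) (s:ℤ) := by
        refine IsCoprime.mul_left (IsCoprime.mul_left hvs ?_) ?_
        · exact Nat.isCoprime_iff_coprime.mpr hns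
        · exact Nat.isCoprime_iff_coprime.mpr hms
      have h3 := avg_exp s t Y hs ht hst (v * n * m) hw (fun y => hh N (β y) n) (1 + 2 * Real.pi * K)
        (hh_tv N n Y hn.1.2 ((r:ℝ) * Q) K (by positivity) (by rw [hr]; exact hK))
      have h4 : (Finset.Icc 1 Y).filter (fun y => Nat.Coprime y (s * t)) = CY r Y := by unfold CY; rw [hr]
      rw [h4] at h3
      exact h3
    refine (sum_le_sum h2).trans ?_
    rw [← sum_mul]
    exact mul_le_mul_of_nonneg_right hψ (by positivity)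
  -- step 4
  have e3 : T3 = κ ^ 2 * ∑ y ∈ CY r Y, c y * ∑ n ∈ A, ((Λ n : ℝ) : ℂ) * e (n * β y) := by
    have h1 : T3 = κ * ∑ n ∈ A, κ * ∑ y ∈ CY r Y, ((Λ n : ℝ) : ℂ) * hh N (β y) n := by
      rw [hT3]
      congr 1
      refine sum_congr rfl fun n _ => ?_
      rw [hκ2, mul_sum, mul_sum, mul_sum, mul_sum]
      exact sum_congr rfl fun y _ => by ring
    rw [h1, ← mul_sum, sum_comm, ← mul_assoc, ← sq]
    congr 1
    refine sum_congr rfl fun y _ => ?_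
    rw [mul_sum]
    refine sum_congr rfl fun n _ => ?_
    rw [← hch]; ring
  have e4 : (((1 / (N:ℝ)) * ∑ y ∈ CY r Y, ‖DD N (β y)‖ ^ 2 : ℝ) : ℂ) = ∑ y ∈ CY r Y, c y * DD N (β y) := by
    push_cast
    rw [mul_sum]
    refine sum_congr rfl fun y _ => ?_
    simp only [hc]
    rw [mul_assoc, Complex.conj_mul']
  have step4 : ‖T3 - κ ^ 2 * (((1 / (N:ℝ)) * ∑ y ∈ CY r Y, ‖DD N (β y)‖ ^ 2 : ℝ) : ℂ)‖
      ≤ (1 / (Nat.totient r : ℝ)) ^ 2 * (((CY r Y).card : ℝ) * (E0 N r + (1 + 2 * Real.pi * K) * Δ)) := by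
    rw [e3, e4, ← mul_sub, ← sum_sub_distrib, norm_mul, norm_pow]
    refine mul_le_mul (pow_le_pow_left₀ (norm_nonneg _) hκn 2) ?_ (norm_nonneg _) (by positivity)
    refine (norm_sum_le _ _).trans ?_
    have h2 : ∀ y ∈ CY r Y, ‖c y * ∑ n ∈ A, ((Λ n : ℝ) : ℂ) * e (n * β y) - c y * DD N (β y)‖ ≤ E0 N r + (1 + 2 * Real.pi * K) * Δ := by
      intro y hy
      rw [← mul_sub, norm_mul]
      have h3 := pnt_local N r (β y) Δ K hN (by simp only [hβ]; positivity) (hβN y hy) hΔ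
      calc _ ≤ 1 * ‖∑ n ∈ A, ((Λ n : ℝ) : ℂ) * e (n * β y) - DD N (β y)‖ := mul_le_mul_of_nonneg_right (hcn y) (norm_nonneg _)
        _ ≤ _ := by rw [one_mul]; exact h3
    refine (sum_le_sum h2).trans (le_of_eq ?_)
    rw [sum_const, nsmul_eq_mul]
  -- assembly
  have hfin : Tr N x Q Y r a - E2t N Q Y r s m - κ ^ 2 * (((1 / (N:ℝ)) * ∑ y ∈ CY r Y, ‖DD N (β y)‖ ^ 2 : ℝ) : ℂ)
      = (Tr N x Q Y r a - T1) + (T2 - T3) + (T3 - κ ^ 2 * (((1 / (N:ℝ)) * ∑ y ∈ CY r Y, ‖DD N (β y)‖ ^ 2 : ℝ) : ℂ)) := by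
    rw [step2]; ring
  rw [← hr, ← hκ]
  rw [hfin]
  refine (norm_add_le _ _).trans (add_le_add ?_ step4)
  exact (norm_add_le _ _).trans (add_le_add step1 step3)

end Pool.Agent.Var73
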