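import Pool.Agent.Lib_helper73.Var.MVT
import Pool.Agent.Lib_helper35.Var.Dual

/-! Separation of variables by power series -/

set_option autoImplicit false

namespace Pool.Agent.Var73

open Finset Complex Pool.Agent.Var35 DirichletCharacter Filter
open scoped ArithmeticFunction ArithmeticFunction.Moebius ArithmeticFunction.zeta

/-- the exponential sum -/
noncomputable def DD (N : ℕ) (β : ℝ) : ℂ := ∑ n ∈ Finset.Icc 1 N, e (n * β)

/-- the normalised kernel -/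
noncomputable def hh (N : ℕ) (β : ℝ) (n : ℕ) : ℂ := (1 / (N:ℂ)) * ((starRingEnd ℂ) (DD N β) * e (n * β))

lemma sum_Icc_range {E : Type*} [AddCommMonoid E] (N : ℕ) (f : ℕ → E) :
    ∑ n ∈ Finset.Icc 1 N, f n = ∑ i ∈ range N, f (i + 1) := by
  rw [range_eq_Ico, Finset.sum_Ico_add' f 0 N 1]
  refine sum_congr ?_ fun _ _ => rfl
  ext k; simp only [Finset.mem_Icc, Finset.mem_Ico]; omega

lemma hh_eq (N : ℕ) (β : ℝ) (n : ℕ) : hh N β n = (1 / (N:ℂ)) * ∑ i ∈ range N, e (((n:ℝ) - (i + 1)) * β) := by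
  unfold hh DD
  rw [sum_Icc_range, map_sum, sum_mul]
  congr 1
  refine sum_congr rfl fun i _ => ?_
  rw [mul_comm, ← e_sub]
  congr 1
  push_cast; ring

lemma norm_hh_le (N : ℕ) (β : ℝ) (n : ℕ) : ‖hh N β n‖ ≤ 1 := by
  rw [hh_eq, norm_mul, norm_div, norm_one, Complex.norm_natCast]
  have h1 : ‖∑ i ∈ range N, e (((n:ℝ) - (i + 1)) * β)‖ ≤ N := by
    refine (norm_sum_le _ _).trans (le_of_eq ?_)
    rw [sum_congr rfl fun i _ => norm_e _]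
    simp
  rcases Nat.eq_zero_or_pos N with h | h
  · subst h; simp
  · have : (0:ℝ) < N := by exact_mod_cast h
    rw [one_div, inv_mul_le_iff₀ this, mul_one]
    exact h1

/-- Abel summation with complex weights -/
lemma abel_var (f w : ℕ → ℂ) (N : ℕ) :
    ‖∑ n ∈ Finset.Icc 1 N, w n * f n‖ ≤ ‖w N‖ * ‖∑ n ∈ Finset.Icc 1 N, f n‖
      + ∑ u ∈ range N, ‖w (u + 1) - w u‖ * ‖∑ n ∈ Finset.Icc 1 u, f n‖ := by
  have h1 : ∀ N : ℕ, ∑ n ∈ Finset.Icc 1 N, w n * f n = w N * ∑ n ∈ Finset.Icc 1 N, f n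
      - ∑ u ∈ range N, (w (u + 1) - w u) * ∑ n ∈ Finset.Icc 1 u, f n := by
    intro N
    induction N with
    | zero => simp
    | succ N ih =>
        rw [Finset.sum_Icc_succ_top (by omega), ih, Finset.sum_Icc_succ_top (by omega), sum_range_succ]
        ring
  rw [h1 N]
  refine (norm_sub_le _ _).trans ?_
  refine add_le_add (le_of_eq (norm_mul _ _)) ?_
  refine (norm_sum_le _ _).trans (sum_le_sum fun u _ => le_of_eq (norm_mul _ _))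

/-- the averaged powers -/
noncomputable def Ak (N k n : ℕ) : ℝ := (1 / (N:ℝ)) * ∑ i ∈ range N, (((n:ℝ) - (i + 1)) / N) ^ k

lemma Ak_le (N k n : ℕ) (hn : n ≤ N) : |Ak N k n| ≤ 1 := by
  unfold Ak
  rcases Nat.eq_zero_or_pos N with h | h
  · subst h; simp
  have hN : (0:ℝ) < N := by exact_mod_cast h
  have hnr : (n:ℝ) ≤ N := by exact_mod_cast hn
  have hn0 : (0:ℝ) ≤ n := Nat.cast_nonneg n
  rw [abs_mul, abs_of_nonneg (by positivity : (0:ℝ) ≤ 1 / N), one_div, inv_mul_le_iff₀ hN, mul_one]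
  refine (abs_sum_le_sum_abs _ _).trans ?_
  have h1 : ∀ i ∈ range N, |(((n:ℝ) - (i + 1)) / N) ^ k| ≤ 1 := by
    intro i hi
    rw [mem_range] at hi
    have hi' : (i:ℝ) + 1 ≤ N := by exact_mod_cast hi
    have hi0 : (0:ℝ) ≤ i := Nat.cast_nonneg i
    rw [abs_pow]
    refine pow_le_one₀ (abs_nonneg _) ?_
    rw [abs_div, abs_of_pos hN, div_le_one hN, abs_le]
    constructor <;> linarith
  refine (sum_le_sum h1).trans ?_
  simp

lemma Ak_diff (N k n : ℕ) (hn : n ≤ N) : |Ak N k (n + 1) - Ak N k n| ≤ 2 / N := by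
  unfold Ak
  rcases Nat.eq_zero_or_pos N with h | h
  · subst h; simp
  have hN : (0:ℝ) < N := by exact_mod_cast h
  have hnr : (n:ℝ) ≤ N := by exact_mod_cast hn
  have hn0 : (0:ℝ) ≤ n := Nat.cast_nonneg n
  rw [← mul_sub, ← sum_sub_distrib, abs_mul, abs_of_nonneg (by positivity : (0:ℝ) ≤ 1 / N)]
  have h1 : ∑ i ∈ range N, ((((n + 1 : ℕ):ℝ) - (i + 1)) / N) ^ k - ∑ i ∈ range N, (((n:ℝ) - (i + 1)) / N) ^ k
      = ((n:ℝ) / N) ^ k - (((n:ℝ) - N) / N) ^ k := by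
    rw [← sum_sub_distrib]
    have h2 := Finset.sum_range_sub' (fun i : ℕ => (((n:ℝ) - i) / N) ^ k) N
    simp only [Nat.cast_zero, sub_zero] at h2
    rw [← h2]
    refine sum_congr rfl fun i _ => ?_
    push_cast
    congr 2
    ring
  rw [← sum_sub_distrib] at h1
  rw [h1]
  have h3 : |((n:ℝ) / N) ^ k| ≤ 1 := by
    rw [abs_pow]
    refine pow_le_one₀ (abs_nonneg _) ?_
    rw [abs_div, abs_of_pos hN, div_le_one hN, abs_le]
    constructor <;> linarith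
  have h4 : |(((n:ℝ) - N) / N) ^ k| ≤ 1 := by
    rw [abs_pow]
    refine pow_le_one₀ (abs_nonneg _) ?_
    rw [abs_div, abs_of_pos hN, div_le_one hN, abs_le]
    constructor <;> linarith
  have h5 : |((n:ℝ) / N) ^ k - (((n:ℝ) - N) / N) ^ k| ≤ 2 := by
    refine (abs_sub _ _).trans ?_
    linarith
  calc 1 / (N:ℝ) * |((n:ℝ) / N) ^ k - (((n:ℝ) - N) / N) ^ k| ≤ 1 / N * 2 :=
        mul_le_mul_of_nonneg_left h5 (by positivity)
    _ = 2 / N := by ring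

lemma hh_series (N Y r Q y n : ℕ) (hN : 0 < N) (hY : 0 < Y) (hr : 0 < r) (hQ : 0 < Q) :
    Tendsto (fun J => ∑ k ∈ range J, ((2 * Real.pi * Complex.I * ((Y:ℝ) * N / (r * Q) : ℝ) : ℂ) ^ k / (k.factorial : ℂ))
      * (((((y:ℝ) / Y) ^ k : ℝ) : ℂ) * ((Ak N k n : ℝ) : ℂ))) atTop (nhds (hh N ((y:ℝ) / (r * Q)) n)) := by
  have hN' : (N:ℝ) ≠ 0 := by positivity
  have hY' : (Y:ℝ) ≠ 0 := by positivity
  have hr' : (r:ℝ) ≠ 0 := by positivity
  have hQ' : (Q:ℝ) ≠ 0 := by positivity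
  rw [hh_eq]
  have h1 : Tendsto (fun J => (1 / (N:ℂ)) * ∑ i ∈ range N, ∑ k ∈ range J,
      ((2 * Real.pi * Complex.I * ((((n:ℝ) - (i + 1)) * ((y:ℝ) / (r * Q)) : ℝ) : ℂ))) ^ k / (k.factorial : ℂ)) atTop
      (nhds ((1 / (N:ℂ)) * ∑ i ∈ range N, e (((n:ℝ) - (i + 1)) * ((y:ℝ) / (r * Q))))) := by
    refine Tendsto.const_mul _ (tendsto_finsetSum _ fun i _ => ?_)
    exact e_series _
  refine h1.congr fun J => ?_
  rw [sum_comm, mul_sum]
  refine sum_congr rfl fun k _ => ?_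
  unfold Ak
  push_cast
  rw [mul_sum, mul_sum, mul_sum, mul_sum]
  refine sum_congr rfl fun i _ => ?_
  have hN'' : (N:ℂ) ≠ 0 := by exact_mod_cast hN'
  have hY'' : (Y:ℂ) ≠ 0 := by exact_mod_cast hY'
  have hr'' : (r:ℂ) ≠ 0 := by exact_mod_cast hr'
  have hQ'' : (Q:ℂ) ≠ 0 := by exact_mod_cast hQ'
  have h2 : (2 * (Real.pi:ℂ) * Complex.I * (((n:ℂ) - (i + 1)) * ((y:ℂ) / (r * Q))))
      = (2 * (Real.pi:ℂ) * Complex.I * ((Y:ℂ) * N / (r * Q))) * ((y:ℂ) / Y) * (((n:ℂ) - (i + 1)) / N) := by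
    field_simp
  rw [h2, mul_pow, mul_pow]
  ring

/-- the bilinear sum attached to a character -/
noncomputable def Xs (N Q Y : ℕ) (x : Chr) : ℂ :=
  ∑ y ∈ Finset.Ioc 0 Y, ∑ n ∈ Finset.Icc 1 N, ((Λ n : ℝ) : ℂ) * (ev x n * ev x y) * hh N ((y:ℝ) / ((x.1:ℝ) * Q)) n

/-- weighted sums -/
noncomputable def Ck (Y k : ℕ) (x : Chr) : ℂ := ∑ y ∈ Finset.Ioc 0 Y, ((((y:ℝ) / Y) ^ k : ℝ) : ℂ) * ev x y
noncomputable def Gk (N k : ℕ) (x : Chr) : ℂ := ∑ n ∈ Finset.Icc 1 N, ((Ak N k n : ℝ) : ℂ) * (((Λ n : ℝ) : ℂ) * ev x n)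

lemma Xs_series (N Q Y : ℕ) (x : Chr) (hN : 0 < N) (hY : 0 < Y) (hr : 0 < x.1) (hQ : 0 < Q) :
    Tendsto (fun J => ∑ k ∈ range J, ((2 * Real.pi * Complex.I * ((Y:ℝ) * N / (x.1 * Q) : ℝ) : ℂ) ^ k / (k.factorial : ℂ))
      * (Ck Y k x * Gk N k x)) atTop (nhds (Xs N Q Y x)) := by
  unfold Xs
  have h1 : Tendsto (fun J => ∑ y ∈ Finset.Ioc 0 Y, ∑ n ∈ Finset.Icc 1 N, ((Λ n : ℝ) : ℂ) * (ev x n * ev x y) *
      ∑ k ∈ range J, ((2 * Real.pi * Complex.I * ((Y:ℝ) * N / (x.1 * Q) : ℝ) : ℂ) ^ k / (k.factorial : ℂ))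
      * (((((y:ℝ) / Y) ^ k : ℝ) : ℂ) * ((Ak N k n : ℝ) : ℂ))) atTop
      (nhds (∑ y ∈ Finset.Ioc 0 Y, ∑ n ∈ Finset.Icc 1 N, ((Λ n : ℝ) : ℂ) * (ev x n * ev x y) * hh N ((y:ℝ) / ((x.1:ℝ) * Q)) n)) := by
    refine tendsto_finsetSum _ fun y _ => tendsto_finsetSum _ fun n _ => ?_
    exact Tendsto.const_mul _ (hh_series N Y x.1 Q y n hN hY hr hQ)
  refine h1.congr fun J => ?_
  simp_rw [mul_sum]
  have h2 : ∀ y ∈ Finset.Ioc 0 Y, ∑ n ∈ Finset.Icc 1 N, ∑ k ∈ range J, ((Λ n : ℝ) : ℂ) * (ev x n * ev x y) *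
      (((2 * Real.pi * Complex.I * ((Y:ℝ) * N / (x.1 * Q) : ℝ) : ℂ) ^ k / (k.factorial : ℂ))
      * (((((y:ℝ) / Y) ^ k : ℝ) : ℂ) * ((Ak N k n : ℝ) : ℂ)))
      = ∑ k ∈ range J, ∑ n ∈ Finset.Icc 1 N, ((Λ n : ℝ) : ℂ) * (ev x n * ev x y) *
      (((2 * Real.pi * Complex.I * ((Y:ℝ) * N / (x.1 * Q) : ℝ) : ℂ) ^ k / (k.factorial : ℂ))
      * (((((y:ℝ) / Y) ^ k : ℝ) : ℂ) * ((Ak N k n : ℝ) : ℂ))) := fun y _ => sum_comm
  rw [sum_congr rfl h2, sum_comm]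
  refine sum_congr rfl fun k _ => ?_
  unfold Ck Gk
  rw [sum_mul_sum, mul_sum]
  refine sum_congr rfl fun y _ => ?_
  rw [mul_sum]
  refine sum_congr rfl fun n _ => ?_
  ring

lemma norm_coef_le (N Q Y R r k : ℕ) (K : ℝ) (hK0 : 0 ≤ K) (hr : R < r) (hQ : 0 < Q)
    (hK : (Y:ℝ) * N ≤ K * (R * Q)) :
    ‖((2 * Real.pi * Complex.I * ((Y:ℝ) * N / (r * Q) : ℝ) : ℂ) ^ k / (k.factorial : ℂ))‖ ≤ (2 * Real.pi * K) ^ k / k.factorial := by
  have hr0 : (0:ℝ) < r := by exact_mod_cast (by omega : 0 < r)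
  have hQ0 : (0:ℝ) < Q := by exact_mod_cast hQ
  rw [norm_div, norm_pow, Complex.norm_natCast]
  refine div_le_div_of_nonneg_right ?_ (by positivity)
  refine pow_le_pow_left₀ (norm_nonneg _) ?_ k
  rw [norm_mul, norm_mul, norm_mul, Complex.norm_I, Complex.norm_real, Complex.norm_real,
    Real.norm_of_nonneg Real.pi_pos.le, Real.norm_of_nonneg (by positivity), Complex.norm_two, mul_one]
  refine mul_le_mul_of_nonneg_left ?_ (by positivity)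
  rw [div_le_iff₀ (by positivity)]
  refine hK.trans ?_
  refine mul_le_mul_of_nonneg_left ?_ hK0
  refine mul_le_mul_of_nonneg_right ?_ hQ0.le
  exact_mod_cast hr.le

lemma Gk_le (N k : ℕ) (x : Chr) :
    ‖Gk N k x‖ ≤ ‖∑ n ∈ Finset.Icc 1 N, ((Λ n : ℝ) : ℂ) * ev x n‖
      + ∑ u ∈ range N, (2 / (N:ℝ)) * ‖∑ n ∈ Finset.Icc 1 u, ((Λ n : ℝ) : ℂ) * ev x n‖ := by
  unfold Gk
  refine (abel_var _ _ N).trans ?_
  refine add_le_add ?_ ?_
  · have : ‖((Ak N k N : ℝ) : ℂ)‖ ≤ 1 := by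
      rw [Complex.norm_real]; exact Ak_le N k N le_rfl
    calc _ ≤ 1 * ‖∑ n ∈ Finset.Icc 1 N, ((Λ n : ℝ) : ℂ) * ev x n‖ := mul_le_mul_of_nonneg_right this (norm_nonneg _)
      _ = _ := one_mul _
  · refine sum_le_sum fun u hu => ?_
    rw [mem_range] at hu
    refine mul_le_mul_of_nonneg_right ?_ (norm_nonneg _)
    rw [← Complex.ofReal_sub, Complex.norm_real]
    exact Ak_diff N k u hu.le

lemma sum_exp_le (K : ℝ) (hK : 0 ≤ K) (J : ℕ) : ∑ k ∈ range J, K ^ k / (k.factorial : ℝ) ≤ Real.exp K :=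
  Real.sum_le_exp_of_nonneg hK J

/-- separation theorem -/
theorem sep (F : Finset Chr) (g : Chr → ℝ) (hg : ∀ x, 0 ≤ g x) (R : ℕ) (hF : ∀ x ∈ F, R < x.1) (N Q Y : ℕ) (hN : 0 < N) (hY : 0 < Y) (hQ : 0 < Q)
    (K : ℝ) (hK0 : 0 ≤ K) (hK : (Y:ℝ) * N ≤ K * (R * Q)) (Bd : ℝ)
    (hBd : ∀ (c : ℕ → ℂ), (∀ y ∈ Finset.Ioc 0 Y, ‖c y‖ ≤ 1) → ∀ u ≤ N,
      ∑ x ∈ F, g x * (‖∑ y ∈ Finset.Ioc 0 Y, c y * ev x y‖ * ‖∑ n ∈ Finset.Icc 1 u, ((Λ n : ℝ) : ℂ) * ev x n‖) ≤ Bd) :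
    ∑ x ∈ F, g x * ‖Xs N Q Y x‖ ≤ 3 * Real.exp (2 * Real.pi * K) * Bd := by
  have hNr : (0:ℝ) < N := by exact_mod_cast hN
  have hYr : (0:ℝ) < Y := by exact_mod_cast hY
  have hBd0 : 0 ≤ Bd := by
    refine le_trans ?_ (hBd (fun _ => 0) (fun _ _ => by simp) 0 (Nat.zero_le _))
    exact sum_nonneg fun x _ => mul_nonneg (hg x) (by positivity)
  have hlim : Tendsto (fun J => ∑ x ∈ F, g x * ‖∑ k ∈ range J, ((2 * Real.pi * Complex.I * ((Y:ℝ) * N / (x.1 * Q) : ℝ) : ℂ) ^ k / (k.factorial : ℂ))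
      * (Ck Y k x * Gk N k x)‖) atTop (nhds (∑ x ∈ F, g x * ‖Xs N Q Y x‖)) := by
    refine tendsto_finsetSum _ fun x hx => ?_
    exact Tendsto.const_mul _ (Xs_series N Q Y x hN hY (by have := hF x hx; omega) hQ).norm
  refine le_of_tendsto' hlim fun J => ?_
  have h1 : ∀ k, ∑ x ∈ F, g x * (‖Ck Y k x‖ * ‖Gk N k x‖) ≤ 3 * Bd := by
    intro k
    have hc : ∀ y ∈ Finset.Ioc 0 Y, ‖((((y:ℝ) / Y) ^ k : ℝ) : ℂ)‖ ≤ 1 := by
      intro y hy
      rw [Finset.mem_Ioc] at hy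
      rw [Complex.norm_real, Real.norm_of_nonneg (by positivity)]
      refine pow_le_one₀ (by positivity) ?_
      rw [div_le_one hYr]; exact_mod_cast hy.2
    calc ∑ x ∈ F, g x * (‖Ck Y k x‖ * ‖Gk N k x‖)
        ≤ ∑ x ∈ F, g x * (‖Ck Y k x‖ * (‖∑ n ∈ Finset.Icc 1 N, ((Λ n : ℝ) : ℂ) * ev x n‖
            + ∑ u ∈ range N, (2 / (N:ℝ)) * ‖∑ n ∈ Finset.Icc 1 u, ((Λ n : ℝ) : ℂ) * ev x n‖)) := by
          refine sum_le_sum fun x _ => mul_le_mul_of_nonneg_left ?_ (hg x)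
          exact mul_le_mul_of_nonneg_left (Gk_le N k x) (norm_nonneg _)
      _ = ∑ x ∈ F, g x * (‖Ck Y k x‖ * ‖∑ n ∈ Finset.Icc 1 N, ((Λ n : ℝ) : ℂ) * ev x n‖)
            + ∑ u ∈ range N, (2 / (N:ℝ)) * ∑ x ∈ F, g x * (‖Ck Y k x‖ * ‖∑ n ∈ Finset.Icc 1 u, ((Λ n : ℝ) : ℂ) * ev x n‖) := by
          simp_rw [mul_sum]
          rw [sum_comm (s := range N), ← sum_add_distrib]
          refine sum_congr rfl fun x _ => ?_
          rw [mul_add, mul_add, mul_sum, mul_sum]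
          congr 1
          exact sum_congr rfl fun j _ => by ring
      _ ≤ Bd + ∑ u ∈ range N, (2 / (N:ℝ)) * Bd := by
          refine add_le_add (hBd _ hc N le_rfl) (sum_le_sum fun u hu => ?_)
          rw [mem_range] at hu
          exact mul_le_mul_of_nonneg_left (hBd _ hc u hu.le) (by positivity)
      _ = 3 * Bd := by
          rw [sum_const, card_range, nsmul_eq_mul]
          field_simp
          ring
  calc ∑ x ∈ F, g x * ‖∑ k ∈ range J, ((2 * Real.pi * Complex.I * ((Y:ℝ) * N / (x.1 * Q) : ℝ) : ℂ) ^ k / (k.factorial : ℂ))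
      * (Ck Y k x * Gk N k x)‖
      ≤ ∑ x ∈ F, ∑ k ∈ range J, ((2 * Real.pi * K) ^ k / k.factorial) * (g x * (‖Ck Y k x‖ * ‖Gk N k x‖)) := by
        refine sum_le_sum fun x hx => ?_
        calc g x * ‖∑ k ∈ range J, ((2 * Real.pi * Complex.I * ((Y:ℝ) * N / (x.1 * Q) : ℝ) : ℂ) ^ k / (k.factorial : ℂ))
              * (Ck Y k x * Gk N k x)‖
            ≤ g x * ∑ k ∈ range J, ((2 * Real.pi * K) ^ k / k.factorial) * (‖Ck Y k x‖ * ‖Gk N k x‖) := by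
              refine mul_le_mul_of_nonneg_left ?_ (hg x)
              refine (norm_sum_le _ _).trans (sum_le_sum fun k _ => ?_)
              rw [norm_mul, norm_mul]
              exact mul_le_mul_of_nonneg_right (norm_coef_le N Q Y R x.1 k K hK0 (hF x hx) hQ hK) (by positivity)
          _ = _ := by
              rw [mul_sum]
              exact sum_congr rfl fun k _ => by ring
    _ = ∑ k ∈ range J, ((2 * Real.pi * K) ^ k / k.factorial) * ∑ x ∈ F, g x * (‖Ck Y k x‖ * ‖Gk N k x‖) := by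
        rw [sum_comm]
        exact sum_congr rfl fun k _ => by rw [mul_sum]
    _ ≤ ∑ k ∈ range J, ((2 * Real.pi * K) ^ k / k.factorial) * (3 * Bd) := by
        refine sum_le_sum fun k _ => mul_le_mul_of_nonneg_left (h1 k) ?_
        have := Real.pi_pos
        positivity
    _ = (∑ k ∈ range J, (2 * Real.pi * K) ^ k / k.factorial) * (3 * Bd) := by rw [sum_mul]
    _ ≤ Real.exp (2 * Real.pi * K) * (3 * Bd) := by
        refine mul_le_mul_of_nonneg_right (sum_exp_le _ ?_ J) (by positivity)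
        have := Real.pi_pos
        positivity
    _ = _ := by ring

end Pool.Agent.Var73
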