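import Pool.Agent.Lib_helper73.Var.Dual2

/-! Lower bounds for the quadratic form -/

set_option autoImplicit false

namespace Pool.Agent.Var73

open Finset Complex Pool.Agent.Var35 DirichletCharacter Filter
open scoped ArithmeticFunction ArithmeticFunction.Moebius ArithmeticFunction.zeta

lemma DD_parseval (N B : ℕ) (hB : 0 < B) : (B:ℝ) * N ≤ ∑ y ∈ range B, ‖DD N ((y:ℝ) / B)‖ ^ 2 := by
  set v : ℕ → ℝ := fun a => (((Finset.Icc 1 N).filter (fun n => n % B = a)).card : ℝ) with hv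
  have hBr : (B:ℝ) ≠ 0 := by positivity
  have h1 : ∀ y : ℕ, DD N ((y:ℝ) / B) = FT B v y := by
    intro y
    unfold DD FT
    rw [← sum_fiberwise_of_maps_to (fun n _ => mem_range.mpr (Nat.mod_lt n hB))]
    refine sum_congr rfl fun a _ => ?_
    have h5 : ∀ i ∈ (Finset.Icc 1 N).filter (fun n => n % B = a), e (i * ((y:ℝ) / B)) = e (a * ((y:ℝ) / B)) := by
      intro i hi
      rw [mem_filter] at hi
      have h6 : (i:ℝ) = a + B * ((i / B : ℕ) : ℝ) := by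
        have := Nat.mod_add_div i B
        rw [hi.2] at this
        exact_mod_cast this.symm
      have h7 : (i:ℝ) * ((y:ℝ) / B) = a * ((y:ℝ) / B) + (((i / B * y : ℕ) : ℤ) : ℝ) := by
        rw [Int.cast_natCast, Nat.cast_mul]
        obtain ⟨k, hk⟩ : ∃ k : ℝ, k = ((i / B : ℕ) : ℝ) := ⟨_, rfl⟩
        rw [← hk] at h6 ⊢
        rw [h6]; field_simp
      rw [h7, e_add_int]
    rw [sum_congr rfl h5, sum_const, nsmul_eq_mul]
    simp only [hv]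
    push_cast; rfl
  have h2 := parseval B hB v
  rw [sum_congr rfl fun y _ => by rw [h1 y], h2]
  refine mul_le_mul_of_nonneg_left ?_ (Nat.cast_nonneg _)
  have h3 : ∑ a ∈ range B, v a = N := by
    have h4 := Finset.card_eq_sum_card_fiberwise (s := Finset.Icc 1 N) (t := range B) (f := fun n => n % B)
      (fun n _ => mem_coe.mpr (mem_range.mpr (Nat.mod_lt n hB)))
    rw [Nat.card_Icc, Nat.add_sub_cancel] at h4
    simp only [hv]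
    exact_mod_cast h4.symm
  rw [← h3]
  refine sum_le_sum fun a _ => ?_
  simp only [hv]
  set k := ((Finset.Icc 1 N).filter (fun n => n % B = a)).card
  rcases Nat.eq_zero_or_pos k with h | h
  · rw [h]; simp
  · have : (1:ℝ) ≤ k := by exact_mod_cast h
    nlinarith

lemma DD_tail (N : ℕ) (β : ℝ) (h0 : 0 < β) (h1 : β ≤ 1 / 2) : ‖DD N β‖ ≤ 1 / (2 * β) := by
  have h2 : DD N β * (e β - 1) = e β * (e β ^ N - 1) := by
    unfold DD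
    rw [sum_Icc_range]
    have h3 : ∑ i ∈ range N, e (((i + 1 : ℕ) : ℝ) * β) = e β * ∑ i ∈ range N, e β ^ i := by
      rw [mul_sum]
      refine sum_congr rfl fun i _ => ?_
      rw [e_nat_mul, pow_succ]; ring
    rw [h3, mul_assoc, geom_sum_mul]
  have h3 : ‖DD N β‖ * ‖e β - 1‖ ≤ 2 := by
    rw [← norm_mul, h2, norm_mul, norm_e, one_mul]
    refine (norm_sub_le _ _).trans ?_
    rw [norm_pow, norm_e, one_pow, norm_one]; norm_num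
  have h4 : 4 * β ≤ ‖e β - 1‖ := by
    have := norm_e_sub_one_ge (a := β) (by rw [abs_of_pos h0]; exact h1)
    rwa [abs_of_pos h0] at this
  rw [le_div_iff₀ (by positivity)]
  have h5 : ‖DD N β‖ * (4 * β) ≤ 2 := (mul_le_mul_of_nonneg_left h4 (norm_nonneg _)).trans h3
  linarith

lemma DD_sym (N B y : ℕ) (hB : 0 < B) (hy : y ≤ B) : ‖DD N (((B - y : ℕ) : ℝ) / B)‖ = ‖DD N ((y:ℝ) / B)‖ := by
  have hBr : (B:ℝ) ≠ 0 := by positivity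
  have h1 : DD N (((B - y : ℕ) : ℝ) / B) = DD N (-((y:ℝ) / B)) := by
    unfold DD
    refine sum_congr rfl fun n _ => ?_
    have h2 : (n:ℝ) * ((((B - y : ℕ)) : ℝ) / B) = n * (-((y:ℝ) / B)) + ((n : ℤ) : ℝ) := by
      rw [Nat.cast_sub hy]
      push_cast
      field_simp
      ring
    rw [h2, e_add_int]
  rw [h1, DD_neg, RCLike.norm_conj]

lemma sum_union_le_of_nonneg {f : ℕ → ℝ} (hf : ∀ y, 0 ≤ f y) (s t : Finset ℕ) :
    ∑ y ∈ s ∪ t, f y ≤ ∑ y ∈ s, f y + ∑ y ∈ t, f y := by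
  have h := sum_union_inter (s₁ := s) (s₂ := t) (f := f)
  have h2 : 0 ≤ ∑ y ∈ s ∩ t, f y := sum_nonneg fun _ _ => hf _
  linarith

theorem DD_lower (N B Y : ℕ) (hB : 0 < B) (hY : 1 ≤ Y) :
    ((B:ℝ) * N - (N:ℝ) ^ 2 - (B:ℝ) ^ 2 / (2 * Y)) / 2 ≤ ∑ y ∈ Finset.Icc 1 Y, ‖DD N ((y:ℝ) / B)‖ ^ 2 := by
  classical
  set f : ℕ → ℝ := fun y => ‖DD N ((y:ℝ) / B)‖ ^ 2 with hf
  have hf0 : ∀ y, 0 ≤ f y := fun y => by simp only [hf]; positivity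
  have hBr : (0:ℝ) < B := by exact_mod_cast hB
  have hYr : (0:ℝ) < Y := by exact_mod_cast hY
  have h1 := DD_parseval N B hB
  have h2 : ∑ y ∈ range B, f y ≤ (N:ℝ) ^ 2 + 2 * ∑ y ∈ Finset.Icc 1 (B / 2), f y := by
    have hsub : range B ⊆ {0} ∪ ((Finset.Icc 1 (B / 2)) ∪ (Finset.Icc 1 (B / 2)).image (fun y => B - y)) := by
      intro y hy
      rw [mem_range] at hy
      rw [mem_union, mem_union, mem_singleton, Finset.mem_Icc, mem_image]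
      rcases Nat.eq_zero_or_pos y with h | h
      · left; exact h
      · right
        by_cases h3 : y ≤ B / 2
        · left; exact ⟨h, h3⟩
        · right
          exact ⟨B - y, by rw [Finset.mem_Icc]; omega, by omega⟩
    refine (sum_le_sum_of_subset_of_nonneg hsub fun _ _ _ => hf0 _).trans ?_
    refine (sum_union_le_of_nonneg hf0 _ _).trans ?_
    refine add_le_add ?_ ?_
    · rw [sum_singleton]
      simp only [hf]
      rw [Nat.cast_zero, zero_div]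
      exact pow_le_pow_left₀ (norm_nonneg _) (norm_DD_le N 0) 2
    · refine (sum_union_le_of_nonneg hf0 _ _).trans ?_
      rw [two_mul]
      refine add_le_add le_rfl ?_
      rw [sum_image]
      · refine le_of_eq (sum_congr rfl fun y hy => ?_)
        rw [Finset.mem_Icc] at hy
        simp only [hf]
        rw [DD_sym N B y hB (by omega)]
      · intro a ha b hb hab
        rw [mem_coe, Finset.mem_Icc] at ha hb
        simp only at hab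
        omega
  have h3 : ∑ y ∈ Finset.Icc 1 (B / 2), f y ≤ ∑ y ∈ Finset.Icc 1 Y, f y + (B:ℝ) ^ 2 / (4 * Y) := by
    by_cases hc : B / 2 ≤ Y
    · have h4 : ∑ y ∈ Finset.Icc 1 (B / 2), f y ≤ ∑ y ∈ Finset.Icc 1 Y, f y :=
        sum_le_sum_of_subset_of_nonneg (Finset.Icc_subset_Icc_right hc) fun _ _ _ => hf0 _
      have : 0 ≤ (B:ℝ) ^ 2 / (4 * Y) := by positivity
      linarith
    · push Not at hc
      have hsplit : Finset.Icc 1 (B / 2) = Finset.Icc 1 Y ∪ Finset.Ioc Y (B / 2) := by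
        ext k; simp only [Finset.mem_Icc, mem_union, Finset.mem_Ioc]; omega
      rw [hsplit]
      refine (sum_union_le_of_nonneg hf0 _ _).trans (add_le_add le_rfl ?_)
      have h5 : ∀ y ∈ Finset.Ioc Y (B / 2), f y ≤ (B:ℝ) ^ 2 / 4 * (((y:ℝ) ^ 2)⁻¹) := by
        intro y hy
        rw [Finset.mem_Ioc] at hy
        have hy0 : (0:ℝ) < y := by exact_mod_cast (by omega : 0 < y)
        have hy2 : (y:ℝ) / B ≤ 1 / 2 := by
          rw [div_le_div_iff₀ hBr (by norm_num)]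
          have : y * 2 ≤ 1 * B := by omega
          exact_mod_cast this
        have h6 := DD_tail N ((y:ℝ) / B) (by positivity) hy2
        simp only [hf]
        calc ‖DD N ((y:ℝ) / B)‖ ^ 2 ≤ (1 / (2 * ((y:ℝ) / B))) ^ 2 := pow_le_pow_left₀ (norm_nonneg _) h6 2
          _ = (B:ℝ) ^ 2 / 4 * (((y:ℝ) ^ 2)⁻¹) := by field_simp; ring
      refine (sum_le_sum h5).trans ?_
      rw [← mul_sum]
      have h6 := sum_Ioc_inv_sq_le_sub (α := ℝ) (k := Y) (n := B / 2) (by omega) hc.le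
      have h7 : (0:ℝ) ≤ ((B / 2 : ℕ) : ℝ)⁻¹ := by positivity
      calc (B:ℝ) ^ 2 / 4 * ∑ i ∈ Finset.Ioc Y (B / 2), ((i:ℝ) ^ 2)⁻¹ ≤ (B:ℝ) ^ 2 / 4 * (Y:ℝ)⁻¹ :=
            mul_le_mul_of_nonneg_left (by linarith) (by positivity)
        _ = (B:ℝ) ^ 2 / (4 * Y) := by field_simp
  have h4 : (B:ℝ) ^ 2 / (4 * Y) * 2 = (B:ℝ) ^ 2 / (2 * Y) := by field_simp; norm_num
  have h5 : (B:ℝ) * N ≤ ∑ y ∈ range B, f y := h1
  linarith

/-- variation of the normalised square -/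
lemma sq_tv (N Y : ℕ) (B K : ℝ) (hN : 0 < N) (hB : 0 < B) (hK : (Y:ℝ) * N ≤ K * B) :
    ‖((((1 / (N:ℝ)) * ‖DD N ((Y:ℝ) / B)‖) ^ 2 : ℝ) : ℂ)‖
      + ∑ u ∈ range Y, ‖((((1 / (N:ℝ)) * ‖DD N (((u + 1 : ℕ) : ℝ) / B)‖) ^ 2 : ℝ) : ℂ) - ((((1 / (N:ℝ)) * ‖DD N ((u:ℝ) / B)‖) ^ 2 : ℝ) : ℂ)‖
      ≤ 1 + 2 * Real.pi * K := by
  have hNr : (0:ℝ) < N := by exact_mod_cast hN
  have h1 : ∀ β : ℝ, ((((1 / (N:ℝ)) * ‖DD N β‖) ^ 2 : ℝ) : ℂ) = (1 / (N:ℂ)) * ∑ n ∈ Finset.Icc 1 N, hh N β n := by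
    intro β
    unfold hh
    rw [← mul_sum, ← mul_sum]
    have : ∑ n ∈ Finset.Icc 1 N, e (n * β) = DD N β := rfl
    rw [this, Complex.conj_mul']
    push_cast; ring
  simp_rw [h1]
  have h2 : ∀ f : ℕ → ℂ, ‖(1 / (N:ℂ)) * ∑ n ∈ Finset.Icc 1 N, f n‖ ≤ (1 / (N:ℝ)) * ∑ n ∈ Finset.Icc 1 N, ‖f n‖ := by
    intro f
    rw [norm_mul, norm_div, norm_one, Complex.norm_natCast]
    exact mul_le_mul_of_nonneg_left (norm_sum_le _ _) (by positivity)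
  calc ‖(1 / (N:ℂ)) * ∑ n ∈ Finset.Icc 1 N, hh N ((Y:ℝ) / B) n‖
      + ∑ u ∈ range Y, ‖(1 / (N:ℂ)) * ∑ n ∈ Finset.Icc 1 N, hh N (((u + 1 : ℕ) : ℝ) / B) n - (1 / (N:ℂ)) * ∑ n ∈ Finset.Icc 1 N, hh N ((u:ℝ) / B) n‖
      ≤ (1 / (N:ℝ)) * ∑ n ∈ Finset.Icc 1 N, ‖hh N ((Y:ℝ) / B) n‖
        + ∑ u ∈ range Y, (1 / (N:ℝ)) * ∑ n ∈ Finset.Icc 1 N, ‖hh N (((u + 1 : ℕ) : ℝ) / B) n - hh N ((u:ℝ) / B) n‖ := by
        refine add_le_add (h2 _) (sum_le_sum fun u _ => ?_)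
        rw [← mul_sub, ← sum_sub_distrib]
        exact h2 _
    _ = (1 / (N:ℝ)) * ∑ n ∈ Finset.Icc 1 N, (‖hh N ((Y:ℝ) / B) n‖ + ∑ u ∈ range Y, ‖hh N (((u + 1 : ℕ) : ℝ) / B) n - hh N ((u:ℝ) / B) n‖) := by
        rw [← mul_sum, sum_comm, ← mul_add, ← sum_add_distrib]
    _ ≤ (1 / (N:ℝ)) * ∑ n ∈ Finset.Icc 1 N, (1 + 2 * Real.pi * K) := by
        refine mul_le_mul_of_nonneg_left (sum_le_sum fun n hn => ?_) (by positivity)
        rw [Finset.mem_Icc] at hn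
        exact hh_tv N n Y hn.2 B K hB hK
    _ = 1 + 2 * Real.pi * K := by
        rw [sum_const, Nat.card_Icc, Nat.add_sub_cancel, nsmul_eq_mul]
        field_simp

/-- lower bound over `y` coprime to `r` -/
theorem H_lower (N Q Y s t : ℕ) (K : ℝ) (hN : 1 ≤ N) (hQ : 1 ≤ Q) (hY : 1 ≤ Y) (hs : 0 < s) (ht : 0 < t) (hst : Nat.Coprime s t)
    (hK : (Y:ℝ) * N ≤ K * (((s * t : ℕ) : ℝ) * Q)) :
    ((Nat.totient (s * t) : ℝ) / ((s * t : ℕ) : ℝ)) * ((1 / (N:ℝ)) ^ 2 *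
        (((((s * t : ℕ) : ℝ) * Q) * N - (N:ℝ) ^ 2 - (((s * t : ℕ) : ℝ) * Q) ^ 2 / (2 * Y)) / 2))
      - Nat.totient s * t.divisors.card * (1 + 2 * Real.pi * K)
      ≤ ∑ y ∈ CY (s * t) Y, ((1 / (N:ℝ)) * ‖DD N ((y:ℝ) / (((s * t : ℕ) : ℝ) * Q))‖) ^ 2 := by
  have hst0 : 0 < s * t := Nat.mul_pos hs ht
  have hr : (0:ℝ) < ((s * t : ℕ) : ℝ) := by exact_mod_cast hst0
  have hQr : (0:ℝ) < Q := by exact_mod_cast hQ
  set r : ℕ := s * t with hrdef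
  set B : ℝ := (r:ℝ) * Q with hB
  have h1 := avg_cop s t Y hs ht hst (fun y => ((((1 / (N:ℝ)) * ‖DD N ((y:ℝ) / B)‖) ^ 2 : ℝ) : ℂ)) (1 + 2 * Real.pi * K)
    (sq_tv N Y B K hN (by positivity) hK)
  have h2 : (Finset.Icc 1 Y).filter (fun y => Nat.Coprime y (s * t)) = CY r Y := by unfold CY; rfl
  rw [h2] at h1
  have h3 : ∑ y ∈ CY r Y, ((((1 / (N:ℝ)) * ‖DD N ((y:ℝ) / B)‖) ^ 2 : ℝ) : ℂ)
        - ((Nat.totient (s * t) : ℂ) / ((s * t : ℕ) : ℂ)) * ∑ y ∈ Finset.Icc 1 Y, ((((1 / (N:ℝ)) * ‖DD N ((y:ℝ) / B)‖) ^ 2 : ℝ) : ℂ)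
      = ((∑ y ∈ CY r Y, ((1 / (N:ℝ)) * ‖DD N ((y:ℝ) / B)‖) ^ 2
        - ((Nat.totient r : ℝ) / (r : ℝ)) * ∑ y ∈ Finset.Icc 1 Y, ((1 / (N:ℝ)) * ‖DD N ((y:ℝ) / B)‖) ^ 2 : ℝ) : ℂ) := by
    rw [← hrdef]
    push_cast; rfl
  rw [h3, Complex.norm_real, Real.norm_eq_abs] at h1
  have h4 := (abs_le.mp h1).1
  have h5 := DD_lower N (r * Q) Y (Nat.mul_pos hst0 hQ) hY
  have h6 : ((r * Q : ℕ) : ℝ) = B := by rw [hB]; push_cast; ring
  rw [h6] at h5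
  have h7 : ∑ y ∈ Finset.Icc 1 Y, ((1 / (N:ℝ)) * ‖DD N ((y:ℝ) / B)‖) ^ 2 = (1 / (N:ℝ)) ^ 2 * ∑ y ∈ Finset.Icc 1 Y, ‖DD N ((y:ℝ) / B)‖ ^ 2 := by
    rw [mul_sum]; exact sum_congr rfl fun y _ => by rw [mul_pow]
  rw [h7] at h4
  have h8 : ((Nat.totient r : ℝ) / (r : ℝ)) * ((1 / (N:ℝ)) ^ 2 * ((B * N - (N:ℝ) ^ 2 - B ^ 2 / (2 * Y)) / 2))
      ≤ ((Nat.totient r : ℝ) / (r : ℝ)) * ((1 / (N:ℝ)) ^ 2 * ∑ y ∈ Finset.Icc 1 Y, ‖DD N ((y:ℝ) / B)‖ ^ 2) := by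
    refine mul_le_mul_of_nonneg_left (mul_le_mul_of_nonneg_left h5 (by positivity)) (by positivity)
  linarith

end Pool.Agent.Var73
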