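import Pool.Agent.Lib_helper73.Var.TypeII

/-! Type I estimates with an additional variable -/

set_option autoImplicit false

namespace Pool.Agent.Var73

open Finset Complex Pool.Agent.Var35 DirichletCharacter
open scoped ArithmeticFunction ArithmeticFunction.Moebius ArithmeticFunction.zeta

open scoped Classical in
lemma count_class (r : ℕ) [NeZero r] (Y : ℕ) (a : ZMod r) :
    (((Finset.Ioc 0 Y).filter (fun n : ℕ => (n : ZMod r) = a)).card : ℝ) ≤ (Y:ℝ) / r + 1 := by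
  have hr0 : 0 < r := Nat.pos_of_ne_zero (NeZero.ne r)
  have h1 : ((Finset.Ioc 0 Y).filter (fun n : ℕ => (n : ZMod r) = a)).card ≤ (range (Y / r + 1)).card := by
    refine card_le_card_of_injOn (fun k => k / r) ?_ ?_
    · intro k hk
      rw [mem_coe, mem_filter, Finset.mem_Ioc] at hk
      rw [mem_coe, mem_range]
      have := Nat.div_le_div_right (c := r) hk.1.2
      simp only
      omega
    · intro k hk k' hk' hkk
      rw [mem_coe, mem_filter] at hk hk'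
      simp only at hkk
      have h3 : (k : ZMod r) = (k' : ZMod r) := hk.2.trans hk'.2.symm
      rw [ZMod.natCast_eq_natCast_iff'] at h3
      rw [← Nat.div_add_mod k r, ← Nat.div_add_mod k' r, hkk, h3]
  rw [card_range] at h1
  have h2 : (((Finset.Ioc 0 Y).filter (fun n : ℕ => (n : ZMod r) = a)).card : ℝ) ≤ ((Y / r : ℕ) : ℝ) + 1 := by exact_mod_cast h1
  have h3 : ((Y / r : ℕ) : ℝ) ≤ (Y:ℝ) / r := Nat.cast_div_le
  linarith

lemma sq_all (r : ℕ) [NeZero r] (Y : ℕ) (c : ℕ → ℂ) (hc : ∀ y ∈ Finset.Ioc 0 Y, ‖c y‖ ≤ 1) :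
    ∑ χ : DirichletCharacter ℂ r, ‖∑ n ∈ Finset.Ioc 0 Y, c n * χ (n : ZMod r)‖ ^ 2
      ≤ (Nat.totient r : ℝ) * (((Y:ℝ) / r + 1) * Y) := by
  classical
  set C : ZMod r → ℂ := fun z => ∑ n ∈ (Finset.Ioc 0 Y).filter (fun n : ℕ => (n : ZMod r) = z), c n with hC
  have h2 : ∀ χ : DirichletCharacter ℂ r, ∑ n ∈ Finset.Ioc 0 Y, c n * χ (n : ZMod r) = ∑ z : ZMod r, χ z * C z := by
    intro χ
    rw [← Finset.sum_fiberwise (Finset.Ioc 0 Y) (fun n : ℕ => (n : ZMod r))]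
    refine sum_congr rfl fun z _ => ?_
    rw [hC, mul_sum]
    refine sum_congr rfl fun k hk => ?_
    rw [mem_filter] at hk
    rw [hk.2]; ring
  rw [sum_congr rfl fun χ _ => by rw [h2 χ], orthr]
  refine mul_le_mul_of_nonneg_left ?_ (Nat.cast_nonneg _)
  have h3 : ∀ z : ZMod r, ‖C z‖ ^ 2 ≤ ((Y:ℝ) / r + 1) * (((Finset.Ioc 0 Y).filter (fun n : ℕ => (n : ZMod r) = z)).card : ℝ) := by
    intro z
    have h4 : ‖C z‖ ≤ (((Finset.Ioc 0 Y).filter (fun n : ℕ => (n : ZMod r) = z)).card : ℝ) := by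
      refine (norm_sum_le _ _).trans ?_
      have : ∀ n ∈ (Finset.Ioc 0 Y).filter (fun n : ℕ => (n : ZMod r) = z), ‖c n‖ ≤ 1 := fun n hn => hc n (mem_filter.mp hn).1
      refine (sum_le_sum this).trans ?_
      rw [sum_const, nsmul_eq_mul, mul_one]
    rw [sq]
    refine mul_le_mul (h4.trans (count_class r Y z)) h4 (norm_nonneg _) (by positivity)
  calc ∑ a ∈ univ.filter (fun a : ZMod r => IsUnit a), ‖C a‖ ^ 2
      ≤ ∑ a : ZMod r, ‖C a‖ ^ 2 := sum_le_sum_of_subset_of_nonneg (subset_univ _) fun _ _ _ => by positivity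
    _ ≤ ∑ z : ZMod r, ((Y:ℝ) / r + 1) * (((Finset.Ioc 0 Y).filter (fun n : ℕ => (n : ZMod r) = z)).card : ℝ) :=
        sum_le_sum fun z _ => h3 z
    _ = ((Y:ℝ) / r + 1) * Y := by
        rw [← mul_sum]
        congr 1
        have h5 := Finset.card_eq_sum_card_fiberwise (s := Finset.Ioc 0 Y) (t := (univ : Finset (ZMod r))) (f := fun n : ℕ => (n : ZMod r))
          (fun _ _ => mem_univ _)
        rw [Nat.card_Ioc, Nat.sub_zero] at h5
        exact_mod_cast h5.symm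

lemma sum_Ioc_period (r : ℕ) [NeZero r] (χ : DirichletCharacter ℂ r) (hχ : χ ≠ 1) (j : ℕ) :
    ∑ k ∈ Finset.Ioc (r * j) (r * j + r), χ (k : ZMod r) = 0 := by
  have h1 : ∑ k ∈ Finset.Ioc (r * j) (r * j + r), χ (k : ZMod r) = ∑ z : ZMod r, χ z := by
    have h2 : Finset.Ioc (r * j) (r * j + r) = (range r).image (fun i => r * j + 1 + i) := by
      ext m
      simp only [Finset.mem_Ioc, mem_image, mem_range]
      constructor
      · intro h; exact ⟨m - (r * j + 1), by omega, by omega⟩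
      · rintro ⟨i, hi, rfl⟩; omega
    rw [h2, sum_image (fun a _ b _ h => by simpa using h)]
    have h3 : ∀ i ∈ range r, χ ((r * j + 1 + i : ℕ) : ZMod r) = χ (1 + (i : ZMod r)) := by
      intro i _
      push_cast
      simp
    rw [sum_congr rfl h3]
    have h4 : ∑ i ∈ range r, χ (1 + (i : ZMod r)) = ∑ z : ZMod r, χ (1 + z) := by
      refine Finset.sum_nbij' (fun c => (c : ZMod r)) (fun z => z.val) ?_ ?_ ?_ ?_ ?_
      · intro c _; exact mem_univ _
      · intro z _; rw [mem_range]; exact ZMod.val_lt z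
      · intro c hc; rw [mem_range] at hc; exact ZMod.val_cast_of_lt hc
      · intro z _; exact ZMod.natCast_zmod_val z
      · intro c _; rfl
    rw [h4]
    exact Fintype.sum_bijective (fun z : ZMod r => 1 + z) (AddGroup.addLeft_bijective 1) _ _ (fun z => rfl)
  rw [h1]
  exact MulChar.sum_eq_zero_of_ne_one hχ

lemma partial_mod_r (r : ℕ) [NeZero r] (χ : DirichletCharacter ℂ r) (hχ : χ ≠ 1) (y : ℕ) :
    ∑ k ∈ Finset.Ioc 0 y, χ (k : ZMod r) = ∑ k ∈ Finset.Ioc 0 (y % r), χ (k : ZMod r) := by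
  have h1 : ∀ n s : ℕ, ∑ k ∈ Finset.Ioc 0 (r * n + s), χ (k : ZMod r) = ∑ k ∈ Finset.Ioc 0 s, χ (k : ZMod r) := by
    intro n
    induction n with
    | zero => intro s; simp
    | succ n ih =>
        intro s
        have e1 : ∑ k ∈ Finset.Ioc 0 (r * (n + 1) + s), χ (k : ZMod r)
            = ∑ k ∈ Finset.Ioc 0 (r * n + r), χ (k : ZMod r) + ∑ k ∈ Finset.Ioc (r * n + r) (r * (n + 1) + s), χ (k : ZMod r) := by
          rw [Finset.sum_Ioc_consecutive _ (Nat.zero_le _) (by rw [Nat.mul_succ]; omega)]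
        have e2 : ∑ k ∈ Finset.Ioc 0 (r * n + r), χ (k : ZMod r) = 0 := by
          rw [← Finset.sum_Ioc_consecutive _ (Nat.zero_le (r * n)) (Nat.le_add_right _ r), sum_Ioc_period r χ hχ n, add_zero]
          have := ih 0
          simpa using this
        have e3 : ∑ k ∈ Finset.Ioc (r * n + r) (r * (n + 1) + s), χ (k : ZMod r) = ∑ k ∈ Finset.Ioc 0 s, χ (k : ZMod r) := by
          have h2 : Finset.Ioc (r * n + r) (r * (n + 1) + s) = (Finset.Ioc 0 s).image (fun i => r * (n + 1) + i) := by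
            ext m
            simp only [Finset.mem_Ioc, mem_image]
            rw [Nat.mul_succ]
            constructor
            · intro h; exact ⟨m - (r * n + r), by omega, by omega⟩
            · rintro ⟨i, hi, rfl⟩; omega
          rw [h2, sum_image (fun a _ b _ h => by simpa using h)]
          refine sum_congr rfl fun i _ => ?_
          push_cast
          simp
        rw [e1, e2, e3, zero_add]
  conv_lhs => rw [← Nat.div_add_mod y r]
  exact h1 _ _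

/-- Type I bound for a fixed modulus -/
lemma type1_fixed (r : ℕ) [NeZero r] (z0 Y y : ℕ) (hz : 1 ≤ z0) (c : ℕ → ℂ) (hc : ∀ y ∈ Finset.Ioc 0 Y, ‖c y‖ ≤ 1) :
    ∑ x ∈ Fam {r} z0, wt x * (‖∑ n ∈ Finset.Ioc 0 Y, c n * ev x n‖ * ‖∑ k ∈ Finset.Ioc 0 y, ev x k‖)
      ≤ ((r:ℝ) / Nat.totient r) * Real.sqrt (2 * (((Y:ℝ) / r + 1) * Y)) := by
  classical
  have hr0 : 0 < r := Nat.pos_of_ne_zero (NeZero.ne r)
  have hrr : (0:ℝ) < r := by exact_mod_cast hr0
  have hφ : (0:ℝ) < Nat.totient r := by exact_mod_cast Nat.totient_pos.mpr hr0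
  unfold Fam
  rw [sum_sigma, sum_singleton]
  set X0 := univ.filter (fun χ : DirichletCharacter ℂ r => z0 < χ.conductor) with hX0
  have h1 : ∀ χ ∈ X0, wt ⟨r, χ⟩ * (‖∑ n ∈ Finset.Ioc 0 Y, c n * ev ⟨r, χ⟩ n‖ * ‖∑ k ∈ Finset.Ioc 0 y, ev ⟨r, χ⟩ k‖)
      ≤ (Real.sqrt r / (Nat.totient r : ℝ) ^ 2) * (‖∑ n ∈ Finset.Ioc 0 Y, c n * χ (n : ZMod r)‖ * ‖∑ k ∈ Finset.Ioc 0 (y % r), (1:ℂ) * χ (k : ZMod r)‖) := by
    intro χ hχ
    rw [hX0, mem_filter] at hχ
    have hne : χ ≠ 1 := by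
      intro h
      rw [h, conductor_one] at hχ
      omega
    have e1 : ∑ k ∈ Finset.Ioc 0 y, ev ⟨r, χ⟩ k = ∑ k ∈ Finset.Ioc 0 (y % r), (1:ℂ) * χ (k : ZMod r) := by
      have := partial_mod_r r χ hne y
      unfold ev
      rw [this]
      exact sum_congr rfl fun _ _ => (one_mul _).symm
    rw [e1]
    refine mul_le_mul_of_nonneg_right ?_ (by positivity)
    unfold wt
    simp only
    refine div_le_div_of_nonneg_right ?_ (by positivity)
    refine Real.sqrt_le_sqrt ?_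
    exact_mod_cast Nat.le_of_dvd hr0 χ.conductor_dvd_level
  refine (sum_le_sum h1).trans ?_
  rw [← mul_sum]
  have h2 : ∑ χ ∈ X0, ‖∑ n ∈ Finset.Ioc 0 Y, c n * χ (n : ZMod r)‖ * ‖∑ k ∈ Finset.Ioc 0 (y % r), (1:ℂ) * χ (k : ZMod r)‖
      ≤ Real.sqrt ((Nat.totient r : ℝ) * (((Y:ℝ) / r + 1) * Y)) * Real.sqrt ((Nat.totient r : ℝ) * (2 * r)) := by
    refine (Real.sum_mul_le_sqrt_mul_sqrt _ _ _).trans ?_
    refine mul_le_mul (Real.sqrt_le_sqrt ?_) (Real.sqrt_le_sqrt ?_) (Real.sqrt_nonneg _) (Real.sqrt_nonneg _)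
    · refine le_trans (sum_le_sum_of_subset_of_nonneg (subset_univ _) fun _ _ _ => by positivity) (sq_all r Y c hc)
    · refine le_trans (sum_le_sum_of_subset_of_nonneg (subset_univ _) fun _ _ _ => by positivity) ((sq_all r (y % r) (fun _ => 1) (fun _ _ => by simp)).trans ?_)
      refine mul_le_mul_of_nonneg_left ?_ hφ.le
      have h3 : ((y % r : ℕ) : ℝ) ≤ r := by exact_mod_cast (Nat.mod_lt y hr0).le
      have h4 : ((y % r : ℕ) : ℝ) / r ≤ 1 := by rw [div_le_one hrr]; exact h3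
      calc (((y % r : ℕ) : ℝ) / r + 1) * ((y % r : ℕ) : ℝ) ≤ (1 + 1) * r :=
            mul_le_mul (by linarith) h3 (Nat.cast_nonneg _) (by norm_num)
        _ = 2 * r := by ring
  refine (mul_le_mul_of_nonneg_left h2 (by positivity)).trans (le_of_eq ?_)
  have e2 : Real.sqrt ((Nat.totient r : ℝ) * (((Y:ℝ) / r + 1) * Y)) * Real.sqrt ((Nat.totient r : ℝ) * (2 * r))
      = Nat.totient r * Real.sqrt r * Real.sqrt (2 * (((Y:ℝ) / r + 1) * Y)) := by
    rw [← Real.sqrt_mul (by positivity)]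
    have : (Nat.totient r : ℝ) * (((Y:ℝ) / r + 1) * Y) * ((Nat.totient r : ℝ) * (2 * r))
        = (Nat.totient r : ℝ) ^ 2 * r * (2 * (((Y:ℝ) / r + 1) * Y)) := by ring
    rw [this, Real.sqrt_mul (by positivity), Real.sqrt_mul (by positivity), Real.sqrt_sq hφ.le]
  rw [e2]
  have hsq : Real.sqrt r * Real.sqrt r = r := Real.mul_self_sqrt hrr.le
  calc Real.sqrt r / (Nat.totient r : ℝ) ^ 2 * (Nat.totient r * Real.sqrt r * Real.sqrt (2 * (((Y:ℝ) / r + 1) * Y)))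
      = (Real.sqrt r * Real.sqrt r) / Nat.totient r * Real.sqrt (2 * (((Y:ℝ) / r + 1) * Y)) := by field_simp
    _ = _ := by rw [hsq]

/-- the type I quantity -/
noncomputable def T1b (R Y : ℕ) (Lg : ℝ) : ℝ := R * Lg * Real.sqrt (2 * (((Y:ℝ) / R + 1) * Y))

lemma type1_block (B : Finset ℕ) (R z0 : ℕ) (hR : 1 ≤ R) (hz : 1 ≤ z0) (hB : ∀ r ∈ B, R < r ∧ r ≤ 2 * R)
    (Lg : ℝ) (hLg : 2 * Real.log (2 * R) + 1 ≤ Lg) (Y y : ℕ) (c : ℕ → ℂ) (hc : ∀ y ∈ Finset.Ioc 0 Y, ‖c y‖ ≤ 1) :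
    ∑ x ∈ Fam B z0, wt x * (‖∑ n ∈ Finset.Ioc 0 Y, c n * ev x n‖ * ‖∑ k ∈ Finset.Ioc 0 y, ev x k‖) ≤ T1b R Y Lg := by
  have hRr : (1:ℝ) ≤ R := by exact_mod_cast hR
  have hlog0 : 0 ≤ Real.log (2 * R) := Real.log_nonneg (by linarith)
  have hLg1 : 1 ≤ Lg := by linarith
  have h1 : ∑ x ∈ Fam B z0, wt x * (‖∑ n ∈ Finset.Ioc 0 Y, c n * ev x n‖ * ‖∑ k ∈ Finset.Ioc 0 y, ev x k‖)
      = ∑ r ∈ B, ∑ x ∈ Fam {r} z0, wt x * (‖∑ n ∈ Finset.Ioc 0 Y, c n * ev x n‖ * ‖∑ k ∈ Finset.Ioc 0 y, ev x k‖) := by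
    unfold Fam
    rw [sum_sigma]
    refine sum_congr rfl fun r _ => ?_
    rw [sum_sigma, sum_singleton]
  rw [h1]
  have h2 : ∀ r ∈ B, ∑ x ∈ Fam {r} z0, wt x * (‖∑ n ∈ Finset.Ioc 0 Y, c n * ev x n‖ * ‖∑ k ∈ Finset.Ioc 0 y, ev x k‖)
      ≤ Lg * Real.sqrt (2 * (((Y:ℝ) / R + 1) * Y)) := by
    intro r hr
    have hr' := hB r hr
    have hr0 : 0 < r := by omega
    have : NeZero r := ⟨by omega⟩
    have hrr : (0:ℝ) < r := by exact_mod_cast hr0
    refine (type1_fixed r z0 Y y hz c hc).trans ?_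
    have e1 : (r:ℝ) / Nat.totient r ≤ Lg := by
      have h3 := inv_totient_le r (by omega) Lg (by
        have : (r:ℝ) ≤ 2 * R := by exact_mod_cast hr'.2
        have := Real.log_le_log hrr this
        linarith)
      rw [le_div_iff₀ hrr] at h3
      calc (r:ℝ) / Nat.totient r = 1 / Nat.totient r * r := by ring
        _ ≤ Lg := h3
    have e2 : (Y:ℝ) / r ≤ (Y:ℝ) / R := by
      refine div_le_div_of_nonneg_left (Nat.cast_nonneg _) (by linarith) ?_
      exact_mod_cast hr'.1.le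
    refine mul_le_mul e1 (Real.sqrt_le_sqrt ?_) (Real.sqrt_nonneg _) (by linarith)
    refine mul_le_mul_of_nonneg_left ?_ (by norm_num)
    exact mul_le_mul_of_nonneg_right (by linarith) (Nat.cast_nonneg _)
  refine (sum_le_sum h2).trans ?_
  rw [sum_const, nsmul_eq_mul]
  unfold T1b
  have h3 : (B.card : ℝ) ≤ R := by
    have : B ⊆ Finset.Ioc R (2 * R) := by
      intro r hr; rw [Finset.mem_Ioc]; exact hB r hr
    have h4 := card_le_card this
    rw [Nat.card_Ioc] at h4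
    have : B.card ≤ R := by omega
    exact_mod_cast this
  calc (B.card : ℝ) * (Lg * Real.sqrt (2 * (((Y:ℝ) / R + 1) * Y))) ≤ R * (Lg * Real.sqrt (2 * (((Y:ℝ) / R + 1) * Y))) :=
        mul_le_mul_of_nonneg_right h3 (by positivity)
    _ = _ := by ring

end Pool.Agent.Var73
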