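import Pool.Agent.Lib_helper73.Var.Conv
import Pool.Agent.Lib_helper35.Var.MV

/-! Type II estimates with an additional smooth variable -/

set_option autoImplicit false

namespace Pool.Agent.Var73

open Finset Complex Pool.Agent.Var35 DirichletCharacter
open scoped ArithmeticFunction ArithmeticFunction.Moebius ArithmeticFunction.zeta

open scoped Classical in
/-- all characters modulo `r ∈ B` with conductor larger than `z0` -/
noncomputable def Fam (B : Finset ℕ) (z0 : ℕ) : Finset Chr :=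
  B.sigma (fun r => univ.filter (fun χ : DirichletCharacter ℂ r => z0 < χ.conductor))

/-- the weight -/
noncomputable def wt (x : Chr) : ℝ := Real.sqrt x.2.conductor / (Nat.totient x.1 : ℝ) ^ 2

lemma wt_nonneg (x : Chr) : 0 ≤ wt x := by unfold wt; positivity

/-- the standing bracket -/
noncomputable def brk (R z0 : ℕ) (p q : ℝ) : ℝ := p * q / (R * Real.sqrt z0) + (p + q) / Real.sqrt R + Real.sqrt R

lemma brk_nonneg (R z0 : ℕ) (p q : ℝ) (hp : 0 ≤ p) (hq : 0 ≤ q) : 0 ≤ brk R z0 p q := by unfold brk; positivity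

theorem TB' (B : Finset ℕ) (R z0 : ℕ) (hR : 1 ≤ R) (hz : 1 ≤ z0) (hB : ∀ r ∈ B, R < r ∧ r ≤ 2 * R ∧ Squarefree r)
    (Lg : ℝ) (hLg : 2 * Real.log (2 * R) + 1 ≤ Lg) (a b : ℕ → ℂ) (M1 H1 M2 H2 : ℕ) :
    ∑ x ∈ Fam B z0, wt x * (‖∑ n ∈ Finset.Ioc M1 (M1 + H1), a n * ev x n‖ * ‖∑ n ∈ Finset.Ioc M2 (M2 + H2), b n * ev x n‖)
      ≤ 88 * Lg ^ 4 * brk R z0 (Real.sqrt H1) (Real.sqrt H2)
        * (Real.sqrt (∑ n ∈ Finset.Ioc M1 (M1 + H1), ‖a n‖ ^ 2) * Real.sqrt (∑ n ∈ Finset.Ioc M2 (M2 + H2), ‖b n‖ ^ 2)) := by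
  unfold Fam
  rw [sum_sigma]
  exact TB B R z0 hR hz hB Lg hLg a b M1 H1 M2 H2

lemma sqrt_cv_le (X : ℕ) (A Lg S : ℝ) (hA : 0 ≤ A) (hLg1 : 1 ≤ Lg) (hX : 1 + Real.log X ≤ Lg)
    (hS : S ≤ A ^ 2 * ((X : ℝ) * (1 + Real.log X) ^ 3)) : Real.sqrt S ≤ A * Lg ^ 2 * Real.sqrt X := by
  have h0 : 0 ≤ 1 + Real.log X := by have := Real.log_natCast_nonneg X; linarith
  have h1 : (1 + Real.log X) ^ 3 ≤ Lg ^ 4 := by
    calc (1 + Real.log X) ^ 3 ≤ Lg ^ 3 := pow_le_pow_left₀ h0 hX 3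
      _ ≤ Lg ^ 4 := pow_le_pow_right₀ hLg1 (by norm_num)
  have h2 : S ≤ (A * Lg ^ 2) ^ 2 * X := by
    refine hS.trans ?_
    calc A ^ 2 * ((X : ℝ) * (1 + Real.log X) ^ 3) ≤ A ^ 2 * ((X:ℝ) * Lg ^ 4) := by
          refine mul_le_mul_of_nonneg_left (mul_le_mul_of_nonneg_left h1 (Nat.cast_nonneg X)) (by positivity)
      _ = _ := by ring
  refine (Real.sqrt_le_sqrt h2).trans (le_of_eq ?_)
  rw [Real.sqrt_mul (by positivity), Real.sqrt_sq (by positivity)]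

/-- one dyadic block of a type II sum, before inserting numerical bounds -/
lemma type2_block (B : Finset ℕ) (R z0 : ℕ) (hR : 1 ≤ R) (hz : 1 ≤ z0) (hB : ∀ r ∈ B, R < r ∧ r ≤ 2 * R ∧ Squarefree r)
    (Lg : ℝ) (hLg : 2 * Real.log (2 * R) + 1 ≤ Lg) (Y : ℕ) (c : ℕ → ℂ) (hc : ∀ y ∈ Finset.Ioc 0 Y, ‖c y‖ ≤ 1)
    (α β : ℕ → ℝ) (A Bb : ℝ) (hA : 0 ≤ A) (hBb : 0 ≤ Bb) (M u : ℕ) (hM : 1 ≤ M) (hT : 1 ≤ u / M)
    (hα : ∀ m, M < m → m ≤ 2 * M → |α m| ≤ A) (hβ : ∀ k, 1 ≤ k → k ≤ u / M → |β k| ≤ Bb)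
    (hl1 : 1 + Real.log ((Y * (2 * M) : ℕ) : ℝ) ≤ Lg) (hl2 : 1 + Real.log ((Y * (u / M) : ℕ) : ℝ) ≤ Lg) (E : ℝ)
    (hE : min (brk R z0 (Real.sqrt (2 * M * Y)) (Real.sqrt ((u / M : ℕ) : ℝ)) * (Real.sqrt (2 * M * Y) * Real.sqrt ((u / M : ℕ) : ℝ)))
      (brk R z0 (Real.sqrt M) (Real.sqrt (Y * (u / M : ℕ))) * (Real.sqrt M * Real.sqrt (Y * (u / M : ℕ)))) ≤ E) :
    ∑ x ∈ Fam B z0, wt x * (‖∑ y ∈ Finset.Ioc 0 Y, c y * ev x y‖ * ‖∑ m ∈ Finset.Ioc M (M + M), ∑ k ∈ Finset.Icc 1 (u / m),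
        (α m : ℂ) * (β k : ℂ) * ev x (m * k)‖)
      ≤ 88 * Lg ^ 6 * (2 + Real.log (u / M : ℕ)) * A * Bb * E := by
  set T : ℕ := u / M with hTdef
  have hTr : (0:ℝ) < T := by exact_mod_cast hT
  have hRr : (1:ℝ) ≤ R := by exact_mod_cast hR
  have hlog0 : 0 ≤ Real.log (2 * R) := Real.log_nonneg (by linarith)
  have hLg1 : 1 ≤ Lg := by linarith
  set Aj : ℕ → Chr → ℂ := fun j x => ∑ m ∈ Finset.Ioc M (M + M), ((α m : ℂ) * cf T (u / m) j) * ev x m with hAj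
  set Bj : ℕ → Chr → ℂ := fun j x => ∑ k ∈ Finset.Ioc 0 (0 + T), ((β k : ℂ) * e (j * k / T)) * ev x k with hBj
  set Cx : Chr → ℂ := fun x => ∑ y ∈ Finset.Ioc 0 Y, c y * ev x y with hCx
  have hId : ∀ x, ∑ m ∈ Finset.Ioc M (M + M), ∑ k ∈ Finset.Icc 1 (u / m), (α m : ℂ) * (β k : ℂ) * ev x (m * k)
      = ∑ j ∈ range T, Aj j x * Bj j x := by
    intro x
    have h1 : ∀ m ∈ Finset.Ioc M (M + M), ∑ k ∈ Finset.Icc 1 (u / m), (α m : ℂ) * (β k : ℂ) * ev x (m * k)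
        = ∑ j ∈ range T, ∑ k ∈ Finset.Ioc 0 (0 + T),
            (((α m : ℂ) * cf T (u / m) j) * ev x m) * (((β k : ℂ) * e (j * k / T)) * ev x k) := by
      intro m hm
      rw [Finset.mem_Ioc] at hm
      have hle : u / m ≤ T := Nat.div_le_div_left hm.1.le (by omega)
      have h2 : ∑ k ∈ Finset.Icc 1 (u / m), (α m : ℂ) * (β k : ℂ) * ev x (m * k)
          = ∑ k ∈ Finset.Ioc 0 (0 + T), (∑ j ∈ range T, cf T (u / m) j * e (j * k / T)) *
              ((α m : ℂ) * (β k : ℂ) * ev x (m * k)) := by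
        have h3 : ∀ k ∈ Finset.Ioc 0 (0 + T), (∑ j ∈ range T, cf T (u / m) j * e (j * k / T)) *
              ((α m : ℂ) * (β k : ℂ) * ev x (m * k))
            = if k ≤ u / m then (α m : ℂ) * (β k : ℂ) * ev x (m * k) else 0 := by
          intro k hk
          rw [Finset.mem_Ioc] at hk
          rw [cf_expand T (u / m) k (by omega) (by omega) hle]
          split_ifs <;> simp
        rw [sum_congr rfl h3, ← sum_filter]
        refine sum_congr ?_ fun _ _ => rfl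
        ext k
        simp only [Finset.mem_Icc, mem_filter, Finset.mem_Ioc]
        omega
      rw [h2]
      have h4 : ∀ k ∈ Finset.Ioc 0 (0 + T), (∑ j ∈ range T, cf T (u / m) j * e (j * k / T)) *
              ((α m : ℂ) * (β k : ℂ) * ev x (m * k))
          = ∑ j ∈ range T, (((α m : ℂ) * cf T (u / m) j) * ev x m) * (((β k : ℂ) * e (j * k / T)) * ev x k) := by
        intro k _
        rw [ev_mul, sum_mul]
        refine sum_congr rfl fun j _ => by ring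
      rw [sum_congr rfl h4, sum_comm]
    rw [sum_congr rfl h1, sum_comm]
    refine sum_congr rfl fun j _ => ?_
    simp only [hAj, hBj]
    rw [sum_mul_sum]
  -- norms
  have hAn : ∀ j ∈ range T, ∀ m ∈ Finset.Ioc M (M + M), ‖(α m : ℂ) * cf T (u / m) j‖ ≤ A * gm T j := by
    intro j hj m hm
    rw [Finset.mem_Ioc] at hm
    rw [mem_range] at hj
    have hle : u / m ≤ T := Nat.div_le_div_left hm.1.le (by omega)
    rw [norm_mul, Complex.norm_real, Real.norm_eq_abs]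
    exact mul_le_mul (hα m hm.1 (by omega)) (cf_le T _ j hle hj) (norm_nonneg _) hA
  have hBn : ∀ j ∈ range T, ∀ k ∈ Finset.Ioc 0 (0 + T), ‖(β k : ℂ) * e (j * k / T)‖ ≤ Bb := by
    intro j _ k hk
    rw [Finset.mem_Ioc] at hk
    rw [norm_mul, norm_e, mul_one, Complex.norm_real, Real.norm_eq_abs]
    exact hβ k (by omega) (by omega)
  have hg0 : ∀ j ∈ range T, 0 ≤ gm T j := fun j hj => gm_nonneg T j (mem_range.mp hj)
  have hAs : ∀ j ∈ range T, Real.sqrt (∑ m ∈ Finset.Ioc M (M + M), ‖(α m : ℂ) * cf T (u / m) j‖ ^ 2) ≤ A * gm T j * Real.sqrt M := by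
    intro j hj
    have h0 := hg0 j hj
    have : ∑ m ∈ Finset.Ioc M (M + M), ‖(α m : ℂ) * cf T (u / m) j‖ ^ 2 ≤ (A * gm T j) ^ 2 * M := by
      refine (sum_le_sum fun m hm => pow_le_pow_left₀ (norm_nonneg _) (hAn j hj m hm) 2).trans (le_of_eq ?_)
      rw [sum_const, Nat.card_Ioc, nsmul_eq_mul, Nat.add_sub_cancel_left]; ring
    refine (Real.sqrt_le_sqrt this).trans (le_of_eq ?_)
    rw [Real.sqrt_mul (by positivity), Real.sqrt_sq (by positivity)]
  have hBs : ∀ j ∈ range T, Real.sqrt (∑ k ∈ Finset.Ioc 0 (0 + T), ‖(β k : ℂ) * e (j * k / T)‖ ^ 2) ≤ Bb * Real.sqrt T := by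
    intro j hj
    have : ∑ k ∈ Finset.Ioc 0 (0 + T), ‖(β k : ℂ) * e (j * k / T)‖ ^ 2 ≤ Bb ^ 2 * T := by
      refine (sum_le_sum fun m hm => pow_le_pow_left₀ (norm_nonneg _) (hBn j hj m hm) 2).trans (le_of_eq ?_)
      rw [sum_const, Nat.card_Ioc, nsmul_eq_mul, Nat.add_sub_cancel_left]; ring
    refine (Real.sqrt_le_sqrt this).trans (le_of_eq ?_)
    rw [Real.sqrt_mul (by positivity), Real.sqrt_sq hBb]
  -- main bound for each j
  have hj : ∀ j ∈ range T, ∑ x ∈ Fam B z0, wt x * (‖Cx x‖ * (‖Aj j x‖ * ‖Bj j x‖)) ≤ gm T j * (88 * Lg ^ 6 * A * Bb * E) := by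
    intro j hj
    have h0 := hg0 j hj
    have hEv : ∀ x : Chr, ∀ m n, ev x (m * n) = ev x m * ev x n := fun x m n => ev_mul x m n
    rcases le_total (brk R z0 (Real.sqrt (2 * M * Y)) (Real.sqrt (T : ℝ)) * (Real.sqrt (2 * M * Y) * Real.sqrt (T : ℝ)))
      (brk R z0 (Real.sqrt M) (Real.sqrt (Y * T)) * (Real.sqrt M * Real.sqrt (Y * T))) with hcase | hcase
    · rw [min_eq_left hcase] at hE
      have hJ : Finset.Ioc M (M + M) ⊆ Finset.Ioc 0 (2 * M) := by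
        intro m hm; rw [Finset.mem_Ioc] at hm ⊢; omega
      have e1 : ∀ x, ‖Cx x‖ * (‖Aj j x‖ * ‖Bj j x‖)
          = ‖∑ w ∈ Finset.Ioc 0 (0 + Y * (2 * M)), cv Y c (Finset.Ioc M (M + M)) (fun m => (α m : ℂ) * cf T (u / m) j) w * ev x w‖ * ‖Bj j x‖ := by
        intro x
        rw [← mul_assoc, ← norm_mul, hCx, hAj, zero_add]
        simp only
        rw [cv_sum Y (2 * M) c (fun m => (α m : ℂ) * cf T (u / m) j) (Finset.Ioc M (M + M)) hJ (ev x) (hEv x)]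
      have h1 := TB' B R z0 hR hz hB Lg hLg (cv Y c (Finset.Ioc M (M + M)) (fun m => (α m : ℂ) * cf T (u / m) j))
        (fun k => (β k : ℂ) * e (j * k / T)) 0 (Y * (2 * M)) 0 T
      have h2 := cv_norm Y (2 * M) c (fun m => (α m : ℂ) * cf T (u / m) j) (Finset.Ioc M (M + M)) (A * gm T j) (by positivity) hc (hAn j hj)
      have h3 := sqrt_cv_le (Y * (2 * M)) (A * gm T j) Lg _ (by positivity) hLg1 hl1 h2
      have hMY : (((Y * (2 * M) : ℕ) : ℝ)) = 2 * M * Y := by push_cast; ring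
      rw [hMY] at h3 h1
      rw [sum_congr rfl fun x _ => by rw [e1 x]]
      rw [zero_add (Y * (2 * M))] at h1 ⊢
      refine h1.trans ?_
      have h4 := hBs j hj
      set br := brk R z0 (Real.sqrt (2 * M * Y)) (Real.sqrt T) with hbr
      have hbr0 : 0 ≤ br := brk_nonneg _ _ _ _ (Real.sqrt_nonneg _) (Real.sqrt_nonneg _)
      calc 88 * Lg ^ 4 * br * (Real.sqrt (∑ n ∈ Finset.Ioc 0 (Y * (2 * M)), ‖cv Y c (Finset.Ioc M (M + M)) (fun m => (α m : ℂ) * cf T (u / m) j) n‖ ^ 2)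
              * Real.sqrt (∑ k ∈ Finset.Ioc 0 (0 + T), ‖(β k : ℂ) * e (j * k / T)‖ ^ 2))
          ≤ 88 * Lg ^ 4 * br * ((A * gm T j * Lg ^ 2 * Real.sqrt (2 * M * Y)) * (Bb * Real.sqrt T)) := by
            refine mul_le_mul_of_nonneg_left ?_ (by positivity)
            exact mul_le_mul h3 h4 (Real.sqrt_nonneg _) (by positivity)
        _ = gm T j * (88 * Lg ^ 6 * A * Bb * (br * (Real.sqrt (2 * M * Y) * Real.sqrt T))) := by ring
        _ ≤ gm T j * (88 * Lg ^ 6 * A * Bb * E) := by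
            refine mul_le_mul_of_nonneg_left ?_ h0
            exact mul_le_mul_of_nonneg_left hE (by positivity)
    · rw [min_eq_right hcase] at hE
      have e1 : ∀ x, ‖Cx x‖ * (‖Aj j x‖ * ‖Bj j x‖)
          = ‖Aj j x‖ * ‖∑ w ∈ Finset.Ioc 0 (0 + Y * T), cv Y c (Finset.Ioc 0 (0 + T)) (fun k => (β k : ℂ) * e (j * k / T)) w * ev x w‖ := by
        intro x
        rw [← mul_assoc, mul_comm ‖Cx x‖, mul_assoc, ← norm_mul, hCx, hBj]
        simp only
        rw [cv_sum Y T c (fun k => (β k : ℂ) * e (j * k / T)) (Finset.Ioc 0 (0 + T)) (by rw [zero_add]) (ev x) (hEv x)]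
        simp only [zero_add]
      have h1 := TB' B R z0 hR hz hB Lg hLg (fun m => (α m : ℂ) * cf T (u / m) j)
        (cv Y c (Finset.Ioc 0 (0 + T)) (fun k => (β k : ℂ) * e (j * k / T))) M M 0 (Y * T)
      have h2 := cv_norm Y T c (fun k => (β k : ℂ) * e (j * k / T)) (Finset.Ioc 0 (0 + T)) Bb hBb hc (hBn j hj)
      have h3 := sqrt_cv_le (Y * T) Bb Lg _ hBb hLg1 hl2 h2
      have hMY : (((Y * T : ℕ) : ℝ)) = Y * T := by push_cast; ring
      rw [hMY] at h3 h1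
      rw [sum_congr rfl fun x _ => by rw [e1 x]]
      refine h1.trans ?_
      have h4 := hAs j hj
      set br := brk R z0 (Real.sqrt M) (Real.sqrt (Y * T)) with hbr
      have hbr0 : 0 ≤ br := brk_nonneg _ _ _ _ (Real.sqrt_nonneg _) (Real.sqrt_nonneg _)
      rw [← zero_add (Y * T)] at h3
      calc 88 * Lg ^ 4 * br * (Real.sqrt (∑ n ∈ Finset.Ioc M (M + M), ‖(α n : ℂ) * cf T (u / n) j‖ ^ 2)
              * Real.sqrt (∑ n ∈ Finset.Ioc 0 (0 + Y * T), ‖cv Y c (Finset.Ioc 0 (0 + T)) (fun k => (β k : ℂ) * e (j * k / T)) n‖ ^ 2))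
          ≤ 88 * Lg ^ 4 * br * ((A * gm T j * Real.sqrt M) * (Bb * Lg ^ 2 * Real.sqrt (Y * T))) := by
            refine mul_le_mul_of_nonneg_left ?_ (by positivity)
            exact mul_le_mul h4 h3 (Real.sqrt_nonneg _) (by positivity)
        _ = gm T j * (88 * Lg ^ 6 * A * Bb * (br * (Real.sqrt M * Real.sqrt (Y * T)))) := by ring
        _ ≤ gm T j * (88 * Lg ^ 6 * A * Bb * E) := by
            refine mul_le_mul_of_nonneg_left ?_ h0
            exact mul_le_mul_of_nonneg_left hE (by positivity)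
  have hE0 : 0 ≤ E := by
    refine le_trans ?_ hE
    refine le_min ?_ ?_
    · exact mul_nonneg (brk_nonneg _ _ _ _ (Real.sqrt_nonneg _) (Real.sqrt_nonneg _)) (by positivity)
    · exact mul_nonneg (brk_nonneg _ _ _ _ (Real.sqrt_nonneg _) (Real.sqrt_nonneg _)) (by positivity)
  calc ∑ x ∈ Fam B z0, wt x * (‖Cx x‖ * ‖∑ m ∈ Finset.Ioc M (M + M), ∑ k ∈ Finset.Icc 1 (u / m), (α m : ℂ) * (β k : ℂ) * ev x (m * k)‖)
      ≤ ∑ x ∈ Fam B z0, ∑ j ∈ range T, wt x * (‖Cx x‖ * (‖Aj j x‖ * ‖Bj j x‖)) := by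
        refine sum_le_sum fun x _ => ?_
        rw [hId x, ← mul_sum, ← mul_sum]
        refine mul_le_mul_of_nonneg_left ?_ (wt_nonneg x)
        refine mul_le_mul_of_nonneg_left ?_ (norm_nonneg _)
        refine (norm_sum_le _ _).trans (sum_le_sum fun j _ => ?_)
        rw [norm_mul]
    _ = ∑ j ∈ range T, ∑ x ∈ Fam B z0, wt x * (‖Cx x‖ * (‖Aj j x‖ * ‖Bj j x‖)) := sum_comm
    _ ≤ ∑ j ∈ range T, gm T j * (88 * Lg ^ 6 * A * Bb * E) := sum_le_sum hj
    _ = (∑ j ∈ range T, gm T j) * (88 * Lg ^ 6 * A * Bb * E) := by rw [sum_mul]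
    _ ≤ (2 + Real.log T) * (88 * Lg ^ 6 * A * Bb * E) :=
        mul_le_mul_of_nonneg_right (sum_gm_le T hT) (by positivity)
    _ = _ := by ring

/-- the numerical type II bound -/
noncomputable def E2b (R z0 Y N U : ℕ) : ℝ :=
  2 * Y * N / (R * Real.sqrt z0)
    + (2 * Y * Real.sqrt N * Real.sqrt (Real.sqrt N) + 2 * Real.sqrt Y * N / Real.sqrt U + Real.sqrt Y * Real.sqrt N * U) / Real.sqrt R
    + 2 * Real.sqrt R * Real.sqrt Y * Real.sqrt N

lemma E2b_nonneg (R z0 Y N U : ℕ) : 0 ≤ E2b R z0 Y N U := by unfold E2b; positivity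

lemma num_E2 (R z0 Y N U M T : ℕ) (hR : 1 ≤ R) (hU : 1 ≤ U) (hUM : U ≤ M) (hMT : M * T ≤ N)
    (hM : Real.sqrt M ≤ Real.sqrt N / Real.sqrt U ∨ Real.sqrt M ≤ U) :
    min (brk R z0 (Real.sqrt (2 * M * Y)) (Real.sqrt (T : ℝ)) * (Real.sqrt (2 * M * Y) * Real.sqrt (T : ℝ)))
      (brk R z0 (Real.sqrt M) (Real.sqrt (Y * T)) * (Real.sqrt M * Real.sqrt (Y * T))) ≤ E2b R z0 Y N U := by
  obtain ⟨p, hp⟩ : ∃ p, p = Real.sqrt M := ⟨_, rfl⟩
  obtain ⟨q, hq⟩ : ∃ q, q = Real.sqrt T := ⟨_, rfl⟩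
  obtain ⟨y, hy⟩ : ∃ y, y = Real.sqrt Y := ⟨_, rfl⟩
  obtain ⟨n, hn⟩ : ∃ n, n = Real.sqrt N := ⟨_, rfl⟩
  obtain ⟨k, hk⟩ : ∃ k, k = Real.sqrt n := ⟨_, rfl⟩
  obtain ⟨s, hs⟩ : ∃ s, s = Real.sqrt 2 := ⟨_, rfl⟩
  obtain ⟨ρ, hρ⟩ : ∃ ρ, ρ = Real.sqrt R := ⟨_, rfl⟩
  obtain ⟨v, hv⟩ : ∃ v, v = Real.sqrt U := ⟨_, rfl⟩
  obtain ⟨w, hw⟩ : ∃ w, w = Real.sqrt z0 := ⟨_, rfl⟩
  have hp0 : 0 ≤ p := by rw [hp]; positivity
  have hq0 : 0 ≤ q := by rw [hq]; positivity
  have hy0 : 0 ≤ y := by rw [hy]; positivity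
  have hn0 : 0 ≤ n := by rw [hn]; positivity
  have hk0 : 0 ≤ k := by rw [hk]; positivity
  have hs0 : 0 ≤ s := by rw [hs]; positivity
  have hw0 : 0 ≤ w := by rw [hw]; positivity
  have hρ0 : 0 < ρ := by rw [hρ]; exact Real.sqrt_pos.mpr (by exact_mod_cast hR)
  have hv0 : 0 < v := by rw [hv]; exact Real.sqrt_pos.mpr (by exact_mod_cast hU)
  have hRr : (0:ℝ) < R := by exact_mod_cast hR
  have hp2 : p ^ 2 = M := by rw [hp]; exact Real.sq_sqrt (Nat.cast_nonneg _)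
  have hq2 : q ^ 2 = T := by rw [hq]; exact Real.sq_sqrt (Nat.cast_nonneg _)
  have hy2 : y ^ 2 = Y := by rw [hy]; exact Real.sq_sqrt (Nat.cast_nonneg _)
  have hn2 : n ^ 2 = N := by rw [hn]; exact Real.sq_sqrt (Nat.cast_nonneg _)
  have hk2 : k ^ 2 = n := by rw [hk]; exact Real.sq_sqrt hn0
  have hs2 : s ^ 2 = 2 := by rw [hs]; exact Real.sq_sqrt (by norm_num)
  have hv2 : v ^ 2 = U := by rw [hv]; exact Real.sq_sqrt (Nat.cast_nonneg _)
  have hs1 : s ≤ 2 := by nlinarith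
  have hpq : p * q ≤ n := by
    have h1 : (p * q) ^ 2 ≤ n ^ 2 := by
      rw [mul_pow, hp2, hq2, hn2]; exact_mod_cast hMT
    exact le_of_sq_le_sq h1 hn0 |> fun h => h
  have hvp : v ≤ p := by
    rw [hv, hp]; exact Real.sqrt_le_sqrt (by exact_mod_cast hUM)
  have hqv : q * v ≤ n := (by nlinarith : q * v ≤ p * q).trans hpq
  have e1 : Real.sqrt (2 * M * Y) = s * p * y := by
    rw [Real.sqrt_mul (by positivity), Real.sqrt_mul (by norm_num), ← hs, ← hp, ← hy]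
  have e2 : Real.sqrt ((Y:ℝ) * T) = y * q := by
    rw [Real.sqrt_mul (Nat.cast_nonneg _), ← hy, ← hq]
  unfold brk E2b
  rw [e1, e2, ← hp, ← hq, ← hρ, ← hn, ← hk, ← hw, ← hv, ← hy]
  have hEq : 2 * (Y:ℝ) * N / (R * w) + (2 * Y * n * k + 2 * y * N / v + y * n * U) / ρ + 2 * ρ * y * n
      = 2 * y ^ 2 * n ^ 2 / (R * w) + (2 * y ^ 2 * n * k + 2 * y * n * (n / v) + y * n * U) / ρ + 2 * ρ * y * n := by
    rw [hy2, hn2, ← hn2]; field_simp
  rw [hEq]
  have hUr : (0:ℝ) ≤ U := Nat.cast_nonneg _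
  have hnv : q ≤ n / v := by rw [le_div_iff₀ hv0]; exact hqv
  have hnv0 : 0 ≤ n / v := by positivity
  rcases le_total (p ^ 2) n with hc | hc
  · -- M ≤ √N
    refine (min_le_left _ _).trans ?_
    have hpk : p ≤ k := by
      have : p ^ 2 ≤ k ^ 2 := by rw [hk2]; exact hc
      exact le_of_sq_le_sq this hk0 |> fun h => h
    have t1 : s * p * y * q / (R * w) * (s * p * y * q) ≤ 2 * y ^ 2 * n ^ 2 / (R * w) := by
      rw [div_mul_eq_mul_div]
      refine div_le_div_of_nonneg_right ?_ (by positivity)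
      have : s * p * y * q * (s * p * y * q) = s ^ 2 * y ^ 2 * (p * q) ^ 2 := by ring
      rw [this, hs2]
      exact mul_le_mul_of_nonneg_left (pow_le_pow_left₀ (by positivity) hpq 2) (by positivity)
    have t2 : (s * p * y + q) / ρ * (s * p * y * q) ≤ (2 * y ^ 2 * n * k + 2 * y * n * (n / v) + y * n * U) / ρ := by
      rw [div_mul_eq_mul_div]
      refine div_le_div_of_nonneg_right ?_ hρ0.le
      have f1 : (s * p * y + q) * (s * p * y * q) = s ^ 2 * y ^ 2 * (p * q) * p + s * y * (p * q) * q := by ring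
      rw [f1, hs2]
      have f2 : 2 * y ^ 2 * (p * q) * p ≤ 2 * y ^ 2 * n * k :=
        mul_le_mul (mul_le_mul_of_nonneg_left hpq (by positivity)) hpk hp0 (by positivity)
      have f3 : s * y * (p * q) * q ≤ 2 * y * n * (n / v) :=
        mul_le_mul (mul_le_mul (mul_le_mul_of_nonneg_right hs1 hy0) hpq (by positivity) (by positivity)) hnv hq0 (by positivity)
      have : 0 ≤ y * n * U := by positivity
      linarith
    have t3 : ρ * (s * p * y * q) ≤ 2 * ρ * y * n := by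
      have : ρ * (s * p * y * q) = (ρ * s * y) * (p * q) := by ring
      rw [this]
      calc (ρ * s * y) * (p * q) ≤ (ρ * 2 * y) * n :=
            mul_le_mul (mul_le_mul_of_nonneg_right (mul_le_mul_of_nonneg_left hs1 hρ0.le) hy0) hpq (by positivity) (by positivity)
        _ = _ := by ring
    calc (s * p * y * q / (R * w) + (s * p * y + q) / ρ + ρ) * (s * p * y * q)
        = s * p * y * q / (R * w) * (s * p * y * q) + (s * p * y + q) / ρ * (s * p * y * q) + ρ * (s * p * y * q) := by ring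
      _ ≤ _ := add_le_add (add_le_add t1 t2) t3
  · refine (min_le_right _ _).trans ?_
    have hqk : q ≤ k := by
      have h1 : q ^ 2 * p ^ 2 ≤ n ^ 2 := by
        have h5 := pow_le_pow_left₀ (by positivity) hpq 2
        calc q ^ 2 * p ^ 2 = (p * q) ^ 2 := by ring
          _ ≤ n ^ 2 := h5
      have h2 : q ^ 2 ≤ n := by
        rcases eq_or_lt_of_le hn0 with h0 | h0
        · have h5 : q * v ≤ 0 := by rw [← h0] at hqv; exact hqv
          have h6 : q = 0 := by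
            rcases eq_or_lt_of_le hq0 with h | h
            · exact h.symm
            · exact absurd h5 (not_le.mpr (mul_pos h hv0))
          rw [h6]; simpa using hn0
        · have h3 : q ^ 2 * n ≤ n * n := by
            calc q ^ 2 * n ≤ q ^ 2 * p ^ 2 := mul_le_mul_of_nonneg_left hc (sq_nonneg q)
              _ ≤ n ^ 2 := h1
              _ = n * n := sq n
          exact le_of_mul_le_mul_right h3 h0
      have : q ^ 2 ≤ k ^ 2 := by rw [hk2]; exact h2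
      exact le_of_sq_le_sq this hk0 |> fun h => h
    have hpb : p ≤ n / v + U := by
      rw [← hp, ← hn, ← hv] at hM
      rcases hM with h | h <;> linarith
    have t1 : p * (y * q) / (R * w) * (p * (y * q)) ≤ 2 * y ^ 2 * n ^ 2 / (R * w) := by
      rw [div_mul_eq_mul_div]
      refine div_le_div_of_nonneg_right ?_ (by positivity)
      have : p * (y * q) * (p * (y * q)) = y ^ 2 * (p * q) ^ 2 := by ring
      rw [this]
      have h1 := mul_le_mul_of_nonneg_left (pow_le_pow_left₀ (by positivity) hpq 2) (by positivity : 0 ≤ y ^ 2)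
      have : 0 ≤ y ^ 2 * n ^ 2 := by positivity
      linarith
    have t2 : (p + y * q) / ρ * (p * (y * q)) ≤ (2 * y ^ 2 * n * k + 2 * y * n * (n / v) + y * n * U) / ρ := by
      rw [div_mul_eq_mul_div]
      refine div_le_div_of_nonneg_right ?_ hρ0.le
      have f1 : (p + y * q) * (p * (y * q)) = y * (p * q) * p + y ^ 2 * (p * q) * q := by ring
      rw [f1]
      have f2 : y ^ 2 * (p * q) * q ≤ y ^ 2 * n * k :=
        mul_le_mul (mul_le_mul_of_nonneg_left hpq (by positivity)) hqk hq0 (by positivity)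
      have f3 : y * (p * q) * p ≤ y * n * (n / v + U) :=
        mul_le_mul (mul_le_mul_of_nonneg_left hpq hy0) hpb hp0 (by positivity)
      have g1 : 0 ≤ y ^ 2 * n * k := by positivity
      have g2 : 0 ≤ y * n * (n / v) := by positivity
      have g3 : y * n * (n / v + U) = y * n * (n / v) + y * n * U := by ring
      rw [g3] at f3
      linarith
    have t3 : ρ * (p * (y * q)) ≤ 2 * ρ * y * n := by
      have : ρ * (p * (y * q)) = (ρ * y) * (p * q) := by ring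
      rw [this]
      have g1 := mul_le_mul_of_nonneg_left hpq (by positivity : 0 ≤ ρ * y)
      have g2 : 0 ≤ ρ * y * n := by positivity
      linarith
    calc (p * (y * q) / (R * w) + (p + y * q) / ρ + ρ) * (p * (y * q))
        = p * (y * q) / (R * w) * (p * (y * q)) + (p + y * q) / ρ * (p * (y * q)) + ρ * (p * (y * q)) := by ring
      _ ≤ _ := add_le_add (add_le_add t1 t2) t3

/-- Type II estimate: sum over `m > U`. -/
lemma type2y (B : Finset ℕ) (R z0 : ℕ) (hR : 1 ≤ R) (hz : 1 ≤ z0) (hB : ∀ r ∈ B, R < r ∧ r ≤ 2 * R ∧ Squarefree r)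
    (Lg : ℝ) (hLg : 2 * Real.log (2 * R) + 1 ≤ Lg) (Y : ℕ) (hY : 1 ≤ Y) (c : ℕ → ℂ) (hc : ∀ y ∈ Finset.Ioc 0 Y, ‖c y‖ ≤ 1)
    (U u N : ℕ) (hU : 1 ≤ U) (hu : u ≤ N) (hN : 1 ≤ N) (hl : 1 + Real.log (2 * Y * N) ≤ Lg)
    (α β : ℕ → ℝ) (A Bb : ℝ) (hA : 0 ≤ A) (hBb : 0 ≤ Bb)
    (hα0 : ∀ m, m ≤ U → α m = 0)
    (hα : ∀ m, m ≤ 2 * N → |α m| ≤ A) (hβ : ∀ k, 1 ≤ k → k ≤ N → |β k| ≤ Bb)
    (hM : ∀ M, U ≤ M → M ≤ N → (∃ m, M < m ∧ m ≤ 2 * M ∧ α m ≠ 0) → (∃ k, 1 ≤ k ∧ k ≤ u / M ∧ β k ≠ 0) →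
      (Real.sqrt M ≤ Real.sqrt N / Real.sqrt U ∨ Real.sqrt M ≤ U)) :
    ∑ x ∈ Fam B z0, wt x * (‖∑ y ∈ Finset.Ioc 0 Y, c y * ev x y‖ * ‖∑ m ∈ Finset.Icc 1 u, ∑ k ∈ Finset.Icc 1 (u / m), (α m : ℂ) * (β k : ℂ) * ev x (m * k)‖)
      ≤ 176 * Lg ^ 6 * (2 + Real.log N) ^ 2 * A * Bb * E2b R z0 Y N U := by
  have hlN : 0 ≤ Real.log N := Real.log_natCast_nonneg N
  have hRr : (1:ℝ) ≤ R := by exact_mod_cast hR
  have hlog0 : 0 ≤ Real.log (2 * R) := Real.log_nonneg (by linarith)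
  have hLg1 : 1 ≤ Lg := by linarith
  have hE0 := E2b_nonneg R z0 Y N U
  set J : ℕ := Nat.log 2 u + 1 with hJ
  have hJu : u ≤ 2 ^ J * U := by
    have h1 : u < 2 ^ J := Nat.lt_pow_succ_log_self (by norm_num) u
    calc u ≤ 2 ^ J * 1 := by omega
      _ ≤ 2 ^ J * U := Nat.mul_le_mul_left _ hU
  have hJr : (J:ℝ) ≤ 2 * (2 + Real.log N) := by
    rcases Nat.eq_zero_or_pos u with h0 | h0
    · rw [hJ, h0]; simp; nlinarith
    have h1 : ((Nat.log 2 u : ℕ) : ℝ) ≤ Real.logb 2 u := by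
      have := Real.natLog_le_logb u 2
      exact_mod_cast this
    have h2 : Real.logb 2 u ≤ 2 * Real.log N := by
      unfold Real.logb
      rw [div_le_iff₀ (Real.log_pos (by norm_num))]
      have h3 : (0.5:ℝ) ≤ Real.log 2 := by
        have := Real.log_two_gt_d9; linarith
      have h4 : Real.log u ≤ Real.log N := Real.log_le_log (by exact_mod_cast h0) (by exact_mod_cast hu)
      nlinarith
    rw [hJ]; push_cast
    linarith
  set Cx : Chr → ℂ := fun x => ∑ y ∈ Finset.Ioc 0 Y, c y * ev x y with hCx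
  have hsplit : ∀ x, ∑ m ∈ Finset.Icc 1 u, ∑ k ∈ Finset.Icc 1 (u / m), (α m : ℂ) * (β k : ℂ) * ev x (m * k)
      = ∑ i ∈ range J, ∑ m ∈ Finset.Ioc (2 ^ i * U) (2 ^ i * U + 2 ^ i * U),
          ∑ k ∈ Finset.Icc 1 (u / m), (α m : ℂ) * (β k : ℂ) * ev x (m * k) := by
    intro x
    rw [← dyadic_split]
    have h1 : ∑ m ∈ Finset.Icc 1 u, ∑ k ∈ Finset.Icc 1 (u / m), (α m : ℂ) * (β k : ℂ) * ev x (m * k)
        = ∑ m ∈ Finset.Icc 1 (2 ^ J * U), ∑ k ∈ Finset.Icc 1 (u / m), (α m : ℂ) * (β k : ℂ) * ev x (m * k) := by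
      refine sum_subset (Finset.Icc_subset_Icc_right hJu) fun m _ hm2 => ?_
      have : u / m = 0 := by
        rw [Nat.div_eq_zero_iff]
        rw [Finset.mem_Icc] at hm2
        omega
      rw [this]; simp
    rw [h1]
    symm
    refine sum_subset ?_ fun m hm1 hm2 => ?_
    · intro m hm; rw [Finset.mem_Ioc] at hm; rw [Finset.mem_Icc]; omega
    · rw [Finset.mem_Icc] at hm1
      rw [Finset.mem_Ioc] at hm2
      have : m ≤ U := by omega
      rw [hα0 m this]; simp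
  have hblock : ∀ i ∈ range J, ∑ x ∈ Fam B z0, wt x * (‖Cx x‖ * ‖∑ m ∈ Finset.Ioc (2 ^ i * U) (2 ^ i * U + 2 ^ i * U),
          ∑ k ∈ Finset.Icc 1 (u / m), (α m : ℂ) * (β k : ℂ) * ev x (m * k)‖)
      ≤ 88 * Lg ^ 6 * (2 + Real.log N) * A * Bb * E2b R z0 Y N U := by
    intro i _
    set M := 2 ^ i * U with hMdef
    have hUM : U ≤ M := by
      calc U = 1 * U := (one_mul U).symm
        _ ≤ 2 ^ i * U := Nat.mul_le_mul_right U (Nat.one_le_two_pow)
    have hM1 : 1 ≤ M := hU.trans hUM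
    have hRHS0 : 0 ≤ 88 * Lg ^ 6 * (2 + Real.log N) * A * Bb * E2b R z0 Y N U := by positivity
    by_cases hc1 : ∃ m, M < m ∧ m ≤ 2 * M ∧ α m ≠ 0
    swap
    · have h1 : ∀ x ∈ Fam B z0, wt x * (‖Cx x‖ * ‖∑ m ∈ Finset.Ioc M (M + M),
          ∑ k ∈ Finset.Icc 1 (u / m), (α m : ℂ) * (β k : ℂ) * ev x (m * k)‖) = 0 := by
        intro x _
        have : ∑ m ∈ Finset.Ioc M (M + M), ∑ k ∈ Finset.Icc 1 (u / m), (α m : ℂ) * (β k : ℂ) * ev x (m * k) = 0 := by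
          refine sum_eq_zero fun m hm => ?_
          rw [Finset.mem_Ioc] at hm
          have : α m = 0 := by
            by_contra h
            exact hc1 ⟨m, hm.1, by omega, h⟩
          rw [this]; simp
        rw [this]; simp
      rw [sum_congr rfl h1]; simpa using hRHS0
    by_cases hc2 : ∃ k, 1 ≤ k ∧ k ≤ u / M ∧ β k ≠ 0
    swap
    · have h1 : ∀ x ∈ Fam B z0, wt x * (‖Cx x‖ * ‖∑ m ∈ Finset.Ioc M (M + M),
          ∑ k ∈ Finset.Icc 1 (u / m), (α m : ℂ) * (β k : ℂ) * ev x (m * k)‖) = 0 := by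
        intro x _
        have : ∑ m ∈ Finset.Ioc M (M + M), ∑ k ∈ Finset.Icc 1 (u / m), (α m : ℂ) * (β k : ℂ) * ev x (m * k) = 0 := by
          refine sum_eq_zero fun m hm => sum_eq_zero fun k hk => ?_
          rw [Finset.mem_Ioc] at hm
          rw [Finset.mem_Icc] at hk
          have hle : u / m ≤ u / M := Nat.div_le_div_left hm.1.le (by omega)
          have : β k = 0 := by
            by_contra h
            exact hc2 ⟨k, hk.1, hk.2.trans hle, h⟩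
          rw [this]; simp
        rw [this]; simp
      rw [sum_congr rfl h1]; simpa using hRHS0
    have hTpos : 1 ≤ u / M := by
      obtain ⟨k, hk1, hk2, _⟩ := hc2
      exact hk1.trans hk2
    have hMu : M ≤ u := by
      by_contra h
      push Not at h
      rw [Nat.div_eq_of_lt h] at hTpos
      omega
    have hMN : M ≤ N := hMu.trans hu
    have hTN : u / M ≤ N := (Nat.div_le_self u M).trans hu
    have hMT : M * (u / M) ≤ N := (Nat.mul_div_le u M).trans hu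
    have hnum := num_E2 R z0 Y N U M (u / M) hR hU hUM hMT (hM M hUM hMN hc1 hc2)
    have hl1 : 1 + Real.log ((Y * (2 * M) : ℕ) : ℝ) ≤ Lg := by
      refine le_trans ?_ hl
      have h1 : (0:ℝ) < ((Y * (2 * M) : ℕ) : ℝ) := by
        have : 0 < Y * (2 * M) := Nat.mul_pos (by omega) (by omega)
        exact_mod_cast this
      have h2 : ((Y * (2 * M) : ℕ) : ℝ) ≤ 2 * Y * N := by
        have : Y * (2 * M) ≤ 2 * Y * N := by nlinarith
        exact_mod_cast this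
      have := Real.log_le_log h1 h2
      linarith
    have hl2 : 1 + Real.log ((Y * (u / M) : ℕ) : ℝ) ≤ Lg := by
      refine le_trans ?_ hl
      have h1 : (0:ℝ) < ((Y * (u / M) : ℕ) : ℝ) := by
        have : 0 < Y * (u / M) := Nat.mul_pos (by omega) (by omega)
        exact_mod_cast this
      have h2 : ((Y * (u / M) : ℕ) : ℝ) ≤ 2 * Y * N := by
        have : Y * (u / M) ≤ 2 * Y * N := by nlinarith
        exact_mod_cast this
      have := Real.log_le_log h1 h2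
      linarith
    have hbl := type2_block B R z0 hR hz hB Lg hLg Y c hc α β A Bb hA hBb M u hM1 hTpos
      (fun m h1 h2 => hα m (by omega)) (fun k h1 h2 => hβ k h1 (h2.trans hTN)) hl1 hl2 (E2b R z0 Y N U) hnum
    refine hbl.trans ?_
    have hlog : Real.log (u / M : ℕ) ≤ Real.log N :=
      Real.log_le_log (by exact_mod_cast hTpos) (by exact_mod_cast hTN)
    have : 88 * Lg ^ 6 * (2 + Real.log (u / M : ℕ)) ≤ 88 * Lg ^ 6 * (2 + Real.log N) :=
      mul_le_mul_of_nonneg_left (by linarith) (by positivity)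
    refine mul_le_mul_of_nonneg_right ?_ hE0
    refine mul_le_mul_of_nonneg_right ?_ hBb
    exact mul_le_mul_of_nonneg_right this hA
  calc ∑ x ∈ Fam B z0, wt x * (‖Cx x‖ * ‖∑ m ∈ Finset.Icc 1 u, ∑ k ∈ Finset.Icc 1 (u / m), (α m : ℂ) * (β k : ℂ) * ev x (m * k)‖)
      ≤ ∑ x ∈ Fam B z0, ∑ i ∈ range J, wt x * (‖Cx x‖ * ‖∑ m ∈ Finset.Ioc (2 ^ i * U) (2 ^ i * U + 2 ^ i * U),
          ∑ k ∈ Finset.Icc 1 (u / m), (α m : ℂ) * (β k : ℂ) * ev x (m * k)‖) := by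
        refine sum_le_sum fun x _ => ?_
        rw [hsplit x, ← mul_sum, ← mul_sum]
        refine mul_le_mul_of_nonneg_left ?_ (wt_nonneg x)
        refine mul_le_mul_of_nonneg_left ?_ (norm_nonneg _)
        exact norm_sum_le _ _
    _ = ∑ i ∈ range J, ∑ x ∈ Fam B z0, wt x * (‖Cx x‖ * ‖∑ m ∈ Finset.Ioc (2 ^ i * U) (2 ^ i * U + 2 ^ i * U),
          ∑ k ∈ Finset.Icc 1 (u / m), (α m : ℂ) * (β k : ℂ) * ev x (m * k)‖) := sum_comm
    _ ≤ ∑ i ∈ range J, 88 * Lg ^ 6 * (2 + Real.log N) * A * Bb * E2b R z0 Y N U := sum_le_sum hblock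
    _ = J * (88 * Lg ^ 6 * (2 + Real.log N) * A * Bb * E2b R z0 Y N U) := by rw [sum_const, card_range, nsmul_eq_mul]
    _ ≤ (2 * (2 + Real.log N)) * (88 * Lg ^ 6 * (2 + Real.log N) * A * Bb * E2b R z0 Y N U) :=
        mul_le_mul_of_nonneg_right hJr (by positivity)
    _ = _ := by ring

end Pool.Agent.Var73
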